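import Pool.Agent.P.MP_860a31_lc.E.Idx

/-!
The order of signed words and the coding of an extension with a monotone retraction.
-/

open Cardinal hiding univ
open Set Order Function

namespace Pool.Agent.P.MP_860a31_lc.H

/-- finite words of signed letters -/
def Wd (I : Type) : Type := List (Bool × I)

namespace Wd

variable {I I' K : Type}

/-- negative letters, the end mark, positive letters -/
abbrev Key (I : Type) : Type := Iᵒᵈ ⊕ₗ (Unit ⊕ₗ I)

/-- the end mark -/
def mid (I : Type) : Key I := toLex (Sum.inr (toLex (Sum.inl ())))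

/-- the position of a letter -/
def key : Bool × I → Key I
  | (false, x) => toLex (Sum.inl (OrderDual.toDual x))
  | (true, x) => toLex (Sum.inr (toLex (Sum.inr x)))

/-- the first position -/
def hd : List (Bool × I) → Key I
  | [] => mid I
  | a :: _ => key a

/-- the sequence of positions -/
def enc : List (Bool × I) → List (Key I)
  | [] => [mid I]
  | a :: v => key a :: enc v

theorem key_ne (a : Bool × I) : key a ≠ mid I := by
  obtain ⟨_ | _, x⟩ := a <;> simp [key, mid]

theorem key_inj : Injective (key : Bool × I → Key I) := by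
  rintro ⟨_ | _, x⟩ ⟨_ | _, y⟩ h <;> simp_all [key]

theorem enc_inj : Injective (enc : List (Bool × I) → List (Key I))
  | [], [], _ => rfl
  | [], b :: _, h => absurd (List.cons.inj h).1.symm (key_ne b)
  | a :: _, [], h => absurd (List.cons.inj h).1 (key_ne a)
  | _ :: _, _ :: _, h => by rw [key_inj (List.cons.inj h).1, enc_inj (List.cons.inj h).2]

noncomputable instance [LinearOrder I] : LinearOrder (Wd I) := LinearOrder.lift' enc enc_inj

/-- the action on words -/
def mp (f : I → I') (w : Wd I) : Wd I' := List.map (Prod.map id f) w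

/-- one positive letter -/
def one (x : I) : Wd I := [(true, x)]

/-- change of all signs -/
def neg (w : Wd I) : Wd I := List.map (Prod.map not id) w

theorem mp_id (w : Wd I) : mp (fun x => x) w = w := List.map_id w

theorem mp_mp (f : I → I') (g : I' → K) (w : Wd I) : mp g (mp f w) = mp (fun x => g (f x)) w :=
  List.map_map

theorem mp_one (f : I → I') (x : I) : mp f (one x) = one (f x) := rfl

/-- every word has finitely many letters -/
theorem exists_supp (w : Wd I) : ∃ T : Finset I, ∀ (A : Type) (f : A → I),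
    (T : Set I) ⊆ range f → w ∈ range (mp f) := by
  classical
  induction w with
  | nil => exact ⟨∅, fun A f _ => ⟨[], rfl⟩⟩
  | cons a v ih =>
    obtain ⟨T, hT⟩ := ih
    refine ⟨insert a.2 T, fun A f h => ?_⟩
    rw [Finset.coe_insert, insert_subset_iff] at h
    obtain ⟨x, hx⟩ := h.1
    obtain ⟨u, rfl⟩ := hT A f h.2
    exact ⟨(a.1, x) :: u, congrArg (· :: mp f u) (Prod.ext rfl hx)⟩

theorem card_le (I : Type) : #(Wd I) ≤ #I + ℵ₀ := by
  have h : ℵ₀ ≤ #I + ℵ₀ := self_le_add_left _ _
  refine (mk_list_le_max _).trans (max_le h ?_)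
  rw [mk_prod, lift_id, lift_id]
  exact mul_le_of_le h (mk_le_aleph0.trans h) (self_le_add_right _ _)

variable [LinearOrder I] [LinearOrder I'] [LinearOrder K]

/-- the order of words, on lists -/
def Lt (v w : List (Bool × I)) : Prop := enc v < enc w

theorem lt_def {v w : Wd I} : v < w ↔ Lt v w := Iff.rfl

theorem lt_hd {v w : List (Bool × I)} (h : hd v < hd w) : Lt v w := by
  cases v <;> cases w <;> exact List.cons_lt_cons_iff.2 (Or.inl h)

theorem lt_cons (a : Bool × I) {v w : List (Bool × I)} (h : Lt v w) : Lt (a :: v) (a :: w) :=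
  List.cons_lt_cons_iff.2 (Or.inr ⟨rfl, h⟩)

theorem lt_append (p : List (Bool × I)) {v w : List (Bool × I)} (h : Lt v w) :
    Lt (p ++ v) (p ++ w) := by
  induction p with
  | nil => exact h
  | cons a p ih => exact lt_cons a ih

theorem lt_ind {P : List (Bool × I) → List (Bool × I) → Prop} (h1 : ∀ v w, hd v < hd w → P v w)
    (h2 : ∀ a v w, P v w → P (a :: v) (a :: w)) : ∀ v w, Lt v w → P v w
  | [], [], h => absurd h (lt_irrefl _)
  | [], b :: w, h => (List.cons_lt_cons_iff.1 h).elim (h1 [] (b :: w))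
      fun h => absurd h.1.symm (key_ne b)
  | a :: v, [], h => (List.cons_lt_cons_iff.1 h).elim (h1 (a :: v) []) fun h => absurd h.1 (key_ne a)
  | a :: v, b :: w, h => (List.cons_lt_cons_iff.1 h).elim (h1 (a :: v) (b :: w)) fun h => by
    obtain rfl := key_inj h.1
    exact h2 a v w (lt_ind h1 h2 v w h.2)

theorem pos_lt {x y : I} : key (true, x) < key (true, y) ↔ x < y := by simp [key]
theorem neg_lt {x y : I} : key (false, x) < key (false, y) ↔ y < x := by simp [key]
theorem neg_pos (x y : I) : key (false, x) < key (true, y) := by simp [key]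
theorem neg_mid (x : I) : key (false, x) < mid I := by simp [key, mid]
theorem mid_pos (x : I) : mid I < key (true, x) := by simp [key, mid]

/-- the cases of a comparison of first positions -/
theorem hd_cases {P : List (Bool × I) → List (Bool × I) → Prop}
    (h1 : ∀ x v, P ((false, x) :: v) []) (h2 : ∀ y w, P [] ((true, y) :: w))
    (h3 : ∀ x v y w, P ((false, x) :: v) ((true, y) :: w))
    (h4 : ∀ x v y w, x < y → P ((true, x) :: v) ((true, y) :: w))
    (h5 : ∀ x v y w, y < x → P ((false, x) :: v) ((false, y) :: w)) :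
    ∀ v w, hd v < hd w → P v w
  | [], [], h => absurd h (lt_irrefl _)
  | [], (false, y) :: _, h => absurd h (neg_mid y).not_gt
  | [], (true, _) :: _, _ => h2 _ _
  | (false, _) :: _, [], _ => h1 _ _
  | (true, x) :: _, [], h => absurd h (mid_pos x).not_gt
  | (false, _) :: _, (false, _) :: _, h => h5 _ _ _ _ (neg_lt.1 h)
  | (false, _) :: _, (true, _) :: _, _ => h3 _ _ _ _
  | (true, x) :: _, (false, y) :: _, h => absurd h (neg_pos y x).not_gt
  | (true, _) :: _, (true, _) :: _, h => h4 _ _ _ _ (pos_lt.1 h)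

theorem mp_mono {f : I → I'} (hf : StrictMono f) : StrictMono (mp f) := fun v w h =>
  lt_ind (P := fun v w => Lt (mp f v) (mp f w))
    (hd_cases (fun _ _ => lt_hd (neg_mid _)) (fun _ _ => lt_hd (mid_pos _))
      (fun _ _ _ _ => lt_hd (neg_pos _ _)) (fun _ _ _ _ h => lt_hd (pos_lt.2 (hf h)))
      fun _ _ _ _ h => lt_hd (neg_lt.2 (hf h))) (fun _ _ _ h => lt_cons _ h) v w h

theorem one_mono : StrictMono (one : I → Wd I) := fun _ _ h => lt_hd (pos_lt.2 h)

theorem neg_anti {v w : List (Bool × I)} (h : Lt v w) : Lt (neg w) (neg v) :=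
  lt_ind (P := fun v w => Lt (neg w) (neg v))
    (hd_cases (fun _ _ => lt_hd (mid_pos _)) (fun _ _ => lt_hd (neg_mid _))
      (fun _ _ _ _ => lt_hd (neg_pos _ _)) (fun _ _ _ _ h => lt_hd (neg_lt.2 h))
      fun _ _ _ _ h => lt_hd (pos_lt.2 h)) (fun _ _ _ h => lt_cons _ h) v w h

omit [LinearOrder I] in
theorem neg_neg (w : Wd I) : neg (neg w) = w := by
  induction w with
  | nil => rfl
  | cons a v ih => exact congrArg₂ List.cons (Prod.ext (Bool.not_not _) rfl) ih

end Wd

/-- the data of a coding: `i` with retraction `ρ`, and four maps into the new alphabet -/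
structure Code (I I' K : Type) where
  i : I → I'
  ρ : I' → WithTop I
  a : I → K
  k : I' → K
  c2 : I' → K
  c3 : I' → K

namespace Code

open Wd

variable {I I' K I2 I2' K2 : Type} [LinearOrder I] [LinearOrder I'] [LinearOrder K]
  [LinearOrder I2] [LinearOrder I2'] [LinearOrder K2]

/-- the requirements on a coding -/
structure Ok (D : Code I I' K) : Prop where
  ρ_mono : Monotone D.ρ
  ρ_i : ∀ z, D.ρ (D.i z) = z
  a_mono : StrictMono D.a
  k_mono : StrictMono D.k
  c2_anti : StrictAnti D.c2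
  c3_mono : StrictMono D.c3
  ak : ∀ z y, D.a z < D.k y
  k2 : ∀ y y', D.k y < D.c2 y'
  k3 : ∀ y y', D.k y < D.c3 y'

variable (D : Code I I' K)

/-- the second letter -/
def tl (s : Bool) (y : I') (z : I) : List (Bool × K) :=
  if y = D.i z then [] else if D.i z < y then [(s, D.c3 y)] else [(!s, D.c2 y)]

/-- the image of a letter -/
def sub (p : Bool × I') : List (Bool × K) :=
  WithTop.recTopCoe [(p.1, D.k p.2)] (fun z => (p.1, D.a z) :: D.tl p.1 p.2 z) (D.ρ p.2)

/-- the coding map -/
def σ (w : Wd I') : Wd K := List.flatMap D.sub w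

omit [LinearOrder I] [LinearOrder K] in
theorem σ_cons (p : Bool × I') (w : List (Bool × I')) :
    D.σ (p :: w) = List.append (D.sub p) (D.σ w) := rfl

variable {D}

omit [LinearOrder I] [LinearOrder K] in
theorem sub_top {s : Bool} {y : I'} (h : D.ρ y = ⊤) : D.sub (s, y) = [(s, D.k y)] := by
  simp only [sub, h, WithTop.recTopCoe_top]

omit [LinearOrder I] [LinearOrder K] in
theorem sub_coe {s : Bool} {y : I'} {z : I} (h : D.ρ y = z) :
    D.sub (s, y) = (s, D.a z) :: D.tl s y z := by
  simp only [sub, h, WithTop.recTopCoe_coe]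

omit [LinearOrder I] [LinearOrder K] in
theorem sub_hd (s : Bool) (y : I') (r : List (Bool × K)) :
    ∃ x t, D.sub (s, y) ++ r = (s, x) :: t ∧ (x = D.k y ∨ ∃ z, x = D.a z) := by
  cases h : D.ρ y using WithTop.recTopCoe with
  | top => exact ⟨_, _, by rw [sub_top h]; rfl, Or.inl rfl⟩
  | coe z => exact ⟨_, _, by rw [sub_coe h]; rfl, Or.inr ⟨z, rfl⟩⟩

omit [LinearOrder I] [LinearOrder K] in
theorem sub_neg (y : I') : D.sub (false, y) = neg (D.sub (true, y)) := by
  cases h : D.ρ y using WithTop.recTopCoe with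
  | top => rw [sub_top h, sub_top h]; rfl
  | coe z =>
    rw [sub_coe h, sub_coe h, tl, tl]
    split_ifs <;> rfl

/-- words that start between the correction letters -/
def Sm (D : Code I I' K) (r : List (Bool × K)) : Prop :=
  r = [] ∨ ∃ s x t, r = (s, x) :: t ∧ ∀ y, x < D.c2 y ∧ x < D.c3 y

omit [LinearOrder I] [LinearOrder I'] in
theorem Sm.neg {r : List (Bool × K)} (h : D.Sm r) : D.Sm (neg r) := by
  rcases h with rfl | ⟨s, x, t, rfl, h⟩
  · exact Or.inl rfl
  · exact Or.inr ⟨_, x, _, rfl, h⟩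

omit [LinearOrder I] [LinearOrder I'] in
theorem Sm.lo {r : List (Bool × K)} (h : D.Sm r) (y : I') : key (false, D.c2 y) < hd r := by
  rcases h with rfl | ⟨_ | _, x, t, rfl, h⟩
  exacts [neg_mid _, neg_lt.2 (h y).1, neg_pos _ _]

omit [LinearOrder I] [LinearOrder I'] in
theorem Sm.hi {r : List (Bool × K)} (h : D.Sm r) (y : I') : hd r < key (true, D.c3 y) := by
  rcases h with rfl | ⟨_ | _, x, t, rfl, h⟩
  exacts [mid_pos _, neg_pos _ _, pos_lt.2 (h y).2]

theorem Ok.sm (h : D.Ok) (w : List (Bool × I')) : D.Sm (D.σ w) := by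
  rcases w with _ | ⟨⟨s, y⟩, w⟩
  · exact Or.inl rfl
  · obtain ⟨x, t, e, hx⟩ := sub_hd (D := D) s y (D.σ w)
    refine Or.inr ⟨s, x, t, e, fun y' => ?_⟩
    rcases hx with rfl | ⟨z, rfl⟩
    · exact ⟨h.k2 _ _, h.k3 _ _⟩
    · exact ⟨(h.ak z y).trans (h.k2 _ _), (h.ak z y).trans (h.k3 _ _)⟩

theorem Ok.pos (h : D.Ok) {y y' : I'} (hy : y < y') {r r' : List (Bool × K)} (hr : D.Sm r)
    (hr' : D.Sm r') : Lt (D.sub (true, y) ++ r) (D.sub (true, y') ++ r') := by
  have hm := h.ρ_mono hy.le
  cases e' : D.ρ y' using WithTop.recTopCoe with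
  | top =>
    rw [sub_top e']
    cases e : D.ρ y using WithTop.recTopCoe with
    | top => rw [sub_top e]; exact lt_hd (pos_lt.2 (h.k_mono hy))
    | coe z => rw [sub_coe e]; exact lt_hd (pos_lt.2 (h.ak _ _))
  | coe z' =>
    cases e : D.ρ y using WithTop.recTopCoe with
    | top => rw [e, e'] at hm; exact absurd hm (WithTop.not_top_le_coe _)
    | coe z =>
      rw [e, e', WithTop.coe_le_coe] at hm
      rw [sub_coe e, sub_coe e']
      rcases hm.lt_or_eq with hz | rfl
      · exact lt_hd (pos_lt.2 (h.a_mono hz))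
      refine lt_cons _ (lt_hd ?_)
      unfold tl
      rcases lt_trichotomy y (D.i z) with h1 | h1 | h1
      · rw [if_neg h1.ne, if_neg h1.not_gt]
        split_ifs
        exacts [hr'.lo y, neg_pos _ _, neg_lt.2 (h.c2_anti hy)]
      · rw [if_pos h1, if_neg (h1 ▸ hy).ne', if_pos (h1 ▸ hy)]
        exact hr.hi y'
      · rw [if_neg h1.ne', if_pos h1, if_neg (h1.trans hy).ne', if_pos (h1.trans hy)]
        exact pos_lt.2 (h.c3_mono hy)

/-- the coding map is an embedding -/
theorem Ok.σ_mono (h : D.Ok) : StrictMono D.σ := by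
  intro v w hvw
  refine lt_ind (P := fun v w => Lt (D.σ v) (D.σ w)) (hd_cases (fun x v => ?_) (fun y w => ?_)
    (fun x v y w => ?_) (fun x v y w hxy => h.pos hxy (h.sm v) (h.sm w)) fun x v y w hxy => ?_)
    (fun a v w k => lt_append _ k) v w hvw
  · obtain ⟨_, _, e, -⟩ := sub_hd (D := D) false x (D.σ v)
    exact (show D.σ (_ :: v) = _ from e) ▸ lt_hd (neg_mid _)
  · obtain ⟨_, _, e, -⟩ := sub_hd (D := D) true y (D.σ w)
    exact (show D.σ (_ :: w) = _ from e) ▸ lt_hd (mid_pos _)
  · obtain ⟨_, _, e, -⟩ := sub_hd (D := D) false x (D.σ v)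
    obtain ⟨_, _, e', -⟩ := sub_hd (D := D) true y (D.σ w)
    exact (show D.σ (_ :: v) = _ from e) ▸ (show D.σ (_ :: w) = _ from e') ▸ lt_hd (neg_pos _ _)
  · have := neg_anti (h.pos hxy (h.sm w).neg (h.sm v).neg)
    have e : ∀ (y : I') (r : List (Bool × K)),
        neg (List.append (D.sub (true, y)) (neg r)) = D.sub (false, y) ++ r := fun y r => by
      rw [sub_neg]
      exact (List.map_append ..).trans (congrArg (List.append _) (neg_neg r))
    exact (congrArg₂ Lt (e x (D.σ v)) (e y (D.σ w))).mp this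

/-- words in old letters and in letters that are sent to the top -/
theorem Ok.σ_mp (h : D.Ok) {A : Type} {e : A → I'} {e' : A → K}
    (H : ∀ x, (∃ z, e x = D.i z ∧ e' x = D.a z) ∨ (D.ρ (e x) = ⊤ ∧ e' x = D.k (e x)))
    (w : Wd A) : D.σ (mp e w) = mp e' w := by
  induction w with
  | nil => rfl
  | cons p v ih =>
    obtain ⟨s, x⟩ := p
    change List.append (D.sub (s, e x)) (D.σ (mp e v)) = (s, e' x) :: mp e' v
    rw [ih]
    rcases H x with ⟨z, h1, h2⟩ | ⟨h1, h2⟩
    · rw [h1, h2, sub_coe (h.ρ_i z), tl, if_pos rfl]; rfl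
    · rw [h2, sub_top h1]; rfl

omit [LinearOrder I] [LinearOrder K] [LinearOrder I2] [LinearOrder K2] in
/-- naturality of the coding map -/
theorem σ_nat {D2 : Code I2 I2' K2} {f : I → I2} {f' : I' → I2'} {g : K → K2} (hf' : StrictMono f')
    (hi : ∀ z, f' (D.i z) = D2.i (f z)) (hρ : ∀ y, D2.ρ (f' y) = (D.ρ y).map f)
    (ha : ∀ z, g (D.a z) = D2.a (f z)) (hk : ∀ y, g (D.k y) = D2.k (f' y))
    (h2 : ∀ y, g (D.c2 y) = D2.c2 (f' y)) (h3 : ∀ y, g (D.c3 y) = D2.c3 (f' y)) (w : Wd I') :
    mp g (D.σ w) = D2.σ (mp f' w) := by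
  induction w with
  | nil => rfl
  | cons p v ih =>
    obtain ⟨s, y⟩ := p
    refine (List.map_append ..).trans (congrArg₂ List.append ?_ ih)
    change List.map _ (D.sub (s, y)) = D2.sub (s, f' y)
    have := hρ y
    cases e : D.ρ y using WithTop.recTopCoe with
    | top => rw [e] at this; rw [sub_top e, sub_top this, ← hk]; rfl
    | coe z =>
      rw [e] at this
      rw [sub_coe e, sub_coe (z := f z) this, tl, tl, ← hi, ← ha, ← h2, ← h3]
      simp only [hf'.injective.eq_iff, hf'.lt_iff_lt]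
      split_ifs <;> rfl

end Code

end Pool.Agent.P.MP_860a31_lc.H
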