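import Pool.Agent.P.MP_860a31_lc.H.Df
import Pool.Agent.P.MP_860a31_lc.H.Words

/-!
Signed words form a coding.
-/

open Cardinal hiding univ
open Set Order Function

namespace Pool.Agent.P.MP_860a31_lc.H

open LO E Fu

namespace CdExP

/-- words as a natural order -/
@[reducible] noncomputable def wF : NO L1 where
  ob a := ⟨Wd a⟩
  mp f := ⟨Wd.mp f, Wd.mp_mono f.mono⟩
  mp_id _ := Em.ext Wd.mp_id
  mp_comp f g := Em.ext fun w => (Wd.mp_mp f g w).symm
  fin a w := by
    obtain ⟨T, hT⟩ := w.exists_supp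
    obtain ⟨w0, e⟩ := hT _ (val (T : Set a)) (range_val _).ge
    exact ⟨a.sub T, val _, w0, T.finite_toSet.to_subtype, e⟩

/-- the retraction, with values in `WithTop` -/
def up1 {I : LO} (x : I.add one) : WithTop I := cs (fun z => (z : WithTop I)) (fun _ => ⊤) x

theorem up1_mono {I : LO} : Monotone (up1 : I.add one → WithTop I) := fun x y h => by
  induction y using add_ind with
  | r y => exact le_top
  | l y =>
    induction x using add_ind with
    | l x => exact WithTop.coe_le_coe.2 (inl.le_iff.1 h)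
    | r x => simp at h

/-- the coding data -/
def cd {I I' : LO} (i : Em I I') (ρ : I' → I.add one) :
    Code I I' (I.add (I'.add (I'.op.add I'))) :=
  ⟨i, fun y => up1 (ρ y), inl, fun y => inr (inl y), fun y => inr (inr (inl (dn y))),
    fun y => inr (inr (inr y))⟩

theorem cd_ok {I I' : LO} (i : Em I I') (ρ : I' → I.add one) (hm : Monotone ρ)
    (hr : ∀ z, ρ (i z) = inl z) : (cd i ρ).Ok where
  ρ_mono := up1_mono.comp hm
  ρ_i z := congrArg up1 (hr z)
  a_mono := inl.mono
  k_mono _ _ h := by simpa [cd] using h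
  c2_anti _ _ h := by simpa [cd] using h
  c3_mono _ _ h := by simpa [cd] using h
  ak _ _ := inl_lt_inr _ _
  k2 _ _ := by simp [cd]
  k3 _ _ := by simp [cd]

end CdExP

open CdExP

theorem exists_cd : Nonempty Cd := by
  refine ⟨⟨⟨wF, NT.mk' (fun _ => ⟨Wd.one, Wd.one_mono⟩) fun _ _ _ _ => rfl⟩, fun a ha => ?_,
    fun i ρ hm hr => ⟨(cd i ρ).σ, (cd_ok i ρ hm hr).σ_mono⟩, fun i ρ hm hr A e e' H w => ?_,
    fun i ρ hm hr I1 I1' i1 ρ1 hm1 hr1 f f' h1 h2 w => ?_⟩⟩
  · exact (Wd.card_le a).trans (add_le_of_le le_rfl mk_le_aleph0 le_rfl)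
  · refine (cd_ok i ρ hm hr).σ_mp (e := e) (e' := e') (fun x => ?_) w
    rcases H x with h | h
    · exact Or.inl h
    · exact Or.inr ⟨(congrArg up1 h.1 :), h.2⟩
  · refine (Code.σ_nat (D := cd i ρ) (D2 := cd i1 ρ1) (f := f) f'.mono h1 (fun y => ?_)
      (fun _ => rfl) (fun _ => rfl) (fun _ => rfl) (fun _ => rfl) w).symm
    change up1 (ρ1 (f' y)) = (up1 (ρ y)).map f
    rw [h2]
    induction ρ y using add_ind <;> rfl

end Pool.Agent.P.MP_860a31_lc.H
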