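import Pool.Agent.P.MP_860a31_lc.H.Pb
import Pool.Agent.P.MP_860a31_lc.H.CdEx

/-!
Retraction onto the variable and coding by words.
-/

open Cardinal hiding univ
open Set Order Function

namespace Pool.Agent.P.MP_860a31_lc.H

open LO E Fu

/-- a natural order as a functor on unbundled orders -/
def toF1 (Q : NO L1) : F1 where
  ob a := (Q.ob ⟨a⟩).car
  lo _ := LO.lo _
  mp {a b} _ _ f := (Q.mp (Em.of (a := ⟨a⟩) (b := ⟨b⟩) f)).oe
  mp_comp _ _ y := Q.mp_eq (fun _ => rfl) y
  fin a _ y := by
    obtain ⟨n, t, x, e⟩ := Q.fin1 ⟨a⟩ y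
    exact ⟨n, t.oe, x, e⟩

/-- adjoining end points -/
def ends (z : LO) (w : WithBot (WithTop z)) : one.add (z.add one) :=
  WithBot.recBotCoe (inl ()) (fun u => inr (WithTop.recTopCoe (inr ()) (fun x => inl x) u)) w

theorem ends_mono (z : LO) : Monotone (ends z) := by
  intro w w' h
  induction w using WithBot.recBotCoe with
  | bot =>
    induction w' using WithBot.recBotCoe with
    | bot => exact le_rfl
    | coe u' => exact inl_le_inr _ _
  | coe u =>
    induction w' using WithBot.recBotCoe with
    | bot => exact absurd h (WithBot.not_coe_le_bot u)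
    | coe u' =>
      have h' : u ≤ u' := WithBot.coe_le_coe.1 h
      refine (Em.le_iff inr).2 ?_
      induction u using WithTop.recTopCoe with
      | top =>
        obtain rfl : u' = ⊤ := top_le_iff.1 h'
        exact le_rfl
      | coe x =>
        induction u' using WithTop.recTopCoe with
        | top => exact inl_le_inr _ _
        | coe x' => exact (Em.le_iff inl).2 (WithTop.coe_le_coe.1 h')

theorem ends_map {z z' : LO} (f : Em z z') (w : WithBot (WithTop z)) :
    ends z' (WithBot.map (WithTop.map f.oe) w) = amap (rf one) (amap f (rf one)) (ends z w) := by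
  induction w using WithBot.recBotCoe with
  | bot => rfl
  | coe u => induction u using WithTop.recTopCoe <;> rfl

/-- paper RETR -/
theorem retr (s : En L1) : ∃ ρ : ∀ z : LO, s.G.ob z → one.add (z.add one),
    (∀ z, Monotone (ρ z)) ∧ (∀ (z : LO) (x : z), ρ z (s.η.app z x) = inr (inl x)) ∧
      ∀ (z z' : LO) (f : Em z z') y,
        ρ z' (s.G.mp f y) = amap (rf one) (amap f (rf one)) (ρ z y) := by
  obtain ⟨ρ, h1, h2, h3⟩ := F1.exists_retr (J := toF1 s.G) (η := fun a _ => (s.η.app ⟨a⟩).oe)
    fun a b _ _ f x => (NT.nat' (Q := tau) s.η (Em.of (a := ⟨a⟩) (b := ⟨b⟩) f) x).symm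
  exact ⟨fun z y => ends z (ρ z y), fun z => (ends_mono z).comp (h1 z),
    fun z x => congrArg (ends z) (h2 z x),
    fun z z' f y => (congrArg (ends z') (h3 z z' f.oe y)).trans (ends_map f _)⟩

/-- paper CODE -/
theorem code : Nonempty Cd := exists_cd

end Pool.Agent.P.MP_860a31_lc.H
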