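import Pool.Agent.P.MP_860a31_lc.H.Uug
import Pool.Agent.P.MP_860a31_lc.H.Cod

/-!
Absorption with new points on top of the second variable.
-/

open Cardinal hiding univ
open Set Order Function

namespace Pool.Agent.P.MP_860a31_lc.H

open LO E Fu

namespace AbsP

variable {a b c d : LO}

theorem mono_cs {γ : Type} [Preorder γ] {f : a → γ} {g : b → γ} (hf : Monotone f)
    (hg : Monotone g) (h : ∀ x y, f x ≤ g y) : Monotone (cs f g) := fun x y e => by
  induction x using add_ind <;> induction y using add_ind
  · exact hf ((Em.le_iff inl).1 e)
  · exact h _ _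
  · exact absurd e (not_inr_le_inl _ _)
  · exact hg ((Em.le_iff inr).1 e)

/-- the order `1 + p + 1 + q` with a top point -/
abbrev Tg (p q : LO) : LO := (one.add (p.add (one.add q))).add one

/-- collapse onto the first variable -/
def lo (p q X : LO) : one.add ((p.add (q.add X)).add one) → Tg p q :=
  cs (fun _ => inl (inl ())) (cs (cs (fun x => inl (inr (inl x))) fun _ => inl (inr (inr (inl ()))))
    fun _ => inl (inr (inr (inl ()))))

/-- collapse onto the second variable -/
def hi (p q X : LO) : one.add ((p.add (q.add X)).add one) → Tg p q :=
  cs (fun _ => inl (inr (inr (inl ())))) (cs (cs (fun _ => inl (inr (inr (inl ()))))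
    (cs (fun x => inl (inr (inr (inr x)))) fun _ => inr ())) fun _ => inr ())

variable {p q X p' q' X' : LO}

theorem lo_mono : Monotone (lo p q X) :=
  mono_cs monotone_const (mono_cs (mono_cs (fun _ _ h => by simpa using h) monotone_const
    fun _ _ => by simp) monotone_const fun x _ => by induction x using add_ind <;> simp)
    fun _ y => by
      induction y using add_ind with
      | l y => induction y using add_ind <;> simp
      | r y => simp

theorem hi_mono : Monotone (hi p q X) :=
  mono_cs monotone_const (mono_cs (mono_cs monotone_const (mono_cs (fun _ _ h => by simpa using h)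
    monotone_const fun _ _ => by simp) fun _ y => by induction y using add_ind <;> simp)
    monotone_const fun x _ => by
      induction x using add_ind with
      | l x => simp
      | r x => induction x using add_ind <;> simp)
    fun _ y => by
      induction y using add_ind with
      | l y =>
        induction y using add_ind with
        | l y => simp
        | r y => induction y using add_ind <;> simp
      | r y => simp

theorem lo_bd (w) : inl (inl ()) ≤ lo p q X w ∧ lo p q X w ≤ inl (inr (inr (inl ()))) := by
  induction w using add_ind with
  | l w => simp [lo]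
  | r w =>
    induction w using add_ind with
    | l w => induction w using add_ind <;> simp [lo]
    | r w => simp [lo]

theorem hi_bd (w) : inl (inr (inr (inl ()))) ≤ hi p q X w ∧ hi p q X w ≤ inr () := by
  induction w using add_ind with
  | l w => simp [hi]
  | r w =>
    induction w using add_ind with
    | l w =>
      induction w using add_ind with
      | l w => simp [hi]
      | r w => induction w using add_ind <;> simp [hi]
    | r w => simp [hi]

theorem lo_map (f : Em p p') (g : Em q q') (h : Em X X') (w) :
    lo p' q' X' (amap (rf one) (amap (amap f (amap g h)) (rf one)) w) =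
      amap (amap (rf one) (amap f (amap (rf one) g))) (rf one) (lo p q X w) := by
  induction w using add_ind with
  | l w => rfl
  | r w =>
    induction w using add_ind with
    | l w => induction w using add_ind <;> rfl
    | r w => rfl

theorem hi_map (f : Em p p') (g : Em q q') (h : Em X X') (w) :
    hi p' q' X' (amap (rf one) (amap (amap f (amap g h)) (rf one)) w) =
      amap (amap (rf one) (amap f (amap (rf one) g))) (rf one) (hi p q X w) := by
  induction w using add_ind with
  | l w => rfl
  | r w =>
    induction w using add_ind with
    | l w =>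
      induction w using add_ind with
      | l w => rfl
      | r w => induction w using add_ind <;> rfl
    | r w => rfl

/-- the retraction of the enlarged alphabet -/
def rr {V : LO} (Z : LO) (r : V → one.add ((p.add (q.add X)).add one)) :
    one.add (V.add (one.add (V.add Z))) → Tg p q :=
  cs (fun _ => inl (inl ())) (cs (fun y => lo p q X (r y))
    (cs (fun _ => inl (inr (inr (inl ())))) (cs (fun y => hi p q X (r y)) fun _ => inr ())))

theorem rr_mono {V : LO} (Z : LO) {r : V → one.add ((p.add (q.add X)).add one)} (h : Monotone r) :
    Monotone (rr Z r) := by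
  have k : ∀ y, (inl (inr (inr (inl ()))) : Tg p q) ≤
      cs (a := V) (b := Z) (fun y => hi p q X (r y)) (fun _ => inr ()) y := fun y => by
    induction y using add_ind with
    | l y => exact (hi_bd _).1
    | r y => simp
  have k' : ∀ y, (inl (inr (inr (inl ()))) : Tg p q) ≤
      cs (a := one) (b := V.add Z) (fun _ => inl (inr (inr (inl ()))))
        (cs (fun y => hi p q X (r y)) fun _ => inr ()) y := fun y => by
    induction y using add_ind with
    | l y => exact le_rfl
    | r y => exact k y
  refine mono_cs monotone_const (mono_cs (lo_mono.comp h) (mono_cs monotone_const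
    (mono_cs (hi_mono.comp h) monotone_const fun _ _ => (hi_bd _).2) fun _ => k)
    fun _ y => (lo_bd _).2.trans (k' y)) fun _ y => ?_
  induction y using add_ind with
  | l y => exact (lo_bd _).1
  | r y => exact le_trans (by simp) (k' y)

/-- reassociation of the target alphabet -/
def ras (p q Z : LO) : Em ((one.add (p.add (one.add q))).add Z) (one.add (p.add (one.add (q.add Z)))) :=
  asr.trans (amap (rf one) (asr.trans (amap (rf p) asr)))

end AbsP

open AbsP in
/-- paper ABS -/
theorem absb {K : KC} (c : Cd) (Y : LF L1 K.toPC) (hY : Y.Atom) (J : NO L3) (lJ : J.Lev K.k0)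
    (D : LF L3 K.toPC) (lD : D.Lev K.k0) (φ : Mp (((Y.wh c.W.G).wh II).wh (hq J)) D) :
    ∃ (J' : NO L3) (j : NT J J') (ψ : Mp D (((Y.wh c.W.G).wh II).wh (hq J'))), J'.Lev K.k0 ∧
      ∀ (a : L3.Obj) x, ψ a (φ a x) = ((Y.wh c.W.G).wh II).mp
        (a := (hq J).ob a) (b := (hq J').ob a) (rf a.1, amap (rf a.2.1) (j.app a)) x := by
  have h0 : ℵ₀ ≤ K.k0 := K.inf
  obtain ⟨s, ψ, ls, hψ⟩ := uus φ (((hY.wh c.W.G ⟨c.W.η.app, c.W.η.nat⟩).wh II
    (NT.mk' (fun _ => inl.trans inr) fun _ _ _ _ => rfl)).wh (hq J)
      ⟨fun z => (rf z, inl), fun _ => rfl⟩) lD
  obtain ⟨ρ, ρ1, ρ2, ρ3⟩ := retr s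
  let A : NO L3 := (II.wh (hq J)).wh (s.lift L3).G
  let J' : NO L3 := A.add (A.op.add A)
  let i : ∀ a : L3.Obj, Em ((II.wh piq).ob a) (A.ob a) := fun a =>
    amap (rf one) (amap (inl.trans (s.η.app (L3.U a)))
      (amap (rf one) (inl.trans (inr.trans ((s.η.app (L3.U a)).trans inl)))))
  have hr : ∀ (a : L3.Obj) z, rr _ (ρ (L3.U a)) (i a z) = inl z := fun a z => by
    induction z using add_ind with
    | l z => rfl
    | r z =>
      induction z using add_ind with
      | l z => exact congrArg (AbsP.lo _ _ _) (ρ2 (L3.U a) _)
      | r z =>
        induction z using add_ind with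
        | l z => rfl
        | r z => exact congrArg (AbsP.hi _ _ _) (ρ2 (L3.U a) _)
  let σ : NT (c.W.G.wh A) (c.W.G.wh ((II.wh piq).add J')) :=
    NT.mk' (fun a => c.σ (i a) (rr _ (ρ (L3.U a))) (rr_mono _ (ρ1 _)) (hr a)) fun a b f =>
      c.nat _ _ _ _ _ _ _ _ ((II.wh piq).mp f) (A.mp f) (fun z => by
        induction z using add_ind with
        | l z => rfl
        | r z =>
          induction z using add_ind with
          | l z =>
            exact congrArg (fun w => inr (inl w))
              (NT.nat' (Q := tau) s.η (L3.um f) (inl z)).symm
          | r z =>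
            induction z using add_ind with
            | l z => rfl
            | r z =>
              exact congrArg (fun w => inr (inr (inr (inl w))))
                (NT.nat' (Q := tau) s.η (L3.um f) (inr (inl z))).symm) fun y => by
        induction y using add_ind with
        | l y => rfl
        | r y =>
          induction y using add_ind with
          | l y => exact (congrArg (AbsP.lo _ _ _) (ρ3 _ _ (L3.um f) y)).trans (lo_map _ _ _ _)
          | r y =>
            induction y using add_ind with
            | l y => rfl
            | r y =>
              induction y using add_ind with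
              | l y => exact (congrArg (AbsP.hi _ _ _) (ρ3 _ _ (L3.um f) y)).trans (hi_map _ _ _ _)
              | r y => rfl
  let τ : NT ((II.wh piq).add J') (II.wh (hq J')) :=
    NT.mk' (fun a => ras a.1 a.2.1 (J'.ob a)) fun a b f y => by
      induction y using add_ind with
      | l y =>
        induction y using add_ind with
        | l y => rfl
        | r y =>
          induction y using add_ind with
          | l y => rfl
          | r y => induction y using add_ind <;> rfl
      | r y => rfl
  let j : NT J J' := NT.mk' (fun a => (J.mp ((s.lift L3).η.app a)).trans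
      (inr.trans (inr.trans (inr.trans (inr.trans inl))))) fun a b f y =>
    congrArg (fun w => inl (inr (inr (inr (inr w)))))
      ((J.mp_mp _ _ y).trans ((congrArg (fun e => J.mp e y) ((s.lift L3).η.nat f)).trans
        (J.mp_mp _ _ y).symm))
  have l1 : w1.Lev K.k0 := lev_fst h0 _ _
  have l2 : w2.Lev K.k0 := (lev_fst h0 _ _).wh h0 (lev_snd h0 _ _)
  have l0 : (cst L2 one : NO L2).Lev K.k0 := lev_cst _ (card_fin_le h0 one inferInstance)
  have lA : A.Lev K.k0 := ((l0.add h0 ((lev_fst h0 _ _).add h0 (l0.add h0 (lev_snd h0 _ _)))).wh h0
    (l1.pair h0 (l2.add h0 lJ))).wh h0 (lev_lift h0 ls L3)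
  refine ⟨J', j, ψ.trans (Y.nt (σ.trans (NT.ap c.W.G τ))), lA.add h0 (lA.op.add h0 lA),
    fun a x => ?_⟩
  change Y.mp _ (ψ a (φ a x)) = _
  rw [hψ]
  refine Y.mp_eq (fun w => ?_) x
  let e' : Em ((II.wh (hq J)).ob a) (((II.wh piq).add J').ob a) :=
    (amap (rf one) ((amap (rf _) asl).trans asl)).trans (asl.trans (amap (rf _) (j.app a)))
  refine (congrArg (c.W.G.mp (τ.app a)) (c.old (i a) _ _ (hr a)
    ((II.wh (hq J)).mp ((s.lift L3).η.app a)) e' (fun y => ?_) w)).trans
      (c.W.G.mp_eq (fun y => ?_) w)
  · induction y using add_ind with
    | l y => exact Or.inl ⟨inl y, rfl, rfl⟩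
    | r y =>
      induction y using add_ind with
      | l y => exact Or.inl ⟨inr (inl y), rfl, rfl⟩
      | r y =>
        induction y using add_ind with
        | l y => exact Or.inl ⟨inr (inr (inl y)), rfl, rfl⟩
        | r y =>
          induction y using add_ind with
          | l y => exact Or.inl ⟨inr (inr (inr y)), rfl, rfl⟩
          | r y => exact Or.inr ⟨rfl, rfl⟩
  · induction y using add_ind with
    | l y => rfl
    | r y =>
      induction y using add_ind with
      | l y => rfl
      | r y =>
        induction y using add_ind with
        | l y => rfl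
        | r y => induction y using add_ind <;> rfl

end Pool.Agent.P.MP_860a31_lc.H
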