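import Pool.Agent.P.MP_860a31_lc.E.KStm
import Pool.Agent.P.MP_860a31_lc.Morley
import Pool.Agent.P.MP_860a31_lc.EndHom

/-!
One index that lies in the clubs of all small subsets of arbitrarily large sets.
-/

open Cardinal hiding univ
open Set Order Filter

namespace Pool.Agent.P.MP_860a31_lc.H

open E

theorem club_claim {κ : Cardinal.{0}} (hκ : ℵ₀ ≤ κ)
    (C : ∀ θ : Cardinal.{0}, Finset (W θ) → J κ → Prop)
    (hC : ∀ θ < hanf κ, ∀ t, ∀ᶠ d in cf κ, C θ t d) :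
    ∃ d, ∀ k : ℕ, ∀ θ < hanf κ, ∃ θ' < hanf κ, ∃ X : Set (W θ'), θ ≤ #X ∧
      ∀ t : Finset (W θ'), (t : Set (W θ')) ⊆ X → t.card ≤ k → C θ' t d := by
  classical
  by_contra hc
  push Not at hc
  choose k θ hθ H using hc
  obtain ⟨k0, hk0⟩ : ∃ k0, ∃ᶠ d in cf κ, k d = k0 := by
    by_contra hn
    push Not at hn
    obtain ⟨d, hd⟩ := (ev_all (ι := ℕ) (by rwa [mk_nat]) hn).exists
    exact hd _ rfl
  have hJ : #(J κ) ≤ 2 ^ κ := by rw [J.card hκ]; exact succ_le_of_lt (cantor κ)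
  obtain ⟨θ1, h1, h2⟩ := (hanfSpec κ hκ).2.2.2 (J κ) θ hJ hθ
  obtain ⟨θ', h3, h4⟩ := MorleyP.arrow endHom (hanfSpec κ hκ) hJ k0 (max θ1 ℵ₀)
    (max_lt h1 (hκ.trans_lt (lt_hanf hκ)))
  have hc : ∀ t : Finset (W θ'), ∃ d, k d = k0 ∧ ∀ s ∈ t.powerset, C θ' s d := fun t =>
    (hk0.and_eventually ((eventually_all_finset _).2 fun s _ => hC θ' h3 s)).exists
  choose c hc hc' using hc
  obtain ⟨Y, γ, hY, hγ⟩ := h4 (W θ') (W.card' θ' ▸ le_max_left _ _) c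
  have hi : Y.Infinite := infinite_coe_iff.1 (infinite_iff.2 ((le_max_right _ _).trans hY))
  obtain ⟨u, hu, hu'⟩ := hi.exists_subset_card_eq k0
  have hk : k γ = k0 := hγ u hu hu' ▸ hc u
  obtain ⟨t, ht, htk, hn⟩ := H γ θ' h3 Y ((h2 γ).trans ((le_max_left _ _).trans hY))
  obtain ⟨v, hv1, hv2, hv3⟩ := Finset.exists_subsuperset_card_eq (n := k0)
    (Finset.subset_union_left (s₁ := t) (s₂ := u)) (hk ▸ htk)
    (hu' ▸ Finset.card_le_card Finset.subset_union_right)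
  have hv : (v : Set (W θ')) ⊆ Y := fun x hx => by
    rcases Finset.mem_union.1 (hv2 hx) with h | h
    exacts [ht h, hu h]
  exact hn (hγ v hv hv3 ▸ hc' v t (Finset.mem_powerset.2 hv1))

end Pool.Agent.P.MP_860a31_lc.H
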