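import Pool.Agent.P.MP_860a31_lc.H.NatF
import Pool.Agent.P.MP_860a31_lc.E.SubEx

/-!
Extension of functors on the finite orders to natural orders.
-/

open Cardinal hiding univ
open Set Order Function

namespace Pool.Agent.P.MP_860a31_lc.H

open LO E Fu

namespace KanP

/-- nonempty linear orders have directed colimits -/
@[reducible] def lc : CC where
  toPC := SubExP.pc
  colim ι _ _ _ A f hf _ hc := by
    obtain ⟨B, u, h1, h2⟩ := LO.colim ι (fun i => ⟨(A i).car⟩) (fun i j h => ⟨f i j h, hf i j h⟩) hc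
    obtain ⟨i⟩ := ‹Nonempty ι›
    exact ⟨⟨B.car, (A i).ne.map (u i)⟩, fun i => u i, fun i => (u i).mono, h1, h2⟩
  smooth A _ _ u g hu hd hs hg x y hxy := by
    obtain ⟨i, x, rfl⟩ := hs x
    obtain ⟨j, y, rfl⟩ := hs y
    obtain ⟨k, h1, h2⟩ := hd i j
    obtain ⟨x', e⟩ := h1 ⟨x, rfl⟩
    obtain ⟨y', e'⟩ := h2 ⟨y, rfl⟩
    rw [← e, ← e'] at hxy ⊢
    exact hg k ((StrictMono.lt_iff_lt (hu k)).1 hxy)

/-- a family of nonempty orders as a natural order -/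
@[reducible] def toNO (F : LF L1 lc.toPC) : NO L1 where
  ob z := ⟨(F.ob z).car⟩
  mp f := ⟨F.mp f, F.hom f⟩
  mp_id a := Em.ext (F.mp_id a)
  mp_comp f g := Em.ext fun x => (F.mp_comp f g x).symm
  fin := F.fin

end KanP

open KanP in
/-- a functor on the finite orders extends to a natural order -/
theorem kan (σ : ℕ → LO) (mp : ∀ m n, Em (LO.fin m) (LO.fin n) → Em (σ m) (σ n))
    (mp_id : ∀ n y, mp n n (rf _) y = y)
    (mp_comp : ∀ m n k a b y, mp n k b (mp m n a y) = mp m k (a.trans b) y) :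
    ∃ (Q : NO L1) (e : ∀ n (z : LO), Em (LO.fin n) z → Em (σ n) (Q.ob z)),
      (∀ n z z' (f : Em z z') t y, Q.mp f (e n z t y) = e n z' (t.trans f) y) ∧
      (∀ m n z a t y, e n z t (mp m n a y) = e m z (a.trans t) y) ∧
      ∀ z y, ∃ n t y0, e n z t y0 = y := by
  let P : Fam lc.toPC :=
    { ob := fun n => ⟨((σ n).add one).car, ⟨inr ()⟩⟩
      mp := fun a => amap (mp _ _ (Em.of a)) (rf one)
      hom := fun a => (amap (mp _ _ (Em.of a)) (rf one)).mono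
      mp_id := fun n x => by
        induction x using add_ind with
        | l x => exact congrArg inl (mp_id n x)
        | r x => rfl
      mp_comp := fun a b x => by
        induction x using add_ind with
        | l x => exact congrArg inl (mp_comp _ _ _ _ _ x)
        | r x => rfl }
  let Q := toNO (LF.ofFam P)
  let p : ∀ z, Set (Q.ob z) := fun z => {y | ∃ (n : ℕ) (t : Em (LO.fin n) z) (y0 : σ n),
    P.evi t.oe (inl y0 : (σ n).add one) = y}
  have hn : ∀ a b (f : L1.Hom a b) y, y ∈ p a → Q.mp f y ∈ p b := by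
    rintro a b f _ ⟨n, t, y0, rfl⟩
    exact ⟨n, t.trans f, y0, (LF.ofFam_evi P f t _).symm⟩
  have hf : ∀ a y, y ∈ p a → ∃ (a0 : L1.Obj) (h : L1.Hom a0 a) (y0 : Q.ob a0),
      Finite (L1.U a0) ∧ y0 ∈ p a0 ∧ Q.mp h y0 = y := by
    rintro a _ ⟨n, t, y0, rfl⟩
    exact ⟨LO.fin n, t, _, inferInstance, ⟨n, rf _, y0, rfl⟩, LF.ofFam_evi P t (rf _) _⟩
  refine ⟨Q.sub p hn hf, fun n z t => ⟨fun y => ⟨P.evi t.oe (inl y : (σ n).add one), n, t, y, rfl⟩,
    fun _ _ h => Fam.evi_h (P := P) t.oe (inl.mono h)⟩,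
    fun n z z' f t y => Subtype.ext (LF.ofFam_evi P f t _),
    fun m n z a t y => Subtype.ext (Fam.evi_mp (P := P) a.oe t.oe (inl y : (σ m).add one)), ?_⟩
  rintro z ⟨_, n, t, y0, rfl⟩
  exact ⟨n, t, y0, rfl⟩

/-- the level of a natural order covered by small orders -/
theorem lev_of_cover {Q : NO L1} {σ : ℕ → LO} (e : ∀ n (z : LO), Em (LO.fin n) z → Em (σ n) (Q.ob z))
    (h : ∀ z y, ∃ n t y0, e n z t y0 = y) {κ : Cardinal.{0}} (hκ : ℵ₀ ≤ κ) (hs : ∀ n, #(σ n) ≤ κ) :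
    Q.Lev κ := fun z _ =>
  card_cover (ι := Σ n, Em (LO.fin n) z) (fun p => e p.1 z p.2)
    (fun y => by obtain ⟨n, t, x, h⟩ := h z y; exact ⟨⟨n, t⟩, x, h⟩) hκ
    ((card_em z).trans (add_le_of_le hκ (mk_le_aleph0.trans hκ) hκ)) fun p => hs p.1

/-- a natural family of embeddings out of the values extends to the natural order -/
theorem kan_lift {Q R : NO L1} {σ : ℕ → LO} {mp : ∀ m n, Em (LO.fin m) (LO.fin n) → Em (σ m) (σ n)}
    {e : ∀ n (z : LO), Em (LO.fin n) z → Em (σ n) (Q.ob z)}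
    (h1 : ∀ n z z' (f : Em z z') t y, Q.mp f (e n z t y) = e n z' (t.trans f) y)
    (h2 : ∀ m n z a t y, e n z t (mp m n a y) = e m z (a.trans t) y)
    (h3 : ∀ z y, ∃ n t y0, e n z t y0 = y) (g : ∀ n, Em (σ n) (R.ob (LO.fin n)))
    (hg : ∀ m n a y, g n (mp m n a y) = R.mp a (g m y)) :
    ∃ k : NT Q R, ∀ n z t y, k.app z (e n z t y) = R.mp t (g n y) := by
  choose n t y0 h using h3
  have key : ∀ z m (s : Em (LO.fin m) z) x m' (s' : Em (LO.fin m') z) x',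
      (e m z s x < e m' z s' x' ↔ R.mp s (g m x) < R.mp s' (g m' x')) ∧
      (e m z s x = e m' z s' x' ↔ R.mp s (g m x) = R.mp s' (g m' x')) := by
    intro z m s x m' s' x'
    obtain ⟨k, r, a, a', rfl, rfl⟩ := Em.ref s s'
    rw [← h2, ← h2, ← L1_comp, ← L1_comp, ← R.mp_mp, ← R.mp_mp, ← hg, ← hg]
    simp
  have k0 : ∀ z m (s : Em (LO.fin m) z) x,
      R.mp (t z (e m z s x)) (g _ (y0 z (e m z s x))) = R.mp s (g m x) :=
    fun z m s x => (key z _ _ _ _ _ _).2.1 (h z _)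
  refine ⟨NT.mk' (fun z => ⟨fun y => R.mp (t z y) (g _ (y0 z y)), fun y y' hy =>
    (key z _ _ _ _ _ _).1.1 (by rwa [h, h])⟩) fun a b f y => ?_, fun n z t y => k0 z n t y⟩
  change R.mp (t b (Q.mp f y)) (g _ (y0 b (Q.mp f y))) = R.mp f (R.mp (t a y) (g _ (y0 a y)))
  rw [R.mp_mp]
  conv_lhs => rw [← h a y, h1]
  exact k0 _ _ _ _

/-- a substitution on the finite orders extends to all orders -/
theorem sub_en (s : Sub) : ∃ (S : En L1)
    (e : ∀ n (z : LO), Em (LO.fin n) z → Em ⟨s.σ n⟩ (S.G.ob z)),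
      (∀ n z z' (f : Em z z') t y, S.G.mp f (e n z t y) = e n z' (t.trans f) y) ∧
      (∀ m n z (a : Em (LO.fin m) (LO.fin n)) t y, e n z t (s.mp a.oe y) = e m z (a.trans t) y) ∧
      (∀ z y, ∃ n t y0, e n z t y0 = y) ∧
      ∀ n z t i, e n z t (s.η n i) = S.η.app z (t i) := by
  obtain ⟨Q, e, h1, h2, h3⟩ := kan (fun n => ⟨s.σ n⟩) (fun _ _ a => Em.of (s.mp a.oe))
    (fun n y => s.mp_id n y) fun _ _ _ a b y => s.mp_comp a.oe b.oe y
  obtain ⟨k, hk⟩ := kan_lift (Q := tau) (R := Q) (σ := LO.fin) (mp := fun _ _ a => a)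
    (e := fun _ _ t => t) (fun _ _ _ _ _ _ => rfl) (fun _ _ _ _ _ _ => rfl)
    (fun z y => ⟨1, Em.of (Fam.pt1 y), (0 : Fin 1), rfl⟩)
    (fun n => (Em.of (a := LO.fin n) (b := ⟨s.σ n⟩) (s.η n)).trans (e n _ (rf _)))
    fun m n a y => by
      change e n _ (rf _) (s.η n (a.oe y)) = Q.mp a (e m _ (rf _) (s.η m y))
      rw [h1, ← s.nat]
      exact h2 m n _ a (rf _) _
  exact ⟨⟨Q, k⟩, e, h1, h2, h3, fun n z t i => ((hk n z t i).trans (h1 _ _ _ _ _ _)).symm⟩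

end Pool.Agent.P.MP_860a31_lc.H
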