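import Pool.Agent.P.MP_860a31_lc.H.Nt
import Pool.Agent.P.MP_860a31_lc.H.Kan
import Pool.Agent.P.MP_860a31_lc.E.UU

/-!
Small extensions of a family embed into a substitution instance.
-/

open Cardinal hiding univ
open Set Order Function

namespace Pool.Agent.P.MP_860a31_lc.H

open LO E Fu

/-- the one-variable case -/
theorem uus1 {K : KC} {N D : LF L1 K.toPC} (φ : Mp N D) (hN : N.Atom) (lD : D.Lev K.k0) :
    ∃ (s : En L1) (ψ : Mp D (N.wh s.G)), s.G.Lev K.k0 ∧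
      ∀ a x, ψ a (φ a x) = N.mp (s.η.app a) x := by
  obtain ⟨x0, hx0⟩ := hN
  let e1 : Em one (LO.fin 1) := pt (a := LO.fin 1) (0 : Fin 1)
  have hat : N.fam.Atom (N.mp e1 x0) := fun k a b h => by
    have h1 : ∀ c : Fin 1 ↪o Fin k, N.fam.mp c (N.mp e1 x0) =
        N.mp (pt (a := LO.fin k) (c 0)) x0 := fun c => N.mp_eq (fun _ => rfl) x0
    rw [h1, h1] at h
    have h2 : a 0 = b 0 := hx0 (LO.fin k) _ _ h
    ext i
    rw [Subsingleton.elim i 0, h2]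
  obtain ⟨s, hs, ψ, hψ, hφ⟩ := uu (subEx (unif famMorley)) K K.k0 le_rfl (satK K) N.fam D.fam
    (fun n => φ (LO.fin n)) _ hat ⟨fun n => φ.hom _, fun a x => φ.nat _ x⟩
    fun n => lD _ inferInstance
  obtain ⟨S, e, h1, h2, h3, h4⟩ := sub_en s
  choose k k1 k2 using fun z : LO => LF.from_ev (C := K.toCC) N z
  have k3 : ∀ (z z' : LO) (f : z.car ↪o z'.car) y,
      k z' (N.fam.evmap f y) = N.mp (Em.of f) (k z y) := fun z z' f y => by
    obtain ⟨n, t, x, rfl⟩ := Fam.evi_surj (C := K.toCC) y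
    rw [Fam.evmap_evi (C := K.toCC), k2, k2]
    exact (N.mp_eq (fun _ => rfl) x).symm
  choose g g1 g2 using fun z : LO => LF.lift1 (C := K.toCC) D z
    (fun n t x => N.mp (e n z t) (k ⟨s.σ n⟩ (ψ n x)))
    (fun n t => K.comp (K.comp (hψ.hom n) (k1 _)) (N.hom _)) fun m n a t x => by
      have := hψ.nat a.oe x
      change ψ n (D.mp a x) = N.fam.evmap (s.mp a.oe) (ψ m x) at this
      rw [this, k3 ⟨s.σ m⟩ ⟨s.σ n⟩]
      exact N.mp_eq (fun y => h2 m n z a t y) _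
  refine ⟨S, ⟨g, g1, fun {a b} f y => ?_⟩, lev_of_cover e h3 K.inf hs, fun a y => ?_⟩
  · obtain ⟨n, t, x, rfl⟩ := D.fin1 a y
    rw [D.mp_comp, g2, g2]
    exact (N.mp_eq (fun y => h1 n a b f t y) _).symm
  · obtain ⟨n, t, x, rfl⟩ := N.fin1 a y
    change g a (φ a (N.mp t x)) = _
    rw [φ.nat, g2, hφ, k2 ⟨s.σ n⟩]
    exact N.mp_sq (fun i => h4 n a t i) x

/-- paper UUs -/
theorem uus' {K : KC} {T : Ct} {N D : LF T K.toPC} (φ : Mp N D) (hN : N.Atom) (lD : D.Lev K.k0) :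
    ∃ (s : En L1) (ψ : Mp D (N.wh (s.lift T).G)), s.G.Lev K.k0 ∧
      ∀ a x, ψ a (φ a x) = N.mp ((s.lift T).η.app a) x := by
  obtain ⟨s, ψ, h1, h2⟩ := uus1 (φ.wh (xiF T)) hN lD.xi
  let η : NT (idF T) ((xiF T).wh (uF T)) := ⟨T.eta, T.eta_nat⟩
  refine ⟨s, (D.un η).trans (ψ.wh (uF T)), h1, fun a x => ?_⟩
  change ψ (T.U a) (D.mp (T.eta a) (φ a x)) = _
  rw [← φ.nat]
  exact (h2 _ _).trans (N.mp_comp _ _ x)

end Pool.Agent.P.MP_860a31_lc.H
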