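import Pool.Agent.P.MP_860a31_lc.H.Uug1
import Pool.Agent.P.MP_860a31_lc.H.Uus
import Pool.Agent.P.MP_860a31_lc.E.SubEx

/-!
Uniformisation of embeddings into values of a family.
-/

open Cardinal hiding univ
open Set Order Function

namespace Pool.Agent.P.MP_860a31_lc.H

open LO E Fu

/-- paper UUG -/
theorem uug {C : CC} {κ : Cardinal.{0}} (hκ : ℵ₀ ≤ κ) (Y : LF L1 C.toPC) (lY : Y.Lev κ)
    (M : NO L1) (lM : M.Lev κ) (D : LF L1 C.toPC) (lD : D.Lev κ) (φ : Mp (Y.wh M) D)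
    (ι : Type 1) (X Λ : ι → LO) (w : ∀ d, Em (M.ob (X d)) (Λ d))
    (F : ∀ d, C.U (D.ob (X d)) → C.U (Y.ob (Λ d))) (hF : ∀ d, C.IsH (F d))
    (hw : ∀ d x, F d (φ (X d) x) = Y.mp (w d) x) (Mk : ∀ d, Set (Λ d))
    (hX : ∀ θ < hanf κ, ∃ d, θ ≤ #(X d)) :
    ∃ (A A0 : NO L1) (v : NT A0 A) (ω : NT M A) (Φ : Mp D (Y.wh A)), A.Lev κ ∧
      (∀ a x, Φ a (φ a x) = Y.mp (ω.app a) x) ∧
      (∀ n y, (∀ d (t : Em (LO.fin n) (X d)), w d (M.mp t y) ∈ Mk d) →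
        ω.app (LO.fin n) y ∈ range (v.app (LO.fin n))) ∧
      (∀ n y, ω.app (LO.fin n) y ∈ range (v.app (LO.fin n)) →
        ∃ (d : ι) (t : Em (LO.fin n) (X d)), w d (M.mp t y) ∈ Mk d) ∧
      ∀ n x, (∀ d (t : Em (LO.fin n) (X d)), F d (D.mp t x) ∈ range (Y.mp (val (Mk d)))) →
        Φ (LO.fin n) x ∈ range (Y.mp (v.app (LO.fin n))) :=
  uug1 hκ Y lY M lM D lD φ ι X Λ w F hF hw Mk hX

/-- paper UUs -/
theorem uus {K : KC} {T : Ct} {N D : LF T K.toPC} (φ : Mp N D) (hN : N.Atom) (lD : D.Lev K.k0) :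
    ∃ (s : En L1) (ψ : Mp D (N.wh (s.lift T).G)), s.G.Lev K.k0 ∧
      ∀ a x, ψ a (φ a x) = N.mp ((s.lift T).η.app a) x := uus' φ hN lD

theorem uu0 {K : KC} (S : PS K) : UU S K.k0 := uu01 S

end Pool.Agent.P.MP_860a31_lc.H
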