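import Pool.Agent.P.MP_860a31_lc.H.Uus
import Pool.Agent.P.MP_860a31_lc.H.Uug

/-!
Symmetry and well-definedness at the bottom level.
-/

open Cardinal hiding univ
open Set Order Function

namespace Pool.Agent.P.MP_860a31_lc.H

open LO E Fu

namespace WdP

/-- unions of chains of contexts -/
theorem colimC {T : Ct} (ι : Type) [LinearOrder ι] (A : ι → T.Obj)
    (t : ∀ i j, i ≤ j → T.Hom (A i) (A j))
    (tc : ∀ i j k (hij : i ≤ j) (hjk : j ≤ k),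
      T.comp (t i j hij) (t j k hjk) = t i k (hij.trans hjk)) :
    ∃ (B : T.Obj) (u : ∀ i, T.Hom (A i) B), (∀ i j h, T.comp (t i j h) (u j) = u i) ∧
      ∀ y, ∃ i x, T.um (u i) x = y := by
  obtain ⟨B, u, h⟩ := T.colim ι A t tc
  obtain ⟨B', k, hk⟩ := T.sub B (⋃ i, range (T.um (u i)))
  choose u' hu using fun i => T.fac (u i) k (hk ▸ subset_iUnion (fun i => range (T.um (u i))) i)
  refine ⟨B', u', fun i j e => Ct.cancel k (by rw [Ct.assoc, hu, hu, h]), fun y => ?_⟩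
  obtain ⟨i, x, hx⟩ := mem_iUnion.1 (hk.le ⟨y, rfl⟩)
  exact ⟨i, x, (T.um k).inj (by rw [← T.um_comp, hu, hx])⟩

/-- a long chain of contexts closed under an endofunctor -/
theorem chainC {T : Ct} (G : Fu T T) (η : ∀ a, T.Hom a (G.ob a)) (a : T.Obj) (θ : Cardinal.{0}) :
    ∃ (Y : W θ → T.Obj) (t : ∀ i j, i ≤ j → T.Hom (Y i) (Y j)) (n : ∀ i, T.Hom a (Y i))
      (m : ∀ i, T.Hom (G.ob (Y i)) (Y (succ i))) (B : T.Obj) (u : ∀ i, T.Hom (Y i) B),
      (∀ i j h, T.comp (n i) (t i j h) = n j) ∧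
      (∀ i j k (hij : i ≤ j) (hjk : j ≤ k),
        T.comp (t i j hij) (t j k hjk) = t i k (hij.trans hjk)) ∧
      (∀ i, T.comp (η _) (m i) = t i _ (le_succ i)) ∧ ∀ i j h, T.comp (t i j h) (u j) = u i := by
  obtain ⟨Y, t, h0, -, ht, -, tc, hst, -⟩ := gchain1 (Λ := W θ) (St := T.Obj) (ι := PUnit.{2})
    (fun S _ => T.U S) (fun S S' w => ∃ h : T.Hom S S', ∀ x, T.um h x = w ⟨⟩ x)
    (fun S => ⟨T.id S, T.um_id S⟩)
    (fun _ _ _ _ _ ⟨f, hf⟩ ⟨g, hg⟩ => ⟨T.comp f g, fun x => by rw [T.um_comp, hf, hg]⟩)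
    (fun _ _ => True)
    (fun _ S S' w => ∃ m : T.Hom (G.ob S) S', ∀ y, T.um m (T.um (η S) y) = w ⟨⟩ y) a trivial
    (fun _ S _ => ⟨G.ob S, fun _ y => T.um (η S) y, ⟨η S, fun _ => rfl⟩, trivial, T.id _,
      fun _ => T.um_id _ _⟩)
    (fun δ _ c _ _ => by
      choose s hs using c.hom
      obtain ⟨B, u, h1, h2⟩ := colimC (Iio δ) c.F s fun i j k hij hjk => T.ext _ _ fun x => by
        rw [T.um_comp, hs, hs, hs, c.t_comp]
      exact ⟨B, fun i _ => T.um (u i), trivial, fun i => ⟨u i, fun _ => rfl⟩,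
        fun i j h _ x => by
          dsimp only
          rw [← hs, ← T.um_comp, h1], fun _ => h2⟩)
  subst h0
  choose s hs using ht
  choose m hm using hst
  have sc : ∀ i j k (hij : i ≤ j) (hjk : j ≤ k),
      T.comp (s i j hij) (s j k hjk) = s i k (hij.trans hjk) := fun i j k hij hjk =>
    T.ext _ _ fun x => by rw [T.um_comp, hs, hs, hs, tc]
  obtain ⟨B, u, hu⟩ := T.colim (W θ) Y s sc
  exact ⟨Y, s, fun i => s ⊥ i bot_le, m, B, u, fun i j h => sc _ _ _ _ _, sc,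
    fun i => T.ext _ _ fun x => by rw [T.um_comp, hm, hs], hu⟩

/-- long sequences of contexts ordered by two endofunctors -/
theorem longC {T : Ct} (f g : En T) (a : T.Obj) (θ : Cardinal.{0}) :
    ∃ (B : T.Obj) (p : W θ → T.Hom (f.G.ob a) B) (q : W θ → T.Hom (g.G.ob a) B),
      (∀ i j, i < j → ∃ k : T.Hom (g.G.ob (f.G.ob a)) B,
        T.comp (g.η.app (f.G.ob a)) k = p i ∧ T.comp (g.G.mp (f.η.app a)) k = q j) ∧
      ∀ i j, j ≤ i → ∃ k : T.Hom (f.G.ob (g.G.ob a)) B,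
        T.comp (f.G.mp (g.η.app a)) k = p i ∧ T.comp (f.η.app (g.G.ob a)) k = q j := by
  obtain ⟨Y, t, n, m, B, u, h1, h2, h3, h4⟩ := chainC (f.G.wh g.G)
    (fun b => T.comp (g.η.app b) (f.η.app (g.G.ob b))) a θ
  have nf : ∀ {b c d : T.Obj} (e : T.Hom b c) (k : T.Hom (f.G.ob c) d),
      T.comp (f.η.app b) (T.comp (f.G.mp e) k) = T.comp e (T.comp (f.η.app c) k) :=
    fun e k => by rw [← Ct.assoc, ← Ct.assoc]; exact congrArg (T.comp · k) (f.η.nat e).symm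
  have ng : ∀ {b c d : T.Obj} (e : T.Hom b c) (k : T.Hom (g.G.ob c) d),
      T.comp (g.η.app b) (T.comp (g.G.mp e) k) = T.comp e (T.comp (g.η.app c) k) :=
    fun e k => by rw [← Ct.assoc, ← Ct.assoc]; exact congrArg (T.comp · k) (g.η.nat e).symm
  have hm : ∀ i {d : T.Obj} (k : T.Hom (Y (succ i)) d), T.comp (g.η.app (Y i))
      (T.comp (f.η.app _) (T.comp (m i) k)) = T.comp (t i _ (le_succ i)) k := fun i d k => by
    rw [← h3, Ct.assoc, Ct.assoc]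
  let P : ∀ i, T.Hom (f.G.ob a) (Y (succ i)) := fun i =>
    T.comp (f.G.mp (T.comp (n i) (g.η.app _))) (m i)
  let Q : ∀ j, T.Hom (g.G.ob a) (Y (succ j)) := fun j =>
    T.comp (g.G.mp (n j)) (T.comp (f.η.app _) (m j))
  have hP : ∀ i {d : T.Obj} (k : T.Hom (Y (succ i)) d),
      T.comp (f.η.app a) (T.comp (P i) k) = T.comp (n _) k := fun i d k => by
    rw [Ct.assoc, nf, Ct.assoc, hm, ← Ct.assoc, h1]
  have hQ : ∀ i {d : T.Obj} (k : T.Hom (Y (succ i)) d),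
      T.comp (g.η.app a) (T.comp (Q i) k) = T.comp (n _) k := fun i d k => by
    rw [Ct.assoc, ng, Ct.assoc, hm, ← Ct.assoc, h1]
  refine ⟨B, fun i => T.comp (P i) (u _), fun j => T.comp (Q j) (u _), fun i j hij => ?_,
    fun i j hji => ?_⟩
  · have hs : succ i ≤ j := succ_le_of_lt hij
    refine ⟨T.comp (g.G.mp (T.comp (P i) (t _ _ hs)))
      (T.comp (f.η.app _) (T.comp (m j) (u _))), ?_, ?_⟩
    · rw [ng, hm, h4, Ct.assoc, h4]
    · rw [← Ct.assoc, ← g.G.mp_comp, hP, h1]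
      simp only [Q, Ct.assoc]
  · rcases hji.eq_or_lt with rfl | hji
    · refine ⟨T.comp (f.G.mp (g.G.mp (n j))) (T.comp (m j) (u _)), ?_, ?_⟩
      · rw [← Ct.assoc, ← f.G.mp_comp, ← g.η.nat]
        simp only [P, Ct.assoc]
      · rw [nf]
        simp only [Q, Ct.assoc]
    · have hs : succ j ≤ i := succ_le_of_lt hji
      refine ⟨T.comp (f.G.mp (T.comp (Q j) (T.comp (t _ _ hs) (g.η.app _))))
        (T.comp (m i) (u _)), ?_, ?_⟩
      · rw [← Ct.assoc, ← f.G.mp_comp, hQ, ← Ct.assoc (n _), h1]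
        simp only [P, Ct.assoc]
      · rw [nf, Ct.assoc (Q j), Ct.assoc (t _ _ hs), hm, h4, h4]

end WdP

/-- paper SYMk -/
theorem symk {K : KC} {T : Ct} (N : LF T K.toPC) (lN : N.Lev K.k0) (f g : En T)
    (lf : f.G.Lev K.k0) (lg : g.G.Lev K.k0) :
    El ((N.wh f.G).wh g.G) ((N.wh g.G).wh f.G)
      (RO (GR ((N.wh f.G).un g.η) ((N.un g.η).wh f.G))
        (GR ((N.un f.η).wh g.G) ((N.wh g.G).un f.η))) := by
  have l1 := lN.wh K.inf lf
  have l2 := lN.wh K.inf lg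
  obtain ⟨Z, p, q, -, h⟩ := El.nat K.code le_rfl (l1.wh K.inf lg) (l2.wh K.inf lf)
    ((Gd.gr ((N.wh f.G).un g.η) ((N.un g.η).wh f.G)).or
      (Gd.gr ((N.un f.η).wh g.G) ((N.wh g.G).un f.η))) fun θ hθ => by
      obtain ⟨c1, c2⟩ := card_W_lt K.inf hθ
      refine ⟨LO.wo θ, c1, ?_⟩
      have hi : ℵ₀ ≤ #(W θ) + K.k0 := K.inf.trans (self_le_add_left _ _)
      have hc : ∀ {X : LF T K.toPC}, X.Lev K.k0 →
          #(K.U (X.ob (T.Xi (LO.wo θ)))) ≤ #(W θ) + K.k0 := fun {X} hX =>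
        (X.wh (xiF T)).card_le1 hi (hX.xi.mono (self_le_add_left _ _)) _ (self_le_add_right _ _)
      refine (noOPK K _ (self_le_add_left _ _) ((pow_lt_hanf' K.inf c2).trans_le K.hl) _ _ _ _
        (N.mp (f.η.app (g.G.ob (T.Xi (LO.wo θ))))) (N.mp (f.G.mp (g.η.app _)))
        (N.mp (g.G.mp (f.η.app _))) (N.mp (g.η.app (f.G.ob (T.Xi (LO.wo θ)))))
        (hc l2) (hc l1) fun χ _ => ?_).mono fun _ _ r => r.symm
      obtain ⟨B, p, q, h1, h2⟩ := WdP.longC g f (T.Xi (LO.wo θ)) χ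
      refine ⟨W χ, inferInstance, N.ob B, fun i => N.mp (p i), fun j => N.mp (q j),
        by rw [W.card']; exact le_max_left _ _, fun i j hij => ?_, fun i j hji => ?_⟩
      · obtain ⟨k, k1, k2⟩ := h1 i j hij
        refine PC.El.of_hom' (N.hom k) ?_
        rintro _ _ (⟨x, rfl, rfl⟩ | ⟨x, rfl, rfl⟩)
        · rw [N.mp_comp, k1]
        · rw [N.mp_comp, k2]
      · obtain ⟨k, k1, k2⟩ := h2 i j hji
        refine PC.El.of_hom' (N.hom k) ?_
        rintro _ _ (⟨x, rfl, rfl⟩ | ⟨x, rfl, rfl⟩)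
        · rw [N.mp_comp, k1]
        · rw [N.mp_comp, k2]
  exact ⟨Z, p, q, h⟩

/-- paper WD -/
theorem wd {K : KC} {T : Ct} {N N' : LF T K.toPC} (φ : Mp N N') (hN : N.Atom) (lN : N'.Lev K.k0)
    (g h : En T) (lg : g.G.Lev K.k0) (lh : h.G.Lev K.k0) (β : Mp (N.wh g.G) (N.wh h.G))
    (hβ : ∀ a x, β a (N.mp (g.η.app a) x) = N.mp (h.η.app a) x) :
    El (N'.wh g.G) (N'.wh h.G)
      (RO (GR (φ.wh g.G) (β.trans (φ.wh h.G))) (GR (N'.un g.η) (N'.un h.η))) := by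
  obtain ⟨s, ψ, ls, hψ⟩ := uus' φ hN lN
  have lv := lev_lift K.inf ls T
  have e1 := symk N (φ.lev lN) (s.lift T) g lv lg
  have e2 := (symk N (φ.lev lN) h (s.lift T) lh lv).pull_left (β.wh (s.lift T).G) fun _ _ _ r => r
  refine (e1.trans e2 fun _ _ _ r => r).pull (ψ.wh g.G) (ψ.wh h.G) ?_
  rintro a _ _ (⟨x, rfl, rfl⟩ | ⟨x, rfl, rfl⟩)
  · exact ⟨_, Or.inr ⟨x, (hψ _ x).symm, rfl⟩,
      Or.inl ⟨β a x, (β.nat _ x).symm, (hψ _ _).symm⟩⟩
  · exact ⟨_, Or.inl ⟨ψ a x, (ψ.nat _ x).symm, rfl⟩,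
      Or.inr ⟨ψ a x, (hβ _ _).symm, (ψ.nat _ x).symm⟩⟩

end Pool.Agent.P.MP_860a31_lc.H
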