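import Pool.Agent.P.MP_860a31_lc.H.Abs
import Pool.Agent.P.MP_860a31_lc.H.Wd

/-!
The move for the union of a chain of coded families.
-/

open Cardinal hiding univ
open Set Order Function

namespace Pool.Agent.P.MP_860a31_lc.H

open LO E Fu

namespace CmP

section Seq

variable {T : Ct}

/-- transition maps of a sequence of natural orders -/
noncomputable def trN {A : ℕ → NO T} (s : ∀ n, NT (A n) (A (n + 1))) {n m : ℕ} (h : n ≤ m) :
    NT (A n) (A m) :=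
  Nat.leRec (motive := fun m _ => NT (A n) (A m)) (NT.rfl' _) (fun m _ e => e.trans (s m)) h

theorem trN_self {A : ℕ → NO T} (s : ∀ n, NT (A n) (A (n + 1))) (n : ℕ) (a : T.Obj)
    (x : (A n).ob a) : (trN s (le_refl n)).app a x = x := by
  unfold trN; rw [Nat.leRec_self]; rfl

theorem trN_succ {A : ℕ → NO T} (s : ∀ n, NT (A n) (A (n + 1))) {n m : ℕ} (h : n ≤ m)
    (h' : n ≤ m + 1) (a : T.Obj) (x : (A n).ob a) :
    (trN s h').app a x = (s m).app a ((trN s h).app a x) := by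
  unfold trN; rw [Nat.leRec_succ _ _ h]; rfl

/-- the union of a sequence of natural orders -/
theorem colimN (A : ℕ → NO T) (s : ∀ n, NT (A n) (A (n + 1))) :
    ∃ (B : NO T) (u : ∀ n, NT (A n) B),
      (∀ n a x, (u (n + 1)).app a ((s n).app a x) = (u n).app a x) ∧
      ∀ a y, ∃ n x, (u n).app a x = y := by
  obtain ⟨B, u, h0, h1⟩ := Fu.colim ℕ A (fun _ _ h => trN s h) fun n m k h h' a x => by
    induction k, h' using Nat.le_induction with
    | base => rw [trN_self]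
    | succ k hk ih => rw [trN_succ s hk, trN_succ s (h.trans hk), ih]
  refine ⟨B, u, fun n a x => ?_, h1⟩
  rw [← h0 n (n + 1) n.le_succ, trN_succ s le_rfl, trN_self]

variable {C : CC}

/-- transition maps of a sequence of families -/
noncomputable def trF {A : ℕ → LF T C.toPC} (s : ∀ n, Mp (A n) (A (n + 1))) {n m : ℕ}
    (h : n ≤ m) : Mp (A n) (A m) :=
  Nat.leRec (motive := fun m _ => Mp (A n) (A m)) (Mp.rfl' _) (fun m _ e => e.trans (s m)) h

theorem trF_self {A : ℕ → LF T C.toPC} (s : ∀ n, Mp (A n) (A (n + 1))) (n : ℕ) (a : T.Obj)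
    (x : C.U ((A n).ob a)) : trF s (le_refl n) a x = x := by
  unfold trF; rw [Nat.leRec_self]

theorem trF_succ {A : ℕ → LF T C.toPC} (s : ∀ n, Mp (A n) (A (n + 1))) {n m : ℕ} (h : n ≤ m)
    (h' : n ≤ m + 1) (a : T.Obj) (x : C.U ((A n).ob a)) :
    trF s h' a x = s m a (trF s h a x) := by
  unfold trF; rw [Nat.leRec_succ _ _ h]

/-- the union of a sequence of families -/
theorem colimF (A : ℕ → LF T C.toPC) (s : ∀ n, Mp (A n) (A (n + 1))) :
    ∃ (B : LF T C.toPC) (u : ∀ n, Mp (A n) B), (∀ n a x, u (n + 1) a (s n a x) = u n a x) ∧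
      ∀ a y, ∃ n x, u n a x = y := by
  obtain ⟨B, u, h0, h1⟩ := LF.colim ℕ A (fun _ _ h => trF s h) fun n m k h h' a x => by
    induction k, h' using Nat.le_induction with
    | base => rw [trF_self]
    | succ k hk ih => rw [trF_succ s hk, trF_succ s (h.trans hk), ih]
  refine ⟨B, u, fun n a x => ?_, h1⟩
  rw [← h0 n (n + 1) n.le_succ, trF_succ s le_rfl, trF_self]

/-- the map out of the union of a sequence of families -/
theorem liftN (A : ℕ → LF T C.toPC) {B D : LF T C.toPC} (s : ∀ n, Mp (A n) (A (n + 1)))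
    (u : ∀ n, Mp (A n) B) (g : ∀ n, Mp (A n) D) (hu : ∀ n a x, u (n + 1) a (s n a x) = u n a x)
    (hg : ∀ n a x, g (n + 1) a (s n a x) = g n a x) (hs : ∀ a y, ∃ n x, u n a x = y) :
    ∃ k : Mp B D, ∀ n a x, k a (u n a x) = g n a x := by
  have up : ∀ a n m, n ≤ m → ∀ x, ∃ y, u m a y = u n a x ∧ g m a y = g n a x := by
    intro a n m h x
    induction m, h using Nat.le_induction with
    | base => exact ⟨x, rfl, rfl⟩
    | succ k _ ih =>
      obtain ⟨y, e1, e2⟩ := ih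
      exact ⟨s k a y, (hu k a y).trans e1, (hg k a y).trans e2⟩
  refine Mp.lift A u g (fun a i j => ⟨max i j, ?_, ?_⟩) hs fun a i j x y e => ?_
  · rintro _ ⟨x, rfl⟩
    exact (up a i _ (le_max_left i j) x).imp fun _ h => h.1
  · rintro _ ⟨x, rfl⟩
    exact (up a j _ (le_max_right i j) x).imp fun _ h => h.1
  · obtain ⟨x', e1, e2⟩ := up a i _ (le_max_left i j) x
    obtain ⟨y', e3, e4⟩ := up a j _ (le_max_right i j) y
    rw [← e2, ← e4, (u _).inj a (e1.trans (e.trans e3.symm))]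

end Seq

variable {K : KC} {ν : Cardinal.{0}}

theorem lev_v1 (hν : ℵ₀ ≤ ν) : v1.Lev ν := lev_fst hν _ _

theorem lev_v2 (hν : ℵ₀ ≤ ν) : v2.Lev ν := lev_snd hν _ _

theorem lev_w1 (hν : ℵ₀ ≤ ν) : w1.Lev ν := lev_fst hν _ _

theorem lev_w2 (hν : ℵ₀ ≤ ν) : w2.Lev ν := (lev_v1 hν).wh hν (lev_snd hν _ _)

theorem lev_w3 (hν : ℵ₀ ≤ ν) : w3.Lev ν := (lev_v2 hν).wh hν (lev_snd hν _ _)

theorem lev_II (hν : ℵ₀ ≤ ν) : II.Lev ν := by
  have h1 : (cst L2 one : NO L2).Lev ν := lev_cst _ (mk_le_aleph0.trans hν)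
  exact h1.add hν ((lev_v1 hν).add hν (h1.add hν (lev_v2 hν)))

theorem lev_piq (hν : ℵ₀ ≤ ν) : piq.Lev ν := (lev_w1 hν).pair hν (lev_w2 hν)

theorem lev_gq (hν : ℵ₀ ≤ ν) : gq.Lev ν := ((lev_w1 hν).add hν (lev_w3 hν)).pair hν (lev_w2 hν)

theorem lev_hq (hν : ℵ₀ ≤ ν) {J : NO L3} (h : J.Lev ν) : (hq J).Lev ν :=
  (lev_w1 hν).pair hν ((lev_w2 hν).add hν h)

theorem lev_gE (hν : ℵ₀ ≤ ν) : gE.G.Lev ν :=
  ((lev_w1 hν).add hν (lev_w3 hν)).pair hν ((lev_w2 hν).pair hν (lev_w3 hν))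

theorem lev_hE (hν : ℵ₀ ≤ ν) {J : NO L3} (h : J.Lev ν) : (hE J).G.Lev ν :=
  (lev_w1 hν).pair hν (((lev_w2 hν).add hν h).pair hν (lev_w3 hν))

/-- the coded two-variable family -/
abbrev ZZ (c : Cd) (Y : LF L1 K.toPC) : LF L2 K.toPC := (Y.wh c.W.G).wh II

theorem lev_ZZ (c : Cd) {Y : LF L1 K.toPC} (h : Y.Lev K.k0) : (ZZ c Y).Lev K.k0 :=
  (h.wh K.inf (c.lev.mono K.inf)).wh K.inf (lev_II K.inf)

theorem atom_ZZ (c : Cd) {Y : LF L1 K.toPC} (h : Y.Atom) : (ZZ c Y).Atom :=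
  (h.wh c.W.G ⟨c.W.η.app, c.W.η.nat⟩).wh II
    ⟨fun _ => inl.trans inr, fun _ => rfl⟩

theorem atom_piq {Z : LF L2 K.toPC} (h : Z.Atom) : (Z.wh piq).Atom :=
  h.wh piq ⟨fun z => (rf z, rf z), fun _ => rfl⟩

/-- the unit into the first shift -/
@[reducible] def ug : NT piq gq := ⟨fun a => (inl, rf a.2.1), fun _ => rfl⟩

/-- the unit into the second shift -/
@[reducible] def uh (J : NO L3) : NT piq (hq J) := ⟨fun a => (rf a.1, inl), fun _ => rfl⟩

/-- enlarging the second shift -/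
@[reducible] def hmap {J J' : NO L3} (j : NT J J') : NT (hq J) (hq J') :=
  (NT.rfl' w1).pair ((NT.rfl' w2).add j)

/-- a move for a two-variable family -/
structure St (Z : LF L2 K.toPC) where
  J : NO L3
  lev : J.Lev K.k0
  β : Mp (Z.wh gq) (Z.wh (hq J))
  old : ∀ a x, β a (Z.nt ug a x) = Z.nt (uh J) a x

theorem fin_abs (c : Cd) {Y : LF L1 K.toPC} (hY : Y.Atom) {J : NO L3} (lJ : J.Lev K.k0)
    {D : LF L3 K.toPC} (lD : D.Lev K.k0) (f : Mp ((ZZ c Y).wh gq) D)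
    (g : Mp ((ZZ c Y).wh (hq J)) D)
    (e : ∀ a x, f a ((ZZ c Y).nt ug a x) = g a ((ZZ c Y).nt (uh J) a x)) :
    ∃ (s : St (ZZ c Y)) (j : NT J s.J), ∀ a x y, f a x = g a y →
      s.β a x = (ZZ c Y).nt (hmap j) a y := by
  obtain ⟨J', j, ψ, l, h⟩ := absb c Y hY J lJ D lD g
  refine ⟨⟨J', l, f.trans ψ, fun a x => ?_⟩, j, fun a x y r => (congrArg (ψ a) r).trans (h a y)⟩
  refine (congrArg (ψ a) (e a x)).trans ((h a _).trans ?_)
  refine (ZZ c Y).mp_eq (fun y => ?_) x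
  induction y using add_ind <;> rfl

theorem start (c : Cd) {Y : LF L1 K.toPC} (hY : Y.Atom) (lY : Y.Lev K.k0) :
    Nonempty (St (ZZ c Y)) := by
  have lJ : (cst L3 zero : NO L3).Lev K.k0 := lev_cst _ (mk_le_aleph0.trans K.inf)
  obtain ⟨D, f, g, lD, e⟩ := Mp.ap le_rfl ((ZZ c Y).nt ug) ((ZZ c Y).nt (uh (cst L3 zero)))
    ((lev_ZZ c lY).wh K.inf (lev_gq K.inf)) ((lev_ZZ c lY).wh K.inf (lev_hq K.inf lJ))
  obtain ⟨s, -⟩ := fin_abs c hY lJ lD f g e
  exact ⟨s⟩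

theorem step (c : Cd) {Y Y' : LF L1 K.toPC} (hY : Y.Atom) (hY' : Y'.Atom) (lY : Y'.Lev K.k0)
    (t : Mp (ZZ c Y) (ZZ c Y')) (s : St (ZZ c Y)) :
    ∃ (s' : St (ZZ c Y')) (j : NT s.J s'.J), ∀ a x,
      s'.β a (t.wh gq a x) = (ZZ c Y').nt (hmap j) a (t.wh (hq s.J) a (s.β a x)) := by
  have lZ := (lev_ZZ c lY).wh K.inf (lev_piq K.inf)
  have h := wd (t.wh piq) (atom_piq (atom_ZZ c hY)) lZ gE (hE s.J)
    (lev_gE K.inf) (lev_hE K.inf s.lev) ⟨s.β.app, s.β.hom, s.β.nat⟩ s.old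
  obtain ⟨D, f, g, lD, e⟩ := h.small K.code le_rfl (lZ.wh K.inf (lev_gE K.inf))
    (lZ.wh K.inf (lev_hE K.inf s.lev))
  obtain ⟨s', j, k⟩ := fin_abs c hY' s.lev lD ⟨f.app, f.hom, f.nat⟩ ⟨g.app, g.hom, g.nat⟩
    fun a x => e a _ _ (Or.inr ⟨x, rfl, rfl⟩)
  exact ⟨s', j, fun a x => k a _ _ (e a _ _ (Or.inl ⟨x, rfl, rfl⟩))⟩

end CmP

open CmP in
/-- paper CM -/
theorem cm {K : KC} (c : Cd) (Y : ℕ → LF L1 K.toPC) (hY : ∀ k, (Y k).Atom)
    (lY : ∀ k, (Y k).Lev K.k0) (H : LF L2 K.toPC) (ζ : ∀ k, Mp (((Y k).wh c.W.G).wh II) H)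
    (hm : ∀ k a, range (ζ k a) ⊆ range (ζ (k + 1) a)) (hc : ∀ a y, ∃ k x, ζ k a x = y) :
    ∃ (J : NO L3) (β : Mp (H.wh gq) (H.wh (hq J))), J.Lev K.k0 ∧
      ∀ (a : L3.Obj) (x : K.U (H.ob (a.1, a.2.1))),
        β a (H.mp (a := (a.1, a.2.1)) (b := gq.ob a) (inl, rf a.2.1) x) =
          H.mp (a := (a.1, a.2.1)) (b := (hq J).ob a) (rf a.1, inl) x := by
  choose t ht using fun k => Mp.fac (ζ k) (ζ (k + 1)) (hm k)
  choose nx j hj using fun k => step c (hY k) (hY (k + 1)) (lY (k + 1)) (t k)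
  obtain ⟨s0⟩ := start c (hY 0) (lY 0)
  let s : ∀ k, St (ZZ c (Y k)) := fun k => Nat.rec s0 (fun k s => nx k s) k
  obtain ⟨J, u, hu, hs⟩ := colimN (fun k => (s k).J) fun k => j k (s k)
  let g : ∀ k, Mp ((ZZ c (Y k)).wh gq) (H.wh (hq J)) := fun k =>
    (s k).β.trans (((ζ k).wh (hq (s k).J)).trans (H.nt (hmap (u k))))
  obtain ⟨β, hβ⟩ := liftN (fun k => (ZZ c (Y k)).wh gq) (fun k => (t k).wh gq)
    (fun k => (ζ k).wh gq) g (fun k a x => ht k _ x) (fun k a x => by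
      change H.mp ((hmap (u (k + 1))).app a) (ζ (k + 1) _ ((nx k (s k)).β a ((t k).wh gq a x))) =
        H.mp ((hmap (u k)).app a) (ζ k _ ((s k).β a x))
      rw [hj k (s k) a x]
      refine (congrArg _ ((ζ (k + 1)).nat _ _)).trans ?_
      refine (H.mp_eq (k := (hmap (u k)).app a) (fun y => ?_) _).trans (congrArg _ (ht k _ _))
      induction y using add_ind with
      | l y => rfl
      | r y =>
        induction y using add_ind with
        | l y => rfl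
        | r y => exact congrArg (fun w => inr (inr w)) (hu k a y)) fun a => hc _
  refine ⟨J, β, Fu.lev_cover _ u hs K.inf (by rw [mk_nat]; exact K.inf) fun k => (s k).lev,
    fun a x => ?_⟩
  obtain ⟨k, y, rfl⟩ := hc _ x
  refine (congrArg (β a) ((ζ k).nat _ y).symm).trans ((hβ k a _).trans ?_)
  change H.mp ((hmap (u k)).app a) (ζ k _ ((s k).β a ((ZZ c (Y k)).nt ug a y))) = _
  rw [(s k).old]
  refine (congrArg _ ((ζ k).nat _ _)).trans (H.mp_eq (fun y => ?_) _)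
  induction y using add_ind <;> rfl

end Pool.Agent.P.MP_860a31_lc.H
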