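import Pool.Agent.P.MP_860a31_lc.H.Nt
import Pool.Agent.P.MP_860a31_lc.H.Kan

/-!
Uniformisation with a marker.
-/

open Cardinal hiding univ
open Set Order Function

namespace Pool.Agent.P.MP_860a31_lc.H

open LO E Fu

/-- a natural family on the orders `fin n` extends to a map of families -/
theorem Mp.of_fin1 {C : CC} (X Y : LF L1 C.toPC)
    (φ : ∀ n, C.U (X.ob (LO.fin n)) → C.U (Y.ob (LO.fin n))) (h : ∀ n, C.IsH (φ n))
    (hn : ∀ m n (a : Em (LO.fin m) (LO.fin n)) x, φ n (X.mp a x) = Y.mp a (φ m x)) :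
    ∃ k : Mp X Y, ∀ n x, k (LO.fin n) x = φ n x := by
  choose k h1 h2 using fun z => X.lift1 z (fun n s x => Y.mp s (φ n x))
    (fun n s => C.comp (h n) (Y.hom _)) fun m n a s x => by rw [hn, Y.mp_comp, L1_comp]
  refine ⟨⟨k, h1, fun {a b} f y => ?_⟩, fun n x => ?_⟩
  · obtain ⟨n, s, x, rfl⟩ := X.fin1 a y
    rw [X.mp_comp, h2, h2, Y.mp_comp]
  · have := h2 _ n (rf _) x
    rwa [← L1_id, X.mp_id, Y.mp_id] at this

/-- it suffices to compare maps on the orders `fin n` -/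
theorem Mp.eq_fin1 {C : PC} {X Y : LF L1 C} (φ ψ : Mp X Y)
    (h : ∀ n x, φ (LO.fin n) x = ψ (LO.fin n) x) (a : LO) (x : C.U (X.ob a)) : φ a x = ψ a x := by
  obtain ⟨n, g, x0, rfl⟩ := X.fin1 a x
  rw [φ.nat, ψ.nat, h]

/-- a natural family on the orders `fin n` extends to a map of natural orders -/
theorem NT.of_fin1 (Q R : NO L1) (φ : ∀ n, Em (Q.ob (LO.fin n)) (R.ob (LO.fin n)))
    (hn : ∀ m n (a : Em (LO.fin m) (LO.fin n)) x, φ n (Q.mp a x) = R.mp a (φ m x)) :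
    ∃ k : NT Q R, ∀ n x, k.app (LO.fin n) x = φ n x := by
  obtain ⟨k, hk⟩ := kan_lift (Q := Q) (R := R) (σ := fun n => Q.ob (LO.fin n))
    (mp := fun _ _ a => Q.mp a) (e := fun _ _ t => Q.mp t) (fun _ _ _ f t y => Q.mp_mp t f y)
    (fun _ _ _ a t y => Q.mp_mp a t y) Q.fin1 φ hn
  refine ⟨k, fun n x => ?_⟩
  have := hk n _ (rf _) x
  rwa [← L1_id, Q.mp_rf, R.mp_rf] at this

open KanP in
/-- uniformisation for natural orders -/
theorem unifO {κ : Cardinal.{0}} (hκ : ℵ₀ ≤ κ) (ι : Type 1) (X Z : ι → LO)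
    (hZ : ∀ d, Nonempty (Z d)) (Γ Col : ℕ → Type) (g : ∀ d n, Em (LO.fin n) (X d) → Γ n → Z d)
    (c : ∀ d n, Em (LO.fin n) (X d) → Col n) (hΓ : ∀ n, #(Γ n) ≤ κ) (hC : ∀ n, #(Col n) ≤ 2 ^ κ)
    (hX : ∀ θ < hanf κ, ∃ d, θ ≤ #(X d)) :
    ∃ (A : NO L1) (γ : ∀ n, Γ n → A.ob (LO.fin n)) (γ' : ∀ n, Col n), A.Lev κ ∧
      ∀ n, ∃ (d : ι) (t : Em (LO.fin n) (X d)) (h : Em (A.ob (LO.fin n)) (Z d)),
        ∀ (m : ℕ) (a : Em (LO.fin m) (LO.fin n)),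
          (∀ u, h (A.mp a (γ m u)) = g d m (a.trans t) u) ∧ c d m (a.trans t) = γ' m := by
  obtain ⟨Q, γ, γ', h1, h2⟩ := unif famMorley SubExP.pc SubExP.code κ hκ ι (fun d => (X d).car)
    (fun d => ⟨(Z d).car, hZ d⟩) Γ Col (fun d n s => g d n (Em.of s))
    (fun d n s => c d n (Em.of s)) hΓ hC hX
  refine ⟨toNO (LF.ofFam (C := lc) Q), fun n u => Q.evi (rf (LO.fin n)).oe (γ n u), γ',
    LF.ofFam_lev (C := lc) Q hκ h1, fun n => ?_⟩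
  obtain ⟨d, t, h, h3, h4⟩ := h2 n
  obtain ⟨k, k1, k2⟩ := Fam.ev_lift (C := lc) (P := Q) (I := Fin n) (D := ⟨(Z d).car, hZ d⟩)
    (fun m s x => h (Q.mp s x)) (fun m s => StrictMono.comp h3 (Q.hom s))
    fun a s x => by rw [Q.mp_comp]
  refine ⟨d, Em.of t, ⟨k, k1⟩, fun m a => ⟨fun u => ?_, (h4 m a.oe).2⟩⟩
  exact (congrArg k (LF.ofFam_evi (C := lc) Q a (rf _) _)).trans
    ((k2 m a.oe _).trans ((h4 m a.oe).1 u))

theorem LF.mp_sig {C : PC} {Y : LF L1 C} {z : LO} (p : Σ k, C.U (Y.ob (LO.fin k))) {k : ℕ}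
    (r : Em (LO.fin k) z) (y : C.U (Y.ob (LO.fin k))) (e : Em (LO.fin p.1) z) (h : ⟨k, y⟩ = p)
    (he : ∀ (j : Fin p.1) (hj : j.1 < k), e j = r ⟨j, hj⟩) : Y.mp e p.2 = Y.mp r y := by
  subst h
  exact Y.mp_congr (f := e) (g := r) (fun j => he j j.2) y

theorem uug1 {C : CC} {κ : Cardinal.{0}} (hκ : ℵ₀ ≤ κ) (Y : LF L1 C.toPC) (lY : Y.Lev κ)
    (M : NO L1) (lM : M.Lev κ) (D : LF L1 C.toPC) (lD : D.Lev κ) (φ : Mp (Y.wh M) D)
    (ι : Type 1) (X Λ : ι → LO) (w : ∀ d, Em (M.ob (X d)) (Λ d))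
    (F : ∀ d, C.U (D.ob (X d)) → C.U (Y.ob (Λ d))) (hF : ∀ d, C.IsH (F d))
    (hw : ∀ d x, F d (φ (X d) x) = Y.mp (w d) x) (Mk : ∀ d, Set (Λ d))
    (hX : ∀ θ < hanf κ, ∃ d, θ ≤ #(X d)) :
    ∃ (A A0 : NO L1) (v : NT A0 A) (ω : NT M A) (Φ : Mp D (Y.wh A)), A.Lev κ ∧
      (∀ a x, Φ a (φ a x) = Y.mp (ω.app a) x) ∧
      (∀ n y, (∀ d (t : Em (LO.fin n) (X d)), w d (M.mp t y) ∈ Mk d) →
        ω.app (LO.fin n) y ∈ range (v.app (LO.fin n))) ∧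
      (∀ n y, ω.app (LO.fin n) y ∈ range (v.app (LO.fin n)) →
        ∃ (d : ι) (t : Em (LO.fin n) (X d)), w d (M.mp t y) ∈ Mk d) ∧
      ∀ n x, (∀ d (t : Em (LO.fin n) (X d)), F d (D.mp t x) ∈ range (Y.mp (val (Mk d)))) →
        Φ (LO.fin n) x ∈ range (Y.mp (v.app (LO.fin n))) := by
  have hs : ∀ d n (t : Em (LO.fin n) (X d)) (x : C.U (D.ob (LO.fin n))), ∃ (k : ℕ)
      (r : Em (LO.fin k) (Λ d)) (y : C.U (Y.ob (LO.fin k))), Y.mp r y = F d (D.mp t x) ∧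
        (F d (D.mp t x) ∈ range (Y.mp (val (Mk d))) → ∀ j, r j ∈ Mk d) := fun d n t x => by
    by_cases h : F d (D.mp t x) ∈ range (Y.mp (val (Mk d)))
    · obtain ⟨y0, h⟩ := h
      obtain ⟨k, r, y, rfl⟩ := Y.fin1 _ y0
      exact ⟨k, r.trans (val _), y, (Y.mp_comp _ _ _).symm.trans h, fun _ j => (r j).2⟩
    · obtain ⟨k, r, y, e⟩ := Y.fin1 _ (F d (D.mp t x))
      exact ⟨k, r, y, e, fun h' => absurd h' h⟩
  choose k r y hr hk using hs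
  let Γ : ℕ → Type := fun n => M.ob (LO.fin n) ⊕ C.U (D.ob (LO.fin n)) × ℕ
  have hΓ : ∀ n, #(Γ n) ≤ κ := fun n => by
    rw [mk_sum, lift_id, lift_id, mk_prod, lift_id, lift_id, mk_nat]
    exact add_le_of_le hκ (lM _ inferInstance) (mul_le_of_le hκ (lD _ inferInstance) hκ)
  let g : ∀ d n, Em (LO.fin n) (X d) → Γ n → (Λ d).add one := fun d n t =>
    Sum.elim (fun y => inl (w d (M.mp t y)))
      fun u => if h : u.2 < k d n t u.1 then inl (r d n t u.1 ⟨u.2, h⟩) else inr ()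
  have h2 : ℵ₀ ≤ 2 ^ κ := hκ.trans (cantor κ).le
  obtain ⟨A, γ, γ', lA, H⟩ := unifO hκ ι X (fun d => (Λ d).add one) (fun d => ⟨inr ()⟩) Γ
    (fun n => (C.U (D.ob (LO.fin n)) → Σ k, C.U (Y.ob (LO.fin k))) × (Γ n → Prop)) g
    (fun d n t => (fun x => ⟨k d n t x, y d n t x⟩, fun u => g d n t u ∈ inl '' Mk d)) hΓ
    (fun n => by
      rw [mk_prod, lift_id, lift_id]
      refine mul_le_of_le h2 ?_ ?_
      · rw [← power_def, ← power_self_eq hκ]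
        refine (power_le_power_right (card_cover (fun k x => (⟨k, x⟩ : Σ k, C.U (Y.ob (LO.fin k))))
          (fun p => ⟨p.1, p.2, rfl⟩) hκ (by rwa [mk_nat]) fun k => lY _ inferInstance)).trans
          (power_le_power_left (aleph0_pos.trans_le hκ).ne' (lD _ inferInstance))
      · rw [← power_def, mk_Prop]
        exact power_le_power_left two_ne_zero (hΓ n)) hX
  choose d t h H using H
  have e0 : ∀ n u, h n (γ n u) = g (d n) n (t n) u := fun n u => by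
    have := (H n n (rf _)).1 u
    rwa [← L1_id, A.mp_rf] at this
  have eb : ∀ n m (a : Em (LO.fin m) (LO.fin n)) u,
      (γ' m).2 u ↔ g (d n) m (a.trans (t n)) u ∈ inl '' Mk (d n) := fun n m a u => by
    rw [← (H n m a).2]
  obtain ⟨ω, hω⟩ := NT.of_fin1 M A (fun n => ⟨fun y => γ n (Sum.inl y), fun y y' hy =>
      (h n).lt_iff.1 (by rw [e0, e0]; exact inl.mono ((w _).mono ((M.mp _).mono hy)))⟩)
    fun m n a y => (h n).inj (((e0 n (Sum.inl (M.mp a y))).trans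
      (congrArg (fun z => inl (w _ z)) (M.mp_mp a (t n) y))).trans ((H n m a).1 (Sum.inl y)).symm)
  have hω' : ∀ n y, h n (ω.app (LO.fin n) y) = inl (w _ (M.mp (t n) y)) := fun n y => by
    rw [hω]; exact e0 n _
  have key : ∀ m (x : C.U (D.ob (LO.fin m))), ∃ ρ : Em (LO.fin ((γ' m).1 x).1) (A.ob (LO.fin m)),
      (∀ j, ρ j = γ m (Sum.inr (x, j.1))) ∧ ∀ n (a : Em (LO.fin m) (LO.fin n)),
        Y.mp (h n) (Y.mp (A.mp a) (Y.mp ρ ((γ' m).1 x).2)) =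
          Y.mp inl (F (d n) (D.mp (a.trans (t n)) x)) := by
    intro m x
    have e1 : ∀ n (a : Em (LO.fin m) (LO.fin n)), (⟨k (d n) m (a.trans (t n)) x,
        y (d n) m (a.trans (t n)) x⟩ : Σ k, C.U (Y.ob (LO.fin k))) = (γ' m).1 x :=
      fun n a => congrFun (congrArg Prod.fst (H n m a).2) x
    have e2 : ∀ n (a : Em (LO.fin m) (LO.fin n)) (j : ℕ) (hj : j < k (d n) m (a.trans (t n)) x),
        h n (A.mp a (γ m (Sum.inr (x, j)))) = inl (r (d n) m (a.trans (t n)) x ⟨j, hj⟩) :=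
      fun n a j hj => ((H n m a).1 (Sum.inr (x, j))).trans (dif_pos hj)
    refine ⟨⟨fun j => γ m (Sum.inr (x, j.1)), fun j j' hjj => ?_⟩, fun _ => rfl, fun n a => ?_⟩
    · have hk : ((γ' m).1 x).1 = k (d m) m ((rf _).trans (t m)) x :=
        (congrArg Sigma.fst (e1 m (rf _))).symm
      refine (A.mp (rf _)).lt_iff.1 ((h m).lt_iff.1 ?_)
      rw [e2 m _ j (hk ▸ j.2), e2 m _ j' (hk ▸ j'.2)]
      exact inl.mono ((r _ _ _ _).mono hjj)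
    · rw [Y.mp_comp, Y.mp_comp, ← hr, Y.mp_comp]
      exact LF.mp_sig _ _ _ _ (e1 n a) fun j hj => e2 n a j hj
  choose ρ hρ hψ using key
  have k0 : ∀ n x, Y.mp (h n) (Y.mp (ρ n x) ((γ' n).1 x).2) = Y.mp inl (F (d n) (D.mp (t n) x)) :=
    fun n x => by
      have := hψ n x n (rf _)
      rwa [← L1_id, A.mp_id, Y.mp_id] at this
  obtain ⟨Φ, hΦ⟩ := Mp.of_fin1 D (Y.wh A) (fun n x => Y.mp (ρ n x) ((γ' n).1 x).2)
    (fun n => PC.coh' (Y.hom (h n)) (C.comp (C.comp (D.hom (t n)) (hF _)) (Y.hom inl)) (k0 n))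
    fun m n a x => Y.inj (h n) (by rw [k0, D.mp_comp]; exact (hψ m x n a).symm)
  let p : ∀ z, Set (A.ob z) := fun z =>
    {q | ∃ (m : ℕ) (s : Em (LO.fin m) z) (u : Γ m), (γ' m).2 u ∧ A.mp s (γ m u) = q}
  have hp : ∀ n u, g (d n) n (t n) u ∈ inl '' Mk (d n) → γ n u ∈ p (LO.fin n) := fun n u hu =>
    ⟨n, rf _, u, (eb n n (rf _) u).2 hu, A.mp_rf _ _⟩
  refine ⟨A, A.sub p ?_ ?_, NT.val A p _ _, ω, Φ, lA,
    (φ.trans Φ).eq_fin1 (Y.nt ω) fun n x => Y.inj (h n) ?_, fun n y hy => ?_, fun n y hy => ?_,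
    fun n x hx => ?_⟩
  · rintro a b f _ ⟨m, s, u, hu, rfl⟩
    exact ⟨m, s.trans f, u, hu, (A.mp_mp s f _).symm⟩
  · rintro a _ ⟨m, s, u, hu, rfl⟩
    exact ⟨LO.fin m, s, γ m u, inferInstance, ⟨m, rf _, u, hu, A.mp_rf _ _⟩, rfl⟩
  · change Y.mp (h n) (Φ _ (φ _ x)) = Y.mp (h n) (Y.mp (ω.app _) x)
    rw [hΦ, k0, ← φ.nat, hw, Y.mp_comp]
    exact Y.mp_sq (fun z => (hω' n z).symm) x
  · exact ⟨⟨_, hp n (Sum.inl y) ⟨_, hy _ _, rfl⟩⟩, (hω n y).symm⟩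
  · obtain ⟨⟨_, m, s, u, hu, rfl⟩, e⟩ := hy
    obtain ⟨z, hz, e'⟩ := (eb n m s u).1 hu
    refine ⟨d n, t n, ?_⟩
    rwa [← inl.inj (e'.trans (((H n m s).1 u).symm.trans ((congrArg (h n) e).trans (hω' n y))))]
  · rw [hΦ]
    refine Y.range_mono (g := ρ n x) ?_ ⟨_, rfl⟩
    rintro _ ⟨j, rfl⟩
    have e1 : ((γ' n).1 x).1 = k (d n) n (t n) x :=
      (congrArg (fun q => (q.1 x).1) (H n n (rf _)).2).symm
    have hj : j.1 < k (d n) n (t n) x := lt_of_lt_of_eq j.2 e1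
    have e2 : g (d n) n (t n) (Sum.inr (x, j.1)) = inl (r (d n) n (t n) x ⟨j, hj⟩) := dif_pos hj
    exact ⟨⟨_, hp n (Sum.inr (x, j.1)) ⟨_, hk _ _ _ _ (hx _ _) ⟨j, hj⟩, e2.symm⟩⟩,
      (hρ n x j).symm⟩

/-- a small extension of a value embeds into the value on a long order -/
theorem satEmb {K : KC} {P : LF L1 K.toPC} (lP : P.Lev K.k0) (hP : P.Atom) (a : LO) {B : K.Obj}
    {f : K.U (P.ob a) → K.U B} (hf : K.IsH f) {χ : Cardinal.{0}} (hχ : χ < hanf K.k0)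
    (hB : #(K.U B) ≤ χ) : ∃ F : K.U B → K.U (P.ob (a.add (LO.wo K.lam))), K.IsH F ∧
      ∀ x, F (f x) = P.mp inl x := by
  have h5 : #(a.add (LO.wo K.lam)) = K.lam := by
    rw [card_add, W.card K.lam_inf]
    exact add_eq_right K.lam_inf ((hP.le_card a).trans ((PC.card_le hf).trans
      (hB.trans (hχ.le.trans K.hl))))
  exact PC.Univ.ext ((satK K).2 _ (le_antisymm
    (P.card_le K.lam_inf (lP.mono K.k0_lt.le) _ h5.le) (h5.ge.trans (hP.le_card _))) χ hχ)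
    hf (P.hom inl) hB

theorem uu01 {K : KC} (S : PS K) : UU S K.k0 := by
  intro I D φ lI lD
  choose F hF hw using fun d : {θ : Cardinal.{0} // θ < hanf K.k0} =>
    satEmb S.lev S.atom (I.ob (LO.wo d.1)) (φ.hom (LO.wo d.1)) (card_W_lt K.inf d.2).2
      (lD.card K.inf (LO.wo d.1))
  obtain ⟨A, -, -, ω, Φ, h1, h2, -⟩ := uug1 K.inf S.P S.lev I lI D lD φ
    {θ : Cardinal.{0} // θ < hanf K.k0} (fun d => LO.wo d.1) _ (fun _ => inl) F hF hw (fun _ => ∅)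
    fun θ hθ => ⟨⟨θ, hθ⟩, (card_W_lt K.inf hθ).1⟩
  exact ⟨A, ω, Φ, h1, h2⟩

end Pool.Agent.P.MP_860a31_lc.H
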