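import Pool.Agent.P.MP_860a31_lc.H.Cof1
import Pool.Agent.P.MP_860a31_lc.H.Uug1

/-!
Two-variable extensions of a split family embed in a split family.
-/

open Cardinal hiding univ
open Set Order Function

namespace Pool.Agent.P.MP_860a31_lc.H

open LO E Fu

/-- uniformisation for families -/
theorem unifF (K : KC) (ι : Type 1) (X : ι → LO) (T : ι → K.Obj) (Γ : ℕ → Type)
    (g : ∀ d n, Em (LO.fin n) (X d) → Γ n → K.U (T d)) (hΓ : ∀ n, #(Γ n) ≤ K.k0)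
    (hX : ∀ θ < hanf K.k0, ∃ d, θ ≤ #(X d)) :
    ∃ (A : LF L1 K.toPC) (γ : ∀ n, Γ n → K.U (A.ob (LO.fin n))), A.Lev K.k0 ∧
      ∀ n, ∃ (d : ι) (t : Em (LO.fin n) (X d)) (h : K.U (A.ob (LO.fin n)) → K.U (T d)),
        K.IsH h ∧ ∀ (m : ℕ) (a : Em (LO.fin m) (LO.fin n)) u,
          h (A.mp a (γ m u)) = g d m (a.trans t) u := by
  obtain ⟨Q, γ, γ', h1, h2⟩ := unif famMorley K.toPC K.code K.k0 le_rfl ι (fun d => (X d).car)
    T Γ (fun _ => Unit) (fun d n s => g d n (Em.of s)) (fun _ _ _ => ()) hΓ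
    (fun _ => mk_le_aleph0.trans (K.inf.trans (cantor _).le)) hX
  refine ⟨LF.ofFam (C := K.toCC) Q, fun n u => Q.evi (rf (LO.fin n)).oe (γ n u),
    LF.ofFam_lev (C := K.toCC) Q K.inf h1, fun n => ?_⟩
  obtain ⟨d, t, h, h3, h4⟩ := h2 n
  obtain ⟨k, k1, k2⟩ := Fam.ev_lift (C := K.toCC) (P := Q) (I := Fin n) (D := T d)
    (fun m s x => h (Q.mp s x)) (fun m s => K.comp (Q.hom s) h3)
    fun a s x => by rw [Q.mp_comp]
  refine ⟨d, Em.of t, k, k1, fun m a u => ?_⟩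
  exact (congrArg k (LF.ofFam_evi (C := K.toCC) Q a (rf _) _)).trans
    ((k2 m a.oe _).trans ((h4 m a.oe).1 u))

/-- paper COF -/
theorem cof {K : KC} (Y : LF L1 K.toPC) (hY : Y.Atom) (Z : LF L2 K.toPC) (lZ : Z.Lev K.k0)
    (φ : Mp (Y.wh (uF L2)) Z) : ∃ (Y' : LF L1 K.toPC) (ι : Mp Y Y') (ψ : Mp Z (Y'.wh (uF L2))),
      Y'.Lev K.k0 ∧ ∀ a x, ψ a (φ a x) = ι _ x := by
  choose T y c hy hc cn cy using fun d : {θ : Cardinal.{0} // θ < hanf K.k0} =>
    CofP.long (Λ := LO.wo d.1) hY lZ φ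
  have hf : ∀ p q, Finite (L2.U (LO.fin p, LO.fin q)) := fun p q =>
    inferInstanceAs (Finite ((LO.fin p).add (LO.fin q)))
  let Γ : ℕ → Type := fun n => K.U (Y.ob (LO.fin n)) ⊕ Σ p : ℕ × ℕ,
    Em ((LO.fin p.1).add (LO.fin p.2)) (LO.fin n) × K.U (Z.ob (LO.fin p.1, LO.fin p.2))
  have hΓ : ∀ n, #(Γ n) ≤ K.k0 := fun n => by
    rw [mk_sum, lift_id, lift_id]
    refine add_le_of_le K.inf ((PC.card_le (Y.hom (inl (b := LO.fin 0)))).trans
      (φ.lev lZ (LO.fin n, LO.fin 0) (hf _ _))) (card_cover (fun p x => ⟨p, x⟩)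
      (fun p => ⟨p.1, p.2, rfl⟩) K.inf (mk_le_aleph0.trans K.inf) fun p => ?_)
    rw [mk_prod, lift_id, lift_id]
    refine mul_le_of_le K.inf (le_trans ?_ K.inf) (lZ _ (hf _ _))
    have : Countable (Em ((LO.fin p.1).add (LO.fin p.2)) (LO.fin n)) :=
      Function.Injective.countable (f := fun e x => e x) fun _ _ e => Em.ext (congrFun e)
    exact mk_le_aleph0
  obtain ⟨A, γ, lA, H⟩ := unifF K _ (fun d => LO.wo d.1) T Γ (fun d n t => Sum.elim
    (fun x => y d (Y.mp t x))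
    fun u => c d (LO.fin u.1.1, LO.fin u.1.2) (hf _ _) (u.2.1.trans t) u.2.2) hΓ
    fun θ hθ => ⟨⟨θ, hθ⟩, (card_W_lt K.inf hθ).1⟩
  choose d t h hh H using H
  have e0 : ∀ n x, h n (γ n (Sum.inl x)) = y (d n) (Y.mp (t n) x) := fun n x => by
    have := H n n (rf _) (Sum.inl x)
    rwa [← L1_id, A.mp_id] at this
  obtain ⟨ι, hι⟩ := Mp.of_fin1 (C := K.toCC) Y A (fun n x => γ n (Sum.inl x))
    (fun n => PC.coh' (hh n) (K.comp (Y.hom (t n)) (hy _)) (e0 n)) fun m n a x =>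
      K.inj (hh n) ((e0 n _).trans ((congrArg (y _) (Y.mp_comp a (t n) x)).trans
        (H n m a (Sum.inl x)).symm))
  have key : ∀ a : L2.Obj, ∀ ha : Finite (L2.U a), ∃ ψ : K.U (Z.ob a) → K.U (A.ob (L2.U a)),
      ∀ n (j : Em (L2.U a) (LO.fin n)) z,
        h n (A.mp j (ψ z)) = c (d n) a ha (j.trans (t n)) z := fun a ha => by
    have h1 : Finite a.1 := finite_l (b := a.2)
    have h2 : Finite a.2 := finite_r (a := a.1)
    obtain ⟨m, e, e', k, -⟩ := exists_fin (L2.U a)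
    obtain ⟨p, e1, e1', k1, -⟩ := exists_fin a.1
    obtain ⟨q, e2, e2', k2, -⟩ := exists_fin a.2
    refine ⟨fun z => A.mp e' (γ m (Sum.inr ⟨(p, q), (amap e1' e2').trans e,
      Z.mp (b := (LO.fin p, LO.fin q)) (e1, e2) z⟩)), fun n j z => ?_⟩
    refine (congrArg (h n) (A.mp_comp e' j _)).trans ((H n m _ _).trans
      ((cn (d n) a _ ha (hf p q) _ (e1, e2) z).trans
        (congrArg (c (d n) a ha · z) (Em.ext fun x => ?_))))
    induction x using add_ind with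
    | l x => exact congrArg (fun w => t n (j w)) ((k _).trans (congrArg inl (k1 x)))
    | r x => exact congrArg (fun w => t n (j w)) ((k _).trans (congrArg inr (k2 x)))
  choose ψ hψ using key
  choose n e using fun (a : L2.Obj) (ha : Finite (L2.U a)) =>
    (exists_fin (L2.U a)).imp fun n h => (⟨h.choose⟩ : Nonempty (Em (L2.U a) (LO.fin n)))
  have inj : ∀ a ha (u v : K.U (A.ob (L2.U a))), h (n a ha) (A.mp (e a ha).some u) =
      h (n a ha) (A.mp (e a ha).some v) → u = v := fun a ha u v e =>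
    A.inj _ (K.inj (hh _) e)
  obtain ⟨Ψ, hΨ⟩ := Mp.of_fin (C := K.toCC) (X := Z) (Y := A.wh (uF L2)) ψ
    (fun a ha => PC.coh' (K.comp (A.hom (e a ha).some) (hh _)) (hc _ a ha _) (hψ a ha _ _))
    fun a b ha hb f x => inj b hb _ _ ((hψ b hb _ _ _).trans ((cn _ a b ha hb _ f x).trans
      ((hψ a ha _ ((L2.um f).trans (e b hb).some) x).symm.trans
        (congrArg (h _) (A.mp_comp (L2.um f) (e b hb).some _).symm))))
  refine ⟨A, ι, Ψ, lA, (φ.trans Ψ).eq_fin (ι.wh (uF L2)) fun a ha x => inj a ha _ _ ?_⟩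
  change h _ (A.mp _ (Ψ a (φ a x))) = h _ (A.mp _ (ι _ x))
  rw [hΨ a ha, hψ, cy, ← ι.nat, hι, e0, Y.mp_comp]

end Pool.Agent.P.MP_860a31_lc.H
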