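import Pool.Agent.P.MP_860a31_lc.H.Wd

/-!
A model that contains coherent copies of a two-variable family for all cuts of a long order.
-/

open Cardinal hiding univ
open Set Order Function

namespace Pool.Agent.P.MP_860a31_lc.H

open LO E Fu

namespace CofP

variable {Λ : LO}

/-- restriction of the target -/
def res {a : LO} (p : Em a Λ) (s : Set Λ) (h : ∀ x, p x ∈ s) : Em a (Λ.sub s) :=
  ⟨fun x => ⟨p x, h x⟩, fun _ _ e => p.mono e⟩

/-- the points below `b` and the points from `b'` on -/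
abbrev cx (b b' : Λ) : L2.Obj := (Λ.sub (Iio b), Λ.sub (Ici b'))

/-- the cut at `b` -/
def sp (b : Λ) : Em (L2.U (cx b b)) Λ := elim (val _) (val _) fun x y => x.2.trans_le y.2

theorem sp_surj (b : Λ) : Surjective (sp b) := fun x => by
  rcases lt_or_ge x b with h | h
  · exact ⟨inl ⟨x, h⟩, rfl⟩
  · exact ⟨inr ⟨x, h⟩, rfl⟩

/-- two maps to cuts with the same underlying maps -/
def Cp {a : L2.Obj} {b c b' c' : Λ} (k : L2.Hom a (cx b c)) (k' : L2.Hom a (cx b' c')) : Prop :=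
  (∀ x, (k.1 x).1 = (k'.1 x).1) ∧ ∀ x, (k.2 x).1 = (k'.2 x).1

/-- inclusions -/
def inc {b c b' c' : Λ} (h : b ≤ b') (h' : c' ≤ c) : L2.Hom (cx b c) (cx b' c') :=
  (res (val _) _ fun x => lt_of_lt_of_le x.2 h, res (val _) _ fun x => le_trans h' x.2)

/-- the common part -/
def mid {a : L2.Obj} {b c b' c' : Λ} (k : L2.Hom a (cx b c)) (k' : L2.Hom a (cx b' c')) :
    L2.Hom a (cx b c') := (k.1, k'.2)

theorem hom_ext {a : L2.Obj} {b c : Λ} {k k' : L2.Hom a (cx b c)} (h : Cp k k') : k = k' :=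
  Prod.ext (Em.ext fun x => Subtype.ext (h.1 x)) (Em.ext fun x => Subtype.ext (h.2 x))

/-- `(a, b) ↦ (a, 1 + b)` -/
@[reducible] def gR : En L2 :=
  ⟨v1.pair (Fu.add (cst L2 one) v2), ⟨fun a => (rf a.1, inr), fun _ => rfl⟩⟩

/-- `(a, b) ↦ (a + 1, b)` -/
@[reducible] def gL : En L2 :=
  ⟨(v1.add (cst L2 one)).pair v2, ⟨fun a => (inl, rf a.2), fun _ => rfl⟩⟩

variable {K : KC} {Y : LF L1 K.toPC} {Z : LF L2 K.toPC}

/-- moving one point across the cut -/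
theorem cross (hY : Y.Atom) (lZ : Z.Lev K.k0) (φ : Mp (Y.wh (uF L2)) Z) (a : L2.Obj) :
    K.El (Z.ob (a.1, one.add a.2)) (Z.ob (a.1.add one, a.2)) fun x x' =>
      (∃ w, φ (a.1, one.add a.2) w = x ∧ φ (a.1.add one, a.2) (Y.mp asl w) = x') ∨
      ∃ w, Z.mp (a := a) (b := (a.1, one.add a.2)) (rf _, inr) w = x ∧
        Z.mp (a := a) (b := (a.1.add one, a.2)) (inl, rf _) w = x' := by
  have l1 : (cst L2 one : NO L2).Lev K.k0 := lev_cst L2 (mk_le_aleph0.trans K.inf)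
  exact (wd φ (hY.wh (uF L2) (NT.mk' (fun _ => inl) fun _ _ _ _ => rfl)) lZ gR gL
    ((lev_fst K.inf _ _).pair K.inf (l1.add K.inf (lev_snd K.inf _ _)))
    (((lev_fst K.inf _ _).add K.inf l1).pair K.inf (lev_snd K.inf _ _))
    (Y.nt (NT.asl v1 (cst L2 one) v2)) fun a x => Y.mp_eq (fun y => by
      induction y using add_ind <;> rfl) x).ev a

/-- states of the recursion -/
structure St (Λ : LO) (Y : LF L1 K.toPC) (Z : LF L2 K.toPC) : Type 1 where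
  b : Λ
  T : K.Obj
  y : K.U (Y.ob Λ) → K.U T
  c : K.U (Z.ob (cx b b)) → K.U T

/-- transition maps -/
def Hm (S S' : St Λ Y Z) (f : K.U S.T → K.U S'.T) : Prop :=
  K.IsH f ∧ (∀ x, f (S.y x) = S'.y x) ∧ S.b ≤ S'.b ∧ ∀ (a : L2.Obj) (k : L2.Hom a (cx S.b S.b))
    (k' : L2.Hom a (cx S'.b S'.b)), Cp k k' → ∀ z, f (S.c (Z.mp k z)) = S'.c (Z.mp k' z)

/-- the invariant -/
def Iv (φ : Mp (Y.wh (uF L2)) Z) (γ : Λ) (S : St Λ Y Z) : Prop :=
  S.b = γ ∧ K.IsH S.y ∧ K.IsH S.c ∧ ∀ x, S.c (φ _ x) = S.y (Y.mp (sp S.b) x)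

theorem Hm.trans {S S' S'' : St Λ Y Z} {f : K.U S.T → K.U S'.T} {g : K.U S'.T → K.U S''.T}
    (h : Hm S S' f) (h' : Hm S' S'' g) : Hm S S'' fun x => g (f x) := by
  refine ⟨K.comp h.1 h'.1, fun x => (congrArg g (h.2.1 x)).trans (h'.2.1 x),
    h.2.2.1.trans h'.2.2.1, fun a k k' e z => ?_⟩
  let k0 : L2.Hom a (cx S'.b S'.b) := L2.comp (mid k k') (inc h.2.2.1 h'.2.2.1)
  beta_reduce
  rw [h.2.2.2 a k k0 ⟨fun _ => rfl, e.2⟩, h'.2.2.2 a k0 k' ⟨e.1, fun _ => rfl⟩]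

theorem step [SuccOrder Λ] [NoMaxOrder Λ] (hY : Y.Atom) (lZ : Z.Lev K.k0)
    (φ : Mp (Y.wh (uF L2)) Z) (γ : Λ) (S : St Λ Y Z) (h : Iv φ γ S) :
    ∃ S' f, Hm S S' f ∧ Iv φ (succ γ) S' := by
  obtain ⟨b, T, y, c⟩ := S
  obtain ⟨rfl, h1, h2, h3⟩ : b = γ ∧ _ := h
  let a := cx b (succ b)
  let kR : L2.Hom (a.1, one.add a.2) (cx b b) :=
    (rf _, elim (pt ⟨b, le_refl b⟩) (inc (le_refl b) (le_succ b)).2 
      fun _ y => show b < y.1 from lt_of_lt_of_le (lt_succ b) y.2)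
  let kL : L2.Hom (a.1.add one, a.2) (cx (succ b) (succ b)) :=
    (elim (inc (le_succ b) (le_refl b)).1 (pt ⟨b, lt_succ b⟩) fun x _ => x.2, rf _)
  obtain ⟨T', f, c', hf, hc', e⟩ := PC.El.push (C := K.toAC) (K.comp (Z.hom kR) h2) (Z.hom kL)
    (cross hY lZ φ a) fun _ _ r => r
  refine ⟨⟨succ b, T', fun x => f (y x), c'⟩, f, ⟨hf, fun _ => rfl, le_succ b,
    fun a' k k' hk z => ?_⟩, rfl, (K.comp h1 hf :), hc', fun x => ?_⟩
  · refine e _ _ ⟨_, _, Or.inr ⟨Z.mp (mid k k') z, rfl, rfl⟩, congrArg c ?_, ?_⟩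
    · rw [Z.mp_comp, Z.mp_comp]
      exact congrArg (Z.mp · z) (hom_ext ⟨fun _ => rfl, fun x => (hk.2 x).symm⟩)
    · rw [Z.mp_comp, Z.mp_comp]
      exact congrArg (Z.mp · z) (hom_ext ⟨hk.1, fun _ => rfl⟩)
  · obtain ⟨w, rfl⟩ := Y.surj (f := asl.trans (L2.um kL)) (fun p => by
      induction p using add_ind with
      | l p =>
        rcases (lt_succ_iff.1 p.2).eq_or_lt with h | h
        · exact ⟨inr (inl ()), congrArg inl (Subtype.ext h.symm)⟩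
        · exact ⟨inl ⟨p.1, h⟩, rfl⟩
      | r p => exact ⟨inr (inr p), rfl⟩) x
    refine (e (c (φ _ (Y.mp (L2.um kR) w))) _ ⟨_, _, Or.inl ⟨w, rfl, rfl⟩,
      congrArg c (φ.nat kR w).symm, ?_⟩).symm.trans (congrArg f ((h3 _).trans (congrArg y ?_)))
    · exact (φ.nat kL _).symm.trans (congrArg _ (Y.mp_comp _ _ w))
    · refine Y.mp_sq (fun p => ?_) w
      induction p using add_ind with
      | l p => rfl
      | r p => induction p using add_ind <;> rfl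

theorem limit (φ : Mp (Y.wh (uF L2)) Z) {δ : Λ} (hδ : IsSuccLimit δ) (F : Iio δ → St Λ Y Z)
    (t : ∀ i j, i ≤ j → K.U (F i).T → K.U (F j).T) (ht : ∀ i j h, Hm (F i) (F j) (t i j h))
    (t0 : ∀ i x, t i i le_rfl x = x)
    (tc : ∀ i j k (h : i ≤ j) (h' : j ≤ k) x, t j k h' (t i j h x) = t i k (h.trans h') x)
    (hi : ∀ i : Iio δ, Iv φ i.1 (F i)) : ∃ (S : St Λ Y Z) (u : ∀ i, K.U (F i).T → K.U S.T),
      Iv φ δ S ∧ (∀ i, Hm (F i) S (u i)) ∧ (∀ i j h x, u j (t i j h x) = u i x) ∧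
      ∀ y, ∃ i x, u i x = y := by
  obtain ⟨i0, hi0⟩ := not_isMin_iff.1 hδ.not_isMin
  have : Nonempty (Iio δ) := ⟨⟨i0, hi0⟩⟩
  obtain ⟨T, u, u1, u2, u3⟩ := K.colim (Iio δ) (fun i => (F i).T) t (fun i j h => (ht i j h).1) t0 tc
  have hb : ∀ i, (F i).b ≤ δ := fun i => (hi i).1.le.trans i.2.le
  have hy : ∀ i j x, u i ((F i).y x) = u j ((F j).y x) := fun i j x => by
    rw [← u2 i _ (le_max_left i j), ← u2 j _ (le_max_right i j), (ht _ _ _).2.1, (ht _ _ _).2.1]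
  have hs : ∀ p : L2.U (cx δ δ), ∃ (i : Iio δ) (x : L2.U (cx (F i).b δ)),
      L2.um (inc (hb i) (le_refl δ)) x = p := fun p => by
    induction p using add_ind with
    | l p =>
      obtain ⟨j, h1, h2⟩ := hδ.isSuccPrelimit.lt_iff_exists_lt.1 p.2
      exact ⟨⟨j, h1⟩, inl ⟨p.1, lt_of_lt_of_eq h2 (hi ⟨j, h1⟩).1.symm⟩, rfl⟩
    | r p => exact ⟨⟨i0, hi0⟩, inr p, rfl⟩
  have hr : ∀ i j : Iio δ, i ≤ j → range (L2.um (inc (hb i) (le_refl δ))) ⊆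
      range (L2.um (inc (hb j) (le_refl δ))) := fun i j h => by
    rintro _ ⟨x, rfl⟩
    refine ⟨L2.um (inc (ht i j h).2.2.1 (le_refl δ)) x, ?_⟩
    induction x using add_ind <;> rfl
  have hd := fun i j : Iio δ => (⟨max i j, hr _ _ (le_max_left i j), hr _ _ (le_max_right i j)⟩ :
    ∃ k, range (L2.um (inc (hb i) (le_refl δ))) ⊆ range (L2.um (inc (hb k) (le_refl δ))) ∧
      range (L2.um (inc (hb j) (le_refl δ))) ⊆ range (L2.um (inc (hb k) (le_refl δ))))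
  obtain ⟨c, c1, c2⟩ := CC.lift_chain (C := K.toCC) (fun i : Iio δ => Z.ob (cx (F i).b δ))
    (fun i j h => Z.mp (inc (ht i j h).2.2.1 (le_refl δ))) (fun i => Z.mp (inc (hb i) (le_refl δ)))
    (fun i x => u i ((F i).c (Z.mp (inc (le_refl _) (hb i)) x))) (fun i => Z.hom _)
    (fun i => K.comp (K.comp (Z.hom _) (hi i).2.2.1) (u1 i))
    (fun i j h x => (Z.mp_comp _ _ x).trans (congrArg (Z.mp · x)
      (hom_ext ⟨fun _ => rfl, fun _ => rfl⟩)))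
    (fun i j h x => by
      rw [Z.mp_comp, ← u2 i j h]
      exact congrArg (u j) ((ht i j h).2.2.2 _ _ _ ⟨fun _ => rfl, fun _ => rfl⟩ x).symm)
    (Z.cover _ _ hd hs)
  refine ⟨⟨δ, T, fun x => u ⟨i0, hi0⟩ ((F _).y x), c⟩, u, ⟨rfl,
    (K.comp (hi ⟨i0, hi0⟩).2.1 (u1 ⟨i0, hi0⟩) :), c1,
    fun x => ?_⟩, fun i => ⟨u1 i, hy _ _, hb i, fun a k k' e z => ?_⟩, u2, u3⟩
  · obtain ⟨i, w, rfl⟩ := (Y.wh (uF L2)).cover _ _ hd hs x
    refine (congrArg c (φ.nat _ w)).trans ((c2 i _).trans (Eq.trans ?_ (hy i _ _)))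
    refine congrArg (u i) ((congrArg _ (φ.nat _ w).symm).trans (((hi i).2.2.2 _).trans
      (congrArg _ (Y.mp_sq (fun p => ?_) w))))
    induction p using add_ind <;> rfl
  · have e1 : k = L2.comp (mid k k') (inc (le_refl _) (hb i)) := hom_ext ⟨fun _ => rfl, e.2⟩
    have e2 : k' = L2.comp (mid k k') (inc (hb i) (le_refl δ)) :=
      hom_ext ⟨fun x => (e.1 x).symm, fun _ => rfl⟩
    change u i ((F i).c (Z.mp k z)) = c (Z.mp k' z)
    conv_rhs => rw [e2, ← Z.mp_comp, c2, Z.mp_comp, ← e1]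

/-- coherent copies for all finite cut tuples -/
theorem long [WellFoundedLT Λ] [SuccOrder Λ] [OrderBot Λ] [NoMaxOrder Λ] (hY : Y.Atom)
    (lZ : Z.Lev K.k0) (φ : Mp (Y.wh (uF L2)) Z) : ∃ (T : K.Obj) (y : K.U (Y.ob Λ) → K.U T)
      (c : ∀ a : L2.Obj, Finite (L2.U a) → Em (L2.U a) Λ → K.U (Z.ob a) → K.U T), K.IsH y ∧
      (∀ a h i, K.IsH (c a h i)) ∧
      (∀ a' a h' h i (k : L2.Hom a' a) z, c a h i (Z.mp k z) = c a' h' ((L2.um k).trans i) z) ∧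
      ∀ a h i x, c a h i (φ a x) = y (Y.mp i x) := by
  obtain ⟨g, g1, -, g2⟩ := PC.inverse (Y.hom (sp (⊥ : Λ))) (Y.surj (sp_surj ⊥))
  obtain ⟨F, t, -, hi, ht, t0, tc, -⟩ := gchain (Λ := Λ) (St := St Λ Y Z) (ι := Unit)
    (fun S _ => K.U S.T) (fun S S' f => Hm S S' (f ()))
    (fun S => ⟨K.idH _, fun _ => rfl, le_rfl, fun _ _ _ e _ => by rw [hom_ext e]⟩)
    (fun _ _ _ _ _ h h' => h.trans h') (Iv φ) (fun _ _ _ _ => True)
    ⟨⊥, Z.ob (cx ⊥ ⊥), fun x => φ _ (g x), fun x => x⟩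
    ⟨rfl, (K.comp g1 (φ.hom (cx ⊥ ⊥)) :), K.idH _, fun x => congrArg (φ (cx ⊥ ⊥)) (g2 x).symm⟩
    (fun γ S h => by
      obtain ⟨S', f, h1, h2⟩ := step hY lZ φ γ S h
      exact ⟨S', fun _ => f, h1, h2, trivial⟩)
    (fun δ hδ c h _ => by
      obtain ⟨S, u, h1, h2, h3, h4⟩ := limit φ hδ c.F (fun i j h => c.t i j h ()) c.hom
        (fun i => c.t_id i ()) (fun i j k h h' => c.t_comp i j k h h' ()) h
      exact ⟨S, fun i _ => u i, h1, h2, fun i j h _ => h3 i j h, fun _ => h4⟩)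
  obtain ⟨T, u, u1, u2, -⟩ := K.colim Λ (fun i => (F i).T) (fun i j h => t i j h ())
    (fun i j h => (ht i j h).1) (fun i => t0 i ()) fun i j k h h' => tc i j k h h' ()
  have hy : ∀ i x, u i ((F i).y x) = u ⊥ ((F ⊥).y x) := fun i x => by
    rw [← u2 ⊥ i bot_le, (ht _ _ _).2.1]
  have hc : ∀ i j a (k : L2.Hom a (cx (F i).b (F i).b)) (k' : L2.Hom a (cx (F j).b (F j).b)),
      Cp k k' → ∀ z, u i ((F i).c (Z.mp k z)) = u j ((F j).c (Z.mp k' z)) := by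
    intro i j a k k' e z
    rcases le_total i j with h | h
    · rw [← u2 i j h, (ht i j h).2.2.2 a k k' e]
    · rw [← u2 j i h, (ht j i h).2.2.2 a k' k ⟨fun x => (e.1 x).symm, fun x => (e.2 x).symm⟩]
  have hk : ∀ a : L2.Obj, Finite (L2.U a) → ∀ i : Em (L2.U a) Λ,
      ∃ (j : Λ) (k : L2.Hom a (cx (F j).b (F j).b)),
        (∀ x, (k.1 x).1 = i (inl x)) ∧ ∀ x, (k.2 x).1 = i (inr x) := fun a ha i => by
    have : ∃ j : Λ, (∀ x, i (inl x) < j) ∧ ∀ x, j ≤ i (inr x) := by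
      rcases isEmpty_or_nonempty a.1 with h | h
      · exact ⟨⊥, fun x => h.elim x, fun _ => bot_le⟩
      · have : Finite a.1 := finite_l (b := a.2)
        obtain ⟨x, hx⟩ := Finite.exists_max fun x : a.1 => i (inl x)
        exact ⟨succ (i (inl x)), fun x' => lt_succ_iff.2 (hx x'),
          fun x' => succ_le_of_lt (i.mono (inl_lt_inr x x'))⟩
    obtain ⟨j, h1, h2⟩ := this
    exact ⟨j, (res (inl.trans i) _ fun x => lt_of_lt_of_eq (h1 x) (hi j).1.symm,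
      res (inr.trans i) _ fun x => le_of_eq_of_le (hi j).1 (h2 x)), fun _ => rfl, fun _ => rfl⟩
  choose j k k1 k2 using hk
  refine ⟨T, fun x => u ⊥ ((F ⊥).y x), fun a h i z => u (j a h i) ((F _).c (Z.mp (k a h i) z)),
    K.comp (hi ⊥).2.1 (u1 ⊥), fun a h i => K.comp (K.comp (Z.hom _) (hi _).2.2.1) (u1 _),
    fun a' a h' h i e z => ?_, fun a h i x => ?_⟩
  · beta_reduce
    rw [Z.mp_comp]
    exact hc _ _ a' (L2.comp e (k a h i)) (k a' h' ((L2.um e).trans i))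
      ⟨fun x => (k1 a h i (e.1 x)).trans (k1 a' h' ((L2.um e).trans i) x).symm,
      fun x => (k2 a h i (e.2 x)).trans (k2 a' h' ((L2.um e).trans i) x).symm⟩ z
  · refine Eq.trans (congrArg (u _) ((congrArg _ (φ.nat _ x).symm).trans (((hi _).2.2.2 _).trans
      (congrArg _ (Y.mp_eq (fun p => ?_) x))))) (hy _ _)
    induction p using add_ind with
    | l p => exact k1 a h i p
    | r p => exact k2 a h i p

end CofP

end Pool.Agent.P.MP_860a31_lc.H
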