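import Pool.Agent.P.MP_860a31_lc.H.Nt

/-!
Connected components of a natural order.
-/

open Cardinal hiding univ
open Set Order Function

namespace Pool.Agent.P.MP_860a31_lc.H

open LO E Fu

/-- classes of the equivalence relation generated by a locally countable relation are countable -/
theorem countable_eqvGen {α : Type} (r : α → α → Prop)
    (h : ∀ p, {q | r p q ∨ r q p}.Countable) (p : α) : {q | Relation.EqvGen r p q}.Countable := by
  let R : ℕ → Set α := fun k => Nat.rec {p} (fun _ s => ⋃ x ∈ s, {q | r x q ∨ r q x}) k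
  have hR : ∀ k, (R k).Countable := fun k => by
    induction k with
    | zero => exact countable_singleton p
    | succ k ih => exact ih.biUnion fun x _ => h x
  have key : ∀ q q', Relation.EqvGen r q q' → (q ∈ ⋃ k, R k ↔ q' ∈ ⋃ k, R k) := fun q q' e => by
    induction e with
    | rel x y e =>
      simp only [mem_iUnion]
      exact ⟨fun ⟨k, hk⟩ => ⟨k + 1, mem_biUnion hk (Or.inl e)⟩,
        fun ⟨k, hk⟩ => ⟨k + 1, mem_biUnion hk (Or.inr e)⟩⟩
    | refl x => rfl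
    | symm x y _ ih => exact ih.symm
    | trans x y z _ _ ih ih' => exact ih.trans ih'
  exact (countable_iUnion hR).mono fun q hq => (key p q hq).1 (mem_iUnion.2 ⟨0, rfl⟩)

theorem fin1' (Q : NO L1) (a : LO) (y : Q.ob a) :
    ∃ (n : ℕ) (t : Em (LO.fin n) a) (x : Q.ob (LO.fin n)), Q.mp t x = y := by
  obtain ⟨b, h, y0, hb, rfl⟩ := Q.fin a y
  obtain ⟨n, e, e', h1, -⟩ := exists_fin b
  exact ⟨n, e'.trans h, Q.mp e y0,
    Q.mp_eq (f := e) (g := e'.trans h) (fun x => congrArg h (h1 x)) y0⟩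

theorem comps (Q : NO L1) : ∃ (Γ : Type) (cl : ∀ a : LO, Q.ob a → Γ),
    (∀ (a b : LO) (f : Em a b) y, cl b (Q.mp f y) = cl a y) ∧
    (∀ ν : Cardinal.{0}, ℵ₀ ≤ ν → Q.Lev ν → #Γ ≤ ν) ∧
    ∀ (n : ℕ) (γ : Γ), {y | cl (LO.fin n) y = γ}.Countable := by
  let α := Σ n, (Q.ob (LO.fin n)).car
  let r : α → α → Prop := fun p q => ∃ a : Em (LO.fin p.1) (LO.fin q.1), Q.mp a p.2 = q.2
  have hc : ∀ m n, Countable (Em (LO.fin m) (LO.fin n)) := fun m n =>
    mk_le_aleph0_iff.1 (Em.card_fin m n)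
  have hr : ∀ p, {q | r p q ∨ r q p}.Countable := fun p => by
    refine Set.Countable.union (s := {q | r p q}) (t := {q | r q p}) ?_ ?_
    · refine (countable_range fun u : Σ n, Em (LO.fin p.1) (LO.fin n) =>
        (⟨u.1, Q.mp u.2 p.2⟩ : α)).mono ?_
      rintro ⟨n, y⟩ ⟨a, e⟩
      exact ⟨⟨n, a⟩, congrArg (Sigma.mk n) e⟩
    · refine (countable_iUnion fun u : Σ n, Em (LO.fin n) (LO.fin p.1) =>
        (Subsingleton.countable (s := {y | Q.mp u.2 y = p.2}) fun x hx y hy =>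
          (Q.mp u.2).inj (hx.trans hy.symm)).image fun y => (⟨u.1, y⟩ : α)).mono ?_
      rintro ⟨n, y⟩ ⟨a, e⟩
      exact mem_iUnion.2 ⟨⟨n, a⟩, y, e, rfl⟩
  choose n t x hx using fin1' Q
  have key : ∀ (a : LO) k (s : Em (LO.fin k) a) z,
      Quot.mk r ⟨n a (Q.mp s z), x a (Q.mp s z)⟩ = Quot.mk r ⟨k, z⟩ := fun a k s z => by
    obtain ⟨l, u, b, b', h, h'⟩ := Em.ref (t a (Q.mp s z)) s
    have e : Q.mp b (x a (Q.mp s z)) = Q.mp b' z := (Q.mp u).inj (by
      rw [Q.mp_mp, Q.mp_mp, L1_comp, L1_comp, h, h', hx])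
    exact (Quot.sound (r := r) (b := ⟨l, _⟩) ⟨b, e⟩).trans
      (Quot.sound (r := r) (a := ⟨k, z⟩) (b := ⟨l, _⟩) ⟨b', rfl⟩).symm
  refine ⟨Quot r, fun a y => Quot.mk r ⟨n a y, x a y⟩, fun a b f y => ?_, fun ν hν hQ => ?_,
    fun k γ => ?_⟩
  · have := key b _ ((t a y).trans f) (x a y)
    rwa [← L1_comp, ← Q.mp_mp, hx] at this
  · exact card_cover (fun k (z : Q.ob (LO.fin k)) => Quot.mk r ⟨k, z⟩)
      (fun γ => Quot.inductionOn γ fun p => ⟨p.1, p.2, rfl⟩) hν (by rwa [mk_nat])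
      fun k => hQ _ inferInstance
  · induction γ using Quot.inductionOn with | _ p => ?_
    refine ((countable_eqvGen r hr p).preimage_of_injOn (f := fun y => (⟨k, y⟩ : α))
      (sigma_mk_injective (β := fun n => (Q.ob (LO.fin n)).car)).injOn).mono fun y hy => ?_
    have := key _ k (rf _) y
    rw [← L1_id, Q.mp_rf] at this
    exact Quot.eqvGen_exact (hy.symm.trans this)

end Pool.Agent.P.MP_860a31_lc.H
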