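import Pool.Agent.P.MP_860a31_lc.H.CoreS

/-!
The core lemma.
-/

open Cardinal hiding univ
open Set Order Function

namespace Pool.Agent.P.MP_860a31_lc.H

open LO E Fu

namespace CoreP

/-- the inverse of the copy over the unique point -/
@[reducible] def cq (I L : NO L1) : NT ((QQ I L).wh (at2 one)) (Q1 I L) :=
  NT.mk' (fun a => amap (rf _) (amap (rf a) (amap ⟨p2, fun x y h => by
      induction x using mul_ind; induction y using mul_ind
      exact (pr_lt.1 h).elim (fun h => absurd h (lt_irrefl _)) fun h => h.2⟩ (rf a))))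
    fun _ _ _ y => by
    induction y using add_ind with
    | l y => rfl
    | r y =>
      induction y using add_ind with
      | l y => rfl
      | r y => induction y using add_ind <;> rfl

theorem qq_ind {I L : NO L1} {a : L2.Obj} {p : ((QQ I L).ob a).car → Prop}
    (h1 : ∀ y, p (inl y)) (h2 : ∀ y, p (inr (inl y))) (h3 : ∀ s y, p (inr (inr (inl (pr s y)))))
    (h4 : ∀ y, p (inr (inr (inr y)))) (y : ((QQ I L).ob a).car) : p y := by
  induction y using add_ind with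
  | l y => exact h1 y
  | r y =>
    induction y using add_ind with
    | l y => exact h2 y
    | r y =>
      induction y using add_ind with
      | l y => exact h3 _ _
      | r y => exact h4 y

theorem q1_ind {I L : NO L1} {a : LO} {p : ((Q1 I L).ob a).car → Prop}
    (h1 : ∀ y, p (inl y)) (h2 : ∀ y, p (inr (inl y))) (h3 : ∀ y, p (inr (inr (inl y))))
    (h4 : ∀ y, p (inr (inr (inr y)))) (y : ((Q1 I L).ob a).car) : p y := by
  induction y using add_ind with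
  | l y => exact h1 y
  | r y =>
    induction y using add_ind with
    | l y => exact h2 y
    | r y =>
      induction y using add_ind with
      | l y => exact h3 _
      | r y => exact h4 y

variable {Λ : Type} [LinearOrder Λ] {I L : NO L1}

theorem qq_range {I' L' I'' L'' : NO L1} {n : NT I' I} {m : NT L' L} {n' : NT I'' I} {m' : NT L'' L}
    (a : L2.Obj) (y : (QQ I' L').ob a) (h1 : ∀ z, inl z = y → n.app a.1 z ∈ range (n'.app a.1))
    (h2 : ∀ s z, inr (inr (inl (pr s z))) = y → m.app a.1 z ∈ range (m'.app a.1)) :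
    (qqmap n m).app a y ∈ range ((qqmap n' m').app a) := by
  induction y using qq_ind with
  | h1 y => obtain ⟨x, e⟩ := h1 y rfl; exact ⟨inl x, congrArg inl e⟩
  | h2 y => exact ⟨inr (inl y), rfl⟩
  | h3 s y =>
    obtain ⟨x, e⟩ := h2 s y rfl
    exact ⟨inr (inr (inl (pr s x))), congrArg (fun z => inr (inr (inl (pr s z)))) e⟩
  | h4 y => exact ⟨inr (inr (inr y)), rfl⟩

/-- the chain of two-variable orders -/
@[reducible] def qch [OrderBot Λ] (c : NCh Λ I) (d : NCh Λ L) : NCh Λ (QQ I L) where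
  Q i := QQ (c.Q i) (d.Q i)
  ι i := qqmap (c.ι i) (d.ι i)
  mono i j h a := by
    rintro _ ⟨y, rfl⟩
    exact qq_range a y (fun z _ => c.mono i j h _ ⟨z, rfl⟩) fun _ z _ => d.mono i j h _ ⟨z, rfl⟩
  cont δ hδ a y := by
    induction y using qq_ind with
    | h1 y => obtain ⟨i, h, x, e⟩ := c.cont δ hδ _ y; exact ⟨i, h, inl x, congrArg inl e⟩
    | h2 y => exact ⟨⊥, hδ.bot_lt, inr (inl y), rfl⟩
    | h3 s y =>
      obtain ⟨i, h, x, e⟩ := d.cont δ hδ _ y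
      exact ⟨i, h, inr (inr (inl (pr s x))), congrArg (fun z => inr (inr (inl (pr s z)))) e⟩
    | h4 y => exact ⟨⊥, hδ.bot_lt, inr (inr (inr y)), rfl⟩
  cover a y := by
    induction y using qq_ind with
    | h1 y => obtain ⟨i, x, e⟩ := c.cover _ y; exact ⟨i, inl x, congrArg inl e⟩
    | h2 y => exact ⟨⊥, inr (inl y), rfl⟩
    | h3 s y =>
      obtain ⟨i, x, e⟩ := d.cover _ y
      exact ⟨i, inr (inr (inl (pr s x))), congrArg (fun z => inr (inr (inl (pr s z)))) e⟩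
    | h4 y => exact ⟨⊥, inr (inr (inr y)), rfl⟩

variable {C : CC} (P : LF L1 C.toPC) {T : Ct} {Qt : NO T} (q : NCh Λ Qt) (Θ : LF T C.toPC)

/-- states of the recursion -/
structure St where
  i : Λ
  Y : LF T C.toPC
  θ : Mp Θ Y
  e : Mp (P.wh (q.Q i)) Y

variable {P q Θ} (ok : Λ → ℕ → Prop)

/-- the graph of the part of `e` that is kept -/
def St.E (s : St P q Θ) (a : T.Obj) (x : C.U (P.ob (Qt.ob a))) (z : C.U (s.Y.ob a)) : Prop :=
  ∃ x0, Pc P (ok s.i) (q.Q s.i) a x0 ∧ P.mp ((q.ι s.i).app a) x0 = x ∧ s.e a x0 = z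

/-- transition maps -/
def Hm (s s' : St P q Θ) (f : ∀ a, C.U (s.Y.ob a) → C.U (s'.Y.ob a)) : Prop :=
  (∃ y : Mp s.Y s'.Y, y.app = f) ∧ (∀ a x, f a (s.θ a x) = s'.θ a x) ∧
    ∀ a x z, s.E ok a x z → s'.E ok a x (f a z)

theorem lim {ι : Type} [LinearOrder ι] [Nonempty ι] (F : ι → St P q Θ)
    (t : ∀ i j, i ≤ j → ∀ a, C.U ((F i).Y.ob a) → C.U ((F j).Y.ob a))
    (ht : ∀ i j h, Hm ok (F i) (F j) (t i j h))
    (tc : ∀ i j k (h : i ≤ j) (h' : j ≤ k) a x, t j k h' a (t i j h a x) = t i k (h.trans h') a x)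
    {Q : NO T} (n : NT Q Qt) (hn : ∀ a m (u : Em (fin m) (Q.ob a)), ∃ i, ok (F i).i m ∧
      range (u.trans (n.app a)) ⊆ range ((q.ι (F i).i).app a)) :
    ∃ (Y : LF T C.toPC) (u : ∀ i, Mp (F i).Y Y) (θ : Mp Θ Y) (e : Mp (P.wh Q) Y),
      (∀ i j h a x, u j a (t i j h a x) = u i a x) ∧ (∀ a y, ∃ i x, u i a x = y) ∧
      (∀ i a x, u i a ((F i).θ a x) = θ a x) ∧
      (∀ i a x z, (F i).E ok a (P.mp (n.app a) x) z → e a x = u i a z) ∧
      ∀ a x, ∃ i z, (F i).E ok a (P.mp (n.app a) x) z := by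
  choose y hy using fun i j h => (ht i j h).1
  obtain ⟨Y, u, h1, h2⟩ := LF.colim ι (fun i => (F i).Y) y fun i j k h h' a x => by
    simp only [hy, tc]
  simp only [hy] at h1
  have fn : ∀ i j a x z z', (F i).E ok a x z → (F j).E ok a x z' → u i a z = u j a z' := by
    intro i j a x z z' e e'
    obtain ⟨x0, -, k1, k2⟩ := (ht i _ (le_max_left i j)).2.2 a x z e
    obtain ⟨x1, -, k3, k4⟩ := (ht j _ (le_max_right i j)).2.2 a x z' e'
    obtain rfl : x0 = x1 := P.inj _ (k1.trans k3.symm)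
    rw [← h1 i _ (le_max_left i j), ← h1 j _ (le_max_right i j), ← k2, ← k4]
  have ex : ∀ a m (v : Em (fin m) (Q.ob a)), ∃ (i : ι) (v0 : Em (fin m) ((q.Q (F i).i).ob a)),
      ∀ w, (F i).E ok a (P.mp (n.app a) (P.mp v w)) ((F i).e a (P.mp v0 w)) := fun a m v => by
    obtain ⟨i, k1, k2⟩ := hn a m v
    obtain ⟨v0, hv⟩ := LO.fac _ _ k2
    exact ⟨i, v0, fun w => ⟨_, ⟨m, v0, k1, w, rfl⟩, P.mp_sq hv w, rfl⟩⟩
  have tot : ∀ a x, ∃ i z, (F i).E ok a (P.mp (n.app a) x) z := fun a x => by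
    obtain ⟨m, v, w, rfl⟩ := P.fin1 _ x
    obtain ⟨i, v0, h⟩ := ex a m v
    exact ⟨i, _, h w⟩
  have he : ∀ a, ∃ k : C.U (P.ob (Q.ob a)) → C.U (Y.ob a), C.IsH k ∧
      ∀ i x z, (F i).E ok a (P.mp (n.app a) x) z → k x = u i a z := fun a => by
    choose ix v0 hv using ex a
    obtain ⟨k, k1, k2⟩ := P.lift1 (Q.ob a) (fun m v w => u (ix m v) a ((F _).e a (P.mp (v0 m v) w)))
      (fun m v => C.comp (C.comp (P.hom _) ((F _).e.hom a)) ((u _).hom a))
      fun m m' b v w => fn _ _ a _ _ _ (hv m' v _) (by rw [P.mp_comp b v]; exact hv m _ w)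
    refine ⟨k, k1, fun i x z h => ?_⟩
    obtain ⟨m, v, w, rfl⟩ := P.fin1 _ x
    exact (k2 m v w).trans (fn _ _ a _ _ _ (hv m v w) h)
  choose k k1 k2 using he
  refine ⟨Y, u, (F (Classical.arbitrary ι)).θ.trans (u _), ⟨k, k1, fun {a b} f x => ?_⟩, h1, h2,
    fun i a x => ?_, fun i a => k2 a i, tot⟩
  · obtain ⟨i, _, x0, l1, l2, rfl⟩ := tot a x
    rw [k2 a i x _ ⟨x0, l1, l2, rfl⟩, ← (u i).nat, ← (F i).e.nat]
    refine k2 b i _ _ ⟨_, l1.map (fun _ h => h) _, ?_, rfl⟩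
    exact ((P.nt (q.ι _)).nat f x0).trans ((congrArg _ l2).trans ((P.nt n).nat f x).symm)
  · dsimp only
    rw [← h1 i _ (le_max_left i (Classical.arbitrary ι)),
      ← h1 (Classical.arbitrary ι) _ (le_max_right i _), (ht _ _ _).2.1, (ht _ _ _).2.1]

/-- a finite tuple lies in one member of a chain -/
theorem fin_bd {ι α : Type} [LinearOrder ι] (R : ι → Set α) (hR : Monotone R) {m : ℕ}
    (u : Fin m → α) (h : ∀ x, ∃ i, u x ∈ R i) (i0 : ι) : ∃ i, i0 ≤ i ∧ range u ⊆ R i := by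
  choose ix hx using h
  have : Nonempty ι := ⟨i0⟩
  obtain ⟨j, hj⟩ := Finite.exists_le ix
  exact ⟨max i0 j, le_max_left _ _, by
    rintro _ ⟨x, rfl⟩; exact hR ((hj x).trans (le_max_right _ _)) (hx x)⟩

end CoreP

open CoreP

/-- paper CORE -/
theorem core {K : KC} {S : PS K} {ν : Cardinal.{0}} (hν : K.k0 ≤ ν) (hU : UU S ν) {Λ : Type}
    [LinearOrder Λ] [WellFoundedLT Λ] [SuccOrder Λ] [OrderBot Λ] [NoMaxOrder Λ] (hΛ : #Λ ≤ ν)
    {I L : NO L1} (c : NCh Λ I) (d : NCh Λ L) (hc : ∀ i, (c.Q i).PB) (hd : ∀ i, (d.Q i).PB)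
    (lI : I.Lev ν) (lL : L.Lev ν) (ok : Λ → ℕ → Prop) (hok : ∀ i j m, i ≤ j → ok i m → ok j m)
    (hlim : ∀ δ, IsSuccLimit δ → ∀ m, ∃ i < δ, ok i m) (htop : ∀ m, ∃ i, ok i m)
    {M' : NO L1} (hM : M'.PB) (lM : M'.Lev ν) (η' : NT tau M') {D : LF L1 K.toPC} (lD : D.Lev ν)
    (p : Mp (S.P.wh (MM I)) (S.P.wh M')) (b : Mp (S.P.wh (Q1 I L)) D) (n : Mp (S.P.wh M') D)
    (hcm : ∀ a x, n a (p a x) = b a (S.P.mp ((mq I L).app a) x))
    (H : ∀ i, ∃ (D' : LF L1 K.toPC) (b' : Mp (S.P.wh (Q1 (c.Q i) (d.Q i))) D')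
      (n' : Mp (S.P.wh M') D'), D'.Lev ν ∧
      NF (S.P.nt (mq (c.Q i) (d.Q i))) ((S.P.nt (mmap' (c.ι i))).trans p) b' n' ∧
      El D D' (RO (GR n n') (GP (Pc S.P (ok i) (Q1 (c.Q i) (d.Q i)))
        ((S.P.nt (q1map (c.ι i) (d.ι i))).trans b) b'))) :
    NF (S.P.nt (mq I L)) p b n := by
  have hi := K.inf.trans hν
  have lP := S.lev.mono hν
  obtain ⟨Kd, δ, hK, lK, hδ⟩ := hU.top hν hM n lM lD
  have lc : ∀ i, (c.Q i).Lev ν := fun i => Fu.Lev.of_nt (c.ι i) lI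
  have ld : ∀ i, (d.Q i).Lev ν := fun i => Fu.Lev.of_nt (d.ι i) lL
  let Inv : Λ → St S.P (qch c d) (S.P.wh (TH M' Kd)) → Prop := fun i s => s.i = i ∧ s.Y.Lev ν ∧
    ∀ (a : LO) x z, s.E ok (a, one) x z → z = s.θ (a, one) (S.P.mp ((thc M' Kd ()).app a)
      (δ a (b a (S.P.mp ((cq I L).app a) x))))
  have step : ∀ i j (h : i ≤ j) (ok0 : ℕ → Prop), (∀ m, ok0 m → ok j m) →
      ∀ (Y : LF L2 K.toPC) (θ : Mp (S.P.wh (TH M' Kd)) Y) (e : Mp (S.P.wh (QQ (c.Q i) (d.Q i))) Y),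
      Y.Lev ν → (∀ (a : LO) x, Pc S.P ok0 (QQ (c.Q i) (d.Q i)) (a, one) x → e (a, one) x =
        θ (a, one) (S.P.mp ((thc M' Kd ()).app a) (δ a (b a (S.P.mp ((cq I L).app a)
          (S.P.mp ((qqmap (c.ι i) (d.ι i)).app (a, one)) x)))))) →
      ∃ (Y' : LF L2 K.toPC) (y : Mp Y Y') (e1 : Mp (S.P.wh (QQ (c.Q j) (d.Q j))) Y'),
        Inv j ⟨j, Y', θ.trans y, e1⟩ ∧ ∀ a x, Pc S.P ok0 (QQ (c.Q i) (d.Q i)) a x →
          y a (e a x) = e1 a (S.P.mp ((qqmap (c.tr h) (d.tr h)).app a) x) := by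
    intro i j h ok0 h0 Y θ e lY inv
    obtain ⟨D', b', n', lD', hN, hE⟩ := H j
    obtain ⟨Y', y, e1, l1, k1, k2⟩ := coreStep hν hU (hc i) (hd i) (hc j) (hd j) (lc j) (ld j)
      (c.tr h) (d.tr h) hM lM η' hK lK ok0 (ok j) h0 ((S.P.nt (mmap' (c.ι j))).trans p)
      ((S.P.nt (q1map (c.ι j) (d.ι j))).trans b) n (fun a x => (hcm a _).trans (congrArg (b a) (by
        refine S.P.mp_sq (fun y => ?_) x
        induction y using add_ind with
        | l y => rfl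
        | r y => induction y using add_ind <;> rfl))) δ hδ b' n' lD' hN hE Y lY θ e
      fun a x hx => (inv a _ (hx.map (fun _ h => h) _)).trans (by
        dsimp only
        rw [S.P.mp_comp ((cp _ _ _).app a)]
        congr 4
        rw [S.P.mp_comp ((q1map (c.tr h) (d.tr h)).app a)]
        refine S.P.mp_eq (fun y => ?_) x
        induction y using q1_ind with
        | h1 y => exact congrArg inl (c.ι_tr h a y).symm
        | h2 y => rfl
        | h3 y => exact congrArg (fun z => inr (inr (inl z))) (d.ι_tr h a y).symm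
        | h4 y => rfl)
    refine ⟨Y', y, e1, ⟨rfl, l1, ?_⟩, k1⟩
    rintro a _ _ ⟨x, hx, rfl, rfl⟩
    have e2 : x = S.P.mp ((cp (c.Q j) (d.Q j) (S := one) ()).app a)
        (S.P.mp ((cq (c.Q j) (d.Q j)).app a) x) := by
      rw [S.P.mp_comp]
      refine (S.P.mp_self (fun y => ?_) x).symm
      induction y using qq_ind <;> rfl
    refine (congrArg (e1 (a, one)) e2).trans ((k2 a _ (hx.map (fun _ h => h) _)).trans ?_)
    dsimp only
    congr 5
    refine S.P.mp_sq (fun y => ?_) x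
    induction y using qq_ind <;> rfl
  obtain ⟨Y0, θ0, e0, l0⟩ := LF.jep hν (lP.wh hi (lev_TH hi lM lK))
    (lP.wh hi (lev_QQ hi (lc ⊥) (ld ⊥)))
  obtain ⟨Y1, y1, e1, i1, -⟩ := step ⊥ ⊥ le_rfl (fun _ => False) (fun _ h => h.elim) Y0 θ0 e0 l0
    fun _ _ ⟨_, _, h, _⟩ => h.elim
  obtain ⟨F, t, -, hF, ht, -, tc, -, -⟩ := gchain1 (Λ := Λ)
    (fun (s : St S.P (qch c d) (S.P.wh (TH M' Kd))) (a : L2.Obj) => K.U (s.Y.ob a)) (Hm ok)
    (fun s => ⟨⟨Mp.rfl' _, rfl⟩, fun _ _ => rfl, fun _ _ _ h => h⟩)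
    (by
      rintro s s' s'' _ _ ⟨⟨y, rfl⟩, h1, h2⟩ ⟨⟨y', rfl⟩, h3, h4⟩
      exact ⟨⟨y.trans y', rfl⟩, fun a x => (congrArg (y' a) (h1 a x)).trans (h3 a x),
        fun a x z h => h4 a x _ (h2 a x z h)⟩)
    Inv (fun _ _ _ _ => True) _ i1
    (by
      rintro _ ⟨i, Y, θ, e⟩ ⟨rfl, l1, inv⟩
      obtain ⟨Y', y, e', k1, k2⟩ := step i (succ i) (le_succ i) (ok i)
        (fun m => hok _ _ m (le_succ i)) Y θ e l1 fun a x hx => inv a _ _ ⟨x, hx, rfl, rfl⟩
      refine ⟨_, y.app, ⟨⟨y, rfl⟩, fun _ _ => rfl, ?_⟩, k1, trivial⟩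
      rintro a _ _ ⟨x, hx, rfl, rfl⟩
      refine ⟨_, hx.map (fun m => hok _ _ m (le_succ i)) _, S.P.mp_eq (fun y => ?_) x,
        (k2 a x hx).symm⟩
      induction y using qq_ind with
      | h1 y => exact congrArg inl (c.ι_tr _ _ y)
      | h2 y => rfl
      | h3 s y => exact congrArg (fun z => inr (inr (inl (pr s z)))) (d.ι_tr _ _ y)
      | h4 y => rfl)
    (by
      intro γ hγ ch hI _
      have : Nonempty (Iio γ) := ⟨⟨⊥, hγ.bot_lt⟩⟩
      obtain ⟨Y, u, θ, e, k1, k2, k3, k4, k5⟩ := lim ok ch.F ch.t ch.hom ch.t_comp ((qch c d).ι γ)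
        fun a m v => by
          obtain ⟨i0, h0, h1⟩ := hlim γ hγ m
          obtain ⟨i, h2, h3⟩ := fin_bd (fun i : Iio γ => range (((qch c d).ι i.1).app a))
            (fun i j h => (qch c d).mono _ _ h a) (v.trans (((qch c d).ι γ).app a))
            (fun x => by
              obtain ⟨i, h, e⟩ := (qch c d).cont γ hγ a (v x)
              exact ⟨⟨i, h⟩, e⟩) ⟨i0, h0⟩
          exact ⟨i, (hI i).1.symm ▸ ⟨hok _ _ m h2 h1, h3⟩⟩
      refine ⟨⟨γ, Y, θ, e⟩, fun i => (u i).app, ⟨rfl, LF.lev_cover _ u k2 hi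
        ((mk_set_le _).trans hΛ) fun i => (hI i).2.1, ?_⟩, fun i => ⟨⟨u i, rfl⟩, k3 i, ?_⟩, k1, k2⟩
      · rintro a _ _ ⟨x, -, rfl, rfl⟩
        obtain ⟨i, z, h⟩ := k5 _ x
        exact (k4 i _ x z h).trans ((congrArg (u i _) ((hI i).2.2 a _ z h)).trans (k3 i _ _))
      · rintro a _ _ ⟨x, hx, rfl, rfl⟩
        have hle : (ch.F i).i ≤ γ := (hI i).1.le.trans i.2.le
        have e1 := S.P.mp_eq (fun y => (qch c d).ι_tr hle a y) x
        exact ⟨_, hx.map (fun m => hok _ _ m hle) (((qch c d).tr hle).app a), e1,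
          k4 i a _ _ ⟨x, hx, e1.symm, rfl⟩⟩)
  have : Nonempty Λ := ⟨⊥⟩
  obtain ⟨Y, u, θ, e, -, k2, k3, k4, k5⟩ := lim ok F t ht tc (NT.rfl' (QQ I L)) fun a m v => by
    obtain ⟨i0, h1⟩ := htop m
    obtain ⟨i, h2, h3⟩ := fin_bd (fun i => range (((qch c d).ι i).app a))
      (fun i j h => (qch c d).mono _ _ h a) v (fun x => (qch c d).cover a (v x)) i0
    exact ⟨i, (hF i).1.symm ▸ ⟨hok _ _ m h2 h1, h3⟩⟩
  have hQ : (QQ I L).PB := pb_QQ (c.pb_top hc) (d.pb_top hd)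
  obtain ⟨J, ψ, hJ, -, hψ⟩ := hU.top hν hQ e (lev_QQ hi lI lL)
    (LF.lev_cover _ u k2 hi hΛ fun i => (hF i).2.1)
  let k' := (S.P.nt (thz M' Kd zero)).trans ((θ.trans ψ).wh (at2 zero))
  let m := δ.trans ((S.P.nt (thc M' Kd ())).trans ((θ.trans ψ).wh (at2 one)))
  let m1 := (cp I L (S := one) ()).trans ((NT.inl (QQ I L) J).wh (at2 one))
  let m2 := NT.ap ((QQ I L).add J) (NT.at2 (emp one))
  have hm : ∀ a x, m a (b a x) = S.P.nt m1 a x := fun a x => by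
    obtain ⟨i, z, h⟩ := k5 (a, one) (S.P.mp ((cp I L (S := one) ()).app a) x)
    have e1 := (k4 i _ _ z h).trans ((congrArg (u i _) ((hF i).2.2 a _ z h)).trans (k3 i _ _))
    have e2 : S.P.mp ((cq I L).app a) (S.P.mp ((NT.rfl' (QQ I L)).app (a, one))
        (S.P.mp ((cp I L (S := one) ()).app a) x)) = x := by
      rw [S.P.mp_comp, S.P.mp_comp]
      refine S.P.mp_self (fun y => ?_) x
      induction y using q1_ind <;> rfl
    rw [e2] at e1
    exact (congrArg (ψ _) e1.symm).trans ((hψ _ _).trans (S.P.mp_comp _ _ _))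
  have hm' : ∀ a x, m a (n a x) = S.P.nt m2 a (k' a x) := fun a x => by
    refine Eq.trans (congrArg ((θ.trans ψ) (a, one)) ?_)
      ((θ.trans ψ).nat (a := (a, zero)) (b := (a, one)) (rf a, emp one) _)
    dsimp only
    rw [hδ]
    refine S.P.mp_sq (fun y => ?_) _
    exact congrArg inl (M'.mp_rf a y).symm
  have hc' : ∀ a y, m1.app a ((mq I L).app a y) =
      m2.app a (((mz I L zero).trans ((NT.inl (QQ I L) J).wh (at2 zero))).app a y) := fun a y => by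
    induction y using add_ind with
    | l y => exact congrArg (fun z => inl (inl z)) (I.mp_rf a y).symm
    | r y => induction y using add_ind <;> rfl
  refine (std S (pb_MM (c.pb_top hc)) (PB.wh (hQ.add hJ) (pb_at2 zero)) (mη I) (mq I L) _ m1 m2 hc'
    fun a y ⟨w, hw⟩ => ?_).down (Mp.rfl' _) k' m (fun _ _ => rfl) (fun a x => ?_) hm hm'
  · induction y using q1_ind with
    | h1 y => exact ⟨inl y, rfl⟩
    | h2 y => exact ⟨inr (inl y), rfl⟩
    | h4 y => exact ⟨inr (inr y), rfl⟩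
    | h3 y =>
      induction w using add_ind with
      | r w => exact absurd hw (inr_ne_inl _ _)
      | l w =>
        induction w using qq_ind with
        | h1 w => exact absurd (inl.inj hw) (inl_ne_inr _ _)
        | h2 w => exact absurd (inr.inj (inl.inj hw)) (inl_ne_inr _ _)
        | h3 s w => exact s.elim0
        | h4 w => exact absurd (inr.inj (inr.inj (inl.inj hw))) (inr_ne_inl _ _)
  · refine (S.P.nt m2).inj a ?_
    rw [← hm', hcm, hm]
    exact S.P.mp_sq (hc' a) x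

end Pool.Agent.P.MP_860a31_lc.H
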