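import Pool.Agent.P.MP_860a31_lc.H.Std

/-!
The core lemma, parts (2) and (3) of the step.
-/

open Cardinal hiding univ
open Set Order Function

namespace Pool.Agent.P.MP_860a31_lc.H

open LO E Fu

/-- parts (2) and (3): `Y` contains copies of `D` over `M'`; the relation `R0` -/
theorem core3 {K : KC} {S : PS K} {ν : Cardinal.{0}} (hν : K.k0 ≤ ν) (hU : UU S ν)
    {I L M' Kd : NO L1} (hI : I.PB) (lI : I.Lev ν) (hM : M'.PB) (lM : M'.Lev ν) (η' : NT tau M')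
    (hK : Kd.PB) (lK : Kd.Lev ν) {D : LF L1 K.toPC} (ok : ℕ → Prop)
    (p : Mp (S.P.wh (MM I)) (S.P.wh M')) (b : Mp (S.P.wh (Q1 I L)) D) (n : Mp (S.P.wh M') D)
    (δ : Mp D (S.P.wh (M'.add Kd))) (hδ : ∀ a x, δ a (n a x) = S.P.mp inl x)
    {D' : LF L1 K.toPC} (b' : Mp (S.P.wh (Q1 I L)) D') (n' : Mp (S.P.wh M') D') (lD' : D'.Lev ν)
    (hN : NF (S.P.nt (mq I L)) p b' n')
    (hE : El D D' (RO (GR n n') (GP (Pc S.P ok (Q1 I L)) b b')))
    (Y : LF L2 K.toPC) (lY : Y.Lev ν) (θ : Mp (S.P.wh (TH M' Kd)) Y) :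
    El (Y.wh (at2 one)) ((Y.wh (at2 zero)).wh (tS L))
      (RO (GR (Y.nt (NT.at2 (emp one))) (tU (Y.wh (at2 zero)) L))
        (GP (Pc S.P ok (Q1 I L))
          (b.trans (δ.trans ((S.P.nt (thc M' Kd ())).trans (θ.wh (at2 one)))))
          ((S.P.nt (sN I L)).trans
            ((p.trans ((S.P.nt (thz M' Kd zero)).trans (θ.wh (at2 zero)))).wh (tS L))))) := by
  have hi := K.inf.trans hν
  have lN : (Y.wh (at2 zero)).Lev ν := lY.wh hi (lev_at2 hi (mk_le_aleph0.trans hi))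
  let jN : Mp (S.P.wh M') (Y.wh (at2 zero)) := (S.P.nt (thz M' Kd zero)).trans (θ.wh (at2 zero))
  obtain ⟨J, ψ, hJ, -, hψ⟩ := hU.top hν (pb_TH hM hK) θ (lev_TH hi lM lK) lY
  have s2 := std S (I1 := M'.add Kd) (I3 := ((TH M' Kd).add J).wh (at2 one)) hM
    (Fu.PB.wh (Fu.PB.add (pb_TH hM hK) hJ) (pb_at2 zero)) η' (NT.inl M' Kd)
    ((thz M' Kd zero).trans ((NT.inl (TH M' Kd) J).wh (at2 zero)))
    ((thc M' Kd ()).trans ((NT.inl (TH M' Kd) J).wh (at2 one)))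
    (NT.ap ((TH M' Kd).add J) (NT.at2 (emp one)))
    (fun a y => congrArg (fun s => inl (inl s)) (M'.mp_rf a y).symm) (by
      rintro a y ⟨z, hz⟩
      induction y using add_ind with
      | l y => exact ⟨y, rfl⟩
      | r y =>
        induction z using add_ind with
        | l z =>
          induction z using add_ind with
          | l z => exact absurd (inl.inj hz) (inl_ne_inr _ _)
          | r z => exact (p1 z).elim0
        | r z => exact absurd hz (inr_ne_inl _ _))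
  have h2 : NF n jN (δ.trans ((S.P.nt (thc M' Kd ())).trans (θ.wh (at2 one))))
      (Y.nt (NT.at2 (emp one))) :=
    s2.down δ (ψ.wh (at2 zero)) (ψ.wh (at2 one)) hδ
      (fun a x => (hψ (a, zero) _).trans (S.P.mp_comp _ _ x))
      (fun a x => (hψ (a, one) _).trans (S.P.mp_comp _ _ _))
      fun a x => ψ.nat (a := (a, zero)) (b := (a, one)) (rf a, emp one) x
  have h3 := (NF.ofT (j := S.P.nt (mq I L)) (e := tU (Y.wh (at2 zero)) L)
    (n := (S.P.nt (sN I L)).trans ((p.trans jN).wh (tS L)))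
    (hU.be (pb_MM hI) (mη I) (p.trans jN) (lev_MM hi lI) lN) (S.P.nt (sN I L))
    (fun a x => S.P.mp_eq (fun y => by
      induction y using add_ind with
      | l y => rfl
      | r y => induction y using add_ind <;> rfl) x)
    (El.of_hom (Mp.rfl' _) (by rintro a _ _ (⟨w, rfl, rfl⟩ | ⟨w, rfl, rfl⟩) <;> rfl))).sym
      (pb_MM hI) (mη I)
  obtain ⟨D2, e2, n2, h4⟩ := NF.ex (hU.be hM η' n' lM lD') (hU.te hM η' jN lM lN)
  refine (h2.uq h4 hE).trans ((hN.tr1 h4).uq0 h3) ?_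
  rintro a _ _ (⟨w, rfl, rfl⟩ | ⟨w, hw, rfl, rfl⟩)
  · exact ⟨_, Or.inl ⟨w, rfl, rfl⟩, Or.inl ⟨w, rfl, rfl⟩⟩
  · exact ⟨_, Or.inr ⟨_, _, ⟨w, hw, rfl, rfl⟩, rfl, rfl⟩, Or.inr ⟨w, rfl, rfl⟩⟩

end Pool.Agent.P.MP_860a31_lc.H
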