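import Pool.Agent.P.MP_860a31_lc.H.Df

/-!
The three compatible moves used in the step of the core lemma.
-/

open Cardinal hiding univ
open Set Order Function

namespace Pool.Agent.P.MP_860a31_lc.H

open LO E Fu

namespace MovP

variable {K : KC} (S : PS K) (I L : NO L1) (J : NO L2)

/-- the part below the second block -/
abbrev aN : NO L2 := (I.wh v1).add (v1.add (v2.mul (L.wh v1)))

/-- the whole order -/
abbrev QY : NO L2 := (QQ I L).add J

/-- the junk, as a function of `(τ, S, S0)` -/
abbrev OF : NO L3 := S.O.wh (((aN I L).wh (w1.pair w2)).pair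
  ((w1.add (J.wh (w1.pair w3))).pair ((QY I L J).wh (w1.pair w2))))

/-- the old points -/
def iE (τ : LO) {s s0 : LO} (k : Em s0 s) :
    Em (((aN I L).ob (τ, s)).add (τ.add (J.ob (τ, s0)))) ((QY I L J).ob (τ, s)) :=
  elim ((amap (rf _) (amap (rf τ) inl)).trans inl)
    (elim (inr.trans (inr.trans (inr.trans inl))) ((J.mp (a := (τ, s0)) (b := (τ, s))
      (rf τ, k)).trans inr) fun _ _ => inl_lt_inr _ _) fun x y => by
    induction y using add_ind with
    | r y => exact inl_lt_inr _ _
    | l y =>
      induction x using add_ind with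
      | l x => simp
      | r x => induction x using add_ind <;> simp

/-- the data of a move -/
structure Dt where
  τ : LO
  s : LO
  s0 : LO
  σ : LO
  k : Em s0 s
  ω : Em τ σ
  m : Em (s.mul (L.ob τ)) ((s0.mul (L.ob σ)).add σ)
  o : Em ((OF S I L J).ob (τ, s, s0)) σ
  h1 : ∀ z w, m z < inr (o w)
  h2 : ∀ w y, o w < ω y
  h3 : ∀ z y, m z < inr (ω y)

variable {S I L J}

/-- the target of a move -/
def Dt.tg (D : Dt S I L J) : Em (((aN I L).ob (D.τ, D.s)).add (((OF S I L J).ob (D.τ, D.s, D.s0)).add
    (D.τ.add (J.ob (D.τ, D.s0))))) ((QY I L J).ob (D.σ, D.s0)) :=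
  elim ((amap (I.mp D.ω) (amap D.ω D.m)).trans inl)
    (elim (D.o.trans (inr.trans (inr.trans (inr.trans inl))))
      (elim (D.ω.trans (inr.trans (inr.trans (inr.trans inl))))
        ((J.mp (a := (D.τ, D.s0)) (b := (D.σ, D.s0)) (D.ω, rf _)).trans inr)
        fun _ _ => inl_lt_inr _ _) fun x y => by
      induction y using add_ind with
      | r y => exact inl_lt_inr _ _
      | l y => simpa using D.h2 x y) fun x y => by
    induction y using add_ind with
    | l y =>
      induction x using add_ind with
      | l x => simp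
      | r x =>
        induction x using add_ind with
        | l x => simp
        | r x => simpa using D.h1 x y
    | r y =>
      induction y using add_ind with
      | r y => exact inl_lt_inr _ _
      | l y =>
        induction x using add_ind with
        | l x => simp
        | r x =>
          induction x using add_ind with
          | l x => simp
          | r x => simpa using D.h3 x y

/-- the move -/
def Dt.U (D : Dt S I L J) (x : K.U (S.P.ob ((QY I L J).ob (D.τ, D.s)))) :
    K.U (S.P.ob ((QY I L J).ob (D.σ, D.s0))) :=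
  S.P.mp D.tg (S.u _ _ _ (iE I L J D.τ D.k) x)

theorem Dt.hom (D : Dt S I L J) : K.IsH D.U :=
  PC.comp' (S.u_hom _ _ _ (iE I L J D.τ D.k)) (S.P.hom D.tg) fun _ => rfl

theorem Dt.old (D : Dt S I L J) {B : LO} (e : Em B ((QY I L J).ob (D.τ, D.s)))
    (e' : Em B ((QY I L J).ob (D.σ, D.s0)))
    (h : ∀ b, ∃ w, iE I L J D.τ D.k w = e b ∧ D.tg (amap (rf _) inr w) = e' b)
    (x : K.U (S.P.ob B)) : D.U (S.P.mp e x) = S.P.mp e' x := by
  obtain ⟨e0, he⟩ := LO.fac e (iE I L J D.τ D.k) (by
    rintro _ ⟨b, rfl⟩
    exact (h b).imp fun _ h => h.1)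
  rw [← S.P.mp_eq (f := e0) (g := iE I L J D.τ D.k) (k := e) he, Dt.U, S.u_old, S.P.mp_comp,
    S.P.mp_comp]
  refine S.P.mp_congr (fun b => ?_) x
  obtain ⟨w, h1, h2⟩ := h b
  obtain rfl : w = e0 b := (iE I L J D.τ D.k).inj (h1.trans (he b).symm)
  exact h2

theorem Dt.nat (hJ : J.PB) (D D' : Dt S I L J) (f : Em D.τ D'.τ) (g : Em D.s D'.s)
    (g0 : Em D.s0 D'.s0) (h : Em D.σ D'.σ) (hk : ∀ x, g (D.k x) = D'.k (g0 x))
    (pb : ∀ y, g y ∈ range D'.k → y ∈ range D.k) (hω : ∀ x, h (D.ω x) = D'.ω (f x))
    (hm : ∀ z, amap (mmap g0 (L.mp h)) h (D.m z) = D'.m (mmap g (L.mp f) z))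
    (ho : ∀ w, h (D.o w) = D'.o ((OF S I L J).mp (a := (D.τ, D.s, D.s0))
      (b := (D'.τ, D'.s, D'.s0)) (f, g, g0) w)) (x : K.U (S.P.ob ((QY I L J).ob (D.τ, D.s)))) :
    D'.U (S.P.mp ((QY I L J).mp (a := (D.τ, D.s)) (b := (D'.τ, D'.s)) (f, g)) x) =
      S.P.mp ((QY I L J).mp (a := (D.σ, D.s0)) (b := (D'.σ, D'.s0)) (h, g0)) (D.U x) := by
  rw [Dt.U, Dt.U, S.u_nat (iE I L J D.τ D.k) (iE I L J D'.τ D'.k)
    ((aN I L).mp (a := (D.τ, D.s)) (b := (D'.τ, D'.s)) (f, g))
    (amap f (J.mp (a := (D.τ, D.s0)) (b := (D'.τ, D'.s0)) (f, g0)))]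
  · refine S.P.mp_sq (fun y => ?_) _
    induction y using add_ind with
    | l y =>
      induction y using add_ind with
      | l y => exact congrArg (fun z => inl (inl z)) (I.mp_sq (fun z => (hω z).symm) y)
      | r y =>
        induction y using add_ind with
        | l y => exact congrArg (fun z => inl (inr (inl z))) (hω y).symm
        | r y => exact congrArg (fun z => inl (inr (inr z))) (hm y).symm
    | r y =>
      induction y using add_ind with
      | l y => exact congrArg (fun z => inl (inr (inr (inr z)))) (ho y).symm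
      | r y =>
        induction y using add_ind with
        | l y => exact congrArg (fun z => inl (inr (inr (inr z)))) (hω y).symm
        | r y =>
          refine congrArg inr (J.mp_sq (fun z => ?_) y)
          induction z using add_ind with
          | l z => exact congrArg inl (hω z).symm
          | r z => rfl
  · intro y
    induction y using add_ind with
    | l y =>
      induction y using add_ind with
      | l y => rfl
      | r y => induction y using add_ind <;> rfl
    | r y =>
      induction y using add_ind with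
      | l y => rfl
      | r y =>
        refine congrArg inr (J.mp_sq (fun z => ?_) y)
        induction z using add_ind with
        | l z => rfl
        | r z => exact congrArg inr (hk z)
  · rintro y ⟨w, hw⟩
    induction y using add_ind with
    | l y =>
      induction y using add_ind with
      | l y => exact ⟨inl (inl y), rfl⟩
      | r y =>
        induction y using add_ind with
        | l y => exact ⟨inl (inr (inl y)), rfl⟩
        | r y =>
          induction y using add_ind with
          | l y => exact ⟨inl (inr (inr y)), rfl⟩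
          | r y => exact ⟨inr (inl y), rfl⟩
    | r y =>
      obtain ⟨w', hw'⟩ : ∃ w', J.mp (a := (D'.τ, D'.s0)) (b := (D'.τ, D'.s)) (rf _, D'.k) w' =
          J.mp (a := (D.τ, D.s)) (b := (D'.τ, D'.s)) (f, g) y := by
        induction w using add_ind with
        | l w => exact absurd hw (inl_ne_inr _ _)
        | r w =>
          induction w using add_ind with
          | l w => exact absurd hw (inl_ne_inr _ _)
          | r w => exact ⟨w, inr.inj hw⟩
      obtain ⟨y0, h0⟩ := hJ (a := (D'.τ, D'.s)) (a1 := (D.τ, D.s)) (a2 := (D'.τ, D'.s0))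
        (a0 := (D.τ, D.s0)) (f, g) (rf _, D'.k) (f, D.k.trans g) (by
          rintro _ ⟨⟨z, rfl⟩, z', hz⟩
          induction z using add_ind with
          | l z => exact ⟨inl z, rfl⟩
          | r z =>
            induction z' using add_ind with
            | l z' => exact absurd hz (inl_ne_inr _ _)
            | r z' =>
              obtain ⟨v, rfl⟩ := pb z ⟨z', inr.inj hz⟩
              exact ⟨inr v, rfl⟩) ⟨⟨y, rfl⟩, w', hw'⟩
      refine ⟨inr (inr y0), congrArg inr ((J.mp (a := (D.τ, D.s)) (b := (D'.τ, D'.s)) (f, g)).inj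
        ((J.mp_mp _ _ y0).trans h0))⟩

variable (S I L J) (L' : NO L1) (s : LO)

/-- the common junk -/
abbrev Ost : NO L1 := (OF S I L J).wh ((tS L').pair ((cst L1 (one.add s)).pair (cst L1 one)))

/-- the block that is put below the context -/
abbrev XX : NO L1 := (Fu.mul (cst L1 s) (L.wh (tS L'))).add (Ost S I L J L' s)

/-- the first move -/
@[reducible] def D1 (τ : LO) : Dt S I L J where
  τ := τ
  s := one.add s
  s0 := one
  σ := (bS (XX S I L J L' s)).ob τ
  k := inl
  ω := inr
  m := dis ((L.mp inr).trans ((cop ()).trans inl))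
    ((mmap (rf s) (L.mp inl)).trans (inl.trans (inl.trans inr))) fun _ _ => inl_lt_inr _ _
  o := ((OF S I L J).mp (a := (τ, one.add s, one)) (b := (τ.add (L'.ob τ), one.add s, one))
    (inl, rf _, rf _)).trans (inr.trans inl)
  h1 z w := by
    induction z using mul_ind with | _ u z => ?_
    induction u using add_ind <;> simp
  h2 _ _ := inl_lt_inr _ _
  h3 z w := by
    induction z using mul_ind with | _ u z => ?_
    induction u using add_ind <;> simp

/-- the second move -/
@[reducible] def D2 (τ : LO) : Dt S I L J where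
  τ := (tS L').ob τ
  s := s
  s0 := zero
  σ := (tS L').ob ((bS (XX S I L J L' s)).ob τ)
  k := emp s
  ω := (tS L').mp inr
  m := inl.trans (inl.trans (inl.trans inr))
  o := ((OF S I L J).mp (a := (τ.add (L'.ob τ), s, zero)) (b := (τ.add (L'.ob τ), one.add s, one))
    (rf _, inr, emp _)).trans (inr.trans (inl.trans inl))
  h1 z w := by simp
  h2 _ y := by induction y using add_ind <;> simp
  h3 z y := by induction y using add_ind <;> simp

/-- the common restriction -/
@[reducible] def D0 (τ : LO) : Dt S I L J where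
  τ := τ
  s := s
  s0 := zero
  σ := (bS (XX S I L J L' s)).ob τ
  k := emp s
  ω := inr
  m := (mmap (rf s) (L.mp inl)).trans (inl.trans (inl.trans inr))
  o := ((OF S I L J).mp (a := (τ, s, zero)) (b := (τ.add (L'.ob τ), one.add s, one))
    (inl, inr, emp _)).trans (inr.trans inl)
  h1 z w := by simp
  h2 _ _ := inl_lt_inr _ _
  h3 z y := by simp

/-- all copies but the lowest go into the new block -/
@[reducible] def bot : NT ((QQ I L).wh (at2 (one.add s))) ((Q1 I L).wh (bS (XX S I L J L' s))) :=
  NT.mk' (fun τ => amap (I.mp inr) (amap inr (elim (dis ((L.mp inr).trans inl)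
      ((mmap (rf s) (L.mp inl)).trans (inl.trans (inl.trans inr))) fun _ _ => inl_lt_inr _ _)
      (inr.trans inr) fun z y => by
        induction z using mul_ind with | _ u z => ?_
        induction u using add_ind <;> simp))) fun a b f y => by
    induction y using add_ind with
    | l y =>
      exact congrArg inl (I.mp_sq (f := f) (g' := (bS (XX S I L J L' s)).mp f) (fun _ => rfl) y)
    | r y =>
      induction y using add_ind with
      | l y => rfl
      | r y =>
        induction y using add_ind with
        | r y => rfl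
        | l y =>
          induction y using mul_ind with | _ u z => ?_
          induction u using add_ind with
          | l u =>
            exact congrArg (fun w => inr (inr (inl w)))
              (L.mp_sq (f := f) (g' := (bS (XX S I L J L' s)).mp f) (fun _ => rfl) z)
          | r u =>
            exact congrArg (fun w => inr (inr (inr (inl (inl (pr u w))))))
              (L.mp_sq (f := f) (g := inl) (f' := inl) (g' := (tS L').mp f) (fun _ => rfl) z)

variable {S I L J} (hJ : J.PB)

/-- the first move as a map of families -/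
@[reducible] def u1 : Mp ((S.P.wh (QY I L J)).wh (at2 (one.add s)))
    (((S.P.wh (QY I L J)).wh (at2 one)).wh (bS (XX S I L J L' s))) where
  app τ := (D1 S I L J L' s τ).U
  hom _ := Dt.hom _
  nat {a b} f := Dt.nat hJ (D1 S I L J L' s a) (D1 S I L J L' s b) f (rf _) (rf _)
    ((bS (XX S I L J L' s)).mp f) (fun _ => rfl) (fun _ h => h) (fun _ => rfl) (fun z => by
      induction z using mul_ind with | _ u z => ?_
      induction u using add_ind with
      | l u =>
        exact congrArg (fun w => inl (pr u w))
          (L.mp_sq (f' := f) (g := (bS (XX S I L J L' s)).mp f) (fun _ => rfl) z)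
      | r u =>
        exact congrArg (fun w => inr (inl (inl (pr u w))))
          (L.mp_sq (f' := f) (g' := inl) (f := inl) (g := (tS L').mp f) (fun _ => rfl) z))
    fun w => congrArg (fun z => inl (inr z)) ((OF S I L J).mp_sq (fun z => by
      induction z using add_ind <;> rfl) w)

/-- the second move as a map of families -/
@[reducible] def u2 : Mp (((S.P.wh (QY I L J)).wh (at2 s)).wh (tS L'))
    ((((S.P.wh (QY I L J)).wh (at2 zero)).wh (tS L')).wh (bS (XX S I L J L' s))) where
  app τ := (D2 S I L J L' s τ).U
  hom _ := Dt.hom _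
  nat {a b} f := Dt.nat hJ (D2 S I L J L' s a) (D2 S I L J L' s b) ((tS L').mp f) (rf _) (rf _)
    ((tS L').mp ((bS (XX S I L J L' s)).mp f)) (fun _ => rfl) (fun _ h => h)
    (fun x => (tS L').mp_sq (f := inr) (g := (bS (XX S I L J L' s)).mp f) (f' := f) (g' := inr)
      (fun _ => rfl) x) (fun _ => rfl)
    fun w => congrArg (fun z => inl (inl (inr z))) ((OF S I L J).mp_sq (fun z => by
      induction z using add_ind with
      | l z => rfl
      | r z => induction z using add_ind <;> rfl) w)

/-- the common restriction as a map of families -/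
@[reducible] def n0 : Mp ((S.P.wh (QY I L J)).wh (at2 s))
    (((S.P.wh (QY I L J)).wh (at2 zero)).wh (bS (XX S I L J L' s))) where
  app τ := (D0 S I L J L' s τ).U
  hom _ := Dt.hom _
  nat {a b} f := Dt.nat hJ (D0 S I L J L' s a) (D0 S I L J L' s b) f (rf _) (rf _)
    ((bS (XX S I L J L' s)).mp f) (fun _ => rfl) (fun _ h => h) (fun _ => rfl) (fun z => by
      induction z using mul_ind with | _ u z => ?_
      exact congrArg (fun w => inr (inl (inl (pr u w))))
        (L.mp_sq (f' := f) (g' := inl) (f := inl) (g := (tS L').mp f) (fun _ => rfl) z))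
    fun w => congrArg (fun z => inl (inr z)) ((OF S I L J).mp_sq (fun z => by
      induction z using add_ind with
      | l z => rfl
      | r z => induction z using add_ind <;> rfl) w)

theorem a1 (a : LO) (y : K.U (S.P.ob ((QY I L J).ob (a, s)))) :
    u1 L' s hJ a ((S.P.wh (QY I L J)).mp (a := (a, s)) (b := (a, one.add s)) (rf a, inr) y) =
      (S.P.wh (QY I L J)).mp (a := (_, zero)) (b := (_, one)) (rf _, emp one) (n0 L' s hJ a y) :=
  Dt.nat hJ (D0 S I L J L' s a) (D1 S I L J L' s a) (rf a) inr (emp one) (rf _)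
    (fun x => x.elim0) (fun _ ⟨_, h⟩ => absurd h (inl_ne_inr _ _)) (fun _ => rfl) (fun z => by
      induction z using mul_ind with | _ u z => ?_
      exact congrArg (fun w => inr (inl (inl (pr u w))))
        (L.mp_eq (f := rf a) (g := inl) (k := inl) (fun _ => rfl) z).symm)
    (fun w => congrArg (fun z => inl (inr z)) ((OF S I L J).mp_eq (fun z => by
      induction z using add_ind with
      | l z => rfl
      | r z =>
        induction z using add_ind with
        | l z => rfl
        | r z => exact z.elim0) w).symm) y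

theorem a2 (a : LO) (y : K.U (S.P.ob ((QY I L J).ob (a, s)))) :
    u2 L' s hJ a ((S.P.wh (QY I L J)).mp (a := (a, s)) (b := ((tS L').ob a, s)) (inl, rf s) y) =
      (S.P.wh (QY I L J)).mp (a := (_, zero)) (b := ((tS L').ob _, zero)) (inl, rf zero)
        (n0 L' s hJ a y) :=
  Dt.nat hJ (D0 S I L J L' s a) (D2 S I L J L' s a) inl (rf s) (rf zero) inl
    (fun _ => rfl) (fun _ h => h) (fun _ => rfl) (fun _ => rfl)
    (fun w => congrArg (fun z => inl (inl (inr z))) ((OF S I L J).mp_eq (fun z => by
      induction z using add_ind with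
      | l z => rfl
      | r z =>
        induction z using add_ind with
        | l z => rfl
        | r z => exact z.elim0) w).symm) y

theorem b1 (a : LO) (x : K.U (S.P.ob ((QQ I L).ob (a, one.add s)))) :
    u1 L' s hJ a (S.P.mp inl x) = S.P.mp inl (S.P.mp ((cp I L (S := one) ()).app _)
      (S.P.mp ((bot S I L J L' s).app a) x)) := by
  rw [S.P.mp_comp, S.P.mp_comp]
  refine Dt.old (D1 S I L J L' s a) _ _ (fun y => ?_) x
  induction y using add_ind with
  | l y => exact ⟨inl (inl y), rfl, rfl⟩
  | r y =>
    induction y using add_ind with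
    | l y => exact ⟨inl (inr (inl y)), rfl, rfl⟩
    | r y =>
      induction y using add_ind with
      | r y => exact ⟨inr (inl y), rfl, rfl⟩
      | l y =>
        refine ⟨inl (inr (inr y)), rfl, ?_⟩
        induction y using mul_ind with | _ u z => ?_
        induction u using add_ind <;> rfl

theorem b2 (ℓ : NT L L') (a : LO) (x : K.U (S.P.ob ((QQ I L).ob (a, one.add s)))) :
    u2 L' s hJ a (S.P.mp inl (S.P.mp ((stdN I L ℓ s).app a) x)) =
      S.P.mp inl (S.P.mp ((mz I L zero).app _) (S.P.mp ((sN I L').app _)
        (S.P.mp ((q1map (NT.rfl' I) ℓ).app _) (S.P.mp ((bot S I L J L' s).app a) x)))) := by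
  rw [S.P.mp_comp, S.P.mp_comp, S.P.mp_comp, S.P.mp_comp, S.P.mp_comp]
  refine Dt.old (D2 S I L J L' s a) _ _ (fun y => ?_) x
  induction y using add_ind with
  | l y =>
    exact ⟨inl (inl (I.mp inl y)), rfl, congrArg (fun z => inl (inl z))
      (I.mp_sq (f := inl) (g := (tS L').mp inr) (f' := inr) (g' := inl) (fun _ => rfl) y)⟩
  | r y =>
    induction y using add_ind with
    | l y => exact ⟨inl (inr (inl (inl y))), rfl, rfl⟩
    | r y =>
      induction y using add_ind with
      | r y => exact ⟨inr (inl (inl y)), rfl, rfl⟩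
      | l y =>
        induction y using mul_ind with | _ u z => ?_
        induction u using add_ind with
        | l u =>
          exact ⟨inl (inr (inl (inr (ℓ.app a z)))), rfl,
            congrArg (fun w => inl (inr (inl (inr w)))) (ℓ.nat' inr z).symm⟩
        | r u => exact ⟨inl (inr (inr (pr u (L.mp inl z)))), rfl, rfl⟩

theorem c0 (D : Dt S I L J)
    (hm : ∀ u z, D.m (pr (D.k u) z) = inl (pr u (L.mp D.ω z)))
    (y : K.U (S.P.ob ((QY I L J).ob (D.τ, D.s0)))) :
    D.U ((S.P.wh (QY I L J)).mp (a := (D.τ, D.s0)) (b := (D.τ, D.s)) (rf _, D.k) y) =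
      (S.P.wh (QY I L J)).mp (a := (D.τ, D.s0)) (b := (D.σ, D.s0)) (D.ω, rf _) y := by
  refine Dt.old D _ _ (fun z => ?_) y
  induction z using add_ind with
  | r z => exact ⟨inr (inr z), rfl, rfl⟩
  | l z =>
    induction z using add_ind with
    | l z => exact ⟨inl (inl z), congrArg (fun w => inl (inl w)) (I.mp_rf _ z).symm, rfl⟩
    | r z =>
      induction z using add_ind with
      | l z => exact ⟨inl (inr (inl z)), rfl, rfl⟩
      | r z =>
        induction z using add_ind with
        | r z => exact ⟨inr (inl z), rfl, rfl⟩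
        | l z =>
          induction z using mul_ind with | _ u z => ?_
          exact ⟨inl (inr (inr (pr (D.k u) z))),
            congrArg (fun w => inl (inr (inr (inl (pr (D.k u) w))))) (L.mp_rf _ z).symm,
            congrArg (fun w => inl (inr (inr w))) (hm u z)⟩

end MovP

open MovP

/-- two moves that agree on the common part -/
theorem mov {K : KC} (S : PS K) (I L L' : NO L1) (ℓ : NT L L') (J : NO L2) (hJ : J.PB) (s : LO) :
    ∃ (X : NO L1)
      (u1 : Mp ((S.P.wh ((QQ I L).add J)).wh (at2 (one.add s)))
        (((S.P.wh ((QQ I L).add J)).wh (at2 one)).wh (bS X)))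
      (u2 : Mp (((S.P.wh ((QQ I L).add J)).wh (at2 s)).wh (tS L'))
        ((((S.P.wh ((QQ I L).add J)).wh (at2 zero)).wh (tS L')).wh (bS X)))
      (n0 : Mp ((S.P.wh ((QQ I L).add J)).wh (at2 s))
        (((S.P.wh ((QQ I L).add J)).wh (at2 zero)).wh (bS X)))
      (bt : NT ((QQ I L).wh (at2 (one.add s))) ((Q1 I L).wh (bS X))),
      (∀ a y, u1 a ((S.P.wh ((QQ I L).add J)).mp (a := (a, s)) (b := (a, one.add s)) (rf a, inr) y) =
        (S.P.wh ((QQ I L).add J)).mp (a := (_, zero)) (b := (_, one)) (rf _, emp one) (n0 a y)) ∧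
      (∀ a y, u2 a ((S.P.wh ((QQ I L).add J)).mp (a := (a, s)) (b := ((tS L').ob a, s))
          (inl, rf s) y) = (S.P.wh ((QQ I L).add J)).mp (a := (_, zero))
          (b := ((tS L').ob _, zero)) (inl, rf zero) (n0 a y)) ∧
      (∀ a x, u1 a (S.P.mp inl x) = S.P.mp inl (S.P.mp ((cp I L (S := one) ()).app _)
        (S.P.mp (bt.app a) x))) ∧
      (∀ a x, u2 a (S.P.mp inl (S.P.mp ((stdN I L ℓ s).app a) x)) =
        S.P.mp inl (S.P.mp ((mz I L zero).app _) (S.P.mp ((sN I L').app _)
          (S.P.mp ((q1map (NT.rfl' I) ℓ).app _) (S.P.mp (bt.app a) x))))) ∧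
      (∀ a y, u1 a ((S.P.wh ((QQ I L).add J)).mp (a := (a, one)) (b := (a, one.add s))
          (rf a, inl) y) = (S.P.wh ((QQ I L).add J)).mp (a := (a, one))
          (b := ((bS X).ob a, one)) (inr, rf one) y) ∧
      ∀ a y, u2 a ((S.P.wh ((QQ I L).add J)).mp (a := ((tS L').ob a, zero))
          (b := ((tS L').ob a, s)) (rf _, emp s) y) =
        (S.P.wh ((QQ I L).add J)).mp (a := ((tS L').ob a, zero))
          (b := ((tS L').ob ((bS X).ob a), zero)) ((tS L').mp inr, rf zero) y :=
  ⟨XX S I L J L' s, u1 L' s hJ, u2 L' s hJ, n0 L' s hJ, bot S I L J L' s, a1 L' s hJ, a2 L' s hJ,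
    b1 L' s hJ, b2 L' s hJ ℓ, fun a => c0 (D1 S I L J L' s a) fun _ _ => rfl,
    fun a => c0 (D2 S I L J L' s a) fun u => u.elim0⟩

end Pool.Agent.P.MP_860a31_lc.H
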