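import Pool.Agent.P.MP_860a31_lc.H.Pb
import Pool.Agent.P.MP_860a31_lc.H.Mov

/-!
The core lemma, part (4) of the step.
-/

open Cardinal hiding univ
open Set Order Function

namespace Pool.Agent.P.MP_860a31_lc.H

open LO E Fu

/-- the relation of part (4) -/
def R4 {C : PC} (P : LF L1 C) {I0 L0 I1 L1' : NO L1} (nL : NT L0 L1') (ok0 ok1 : ℕ → Prop)
    {Y : LF L2 C} (e0 : Mp (P.wh (QQ I0 L0)) Y) (β : Mp (P.wh (Q1 I1 L1')) (Y.wh (at2 one)))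
    (m : Mp (P.wh (MM I1)) (Y.wh (at2 zero))) (Z : LO) :
    Rl (Y.wh (at2 (one.add Z))) ((Y.wh (at2 Z)).wh (tS L1')) :=
  RO (GR (Y.nt (NT.at2 inr)) (tU (Y.wh (at2 Z)) L1'))
    (RO (GP (A := P.wh ((QQ I0 L0).wh (at2 (one.add Z))))
        (Pc P ok0 ((QQ I0 L0).wh (at2 (one.add Z)))) (e0.wh (at2 (one.add Z)))
        ((P.nt (stdN I0 L0 nL Z)).trans ((e0.wh (at2 Z)).wh (tS L1'))))
      (GP (Pc P ok1 (Q1 I1 L1')) (β.trans (Y.nt (NT.at2 inl)))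
        ((P.nt (sN I1 L1')).trans ((m.trans (Y.nt (NT.at2 (emp Z)))).wh (tS L1')))))

theorem core4 {K : KC} (S : PS K) {I0 L0 I1 L1' : NO L1} (_hI : I0.PB) (_hL : L0.PB) (_hL1 : L1'.PB)
    (nI : NT I0 I1) (nL : NT L0 L1') (ok0 ok1 : ℕ → Prop) (hok : ∀ m, ok0 m → ok1 m)
    {J : NO L2} (hJ : J.PB)
    (β : Mp (S.P.wh (Q1 I1 L1')) ((S.P.wh ((QQ I0 L0).add J)).wh (at2 one)))
    (m : Mp (S.P.wh (MM I1)) ((S.P.wh ((QQ I0 L0).add J)).wh (at2 zero)))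
    (h1 : ∀ a x, Pc S.P ok0 (Q1 I0 L0) a x → β a (S.P.mp ((q1map nI nL).app a) x) =
      S.P.mp (((cp I0 L0 ()).app a).trans inl) x)
    (h2 : ∀ a x, Pc S.P ok0 (MM I0) a x → m a (S.P.mp ((mmap' nI).app a) x) =
      S.P.mp (((mz I0 L0 zero).app a).trans inl) x)
    (R0 : El ((S.P.wh ((QQ I0 L0).add J)).wh (at2 one))
      (((S.P.wh ((QQ I0 L0).add J)).wh (at2 zero)).wh (tS L1'))
      (RO (GR ((S.P.wh ((QQ I0 L0).add J)).nt (NT.at2 (emp one)))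
          (tU ((S.P.wh ((QQ I0 L0).add J)).wh (at2 zero)) L1'))
        (GP (Pc S.P ok1 (Q1 I1 L1')) β ((S.P.nt (sN I1 L1')).trans (m.wh (tS L1'))))))
    (Z : LO) :
    El _ _ (R4 S.P nL ok0 ok1 (S.P.nt (NT.inl (QQ I0 L0) J)) β m Z) := by
  obtain ⟨X, u1, u2, n0, bt, a1, a2, b1, b2, c1, c2⟩ := mov S I0 L0 L1' nL J hJ Z
  refine (R0.wh (bS X) fun _ _ _ h => Or.inl h).pull u1 u2 ?_
  rintro a _ _ (⟨y, rfl, rfl⟩ | ⟨x, hx, rfl, rfl⟩ | ⟨x, hx, rfl, rfl⟩)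
  · exact Or.inl ⟨n0 a y, (a1 a y).symm, (a2 a y).symm⟩
  · have k1 : Pc S.P ok0 (Q1 I0 L0) ((bS X).ob a) (S.P.mp (bt.app a) x) :=
      hx.map (fun _ h => h) _
    refine Or.inr ⟨_, k1.map hok ((q1map nI nL).app _),
      (h1 _ _ k1).trans ((S.P.mp_comp _ _ _).symm.trans (b1 a x).symm), Eq.trans ?_ (b2 a x).symm⟩
    refine Eq.trans (congrArg (m _) ?_) ((h2 _ _ ((k1.map (Q' := Q1 I0 L1') (fun _ h => h)
      ((q1map (NT.rfl' I0) nL).app _)).map (Q' := MM I0) (fun _ h => h)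
      ((sN I0 L1').app _))).trans (S.P.mp_comp _ _ _).symm)
    dsimp only
    rw [S.P.mp_comp _ ((sN I0 L1').app _)]
    refine S.P.mp_sq (fun y => ?_) _
    induction y using add_ind with
    | l y => exact congrArg inl (nI.nat' inl y).symm
    | r y =>
      induction y using add_ind with
      | l y => rfl
      | r y => induction y using add_ind <;> rfl
  · refine Or.inr ⟨_, hx.map (fun _ h => h) ((Q1 I1 L1').mp inr),
      (β.nat inr x).trans (c1 a _).symm, Eq.trans ?_ (c2 a _).symm⟩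
    exact ((S.P.nt (sN I1 L1')).trans (m.wh (tS L1'))).nat inr x

end Pool.Agent.P.MP_860a31_lc.H
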