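import Pool.Agent.P.MP_860a31_lc.H.Pb
import Pool.Agent.P.MP_860a31_lc.E.Nat
import Pool.Agent.P.MP_860a31_lc.E.Unif
import Pool.Agent.P.MP_860a31_lc.E.FamMorley
import Pool.Agent.P.MP_860a31_lc.E.KStab
import Pool.Agent.P.MP_860a31_lc.E.NoOP
import Pool.Agent.P.MP_860a31_lc.E.UnivExt
import Pool.Agent.P.MP_860a31_lc.E.RealExt
import Pool.Agent.P.MP_860a31_lc.E.RealChain
import Pool.Agent.P.MP_860a31_lc.E.AmalgFam
import Pool.Agent.P.MP_860a31_lc.E2.KSat2

/-!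
Morley uniformisation for families, amalgamation of families, small subfamilies.
-/

open Cardinal hiding univ
open Set Order Function

namespace Pool.Agent.P.MP_860a31_lc.H

open LO E Fu

theorem satK (K : KC) : K.SatH K.k0 :=
  satH (base (unif famMorley)) (kStab (base (unif famMorley)))
    (univExt (realExt amalgFam) realChain) (realExt amalgFam) realChain K le_rfl K.hl

theorem noOPK : S_NoOP := noOP (unif famMorley) (kStab (base (unif famMorley)))

theorem exists_base (K : KC) : ∃ Y : LF L1 K.toPC, Y.Lev K.k0 ∧ Y.Atom := by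
  obtain ⟨P, x, hx, hP⟩ := base (unif famMorley) K
  let s : Em (LO.fin 1) one := Em.of (Fam.pt1 ())
  refine ⟨LF.ofFam P, LF.ofFam_lev P K.inf hP, P.evi s.oe x, fun z u v e => ?_⟩
  have e' := (LF.ofFam_evi P (pt u) s x).symm.trans (e.trans (LF.ofFam_evi P (pt v) s x))
  obtain ⟨k, t, a, a', ha, ha'⟩ := exists_ref (s.trans (pt u)).oe (s.trans (pt v)).oe
  rw [← ha, ← ha', ← Fam.evi_mp, ← Fam.evi_mp] at e'
  obtain rfl := hx k a a' (K.inj (Fam.evi_h t) e')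
  exact DFunLike.congr_fun (ha.symm.trans ha') 0

section

variable {K : KC} {T : Ct} {ν : Cardinal.{0}} {A X Y : LF T K.toPC}

/-- paper NAT -/
theorem natT (hν : K.k0 ≤ ν) (hX : X.Lev ν) (hY : Y.Lev ν) {R : Rl X Y} (hR : Gd R)
    (h : ∀ θ < hanf ν, ∃ z : LO, θ ≤ #z ∧
      K.El (X.ob (T.Xi z)) (Y.ob (T.Xi z)) (R (T.Xi z))) :
    ∃ (Z : LF T K.toPC) (f : Mp X Z) (g : Mp Y Z), Z.Lev ν ∧
      ∀ a x y, R a x y → f a x = g a y := El.nat K.code hν hX hY hR h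

theorem apF (φ : Mp A X) (ψ : Mp A Y) : ∃ (Z : LF T K.toPC) (f : Mp X Z) (g : Mp Y Z),
    ∀ a x, f a (φ a x) = g a (ψ a x) := by
  obtain ⟨Z, f, g, h⟩ := El.span φ ψ
  exact ⟨Z, f, g, fun a x => h a _ _ (GR.mk φ ψ a x)⟩

end

theorem Em.fin_self {n : ℕ} (a : Em (LO.fin n) (LO.fin n)) (i : LO.fin n) : a i = i :=
  DFunLike.congr_fun (emb_self a.oe) i

theorem Em.card_fin (m n : ℕ) : #(Em (LO.fin m) (LO.fin n)) ≤ ℵ₀ :=
  (mk_le_of_injective (f := fun a : Em (LO.fin m) (LO.fin n) => a.oe)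
    fun _ _ h => Em.ext fun x => DFunLike.congr_fun h x).trans (UnifP.card_fe m n)

/-- a natural family on finite orders extends to a map out of the family of values -/
theorem LF.from_ofFam {C : CC} (Q : Fam C.toPC) (X : LF L1 C.toPC)
    (φ : ∀ n, C.U (Q.ob n) → C.U (X.ob (LO.fin n))) (h : Fam.Nt Q X.fam φ) :
    ∃ k : Mp (LF.ofFam Q) X, ∀ z n (s : Em (LO.fin n) z) x,
      k z (Q.evi s.oe x) = X.mp s (φ n x) := by
  choose k h1 h2 using fun z : LO => Fam.ev_lift (P := Q) (I := z.car)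
    (fun n s x => X.mp (Em.of s) (φ n x)) (fun n s => C.comp (h.hom n) (X.hom _))
    fun a s x => by rw [h.nat]; exact X.mp_eq (fun _ => rfl) _
  refine ⟨⟨k, h1, fun {a b} f y => ?_⟩, fun z n s x => h2 z n s.oe x⟩
  obtain ⟨n, s, x, rfl⟩ := Fam.evi_surj y
  exact ((congrArg (k b) (Fam.evmap_evi _ _ x)).trans (h2 b n _ x)).trans
    ((X.mp_eq (fun _ => rfl) _).symm.trans (congrArg _ (h2 a n s x).symm))

/-- it suffices to compare ranges on the orders `fin n` -/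
theorem Mp.range_fin1 {C : PC} {X Y Z : LF L1 C} (φ : Mp X Z) (ψ : Mp Y Z)
    (h : ∀ n, range (φ (LO.fin n)) ⊆ range (ψ (LO.fin n))) (a : LO) :
    range (φ a) ⊆ range (ψ a) := by
  rintro _ ⟨x, rfl⟩
  obtain ⟨n, g, x0, rfl⟩ := X.fin1 a x
  obtain ⟨y, hy⟩ := h n ⟨x0, rfl⟩
  exact ⟨Y.mp g y, by rw [ψ.nat, hy, φ.nat]⟩

/-- iterated hulls along the faces of the finite orders -/
def hulls {C : PC} (D : LF L1 C) (H : ∀ n, Set (C.U (D.ob (LO.fin n))) → Set (C.U (D.ob (LO.fin n))))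
    (S : ∀ n, Set (C.U (D.ob (LO.fin n)))) : ∀ n, Set (C.U (D.ob (LO.fin n))) := fun n =>
  Nat.strongRecOn (motive := fun n => Set (C.U (D.ob (LO.fin n)))) n fun n ih =>
    H n (S n ∪ ⋃ (m : Fin n) (a : Em (LO.fin m) (LO.fin n)), D.mp a '' ih m m.2)

theorem hulls_eq {C : PC} (D : LF L1 C) (H) (S : ∀ n, Set (C.U (D.ob (LO.fin n)))) (n : ℕ) :
    hulls D H S n =
      H n (S n ∪ ⋃ (m : Fin n) (a : Em (LO.fin m) (LO.fin n)), D.mp a '' hulls D H S m) := by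
  unfold hulls
  rw [Nat.strongRecOn_eq]

/-- small subfamilies -/
theorem lsF {C : CC} {ν : Cardinal.{0}} (hν : C.k0 ≤ ν) (D : LF L1 C.toPC)
    (S : ∀ n, Set (C.U (D.ob (LO.fin n)))) (hS : ∀ n, #(S n) ≤ ν) :
    ∃ (X : LF L1 C.toPC) (g : Mp X D), X.Lev ν ∧ ∀ n, S n ⊆ range (g (LO.fin n)) := by
  have hinf : ℵ₀ ≤ ν := C.inf.trans hν
  choose B f hf hS' hB using fun n => C.ls (D.ob (LO.fin n))
  let T := hulls D (fun n S => range (f n S)) S
  let A : ∀ n, Set (C.U (D.ob (LO.fin n))) := fun n =>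
    S n ∪ ⋃ (m : Fin n) (a : Em (LO.fin m) (LO.fin n)), D.mp a '' T m
  have hT : ∀ n, T n = range (f n (A n)) := fun n => hulls_eq _ _ _ n
  have hA : ∀ n, #(A n) ≤ ν := by
    intro n
    induction n using Nat.strong_induction_on with
    | _ n ih =>
      refine (mk_union_le _ _).trans (add_le_of_le hinf (hS n) ?_)
      refine (mk_iUnion_le _).trans (mul_le_of_le hinf ?_ (ciSup_le' fun m => ?_))
      · exact (mk_lt_aleph0_iff.2 inferInstance).le.trans hinf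
      refine (mk_iUnion_le _).trans (mul_le_of_le hinf ((Em.card_fin _ _).trans hinf)
        (ciSup_le' fun a => mk_image_le.trans ?_))
      rw [hT]
      exact mk_range_le.trans ((hB _ _).trans (add_le_of_le hinf (ih m m.2) hν))
  have hm : ∀ m n (a : Fin m ↪o Fin n), range (fun x => D.mp (Em.of a) (f m (A m) x)) ⊆
      range (f n (A n)) := fun m n a => by
    rintro _ ⟨x, rfl⟩
    rcases (UnifP.le_of_emb a).lt_or_eq with h | rfl
    · exact hS' n (A n) (Or.inr (mem_iUnion.2 ⟨⟨m, h⟩, mem_iUnion.2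
        ⟨Em.of a, _, (hT m).ge ⟨x, rfl⟩, rfl⟩⟩))
    · exact ⟨x, (D.mp_self (Em.fin_self _) _).symm⟩
  choose t ht ht' using fun m n (a : Fin m ↪o Fin n) =>
    PC.factor (C.comp (hf m (A m)) (D.hom (Em.of a))) (hf n (A n)) (hm m n a)
  let Q : Fam C.toPC :=
    { ob := fun n => B n (A n)
      mp := fun a => t _ _ a
      hom := fun a => ht _ _ a
      mp_id := fun n x => C.inj (hf n _) ((ht' _ _ _ x).trans (D.mp_self (fun _ => rfl) _))
      mp_comp := fun a b x => C.inj (hf _ _) (by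
        rw [ht', ht', ht']; exact D.mp_eq (fun _ => rfl) _) }
  obtain ⟨g, hg⟩ := LF.from_ofFam Q D (fun n => f n (A n)) ⟨fun n => hf n _, fun a x => ht' _ _ a x⟩
  refine ⟨LF.ofFam Q, g, LF.ofFam_lev Q hinf fun n => (hB n _).trans (add_le_of_le hinf (hA n) hν),
    fun n y hy => ?_⟩
  obtain ⟨x, rfl⟩ := hS' n (A n) (Or.inl hy)
  exact ⟨_, (hg _ n (rf _) x).trans (D.mp_id _ _)⟩

theorem cut2F {C : CC} {ν : Cardinal.{0}} (hν : C.k0 ≤ ν) {X Y D : LF L1 C.toPC} (f : Mp X D)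
    (g : Mp Y D) (hX : X.Lev ν) (hY : Y.Lev ν) :
    ∃ (Z : LF L1 C.toPC) (k : Mp Z D) (f' : Mp X Z) (g' : Mp Y Z), Z.Lev ν ∧
      (∀ a x, k a (f' a x) = f a x) ∧ ∀ a y, k a (g' a y) = g a y := by
  obtain ⟨Z, k, h1, h2⟩ := lsF hν D (fun n => range (f (LO.fin n)) ∪ range (g (LO.fin n)))
    fun n => (mk_union_le _ _).trans (add_le_of_le (C.inf.trans hν)
      (mk_range_le.trans (hX _ inferInstance)) (mk_range_le.trans (hY _ inferInstance)))
  obtain ⟨f', hf⟩ := f.fac k (f.range_fin1 k fun n => subset_union_left.trans (h2 n))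
  obtain ⟨g', hg⟩ := g.fac k (g.range_fin1 k fun n => subset_union_right.trans (h2 n))
  exact ⟨Z, k, f', g', h1, hf, hg⟩

end Pool.Agent.P.MP_860a31_lc.H
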