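import Pool.Agent.P.MP_860a31_lc.H.Core4
import Pool.Agent.P.MP_860a31_lc.H.Nt

/-!
The iteration in the step of the core lemma: new copies are added one at a time at the bottom.
-/

open Cardinal hiding univ
open Set Order Function

namespace Pool.Agent.P.MP_860a31_lc.H

open LO E Fu

namespace Core5P

/-- a reversed suborder -/
abbrev sb {Λ : LO} (s : Set Λ) : LO := (Λ.sub s).op

/-- inclusion of reversed suborders -/
def inc {Λ : LO} {s s' : Set Λ} (h : s ⊆ s') : Em (sb s) (sb s') :=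
  omap ⟨fun x => ⟨x.1, h x.2⟩, fun _ _ h => h⟩

/-- states of the iteration -/
structure St (Λ : LO) {C : PC} (A B : LF L2 C) : Type 1 where
  s : Set Λ
  Z : LF L1 C
  f : Mp (A.wh (at2 (sb s))) Z
  g : Mp (B.wh (at2 (sb s))) Z

theorem lim {C : CC} {Λ : LO} {ι : Type} [LinearOrder ι] [Nonempty ι] (X : LF L2 C.toPC)
    (s : ι → Set Λ) (s' : Set Λ) (h1 : ∀ i, s i ⊆ s') (h2 : ∀ i j, i ≤ j → s i ⊆ s j)
    (h3 : ∀ x ∈ s', ∃ i, x ∈ s i) (Z : LF L1 C.toPC) (φ : ∀ i, Mp (X.wh (at2 (sb (s i)))) Z)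
    (hφ : ∀ i j (h : i ≤ j) a x, φ j a (X.mp (a := (a, sb (s i))) (b := (a, sb (s j)))
      (rf a, inc (h2 i j h)) x) = φ i a x) :
    ∃ ψ : Mp (X.wh (at2 (sb s'))) Z, ∀ i a x, ψ a (X.mp (a := (a, sb (s i))) (b := (a, sb s'))
      (rf a, inc (h1 i)) x) = φ i a x := by
  have rg : ∀ (a : LO) i j, i ≤ j →
      range (L2.um (a := (a, sb (s i))) (b := (a, sb s')) (rf a, inc (h1 i))) ⊆
        range (L2.um (a := (a, sb (s j))) (b := (a, sb s')) (rf a, inc (h1 j))) := by
    rintro a i j h _ ⟨p, rfl⟩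
    induction p using add_ind with
    | l p => exact ⟨inl p, rfl⟩
    | r p => exact ⟨inr (inc (h2 i j h) p), rfl⟩
  have tr : ∀ (a : LO) i j (h : i ≤ j) x,
      X.mp (a := (a, sb (s j))) (b := (a, sb s')) (rf a, inc (h1 j))
        (X.mp (a := (a, sb (s i))) (b := (a, sb (s j))) (rf a, inc (h2 i j h)) x) =
      X.mp (a := (a, sb (s i))) (b := (a, sb s')) (rf a, inc (h1 i)) x :=
    fun a i j h x => X.mp_comp _ _ x
  exact Mp.lift (fun i => X.wh (at2 (sb (s i)))) (fun i => X.nt (NT.at2 (inc (h1 i)))) φ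
    (fun a i j => ⟨max i j, X.range_mono (rg a _ _ (le_max_left i j)),
      X.range_mono (rg a _ _ (le_max_right i j))⟩)
    (fun a => X.cover (a := (a, sb s')) (fun i => (a, sb (s i))) (fun i => (rf a, inc (h1 i)))
      (fun i j => ⟨max i j, rg a _ _ (le_max_left i j), rg a _ _ (le_max_right i j)⟩) fun p => by
        induction p using add_ind with
        | l p => exact ⟨Classical.arbitrary ι, inl p, rfl⟩
        | r p =>
          obtain ⟨i, hi⟩ := h3 _ (LO.up p).2
          exact ⟨i, inr (dn ⟨_, hi⟩), rfl⟩)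
    fun a i j x y e => by
      rw [← hφ i _ (le_max_left i j), ← hφ j _ (le_max_right i j)]
      exact congrArg _ (X.inj (a := (a, sb (s (max i j)))) (b := (a, sb s')) (rf a, inc (h1 _))
        ((tr a i _ (le_max_left i j) x).trans (e.trans (tr a j _ (le_max_right i j) y).symm)))

/-- joint embeddings that survive adding a point at the bottom exist for large orders -/
theorem grow {C : CC} {A B : LF L2 C.toPC} {R : Rl A B} (hR : Gd R)
    (h0 : El (A.wh (at2 zero)) (B.wh (at2 zero)) fun a => R (a, zero))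
    (hs : ∀ (S : LO) (Z : LF L1 C.toPC) (f : Mp (A.wh (at2 S)) Z) (g : Mp (B.wh (at2 S)) Z),
      (∀ a x y, R (a, S) x y → f a x = g a y) →
      ∃ (Z' : LF L1 C.toPC) (k : Mp Z Z') (f' : Mp (A.wh (at2 (one.add S))) Z')
        (g' : Mp (B.wh (at2 (one.add S))) Z'),
        (∀ a x, f' a (A.mp (a := (a, S)) (b := (a, one.add S)) (rf a, inr) x) = k a (f a x)) ∧
        (∀ a y, g' a (B.mp (a := (a, S)) (b := (a, one.add S)) (rf a, inr) y) = k a (g a y)) ∧
        ∀ a x y, R (a, one.add S) x y → f' a x = g' a y) (θ : Cardinal.{0}) :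
    ∃ S : LO, θ ≤ #S ∧ El (A.wh (at2 S)) (B.wh (at2 S)) fun a => R (a, S) := by
  classical
  let Λ : LO := LO.wo (succ (max θ (ℵ₀ : Cardinal.{0})))
  have pull : ∀ {S S' : LO} (j : Em S S') {Z : LF L1 C.toPC} (f : Mp (A.wh (at2 S')) Z)
      (g : Mp (B.wh (at2 S')) Z), (∀ a x y, R (a, S') x y → f a x = g a y) →
      ∀ a x y, R (a, S) x y → (A.nt (NT.at2 j)).trans f a x = (B.nt (NT.at2 j)).trans g a y :=
    fun j _ f g h a x y r => h a _ _ (hR.nat (a, _) (a, _) (rf a, j) x y r)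
  obtain ⟨Z0, f0, g0, e0⟩ := h0
  let j0 : Em (sb (Λ := Λ) (Iio ⊥)) zero :=
    ⟨fun x => (not_lt_bot (a := (LO.up x).1) (LO.up x).2).elim,
      fun x => (not_lt_bot (a := (LO.up x).1) (LO.up x).2).elim⟩
  obtain ⟨F, -, -, hF, -⟩ := gchain1 (Λ := W (succ (max θ ℵ₀))) (St := St Λ A B) (ι := LO)
    (fun S a => C.U (S.Z.ob a))
    (fun S S' t => ∃ (h : S.s ⊆ S'.s) (m : Mp S.Z S'.Z), m.app = t ∧
      (∀ a x, S'.f a (A.mp (a := (a, sb S.s)) (b := (a, sb S'.s)) (rf a, inc h) x) =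
        t a (S.f a x)) ∧
      ∀ a x, S'.g a (B.mp (a := (a, sb S.s)) (b := (a, sb S'.s)) (rf a, inc h) x) =
        t a (S.g a x))
    (fun S => ⟨subset_rfl, Mp.rfl' _, rfl, fun a x => congrArg _ (A.mp_id (a, sb S.s) x),
      fun a x => congrArg _ (B.mp_id (a, sb S.s) x)⟩)
    (by
      rintro S S' S'' _ _ ⟨h, m, rfl, k1, k2⟩ ⟨h', m', rfl, k3, k4⟩
      refine ⟨h.trans h', m.trans m', rfl, fun a x => ?_, fun a x => ?_⟩
      · dsimp only; rw [← k1, ← k3, A.mp_comp]; rfl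
      · dsimp only; rw [← k2, ← k4, B.mp_comp]; rfl)
    (fun b S => S.s = Iio b ∧ ∀ a x y, R (a, sb S.s) x y → S.f a x = S.g a y)
    (fun _ _ _ _ => True)
    ⟨Iio ⊥, Z0, (A.nt (NT.at2 j0)).trans f0, (B.nt (NT.at2 j0)).trans g0⟩
    ⟨rfl, pull j0 f0 g0 e0⟩
    (by
      rintro b ⟨s, Z, f, g⟩ ⟨rfl, h⟩
      obtain ⟨Z', k, f', g', k1, k2, k3⟩ := hs _ Z f g h
      let j : Em (sb (Λ := Λ) (Iio (succ b))) (one.add (sb (Λ := Λ) (Iio b))) :=
        ⟨fun x => if h : (LO.up x).1 < b then inr (dn ⟨_, h⟩) else inl (), fun x y hxy => by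
          have hxy' : (LO.up y).1 < (LO.up x).1 := hxy
          have hy : (LO.up y).1 < b := hxy'.trans_le (lt_succ_iff.1 (LO.up x).2)
          dsimp only
          rw [dif_pos hy]
          split_ifs with hx
          · exact inr.mono hxy
          · exact inl_lt_inr _ _⟩
      have hb : (Iio b : Set Λ) ⊆ Iio (succ b) := fun x hx => lt_trans hx (lt_succ b)
      have hj : (inc hb).trans j = inr := Em.ext fun x => dif_pos (LO.up x).2
      refine ⟨⟨Iio (succ b), Z', (A.nt (NT.at2 j)).trans f', (B.nt (NT.at2 j)).trans g'⟩, k.app,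
        ⟨hb, k, rfl, fun a x => Eq.trans (congrArg (f' a) ?_) (k1 a x),
          fun a x => Eq.trans (congrArg (g' a) ?_) (k2 a x)⟩, ⟨rfl, pull j f' g' k3⟩, trivial⟩
      · rw [← hj]; exact A.mp_comp _ _ x
      · rw [← hj]; exact B.mp_comp _ _ x)
    (by
      intro δ hδ c hc _
      have : Nonempty (Iio δ) := ⟨⟨⊥, hδ.bot_lt⟩⟩
      choose hs m h1 h2 h3 using c.hom
      obtain ⟨Z, u, k1, k2⟩ := LF.colim (Iio δ) (fun a => (c.F a).Z) m
        fun i j k hij hjk a x => by rw [h1, h1, h1, c.t_comp]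
      have s1 : ∀ i : Iio δ, (c.F i).s ⊆ (Iio δ : Set Λ) := fun i x hx =>
        lt_trans (a := x) (b := i.1) (c := δ) ((hc i).1.le hx) i.2
      have s2 : ∀ x ∈ (Iio δ : Set Λ), ∃ i : Iio δ, x ∈ (c.F i).s := fun x hx =>
        ⟨⟨succ x, hδ.succ_lt hx⟩, (hc _).1.ge (lt_succ (show W _ from x))⟩
      obtain ⟨f, hf⟩ := lim A (fun i => (c.F i).s) (Iio δ) s1 hs s2 Z
        (fun i => (c.F i).f.trans (u i)) fun i j h a x =>
          (congrArg (u j a) (h2 i j h a x)).trans (by rw [← h1]; exact k1 i j h a _)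
      obtain ⟨g, hg⟩ := lim B (fun i => (c.F i).s) (Iio δ) s1 hs s2 Z
        (fun i => (c.F i).g.trans (u i)) fun i j h a x =>
          (congrArg (u j a) (h3 i j h a x)).trans (by rw [← h1]; exact k1 i j h a _)
      refine ⟨⟨Iio δ, Z, f, g⟩, fun i => (u i).app, ⟨rfl, fun a x y r => ?_⟩,
        fun i => ⟨s1 i, u i, rfl, hf i, hg i⟩, fun i j h a x => by rw [← h1]; exact k1 i j h a x,
        k2⟩
      obtain ⟨a0, h, x0, y0, h4, r0, rfl, rfl⟩ := hR.fin _ x y r
      have : Finite a0.2 := finite_r (a := a0.1)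
      choose ix hix using fun p : a0.2 => s2 _ (LO.up (h.2 p)).2
      obtain ⟨i, hi⟩ := Finite.exists_le ix
      obtain ⟨e, he⟩ := LO.fac h.2 (inc (s1 i)) (by
        rintro _ ⟨p, rfl⟩
        exact ⟨dn ⟨_, hs _ _ (hi p) (hix p)⟩, rfl⟩)
      have hh : L2.comp (a := a0) (b := (a, sb (c.F i).s)) (c := (a, sb (Iio δ : Set Λ))) (h.1, e)
          (rf a, inc (s1 i)) = h := Prod.ext rfl (Em.ext he)
      rw [← hh, ← A.mp_comp, ← B.mp_comp]
      exact (hf i a _).trans ((congrArg (u i a)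
        ((hc i).2 a _ _ (hR.nat a0 (a, sb (c.F i).s) (h.1, e) x0 y0 r0))).trans (hg i a _).symm))
  obtain ⟨b, hb⟩ := W.exists_iio (θ := succ (max θ ℵ₀)) (χ := θ) (J.inf θ)
    ((le_max_left _ _).trans_lt (lt_succ _))
  refine ⟨sb (F b).s, ?_, _, (F b).f, (F b).g, (hF b).2⟩
  rw [(hF b).1]
  exact hb

theorem gp_pc {T : Ct} {C : PC} (P : LF L1 C) (ok : ℕ → Prop) (Q : NO T) :
    Gp (A := P.wh Q) (Pc P ok Q) where
  nat := by
    rintro a b f _ ⟨m, u, h, x, rfl⟩
    exact ⟨m, u.trans (Q.mp f), h, x, (P.mp_comp u (Q.mp f) x).symm⟩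
  fin := by
    rintro a _ ⟨m, u, h, x, rfl⟩
    obtain ⟨a0, k, u0, h1, rfl⟩ := Q.finH (b := fin m) u inferInstance
    exact ⟨a0, k, P.mp u0 x, h1, ⟨m, u0, h, x, rfl⟩, P.mp_comp u0 (Q.mp k) x⟩

theorem pc_map {T T' : Ct} {C : PC} {P : LF L1 C} {ok : ℕ → Prop} {Q : NO T} {Q' : NO T'}
    {a : T.Obj} {b : T'.Obj} {x : C.U (P.ob (Q.ob a))} (h : Pc P ok Q a x)
    (f : Em (Q.ob a) (Q'.ob b)) : Pc P ok Q' b (P.mp f x) := by
  obtain ⟨m, u, h, x, rfl⟩ := h
  exact ⟨m, u.trans f, h, x, (P.mp_comp u f x).symm⟩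

end Core5P

open Core5P

theorem core5 {K : KC} (P : LF L1 K.toPC) {ν : Cardinal.{0}} (hν : K.k0 ≤ ν)
    {I0 L0 I1 L1' : NO L1} (nI : NT I0 I1) (nL : NT L0 L1') (ok0 ok1 : ℕ → Prop)
    {Y : LF L2 K.toPC} (lY : Y.Lev ν) (lQ : (P.wh (QQ I1 L1')).Lev ν)
    (e0 : Mp (P.wh (QQ I0 L0)) Y) (β : Mp (P.wh (Q1 I1 L1')) (Y.wh (at2 one)))
    (m : Mp (P.wh (MM I1)) (Y.wh (at2 zero)))
    (h2 : ∀ a x, Pc P ok0 (MM I0) a x →
      m a (P.mp ((mmap' nI).app a) x) = e0 (a, zero) (P.mp ((mz I0 L0 zero).app a) x))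
    (h4 : ∀ Z : LO, El _ _ (R4 P nL ok0 ok1 e0 β m Z)) :
    ∃ (Y' : LF L2 K.toPC) (y : Mp Y Y') (e1 : Mp (P.wh (QQ I1 L1')) Y'), Y'.Lev ν ∧
      (∀ a x, Pc P ok0 (QQ I0 L0) a x → y a (e0 a x) = e1 a (P.mp ((qqmap nI nL).app a) x)) ∧
      ∀ (a : LO) x, Pc P ok1 (Q1 I1 L1') a x →
        y (a, one) (β a x) = e1 (a, one) (P.mp ((cp I1 L1' ()).app a) x) := by
  let R2 : Rl Y (P.wh (QQ I1 L1')) := fun c y x => ∃ (s : c.2) (w : K.U (P.ob ((Q1 I1 L1').ob c.1))),
    Pc P ok1 (Q1 I1 L1') c.1 w ∧ Y.mp (a := (c.1, one)) (b := c) (rf _, pt s) (β c.1 w) = y ∧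
      P.mp ((cp I1 L1' s).app c.1) w = x
  let R3 : Rl Y (P.wh (QQ I1 L1')) := fun c y x => ∃ w : K.U (P.ob ((MM I1).ob c.1)),
    Y.mp (a := (c.1, zero)) (b := c) (rf _, emp _) (m c.1 w) = y ∧
      P.mp ((mz I1 L1' c.2).app c.1) w = x
  have n2 : ∀ (a b : L2.Obj) (f : L2.Hom a b) (s : a.2) w,
      Y.mp (a := (b.1, one)) (b := b) (rf _, pt (f.2 s)) (β b.1 (P.mp ((Q1 I1 L1').mp f.1) w)) =
        Y.mp f (Y.mp (a := (a.1, one)) (b := a) (rf _, pt s) (β a.1 w)) ∧
      P.mp ((cp I1 L1' (f.2 s)).app b.1) (P.mp ((Q1 I1 L1').mp f.1) w) =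
        P.mp ((QQ I1 L1').mp f) (P.mp ((cp I1 L1' s).app a.1) w) := fun a b f s w =>
    ⟨(congrArg _ (β.nat f.1 w)).trans ((Y.mp_comp _ _ _).trans
      (Y.mp_comp (a := (a.1, one)) (b := a) (c := b) (rf _, pt s) f _).symm),
      P.mp_sq (fun p => by
        induction p using add_ind with
        | l p => rfl
        | r p =>
          induction p using add_ind with
          | l p => rfl
          | r p => induction p using add_ind <;> rfl) w⟩
  have n3 : ∀ (a b : L2.Obj) (f : L2.Hom a b) w,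
      Y.mp (a := (b.1, zero)) (b := b) (rf _, emp _) (m b.1 (P.mp ((MM I1).mp f.1) w)) =
        Y.mp f (Y.mp (a := (a.1, zero)) (b := a) (rf _, emp _) (m a.1 w)) ∧
      P.mp ((mz I1 L1' b.2).app b.1) (P.mp ((MM I1).mp f.1) w) =
        P.mp ((QQ I1 L1').mp f) (P.mp ((mz I1 L1' a.2).app a.1) w) := fun a b f w =>
    ⟨(congrArg _ (m.nat f.1 w)).trans (Y.mp_sq (fun p => by
        induction p using add_ind with
        | l p => rfl
        | r p => exact p.elim0) _),
      P.mp_sq (fun p => by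
        induction p using add_ind with
        | l p => rfl
        | r p => induction p using add_ind <;> rfl) w⟩
  have g2 : Gd R2 := ⟨by
      rintro a b f _ _ ⟨s, w, h, rfl, rfl⟩
      exact ⟨f.2 s, _, (gp_pc P ok1 _).nat _ _ f.1 w h, (n2 a b f s w).1, (n2 a b f s w).2⟩, by
      rintro a _ _ ⟨s, w, h, rfl, rfl⟩
      obtain ⟨a0, k, w0, h1, h3, rfl⟩ := (gp_pc P ok1 _).fin _ w h
      exact ⟨(a0, one), (k, pt s), _, _, inferInstance, ⟨(), w0, h3, rfl, rfl⟩,
        (n2 (a0, one) a (k, pt s) () w0).1.symm, (n2 (a0, one) a (k, pt s) () w0).2.symm⟩⟩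
  have g3 : Gd R3 := ⟨by
      rintro a b f _ _ ⟨w, rfl, rfl⟩
      exact ⟨_, (n3 a b f w).1, (n3 a b f w).2⟩, by
      rintro a _ _ ⟨w, rfl, rfl⟩
      obtain ⟨a0, k, w0, h1, rfl⟩ := (P.wh (MM I1)).fin _ w
      exact ⟨(a0, zero), (k, emp _), _, _, inferInstance, ⟨w0, rfl, rfl⟩,
        (n3 (a0, zero) a (k, emp _) w0).1.symm, (n3 (a0, zero) a (k, emp _) w0).2.symm⟩⟩
  have hR := (Gd.gp (gp_pc P ok0 (QQ I0 L0)) e0 (P.nt (qqmap nI nL))).or (g2.or g3)
  have z0 : ∀ (I L : NO L1) (a : LO), Surjective ((mz I L zero).app a) := fun I L a p => by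
    induction p using add_ind with
    | l p => exact ⟨inl p, rfl⟩
    | r p =>
      induction p using add_ind with
      | l p => exact ⟨inr (inl p), rfl⟩
      | r p =>
        induction p using add_ind with
        | l p => exact (p1 p).elim0
        | r p => exact ⟨inr (inr p), rfl⟩
  obtain ⟨Y1, y, e1, k1, k2⟩ := El.nat K.code hν lY lQ hR fun θ _ => by
    refine (grow hR ?_ ?_ θ).imp fun z h => ⟨h.1, h.2.ev z⟩
    · obtain ⟨g, hg⟩ := Mp.fac (Mp.rfl' (P.wh ((QQ I1 L1').wh (at2 zero)))) (P.nt (mz I1 L1' zero))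
        fun a x _ => P.surj (z0 I1 L1' a) x
      have hg' : ∀ a w, g a (P.mp ((mz I1 L1' zero).app a) w) = w := fun a w =>
        P.inj ((mz I1 L1' zero).app a) (hg a _)
      refine El.of_hom' (g.trans m) ?_
      rintro a _ _ (⟨x, ⟨r, u, h, x, rfl⟩, rfl, rfl⟩ | ⟨s, -⟩ | ⟨w, rfl, rfl⟩)
      · obtain ⟨u', hu⟩ := LO.fac u ((mz I0 L0 zero).app a) fun p _ => z0 I0 L0 a p
        have e1 : P.mp u x = P.mp ((mz I0 L0 zero).app a) (P.mp u' x) := (P.mp_eq hu x).symm
        have e2 : P.mp ((qqmap nI nL).app (a, zero)) (P.mp ((mz I0 L0 zero).app a) (P.mp u' x)) =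
            P.mp ((mz I1 L1' zero).app a) (P.mp ((mmap' nI).app a) (P.mp u' x)) :=
          P.mp_sq (fun p => by
            induction p using add_ind with
            | l p => rfl
            | r p => induction p using add_ind <;> rfl) _
        refine (congrArg _ e1).trans ((h2 a _ ⟨r, u', h, x, rfl⟩).symm.trans (congrArg (m a) ?_))
        exact (hg' a _).symm.trans (congrArg (g a) (e2.symm.trans (congrArg _ e1.symm)))
      · exact s.elim0
      · exact (Y.mp_self (a := (a, zero)) (fun p => by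
          induction p using add_ind with
          | l p => rfl
          | r p => exact p.elim0) _).trans (congrArg (m a) (hg' a w).symm)
    · intro S Z f g h
      obtain ⟨Z', f', k, e⟩ := (h4 S).push_right (f.wh (tS L1'))
        (S := fun a x y' => ∃ y, _ ∧ f.wh (tS L1') a y = y') fun _ _ _ h => h
      let st := stdN I1 L1' (NT.rfl' L1') S
      have c1 : ∀ a x, f' a (Y.mp (a := (a, S)) (b := (a, one.add S)) (rf a, inr) x) =
          k a (tU Z L1' a (f a x)) := fun a x =>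
        e a _ _ ⟨_, Or.inl ⟨x, rfl, rfl⟩, f.nat inl x⟩
      have c2 : ∀ a x, k a (g (a.add (L1'.ob a)) (P.mp (st.app a)
          (P.mp ((QQ I1 L1').mp (a := (a, S)) (b := (a, one.add S)) (rf a, inr)) x))) =
          k a (tU Z L1' a (g a x)) := fun a x =>
        congrArg (k a) (Eq.trans (congrArg _ (P.mp_eq (fun p => by
          induction p using add_ind with
          | l p => exact congrArg (fun s => inl (I1.mp inl s)) (I1.mp_rf a p)
          | r p =>
            induction p using add_ind with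
            | l p => rfl
            | r p =>
              induction p using add_ind with
              | l p =>
                exact congrArg (fun s => inr (inr (inl (pr (p1 p) (L1'.mp inl s)))))
                  (L1'.mp_rf a (p2 p))
              | r p => rfl) x)) (g.nat inl x))
      refine ⟨Z', (tU Z L1').trans k, f', ((P.nt st).trans (g.wh (tS L1'))).trans k, c1, c2, ?_⟩
      rintro a _ _ (⟨x, hx, rfl, rfl⟩ | ⟨s, w, hw, rfl, rfl⟩ | ⟨w, rfl, rfl⟩)
      · refine (e a _ _ ⟨_, Or.inr (Or.inl ⟨x, hx, rfl, rfl⟩), rfl⟩).trans (congrArg (k a) ?_)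
        refine (h _ _ _ (Or.inl ⟨_, pc_map hx ((stdN I0 L0 nL S).app a), rfl, rfl⟩)).trans
          (congrArg (g _) (P.mp_sq (fun p => ?_) x))
        induction p using add_ind with
        | l p => exact congrArg inl (nI.nat' inl p)
        | r p =>
          induction p using add_ind with
          | l p => rfl
          | r p =>
            induction p using add_ind with
            | l p =>
              induction p using mul_ind with | _ s z => ?_
              induction s using add_ind with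
              | l s => rfl
              | r s => exact congrArg (fun w => inr (inr (inl (pr s w)))) (nL.nat' inl z)
            | r p => rfl
      · induction s using add_ind with
        | l s =>
          refine (e a _ _ ⟨_, Or.inr (Or.inr ⟨w, hw, rfl, rfl⟩), rfl⟩).trans (congrArg (k a) ?_)
          refine (h _ _ _ (Or.inr (Or.inr ⟨_, rfl, rfl⟩))).trans
            (congrArg (g _) (P.mp_sq (fun p => ?_) w))
          induction p using add_ind with
          | l p => rfl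
          | r p =>
            induction p using add_ind with
            | l p => rfl
            | r p => induction p using add_ind <;> rfl
        | r s =>
          obtain ⟨m1, m2⟩ := n2 (a, S) (a, one.add S) (rf a, inr) s w
          have m3 : P.mp ((Q1 I1 L1').mp (rf a)) w = w := (P.wh (Q1 I1 L1')).mp_id a w
          rw [m3] at m1 m2
          exact (congrArg (f' a) m1).trans ((c1 a _).trans ((congrArg (fun z => k a (tU Z L1' a z))
            (h a _ _ (Or.inr (Or.inl ⟨s, w, hw, rfl, rfl⟩)))).trans ((c2 a _).symm.trans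
              (congrArg (fun z => k a (g _ (P.mp (st.app a) z))) m2.symm))))
      · obtain ⟨m1, m2⟩ := n3 (a, S) (a, one.add S) (rf a, inr) w
        have m3 : P.mp ((MM I1).mp (rf a)) w = w := (P.wh (MM I1)).mp_id a w
        rw [m3] at m1 m2
        exact (congrArg (f' a) m1).trans ((c1 a _).trans ((congrArg (fun z => k a (tU Z L1' a z))
          (h a _ _ (Or.inr (Or.inr ⟨w, rfl, rfl⟩)))).trans ((c2 a _).symm.trans
            (congrArg (fun z => k a (g _ (P.mp (st.app a) z))) m2.symm))))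
  exact ⟨Y1, y, e1, k1, fun c x h => k2 c _ _ (Or.inl ⟨x, h, rfl, rfl⟩),
    fun a x h => k2 (a, one) _ _ (Or.inr (Or.inl ⟨(), x, h, Y.mp_id (a, one) _, rfl⟩))⟩

end Pool.Agent.P.MP_860a31_lc.H
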