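import Pool.Agent.P.MP_860a31_lc.H.Core3
import Pool.Agent.P.MP_860a31_lc.H.Core5

/-!
The core lemma: the successor step.
-/

open Cardinal hiding univ
open Set Order Function

namespace Pool.Agent.P.MP_860a31_lc.H

open LO E Fu

theorem coreStep {K : KC} {S : PS K} {ν : Cardinal.{0}} (hν : K.k0 ≤ ν) (hU : UU S ν)
    {I0 L0 I1 L1' M' Kd : NO L1} (hI0 : I0.PB) (hL0 : L0.PB) (hI1 : I1.PB) (hL1 : L1'.PB)
    (lI : I1.Lev ν) (lL : L1'.Lev ν) (nI : NT I0 I1) (nL : NT L0 L1') (hM : M'.PB)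
    (lM : M'.Lev ν) (η' : NT tau M') (hK : Kd.PB) (lK : Kd.Lev ν) {D : LF L1 K.toPC}
    (ok0 ok1 : ℕ → Prop) (hok : ∀ m, ok0 m → ok1 m)
    (p : Mp (S.P.wh (MM I1)) (S.P.wh M')) (b : Mp (S.P.wh (Q1 I1 L1')) D) (n : Mp (S.P.wh M') D)
    (hc : ∀ a x, n a (p a x) = b a (S.P.mp ((mq I1 L1').app a) x))
    (δ : Mp D (S.P.wh (M'.add Kd))) (hδ : ∀ a x, δ a (n a x) = S.P.mp inl x)
    {D' : LF L1 K.toPC} (b' : Mp (S.P.wh (Q1 I1 L1')) D') (n' : Mp (S.P.wh M') D')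
    (lD' : D'.Lev ν) (hN : NF (S.P.nt (mq I1 L1')) p b' n')
    (hE : El D D' (RO (GR n n') (GP (Pc S.P ok1 (Q1 I1 L1')) b b')))
    (Y : LF L2 K.toPC) (lY : Y.Lev ν) (θ : Mp (S.P.wh (TH M' Kd)) Y)
    (e0 : Mp (S.P.wh (QQ I0 L0)) Y)
    (inv : ∀ (a : LO) x, Pc S.P ok0 (Q1 I0 L0) a x →
      e0 (a, one) (S.P.mp ((cp I0 L0 ()).app a) x) =
        θ (a, one) (S.P.mp ((thc M' Kd ()).app a) (δ a (b a (S.P.mp ((q1map nI nL).app a) x))))) :
    ∃ (Y' : LF L2 K.toPC) (y : Mp Y Y') (e1 : Mp (S.P.wh (QQ I1 L1')) Y'), Y'.Lev ν ∧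
      (∀ a x, Pc S.P ok0 (QQ I0 L0) a x →
        y a (e0 a x) = e1 a (S.P.mp ((qqmap nI nL).app a) x)) ∧
      ∀ (a : LO) x, Pc S.P ok1 (Q1 I1 L1') a x →
        e1 (a, one) (S.P.mp ((cp I1 L1' ()).app a) x) =
          y (a, one) (θ (a, one) (S.P.mp ((thc M' Kd ()).app a) (δ a (b a x)))) := by
  have hi := K.inf.trans hν
  have lQ := lev_QQ hi (Fu.Lev.of_nt nI lI) (Fu.Lev.of_nt nL lL)
  obtain ⟨J, ψ, hJ, lJ, hψ⟩ := hU.top hν (pb_QQ hI0 hL0) e0 lQ lY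
  have lY2 := (S.lev.mono hν).wh hi (lQ.add hi lJ)
  let β := b.trans (δ.trans ((S.P.nt (thc M' Kd ())).trans ((θ.trans ψ).wh (at2 one))))
  let m := p.trans ((S.P.nt (thz M' Kd zero)).trans ((θ.trans ψ).wh (at2 zero)))
  have h1 : ∀ a x, Pc S.P ok0 (Q1 I0 L0) a x → β a (S.P.mp ((q1map nI nL).app a) x) =
      S.P.mp (((cp I0 L0 ()).app a).trans inl) x := fun a x hx =>
    (congrArg (ψ (a, one)) (inv a x hx).symm).trans ((hψ _ _).trans (S.P.mp_comp _ _ _))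
  have h2 : ∀ a x, Pc S.P ok0 (MM I0) a x → m a (S.P.mp ((mmap' nI).app a) x) =
      S.P.mp (((mz I0 L0 zero).app a).trans inl) x := fun a x hx => by
    refine (S.P.wh ((QQ I0 L0).add J)).inj (a := (a, zero)) (b := (a, one)) (rf a, emp one) ?_
    refine ((θ.trans ψ).nat (a := (a, zero)) (b := (a, one)) (rf a, emp one) _).symm.trans
      (Eq.trans (congrArg ((θ.trans ψ) (a, one)) ?_)
        ((h1 a _ (hx.map (fun _ h => h) ((mq I0 L0).app a))).trans ?_))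
    · have e : S.P.mp ((q1map nI nL).app a) (S.P.mp ((mq I0 L0).app a) x) =
          S.P.mp ((mq I1 L1').app a) (S.P.mp ((mmap' nI).app a) x) := by
        refine S.P.mp_sq (fun y => ?_) x
        induction y using add_ind with
        | l y => rfl
        | r y => induction y using add_ind <;> rfl
      dsimp only
      rw [e, ← hc, hδ]
      refine S.P.mp_sq (fun y => ?_) _
      exact congrArg inl (M'.mp_rf a y)
    · dsimp only
      rw [S.P.mp_comp]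
      refine (S.P.mp_eq (fun y => ?_) x).symm
      induction y using add_ind with
      | l y => exact congrArg (fun z => inl (inl z)) (I0.mp_rf a y)
      | r y => induction y using add_ind <;> rfl
  obtain ⟨Y', y, e1, l1, k1, k2⟩ := core5 S.P hν nI nL ok0 ok1 lY2
    ((S.lev.mono hν).wh hi (lev_QQ hi lI lL)) (S.P.nt (NT.inl (QQ I0 L0) J)) β m
    (fun a x hx => (h2 a x hx).trans (S.P.mp_comp _ _ _).symm)
    (core4 S hI0 hL0 hL1 nI nL ok0 ok1 hok hJ β m h1 h2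
      (core3 hν hU hI1 lI hM lM η' hK lK ok1 p b n δ hδ b' n' lD' hN hE _ lY2 (θ.trans ψ)))
  exact ⟨Y', ψ.trans y, e1, l1, fun a x hx => (congrArg (y a) (hψ a x)).trans (k1 a x hx),
    fun a x hx => (k2 a x hx).symm⟩

end Pool.Agent.P.MP_860a31_lc.H
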