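import Pool.Agent.P.MP_860a31_lc.H.Nt

/-!
Absorption of new points into a cut or on top.
-/

open Cardinal hiding univ
open Set Order Function

namespace Pool.Agent.P.MP_860a31_lc.H

open LO E Fu

section

variable {K : KC} (S : PS K) {T : Ct} {ν : Cardinal.{0}}

theorem cutOf {a b A : NO T} (h : (a.add b).PB) (n : NT (a.add b) A) :
    ∃ (J : NO T) (ψ : Mp (S.P.wh A) (S.P.wh (a.add (J.add b)))), J.PB ∧
      (∀ ν : Cardinal.{0}, K.k0 ≤ ν → A.Lev ν → J.Lev ν) ∧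
      ∀ c x, ψ c (S.P.mp (n.app c) x) = S.P.mp (amap (rf _) inr) x := by
  obtain ⟨J, m, hJ, lJ⟩ := pbExt (S.O.wh (a.pair (b.pair A)))
  refine ⟨J, (S.uni a b A n (h.full n)).trans
    (S.P.nt ((NT.rfl' a).add (m.add (NT.rfl' b)))), hJ, fun ν hν lA => ?_, fun c x => ?_⟩
  · have h0 := K.inf.trans hν
    exact lJ ν h0 (Fu.Lev.wh h0 (S.levO.mono hν)
      ((Fu.Lev.of_nt ((NT.inl a b).trans n) lA).pair h0
        ((Fu.Lev.of_nt ((NT.inr a b).trans n) lA).pair h0 lA)))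
  · exact (congrArg _ (S.u_old _ _ _ _ x)).trans
      (S.P.mp_eq (fun y => by induction y using add_ind <;> rfl) x)

theorem topOf {Q A : NO T} (h : Q.PB) (n : NT Q A) :
    ∃ (J : NO T) (ψ : Mp (S.P.wh A) (S.P.wh (Q.add J))), J.PB ∧
      (∀ ν : Cardinal.{0}, K.k0 ≤ ν → A.Lev ν → J.Lev ν) ∧
      ∀ c x, ψ c (S.P.mp (n.app c) x) = S.P.mp inl x := by
  let z : ∀ R : NO T, NT (cst T zero) R := fun R => NT.mk' (fun _ => emp _) fun _ _ _ y => y.elim0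
  obtain ⟨J, ψ, hJ, lJ, e⟩ := cutOf S (h.add (pb_cst (T' := L1) T zero))
    (n.elim (z A) fun _ _ y => y.elim0)
  refine ⟨J, ψ.trans (S.P.nt ((NT.rfl' Q).add ((NT.rfl' J).elim (z J) fun _ _ y => y.elim0))),
    hJ, lJ, fun c x => ?_⟩
  have e1 := e c (S.P.mp inl x)
  rw [S.P.mp_eq (k := n.app c) (fun _ => rfl)] at e1
  change S.P.mp _ (ψ c _) = _
  rw [e1, S.P.mp_comp]
  exact S.P.mp_eq (fun _ => rfl) x

variable {S}

/-- the diagonal form of `UU` -/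
theorem UU.ctx (hU : UU S ν) (hν : K.k0 ≤ ν) {Q : NO T} {D : LF T K.toPC} (φ : Mp (S.P.wh Q) D)
    (lQ : Q.Lev ν) (lD : D.Lev ν) : ∃ (Q' : NO T) (n : NT Q Q') (ψ : Mp D (S.P.wh Q')), Q'.Lev ν ∧
      ∀ a x, ψ a (φ a x) = S.P.mp (n.app a) x := by
  have h0 := K.inf.trans hν
  obtain ⟨I', n, ψ, lI, e⟩ := hU (Q.wh (xiF T)) (D.wh (xiF T)) (φ.wh (xiF T))
    (lQ.wh h0 (lev_xiF h0 T)) lD.xi
  let η : NT (idF T) ((xiF T).wh (uF T)) := ⟨T.eta, T.eta_nat⟩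
  refine ⟨I'.wh (uF T), (NT.ap Q η).trans (n.wh (uF T)), (D.un η).trans (ψ.wh (uF T)),
    lI.wh h0 (lev_uF h0 T), fun a x => ?_⟩
  change ψ _ (D.mp (T.eta a) (φ a x)) = _
  rw [← φ.nat]
  exact (e _ _).trans (S.P.mp_eq (fun _ => rfl) x)

theorem UU.cut (hU : UU S ν) (hν : K.k0 ≤ ν) {a b : NO T} (h : (a.add b).PB) {D : LF T K.toPC}
    (φ : Mp (S.P.wh (a.add b)) D) (lQ : (a.add b).Lev ν) (lD : D.Lev ν) :
    ∃ (J : NO T) (ψ : Mp D (S.P.wh (a.add (J.add b)))), J.PB ∧ J.Lev ν ∧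
      ∀ c x, ψ c (φ c x) = S.P.mp (amap (rf _) inr) x := by
  obtain ⟨A, n, ψ, lA, e⟩ := hU.ctx hν φ lQ lD
  obtain ⟨J, χ, hJ, lJ, e'⟩ := cutOf S h n
  exact ⟨J, ψ.trans χ, hJ, lJ ν hν lA, fun c x => (congrArg _ (e c x)).trans (e' c x)⟩

theorem UU.top (hU : UU S ν) (hν : K.k0 ≤ ν) {Q : NO T} (h : Q.PB) {D : LF T K.toPC}
    (φ : Mp (S.P.wh Q) D) (lQ : Q.Lev ν) (lD : D.Lev ν) :
    ∃ (J : NO T) (ψ : Mp D (S.P.wh (Q.add J))), J.PB ∧ J.Lev ν ∧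
      ∀ c x, ψ c (φ c x) = S.P.mp inl x := by
  obtain ⟨A, n, ψ, lA, e⟩ := hU.ctx hν φ lQ lD
  obtain ⟨J, χ, hJ, lJ, e'⟩ := topOf S h n
  exact ⟨J, ψ.trans χ, hJ, lJ ν hν lA, fun c x => (congrArg _ (e c x)).trans (e' c x)⟩

end

end Pool.Agent.P.MP_860a31_lc.H
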