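import Pool.Agent.P.MP_860a31_lc.H.Ord

/-!
Context categories, finitary functors between them, natural orders.
-/

open Cardinal hiding univ
open Set Order Function

namespace Pool.Agent.P.MP_860a31_lc.H

open LO

/-- a category of tuples of linear orders -/
structure Ct where
  Obj : Type 1
  Hom : Obj → Obj → Type
  id : ∀ a, Hom a a
  comp : ∀ {a b c}, Hom a b → Hom b c → Hom a c
  U : Obj → LO
  um : ∀ {a b}, Hom a b → Em (U a) (U b)
  um_id : ∀ a x, um (id a) x = x
  um_comp : ∀ {a b c} (f : Hom a b) (g : Hom b c) x, um (comp f g) x = um g (um f x)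
  ext : ∀ {a b} (f g : Hom a b), (∀ x, um f x = um g x) → f = g
  fac : ∀ {a b c} (g : Hom a c) (k : Hom b c), range (um g) ⊆ range (um k) →
    ∃ e : Hom a b, comp e k = g
  sub : ∀ a (s : Set (U a)), ∃ (a0 : Obj) (h : Hom a0 a), range (um h) = s
  dbl : ∀ {a b} (h : Hom a b), ∃ (c : Obj) (g g' : Hom b c), comp h g = comp h g' ∧
    range (um g) ∩ range (um g') ⊆ range (um (comp h g))
  colim : ∀ (ι : Type) [LinearOrder ι] (A : ι → Obj) (t : ∀ i j, i ≤ j → Hom (A i) (A j)),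
    (∀ i j k (hij : i ≤ j) (hjk : j ≤ k), comp (t i j hij) (t j k hjk) = t i k (hij.trans hjk)) →
    ∃ (B : Obj) (u : ∀ i, Hom (A i) B), ∀ i j h, comp (t i j h) (u j) = u i
  Xi : LO → Obj
  xm : ∀ {z z' : LO}, Em z z' → Hom (Xi z) (Xi z')
  xm_id : ∀ z, xm (rf z) = id _
  xm_comp : ∀ {z z' z'' : LO} (f : Em z z') (g : Em z' z''), xm (f.trans g) = comp (xm f) (xm g)
  xm_fin : ∀ (z : LO) (y : U (Xi z)), ∃ (x : z) (y0 : U (Xi one)), um (xm (pt x)) y0 = y
  xi_fin : ∀ z : LO, Finite z → Finite (U (Xi z))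
  eta : ∀ a, Hom a (Xi (U a))
  eta_nat : ∀ {a b} (f : Hom a b), comp f (eta b) = comp (eta a) (xm (um f))

attribute [simp] Ct.um_id Ct.um_comp

namespace Ct

variable {T : Ct} {a b c d : T.Obj}

theorem assoc (f : T.Hom a b) (g : T.Hom b c) (k : T.Hom c d) :
    T.comp (T.comp f g) k = T.comp f (T.comp g k) := T.ext _ _ fun _ => by simp

@[simp] theorem id_comp (f : T.Hom a b) : T.comp (T.id a) f = f := T.ext _ _ fun _ => by simp

@[simp] theorem comp_id (f : T.Hom a b) : T.comp f (T.id b) = f := T.ext _ _ fun _ => by simp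

theorem cancel {f g : T.Hom a b} (k : T.Hom b c) (h : T.comp f k = T.comp g k) : f = g :=
  T.ext _ _ fun x => (T.um k).inj (by rw [← T.um_comp, h, T.um_comp])

/-- a finite subcontext containing a finite set -/
theorem sub_fin (a : T.Obj) {s : Set (T.U a)} (hs : s.Finite) :
    ∃ (a0 : T.Obj) (h : T.Hom a0 a), Finite (T.U a0) ∧ range (T.um h) = s := by
  obtain ⟨a0, h, e⟩ := T.sub a s
  exact ⟨a0, h, (finite_range_iff (T.um h).inj).1 (e ▸ hs), e⟩

/-- finitely many finite subcontexts lie in one finite subcontext -/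
theorem dirF {ι : Type} [Finite ι] (A : ι → T.Obj) (h : ∀ i, T.Hom (A i) a)
    (hf : ∀ i, Finite (T.U (A i))) : ∃ (a0 : T.Obj) (k : T.Hom a0 a) (e : ∀ i, T.Hom (A i) a0),
      Finite (T.U a0) ∧ ∀ i, T.comp (e i) k = h i := by
  obtain ⟨a0, k, h1, h2⟩ := sub_fin a (s := ⋃ i, range (T.um (h i)))
    (finite_iUnion fun i => finite_range _)
  choose e he using fun i => T.fac (h i) k (h2 ▸ subset_iUnion (fun i => range (T.um (h i))) i)
  exact ⟨a0, k, e, h1, he⟩

theorem dir2 (h : T.Hom b a) (h' : T.Hom c a) (hb : Finite (T.U b)) (hc : Finite (T.U c)) :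
    ∃ (a0 : T.Obj) (k : T.Hom a0 a) (e : T.Hom b a0) (e' : T.Hom c a0),
      Finite (T.U a0) ∧ T.comp e k = h ∧ T.comp e' k = h' := by
  obtain ⟨a0, k, h1, h2⟩ := sub_fin a ((finite_range (T.um h)).union (finite_range (T.um h')))
  obtain ⟨e, he⟩ := T.fac h k (h2 ▸ subset_union_left)
  obtain ⟨e', he'⟩ := T.fac h' k (h2 ▸ subset_union_right)
  exact ⟨a0, k, e, e', h1, he, he'⟩

end Ct

/-- linear orders -/
@[reducible] def L1 : Ct where
  Obj := LO
  Hom := Em
  id := rf
  comp f g := f.trans g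
  U a := a
  um f := f
  um_id _ _ := rfl
  um_comp _ _ _ := rfl
  ext _ _ h := Em.ext h
  fac g k h := (LO.fac g k h).imp fun _ he => Em.ext he
  sub a s := ⟨a.sub s, val s, range_val s⟩
  dbl {a b} h := by
    classical
    let β : b → Bool := fun x => decide (x ∉ range h)
    refine ⟨b.mul ⟨Bool⟩, ⟨fun x => pr x false, fun _ _ e => pr_lt.2 (Or.inl e)⟩,
      ⟨fun x => pr x (β x), fun _ _ e => pr_lt.2 (Or.inl e)⟩,
      Em.ext fun x => by simp [β], ?_⟩
    rintro _ ⟨⟨x, rfl⟩, y, e⟩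
    obtain ⟨rfl, e'⟩ := pr_inj.1 e
    obtain ⟨w, rfl⟩ : y ∈ range h := by simpa [β] using e'
    exact ⟨w, rfl⟩
  colim ι _ A t tc := by
    obtain ⟨B, u, h, -⟩ := LO.colim ι A t fun i j k hij hjk x => congrArg (fun e : Em _ _ => e x) (tc i j k hij hjk)
    exact ⟨B, u, fun i j e => Em.ext (h i j e)⟩
  Xi z := z
  xm f := f
  xm_id _ := rfl
  xm_comp _ _ := rfl
  xm_fin _ y := ⟨y, (), rfl⟩
  xi_fin _ h := h
  eta := rf
  eta_nat _ := rfl

@[simp] theorem L1_um {a b : LO} (f : Em a b) : L1.um f = f := rfl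

@[simp] theorem L1_comp {a b c : LO} (f : Em a b) (g : Em b c) : L1.comp f g = f.trans g := rfl

@[simp] theorem L1_id (a : LO) : L1.id a = rf a := rfl

/-- product of context categories -/
@[reducible] def Ct.prod (T T' : Ct) : Ct where
  Obj := T.Obj × T'.Obj
  Hom a b := T.Hom a.1 b.1 × T'.Hom a.2 b.2
  id a := (T.id a.1, T'.id a.2)
  comp f g := (T.comp f.1 g.1, T'.comp f.2 g.2)
  U a := (T.U a.1).add (T'.U a.2)
  um f := amap (T.um f.1) (T'.um f.2)
  um_id _ x := by induction x using add_ind <;> simp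
  um_comp _ _ x := by induction x using add_ind <;> simp
  ext f g h := Prod.ext (T.ext _ _ fun x => by simpa using h (inl x))
    (T'.ext _ _ fun x => by simpa using h (inr x))
  fac g k h := by
    obtain ⟨e, he⟩ := T.fac g.1 k.1 (by
      rintro _ ⟨x, rfl⟩
      obtain ⟨y, hy⟩ := h ⟨inl x, rfl⟩
      induction y using add_ind
      · exact ⟨_, by simpa using hy⟩
      · simp at hy)
    obtain ⟨e', he'⟩ := T'.fac g.2 k.2 (by
      rintro _ ⟨x, rfl⟩
      obtain ⟨y, hy⟩ := h ⟨inr x, rfl⟩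
      induction y using add_ind
      · simp at hy
      · exact ⟨_, by simpa using hy⟩)
    exact ⟨(e, e'), Prod.ext he he'⟩
  sub a s := by
    obtain ⟨b, h, e⟩ := T.sub a.1 (inl ⁻¹' s)
    obtain ⟨b', h', e'⟩ := T'.sub a.2 (inr ⁻¹' s)
    refine ⟨(b, b'), (h, h'), Set.ext fun y => ⟨?_, fun hy => ?_⟩⟩
    · rintro ⟨x, rfl⟩
      induction x using add_ind
      · exact e.le ⟨_, rfl⟩
      · exact e'.le ⟨_, rfl⟩
    · induction y using add_ind
      · obtain ⟨x, rfl⟩ := e.ge hy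
        exact ⟨inl x, rfl⟩
      · obtain ⟨x, rfl⟩ := e'.ge hy
        exact ⟨inr x, rfl⟩
  dbl h := by
    obtain ⟨c, g, g', e, r⟩ := T.dbl h.1
    obtain ⟨c', k, k', e', r'⟩ := T'.dbl h.2
    refine ⟨(c, c'), (g, k), (g', k'), Prod.ext e e', ?_⟩
    rintro _ ⟨⟨x, rfl⟩, y, hy⟩
    induction x using add_ind <;> induction y using add_ind
    · obtain ⟨w, hw⟩ := r ⟨⟨_, rfl⟩, _, by simpa using hy⟩
      exact ⟨inl w, congrArg inl hw⟩
    · simp at hy
    · simp at hy
    · obtain ⟨w, hw⟩ := r' ⟨⟨_, rfl⟩, _, by simpa using hy⟩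
      exact ⟨inr w, congrArg inr hw⟩
  colim ι _ A t tc := by
    obtain ⟨B, u, h⟩ := T.colim ι (fun i => (A i).1) (fun i j e => (t i j e).1)
      fun i j k hij hjk => congrArg Prod.fst (tc i j k hij hjk)
    obtain ⟨B', u', h'⟩ := T'.colim ι (fun i => (A i).2) (fun i j e => (t i j e).2)
      fun i j k hij hjk => congrArg Prod.snd (tc i j k hij hjk)
    exact ⟨(B, B'), fun i => (u i, u' i), fun i j e => Prod.ext (h i j e) (h' i j e)⟩
  Xi z := (T.Xi z, T'.Xi z)
  xm f := (T.xm f, T'.xm f)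
  xm_id z := Prod.ext (T.xm_id z) (T'.xm_id z)
  xm_comp f g := Prod.ext (T.xm_comp f g) (T'.xm_comp f g)
  xm_fin z y := by
    induction y using add_ind with
    | l y => obtain ⟨x, y0, rfl⟩ := T.xm_fin z y; exact ⟨x, inl y0, rfl⟩
    | r y => obtain ⟨x, y0, rfl⟩ := T'.xm_fin z y; exact ⟨x, inr y0, rfl⟩
  xi_fin z h := by
    have := T.xi_fin z h
    have := T'.xi_fin z h
    infer_instance
  eta a := (T.comp (T.eta a.1) (T.xm inl), T'.comp (T'.eta a.2) (T'.xm inr))
  eta_nat f := Prod.ext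
    (by
      dsimp only
      rw [← Ct.assoc, T.eta_nat, Ct.assoc, Ct.assoc, ← T.xm_comp, ← T.xm_comp]; rfl)
    (by
      dsimp only
      rw [← Ct.assoc, T'.eta_nat, Ct.assoc, Ct.assoc, ← T'.xm_comp, ← T'.xm_comp]; rfl)

/-- pairs of orders -/
abbrev L2 : Ct := L1.prod L1

/-- triples of orders -/
abbrev L3 : Ct := L1.prod L2

/-- finitary functors between context categories -/
structure Fu (T T' : Ct) where
  ob : T.Obj → T'.Obj
  mp : ∀ {a b}, T.Hom a b → T'.Hom (ob a) (ob b)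
  mp_id : ∀ a, mp (T.id a) = T'.id _
  mp_comp : ∀ {a b c} (f : T.Hom a b) (g : T.Hom b c), mp (T.comp f g) = T'.comp (mp f) (mp g)
  fin : ∀ a (y : T'.U (ob a)), ∃ (a0 : T.Obj) (h : T.Hom a0 a) (y0 : T'.U (ob a0)),
    Finite (T.U a0) ∧ T'.um (mp h) y0 = y

/-- natural orders -/
abbrev NO (T : Ct) : Type 1 := Fu T L1

namespace Fu

variable {T T' T'' : Ct}

theorem um_mp (G : Fu T T') {a b c : T.Obj} (f : T.Hom a b) (g : T.Hom b c) (y : T'.U (G.ob a)) :
    T'.um (G.mp g) (T'.um (G.mp f) y) = T'.um (G.mp (T.comp f g)) y := by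
  rw [G.mp_comp, T'.um_comp]

/-- composition of the maps of a natural order -/
theorem mp_mp (Q : NO T) {a b c : T.Obj} (f : T.Hom a b) (g : T.Hom b c) (y : Q.ob a) :
    Q.mp g (Q.mp f y) = Q.mp (T.comp f g) y := Q.um_mp f g y

theorem mp_rf (Q : NO T) (a : T.Obj) (y : Q.ob a) : Q.mp (T.id a) y = y := by rw [Q.mp_id]; rfl

theorem mp_eq (Q : NO T) {a b c : T.Obj} {f : T.Hom a b} {g : T.Hom b c} {k : T.Hom a c}
    (e : ∀ x, T.um g (T.um f x) = T.um k x) (y : Q.ob a) : Q.mp g (Q.mp f y) = Q.mp k y := by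
  rw [Q.mp_mp, T.ext (T.comp f g) k fun x => by rw [T.um_comp, e]]

theorem mp_sq (Q : NO T) {a b b' c : T.Obj} {f : T.Hom a b} {g : T.Hom b c} {f' : T.Hom a b'}
    {g' : T.Hom b' c} (e : ∀ x, T.um g (T.um f x) = T.um g' (T.um f' x)) (y : Q.ob a) :
    Q.mp g (Q.mp f y) = Q.mp g' (Q.mp f' y) := by
  rw [Q.mp_mp f' g']; exact Q.mp_eq (fun x => by rw [T.um_comp, e]) y

theorem range_mono (G : Fu T T') {a b c : T.Obj} {g : T.Hom a c} {k : T.Hom b c}
    (h : range (T.um g) ⊆ range (T.um k)) : range (T'.um (G.mp g)) ⊆ range (T'.um (G.mp k)) := by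
  obtain ⟨e, rfl⟩ := T.fac g k h
  rintro _ ⟨y, rfl⟩
  exact ⟨_, G.um_mp e k y⟩

/-- a finite subcontext of a value comes from a finite subcontext -/
theorem finH (G : Fu T T') {a : T.Obj} {b : T'.Obj} (g : T'.Hom b (G.ob a))
    (hb : Finite (T'.U b)) : ∃ (a0 : T.Obj) (h : T.Hom a0 a) (g0 : T'.Hom b (G.ob a0)),
      Finite (T.U a0) ∧ T'.comp g0 (G.mp h) = g := by
  choose A h y0 h1 h2 using fun x => G.fin a (T'.um g x)
  obtain ⟨a0, k, e, k1, k2⟩ := Ct.dirF A h h1
  obtain ⟨g0, hg⟩ := T'.fac g (G.mp k) (by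
    rintro _ ⟨x, rfl⟩
    exact ⟨_, by rw [G.um_mp (e x) k, k2, h2]⟩)
  exact ⟨a0, k, g0, k1, hg⟩

/-- the identity -/
@[reducible] def idF (T : Ct) : Fu T T where
  ob a := a
  mp f := f
  mp_id _ := rfl
  mp_comp _ _ := rfl
  fin a y := by
    obtain ⟨a0, h, h1, h2⟩ := Ct.sub_fin a (finite_singleton y)
    obtain ⟨y0, e⟩ := h2.ge (mem_singleton y)
    exact ⟨a0, h, y0, h1, e⟩

/-- `G` after `H` -/
@[reducible] def wh (G : Fu T' T'') (H : Fu T T') : Fu T T'' where
  ob a := G.ob (H.ob a)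
  mp f := G.mp (H.mp f)
  mp_id a := by rw [H.mp_id, G.mp_id]
  mp_comp f g := by rw [H.mp_comp, G.mp_comp]
  fin a y := by
    obtain ⟨b, g, y0, h1, rfl⟩ := G.fin _ y
    obtain ⟨a0, h, g0, h2, rfl⟩ := H.finH g h1
    exact ⟨a0, h, _, h2, G.um_mp g0 _ y0⟩

/-- the underlying order -/
@[reducible] def uF (T : Ct) : NO T where
  ob := T.U
  mp := T.um
  mp_id a := Em.ext (T.um_id a)
  mp_comp f g := Em.ext (T.um_comp f g)
  fin := (idF T).fin

/-- the diagonal -/
@[reducible] def xiF (T : Ct) : Fu L1 T where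
  ob := T.Xi
  mp := T.xm
  mp_id := T.xm_id
  mp_comp := T.xm_comp
  fin z y := by
    obtain ⟨x, y0, e⟩ := T.xm_fin z y
    exact ⟨one, pt x, y0, inferInstance, e⟩

/-- pairing -/
@[reducible] def pair (G : Fu T T') (H : Fu T T'') : Fu T (T'.prod T'') where
  ob a := (G.ob a, H.ob a)
  mp f := (G.mp f, H.mp f)
  mp_id a := Prod.ext (G.mp_id a) (H.mp_id a)
  mp_comp f g := Prod.ext (G.mp_comp f g) (H.mp_comp f g)
  fin a y := by
    induction y using add_ind with
    | l y => obtain ⟨a0, h, y0, h1, rfl⟩ := G.fin a y; exact ⟨a0, h, inl y0, h1, rfl⟩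
    | r y => obtain ⟨a0, h, y0, h1, rfl⟩ := H.fin a y; exact ⟨a0, h, inr y0, h1, rfl⟩

/-- first projection -/
@[reducible] def fst (T T' : Ct) : Fu (T.prod T') T where
  ob a := a.1
  mp f := f.1
  mp_id _ := rfl
  mp_comp _ _ := rfl
  fin a y := by
    obtain ⟨a0, h, y0, h1, e⟩ := (idF (T.prod T')).fin a (inl y)
    induction y0 using add_ind
    · exact ⟨a0, h, _, h1, by simpa using e⟩
    · simp at e

/-- second projection -/
@[reducible] def snd (T T' : Ct) : Fu (T.prod T') T' where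
  ob a := a.2
  mp f := f.2
  mp_id _ := rfl
  mp_comp _ _ := rfl
  fin a y := by
    obtain ⟨a0, h, y0, h1, e⟩ := (idF (T.prod T')).fin a (inr y)
    induction y0 using add_ind
    · simp at e
    · exact ⟨a0, h, _, h1, by simpa using e⟩

/-- a constant functor -/
@[reducible] def cst (T : Ct) (b : T'.Obj) : Fu T T' where
  ob _ := b
  mp _ := T'.id b
  mp_id _ := rfl
  mp_comp _ _ := (Ct.id_comp _).symm
  fin a y := by
    obtain ⟨a0, h, h1, -⟩ := Ct.sub_fin a finite_empty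
    exact ⟨a0, h, y, h1, T'.um_id _ _⟩

/-- sum of natural orders -/
@[reducible] def add (Q Q' : NO T) : NO T where
  ob a := (Q.ob a).add (Q'.ob a)
  mp f := amap (Q.mp f) (Q'.mp f)
  mp_id a := Em.ext fun x => by induction x using add_ind <;> simp [mp_rf]
  mp_comp f g := Em.ext fun x => by induction x using add_ind <;> simp [mp_mp]
  fin := (Q.pair Q').fin

/-- product of natural orders -/
@[reducible] def mul (Q Q' : NO T) : NO T where
  ob a := (Q.ob a).mul (Q'.ob a)
  mp f := mmap (Q.mp f) (Q'.mp f)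
  mp_id a := Em.ext fun x => by induction x using mul_ind; simp [mp_rf]
  mp_comp f g := Em.ext fun x => by induction x using mul_ind; simp [mp_mp]
  fin a y := by
    obtain ⟨b, h, y0, h1, e⟩ := Q.fin a (p1 y)
    obtain ⟨b', h', y0', h1', e'⟩ := Q'.fin a (p2 y)
    obtain ⟨a0, k, f, f', k1, rfl, rfl⟩ := Ct.dir2 h h' h1 h1'
    refine ⟨a0, k, pr (Q.mp f y0) (Q'.mp f' y0'), k1, ?_⟩
    exact (congrArg₂ pr ((Q.mp_mp f k y0).trans e) ((Q'.mp_mp f' k y0').trans e')).trans (pr_p y)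

/-- reversal of a natural order -/
@[reducible] def op (Q : NO T) : NO T where
  ob a := (Q.ob a).op
  mp f := omap (Q.mp f)
  mp_id a := Em.ext fun x => congrArg dn (Q.mp_rf a (LO.up x))
  mp_comp f g := Em.ext fun x => congrArg dn (Q.mp_mp f g (LO.up x)).symm
  fin := Q.fin

/-- evaluation of the second variable at a fixed order -/
@[reducible] def at2 (S : LO) : Fu L1 L2 := (idF L1).pair (cst L1 S)

/-- size bound on finite contexts -/
def Lev (G : Fu T T') (ν : Cardinal.{0}) : Prop :=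
  ∀ a, Finite (T.U a) → #(T'.U (G.ob a)) ≤ ν

/-- preservation of intersections -/
def PB (G : Fu T T') : Prop :=
  ∀ {a a1 a2 a0 : T.Obj} (h1 : T.Hom a1 a) (h2 : T.Hom a2 a) (k : T.Hom a0 a),
    range (T.um h1) ∩ range (T.um h2) ⊆ range (T.um k) →
    range (T'.um (G.mp h1)) ∩ range (T'.um (G.mp h2)) ⊆ range (T'.um (G.mp k))

end Fu

/-- natural transformations -/
structure NT {T T' : Ct} (G H : Fu T T') where
  app : ∀ a, T'.Hom (G.ob a) (H.ob a)
  nat : ∀ {a b} (f : T.Hom a b), T'.comp (G.mp f) (app b) = T'.comp (app a) (H.mp f)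

namespace NT

variable {T T' T'' : Ct} {G H I : Fu T T'}

/-- naturality for natural orders, pointwise -/
theorem nat' {Q Q' : NO T} (n : NT Q Q') {a b : T.Obj} (f : T.Hom a b) (y : Q.ob a) :
    n.app b (Q.mp f y) = Q'.mp f (n.app a y) := congrArg (fun e : Em _ _ => e y) (n.nat f)

/-- a map of natural orders from pointwise naturality -/
@[reducible] def mk' {Q Q' : NO T} (app : ∀ a, Em (Q.ob a) (Q'.ob a))
    (nat : ∀ a b (f : T.Hom a b) (y : Q.ob a), app b (Q.mp f y) = Q'.mp f (app a y)) : NT Q Q' :=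
  ⟨app, fun f => Em.ext (nat _ _ f)⟩

theorem ext' {Q Q' : NO T} {n m : NT Q Q'} (h : ∀ a y, n.app a y = m.app a y) : n = m := by
  cases n; cases m; congr; funext a; exact Em.ext (h a)

/-- identity -/
@[reducible] def rfl' (G : Fu T T') : NT G G := ⟨fun _ => T'.id _, fun _ => by simp⟩

/-- composition -/
@[reducible] def trans (n : NT G H) (m : NT H I) : NT G I :=
  ⟨fun a => T'.comp (n.app a) (m.app a), fun f => by
    rw [← Ct.assoc, n.nat, Ct.assoc, m.nat, Ct.assoc]⟩

/-- whiskering on the context side -/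
@[reducible] def wh (n : NT G H) (F : Fu T'' T) : NT (G.wh F) (H.wh F) :=
  ⟨fun a => n.app (F.ob a), fun f => n.nat (F.mp f)⟩

/-- applying a functor -/
@[reducible] def ap (F : Fu T' T'') (n : NT G H) : NT (F.wh G) (F.wh H) :=
  ⟨fun a => F.mp (n.app a), fun f => by
    dsimp only
    rw [← F.mp_comp, n.nat, F.mp_comp]⟩

/-- pairing -/
@[reducible] def pair {G' H' : Fu T T''} (n : NT G H) (m : NT G' H') :
    NT (G.pair G') (H.pair H') :=
  ⟨fun a => (n.app a, m.app a), fun f => Prod.ext (n.nat f) (m.nat f)⟩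

/-- first summand -/
@[reducible] def inl (Q Q' : NO T) : NT Q (Q.add Q') := mk' (fun _ => LO.inl) fun _ _ _ _ => rfl

/-- second summand -/
@[reducible] def inr (Q Q' : NO T) : NT Q' (Q.add Q') := mk' (fun _ => LO.inr) fun _ _ _ _ => rfl

/-- sum of maps -/
@[reducible] def add {Q Q' R R' : NO T} (n : NT Q R) (m : NT Q' R') : NT (Q.add Q') (R.add R') :=
  mk' (fun a => amap (n.app a) (m.app a)) fun _ _ f y => by induction y using add_ind <;> simp [nat']

/-- map out of a sum -/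
@[reducible] def elim {Q Q' R : NO T} (n : NT Q R) (m : NT Q' R)
    (h : ∀ a x y, n.app a x < m.app a y) : NT (Q.add Q') R :=
  mk' (fun a => LO.elim (n.app a) (m.app a) (h a)) fun _ _ f y => by induction y using add_ind <;> simp [nat']

/-- product of maps -/
@[reducible] def mul {Q Q' R R' : NO T} (n : NT Q R) (m : NT Q' R') : NT (Q.mul Q') (R.mul R') :=
  mk' (fun a => mmap (n.app a) (m.app a)) fun _ _ f y => by
    induction y using mul_ind; simp [nat']

/-- reassociation to the right -/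
@[reducible] def asr (Q Q' Q'' : NO T) : NT ((Q.add Q').add Q'') (Q.add (Q'.add Q'')) :=
  mk' (fun _ => LO.asr) fun _ _ f y => by
    induction y using add_ind with
    | l y => induction y using add_ind <;> rfl
    | r y => rfl

/-- reassociation to the left -/
@[reducible] def asl (Q Q' Q'' : NO T) : NT (Q.add (Q'.add Q'')) ((Q.add Q').add Q'') :=
  mk' (fun _ => LO.asl) fun _ _ f y => by
    induction y using add_ind with
    | l y => rfl
    | r y => induction y using add_ind <;> rfl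

/-- change of the fixed second variable -/
@[reducible] def at2 {S S' : LO} (j : Em S S') : NT (Fu.at2 S) (Fu.at2 S') :=
  ⟨fun a => (rf a, j), fun _ => rfl⟩

/-- points that become old are old -/
def Full {Q Q' : NO T} (n : NT Q Q') : Prop :=
  ∀ a b (f : T.Hom a b) (y : Q'.ob a), Q'.mp f y ∈ range (n.app b) → y ∈ range (n.app a)

end NT

/-- an endofunctor with a unit -/
structure En (T : Ct) where
  G : Fu T T
  η : NT (Fu.idF T) G

end Pool.Agent.P.MP_860a31_lc.H
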