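import Pool.Agent.P.MP_860a31_lc.E.Idx

/-!
Recursion along continuous chains, with a large index type for the sorts.
-/

open Cardinal hiding univ
open Set Order Filter

namespace Pool.Agent.P.MP_860a31_lc.H

/-- A chain of states with transition maps, indexed by a subset `D` of the index order. -/
structure Chn1 {Λ : Type} [LinearOrder Λ] {St : Type 1} {ι : Type 1} (X : St → ι → Type)
    (Hom : ∀ S S' : St, (∀ i, X S i → X S' i) → Prop) (D : Set Λ) where
  F : D → St
  t : ∀ a b : D, a ≤ b → ∀ i, X (F a) i → X (F b) i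
  hom : ∀ a b h, Hom (F a) (F b) (t a b h)
  t_id : ∀ a i x, t a a le_rfl i x = x
  t_comp : ∀ a b c (h : a ≤ b) (h' : b ≤ c) i x, t b c h' i (t a b h i x) = t a c (h.trans h') i x

/-- auxiliary record for `gchain1` -/
structure GRec1 (Λ : Type) {St : Type 1} {ι : Type 1} (X : St → ι → Type) where
  idx : Λ
  S : St
  H : Λ → St
  m : Λ → ∀ S' : St, ∀ i, X S' i → Option (X S i)

/-- Recursion along continuous chains.  `Inv` holds at every index, `Step` at successor steps,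
and every element at a limit index comes from an earlier index. -/
theorem gchain1 {Λ : Type} [LinearOrder Λ] [WellFoundedLT Λ] [SuccOrder Λ] [OrderBot Λ]
    [NoMaxOrder Λ] {St : Type 1} {ι : Type 1} (X : St → ι → Type)
    (Hom : ∀ S S' : St, (∀ i, X S i → X S' i) → Prop)
    (hid : ∀ S, Hom S S (fun _ x => x))
    (hcomp : ∀ S S' S'' f g, Hom S S' f → Hom S' S'' g → Hom S S'' (fun i x => g i (f i x)))
    (Inv : Λ → St → Prop) (Step : Λ → ∀ S S' : St, (∀ i, X S i → X S' i) → Prop)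
    (S0 : St) (h0 : Inv ⊥ S0)
    (hstep : ∀ γ S, Inv γ S → ∃ S' f, Hom S S' f ∧ Inv (succ γ) S' ∧ Step γ S S' f)
    (hlim : ∀ δ, IsSuccLimit δ → ∀ c : Chn1 X Hom (Iio δ), (∀ a : Iio δ, Inv a (c.F a)) →
      (∀ a b : Iio δ, ∀ h : a ≤ b, b.1 = succ a.1 → Step a (c.F a) (c.F b) (c.t a b h)) →
      ∃ S, ∃ u : ∀ a i, X (c.F a) i → X S i, Inv δ S ∧ (∀ a, Hom (c.F a) S (u a)) ∧
        (∀ a b h i x, u b i (c.t a b h i x) = u a i x) ∧ ∀ i y, ∃ a x, u a i x = y) :
    ∃ (F : Λ → St) (t : ∀ a b : Λ, a ≤ b → ∀ i, X (F a) i → X (F b) i), F ⊥ = S0 ∧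
      (∀ a, Inv a (F a)) ∧ (∀ a b h, Hom (F a) (F b) (t a b h)) ∧
      (∀ a i x, t a a le_rfl i x = x) ∧
      (∀ a b c (h : a ≤ b) (h' : b ≤ c) i x, t b c h' i (t a b h i x) = t a c (h.trans h') i x) ∧
      (∀ a, Step a (F a) (F (succ a)) (t a (succ a) (le_succ a))) ∧
      ∀ δ, IsSuccLimit δ → ∀ i y, ∃ a, ∃ h : a < δ, ∃ x, t a δ h.le i x = y := by
  classical
  let P : Λ → GRec1 Λ X → Prop := fun k a => a.idx = k ∧ a.H k = a.S ∧
    (∀ i x, a.m k a.S i x = some x) ∧ (∀ l S' i x y, a.m l S' i x = some y → S' = a.H l) ∧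
    Inv k a.S ∧ (k = ⊥ → a.S = S0) ∧
    (∀ γ, k = succ γ → ∃ f, Step γ (a.H γ) a.S f ∧ ∀ i x, a.m γ (a.H γ) i x = some (f i x)) ∧
    (IsSuccLimit k → ∀ i y, ∃ l < k, ∃ x, a.m l (a.H l) i x = some y)
  let R : GRec1 Λ X → GRec1 Λ X → Prop := fun a b => b.H a.idx = a.S ∧ ∃ f, Hom a.S b.S f ∧
    ∀ l ≤ a.idx, ∀ S' i x, b.m l S' i x = (a.m l S' i x).map (f i)
  have mk : ∀ (D : Set Λ) (a : D → GRec1 Λ X), (∀ k : D, P k (a k)) →
      (∀ k l : D, k < l → R (a k) (a l)) →
      ∃ t : ∀ k l : D, k ≤ l → ∀ i, X (a k).S i → X (a l).S i,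
        (∀ (k l : D) h i x, (a l).m k (a k).S i x = some (t k l h i x)) ∧
        (∀ k l h, Hom (a k).S (a l).S (t k l h)) ∧ (∀ k i x, t k k le_rfl i x = x) ∧
        (∀ k l n (h : k ≤ l) (h' : l ≤ n) i x,
          t l n h' i (t k l h i x) = t k n (h.trans h') i x) ∧
        (∀ k l : D, k ≤ l → (a l).H k = (a k).S) ∧
        ∀ (k l : D) (h : k ≤ l) (j : Λ), j ≤ k → ∀ S' i x,
          (a l).m j S' i x = ((a k).m j S' i x).map (t k l h i) := by
    intro D a hP hR
    have ex : ∀ k l : D, k ≤ l → ∃ f, Hom (a k).S (a l).S f ∧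
        ∀ j ≤ k.1, ∀ S' i x, (a l).m j S' i x = ((a k).m j S' i x).map (f i) := by
      intro k l h
      rcases h.eq_or_lt with rfl | h
      · exact ⟨fun _ x => x, hid _, fun j _ S' i x => by simp⟩
      · obtain ⟨-, f, hf, hm⟩ := hR k l h
        exact ⟨f, hf, fun j hj => hm j ((hP k).1.symm ▸ hj)⟩
    choose t ht hm using ex
    have h1 : ∀ (k l : D) h i x, (a l).m k (a k).S i x = some (t k l h i x) := fun k l h i x => by
      rw [hm k l h k le_rfl, (hP k).2.2.1]; rfl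
    refine ⟨t, h1, ht, fun k i x => ?_, fun k l n h h' i x => ?_, fun k l h => ?_, hm⟩
    · exact Option.some_injective _ ((h1 k k le_rfl i x).symm.trans ((hP k).2.2.1 i x))
    · apply Option.some_injective
      rw [← h1 k n, hm l n h' k h, h1 k l h]; rfl
    · rcases h.eq_or_lt with rfl | h
      · exact (hP k).2.1
      · have := (hR k l h).1
        rwa [(hP k).1] at this
  obtain ⟨a, hP, hR⟩ := chain_rec (Λ := Λ) P R (by
    intro k a hP hR
    obtain ⟨t, h1, h2, h3, h4, h5, h6⟩ := mk (Iio k) a hP hR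
    let c : Chn1 X Hom (Iio k) := ⟨fun l => (a l).S, t, h2, h3, h4⟩
    have key : ∃ S, ∃ u : ∀ l : Iio k, ∀ i, X (a l).S i → X S i, Inv k S ∧
        (∀ l, Hom (a l).S S (u l)) ∧ (∀ l n h i x, u n i (t l n h i x) = u l i x) ∧
        (k = ⊥ → S = S0) ∧ (∀ γ (h : γ < k), k = succ γ → Step γ (a ⟨γ, h⟩).S S (u ⟨γ, h⟩)) ∧
        (IsSuccLimit k → ∀ i y, ∃ l x, u l i x = y) := by
      rcases eq_or_ne k ⊥ with rfl | hk
      · exact ⟨S0, fun l => absurd l.2 not_lt_bot, h0, fun l => absurd l.2 not_lt_bot,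
          fun l => absurd l.2 not_lt_bot, fun _ => rfl, fun γ h => absurd h not_lt_bot,
          fun h => absurd isMin_bot h.not_isMin⟩
      by_cases hl : IsSuccLimit k
      · obtain ⟨S, u, k1, k2, k3, k4⟩ := hlim k hl c (fun l => (hP l).2.2.2.2.1) (by
          intro l n h e
          obtain ⟨f, hf, hf'⟩ := (hP n).2.2.2.2.2.2.1 l e
          have e2 := h5 l n h
          have : ∀ S' (e : S' = (a l).S) (f : ∀ i, X S' i → X (a n).S i), Step l S' (a n).S f →
              (∀ i x, (a n).m l S' i x = some (f i x)) → Step l (a l).S (a n).S (t l n h) := by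
            rintro _ rfl f hf hf'
            have : f = t l n h := by
              funext i x; exact Option.some_injective _ ((hf' i x).symm.trans (h1 l n h i x))
            exact this ▸ hf
          exact this _ e2 f hf hf')
        exact ⟨S, u, k1, k2, k3, fun h => absurd h hk,
          fun γ _ e => absurd (e ▸ hl) (not_isSuccLimit_succ γ), fun _ => k4⟩
      · obtain ⟨γ, rfl⟩ : ∃ γ, succ γ = k := by
          rcases not_isSuccLimit_iff.1 hl with h | h
          · exact absurd h.eq_bot hk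
          · obtain ⟨γ, -, h⟩ := not_isSuccPrelimit_iff_succ_eq.1 h
            exact ⟨γ, h⟩
        let g : Iio (succ γ) := ⟨γ, lt_succ γ⟩
        have hg : ∀ l : Iio (succ γ), l ≤ g := fun l => (lt_succ_iff (a := l.1) (b := γ)).1 l.2
        obtain ⟨S, f, k1, k2, k3⟩ := hstep γ (a g).S (hP g).2.2.2.2.1
        refine ⟨S, fun l i x => f i (t l g (hg l) i x), k2,
          fun l => hcomp _ _ _ _ _ (h2 l g (hg l)) k1, fun l n h i x => congrArg (f i) (h4 _ _ _ _ _ _ _),
          fun h => absurd h hk, fun γ' h e => ?_, fun h => absurd h hl⟩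
        obtain rfl : γ = γ' := succ_injective e
        have : (fun i x => f i (t g g (hg g) i x)) = f := by funext i x; rw [h3]
        change Step γ (a g).S S (fun i x => f i (t g g (hg g) i x))
        rw [this]; exact k3
    obtain ⟨S, u, k1, k2, k3, k4, k5, k6⟩ := key
    let H : Λ → St := fun l => if h : l < k then (a ⟨l, h⟩).S else S
    have hH : ∀ l (h : l < k), H l = (a ⟨l, h⟩).S := fun l h => dif_pos h
    have hHk : H k = S := dif_neg (lt_irrefl k)
    let m : Λ → ∀ S' : St, ∀ i, X S' i → Option (X S i) := fun l S' i x =>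
      if h : l < k then (if e : S' = (a ⟨l, h⟩).S then some (u ⟨l, h⟩ i (e ▸ x)) else none)
      else if e : l = k ∧ S' = S then some (e.2 ▸ x) else none
    have hm : ∀ l (h : l < k) i x, m l (a ⟨l, h⟩).S i x = some (u ⟨l, h⟩ i x) := fun l h i x => by
      simp only [m, dif_pos h, dif_pos]
    have hm' : ∀ l (h : l < k) S' (e : S' = (a ⟨l, h⟩).S) (f : ∀ i, X (a ⟨l, h⟩).S i → X S i),
        Step l (a ⟨l, h⟩).S S (u ⟨l, h⟩) →
        ∃ f, Step l S' S f ∧ ∀ i x, m l S' i x = some (f i x) := by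
      rintro l h _ rfl f hf
      exact ⟨_, hf, hm l h⟩
    refine ⟨⟨k, S, H, m⟩, ⟨rfl, hHk, fun i x => ?_, fun l S' i x y hy => ?_, k1, k4,
      fun γ e => ?_, fun hl i y => ?_⟩, fun l => ⟨?_, u l, k2 l, fun j hj S' i x => ?_⟩⟩
    · simp only [m, dif_neg (lt_irrefl k), and_self, dif_pos]
    · change S' = H l
      by_cases h : l < k
      · rw [hH l h]
        by_contra e
        simp only [m, dif_pos h, dif_neg e] at hy
        cases hy
      · by_cases e : l = k ∧ S' = S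
        · rw [e.1, hHk]; exact e.2
        · simp only [m, dif_neg h, dif_neg e] at hy
          cases hy
    · have h : γ < k := e ▸ lt_succ γ
      exact hm' γ h _ (hH γ h) (u ⟨γ, h⟩) (k5 γ h e)
    · obtain ⟨l, x, hx⟩ := k6 hl i y
      refine ⟨l, l.2, ?_⟩
      have : ∀ S' (e : S' = (a l).S), ∃ x, m l S' i x = some y := by
        rintro _ rfl
        exact ⟨x, by rw [hm l l.2, hx]⟩
      exact this _ (hH l l.2)
    · change H (a l).idx = _
      rw [(hP l).1]; exact hH l l.2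
    · rw [(hP l).1] at hj
      have hjk : j < k := hj.trans_lt l.2
      change m j S' i x = _
      by_cases e : S' = (a ⟨j, hjk⟩).S
      · subst e
        rw [hm j hjk, h1 ⟨j, hjk⟩ l hj, Option.map_some, k3]
      · have : (a l).m j S' i x = none := by
          rcases hc : (a l).m j S' i x with _ | y
          · rfl
          · exact absurd (((hP l).2.2.2.1 _ _ _ _ _ hc).trans (h5 ⟨j, hjk⟩ l hj)) e
        rw [this]
        simp only [m, dif_pos hjk, dif_neg e, Option.map_none])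
  obtain ⟨t, h1, h2, h3, h4, h5, -⟩ := mk univ (fun k => a k) (fun k => hP k)
    (fun k l h => hR k l h)
  refine ⟨fun k => (a k).S, fun k l h => t ⟨k, trivial⟩ ⟨l, trivial⟩ h,
    (hP ⊥).2.2.2.2.2.1 rfl, fun k => (hP k).2.2.2.2.1, fun k l h => h2 ⟨k, trivial⟩ ⟨l, trivial⟩ h,
    fun k => h3 ⟨k, trivial⟩, fun k l n h h' => h4 ⟨k, trivial⟩ ⟨l, trivial⟩ ⟨n, trivial⟩ h h',
    fun γ => ?_, fun δ hδ i y => ?_⟩
  · obtain ⟨f, hf, hf'⟩ := (hP (succ γ)).2.2.2.2.2.2.1 γ rfl
    have : ∀ S' (e : S' = (a γ).S) (f : ∀ i, X S' i → X (a (succ γ)).S i),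
        Step γ S' (a (succ γ)).S f → (∀ i x, (a (succ γ)).m γ S' i x = some (f i x)) →
        Step γ (a γ).S (a (succ γ)).S (t ⟨γ, trivial⟩ ⟨succ γ, trivial⟩ (le_succ γ)) := by
      rintro _ rfl f hf hf'
      have : f = t ⟨γ, trivial⟩ ⟨succ γ, trivial⟩ (le_succ γ) := by
        funext i x
        exact Option.some_injective _ ((hf' i x).symm.trans (h1 ⟨γ, trivial⟩ ⟨succ γ, trivial⟩ _ i x))
      exact this ▸ hf
    exact this _ (h5 ⟨γ, trivial⟩ ⟨succ γ, trivial⟩ (le_succ γ)) f hf hf'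
  · obtain ⟨l, hl, hx⟩ := (hP δ).2.2.2.2.2.2.2 hδ i y
    refine ⟨l, hl, ?_⟩
    have : ∀ S' (e : S' = (a l).S), (∃ x, (a δ).m l S' i x = some y) →
        ∃ x, t ⟨l, trivial⟩ ⟨δ, trivial⟩ hl.le i x = y := by
      rintro _ rfl ⟨x, hx⟩
      exact ⟨x, Option.some_injective _ ((h1 ⟨l, trivial⟩ ⟨δ, trivial⟩ _ i x).symm.trans hx)⟩
    exact this _ (h5 ⟨l, trivial⟩ ⟨δ, trivial⟩ hl.le) hx

end Pool.Agent.P.MP_860a31_lc.H
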