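import Pool.Agent.P.MP_860a31_lc.H.Lf
import Pool.Agent.P.MP_860a31_lc.H.GCh

/-!
Definitions for the main argument: moves, shifts, free amalgams, chains, concrete orders.
-/

open Cardinal hiding univ
open Set Order Function

set_option linter.dupNamespace false

namespace Pool.Agent.P.MP_860a31_lc.H

open LO E Fu

/-- factorisation of maps of natural orders -/
theorem NT.fac {T : Ct} {Q Q' R : NO T} (n : NT Q R) (m : NT Q' R)
    (h : ∀ a, range (n.app a) ⊆ range (m.app a)) :
    ∃ e : NT Q Q', ∀ a y, m.app a (e.app a y) = n.app a y := by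
  choose e he using fun a => LO.fac (n.app a) (m.app a) (h a)
  exact ⟨NT.mk' e fun a b f y => (m.app b).inj (by rw [he, m.nat', he, n.nat']), he⟩

/-- the natural suborder given by a natural and finitary set of points -/
@[reducible] def Fu.sub {T : Ct} (Q : NO T) (p : ∀ a, Set (Q.ob a))
    (hn : ∀ a b (f : T.Hom a b) y, y ∈ p a → Q.mp f y ∈ p b)
    (hf : ∀ a y, y ∈ p a → ∃ (a0 : T.Obj) (h : T.Hom a0 a) (y0 : Q.ob a0),
      Finite (T.U a0) ∧ y0 ∈ p a0 ∧ Q.mp h y0 = y) : NO T where
  ob a := LO.sub (Q.ob a) (p a)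
  mp f := ⟨fun y => ⟨Q.mp f y.1, hn _ _ f _ y.2⟩, fun _ _ h => (Q.mp f).mono h⟩
  mp_id a := Em.ext fun y => Subtype.ext (Q.mp_rf a y.1)
  mp_comp f g := Em.ext fun y => Subtype.ext (Q.mp_mp f g y.1).symm
  fin a y := by
    obtain ⟨a0, h, y0, h1, h2, h3⟩ := hf a y.1 y.2
    exact ⟨a0, h, ⟨y0, h2⟩, h1, Subtype.ext h3⟩

/-- the inclusion of a natural suborder -/
@[reducible] def NT.val {T : Ct} (Q : NO T) (p : ∀ a, Set (Q.ob a)) (hn) (hf) :
    NT (Q.sub p hn hf) Q := NT.mk' (fun a => LO.val (p a)) fun _ _ _ _ => rfl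

/-- the identity on orders -/
abbrev tau : NO L1 := idF L1

/-- a one-variable substitution acting on contexts through the diagonal -/
@[reducible] def En.lift (s : En L1) (T : Ct) : En T where
  G := (xiF T).wh (s.G.wh (uF T))
  η := ⟨fun a => T.comp (T.eta a) (T.xm (s.η.app (T.U a))), fun f => by
    dsimp only
    rw [← Ct.assoc, T.eta_nat, Ct.assoc, Ct.assoc, ← T.xm_comp, ← T.xm_comp]
    exact congrArg (fun e => T.comp _ (T.xm e)) (s.η.nat (T.um f))⟩

/-! ### coding and moves -/

/-- words with a substitution that codes anchored points by new top letters -/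
structure Cd where
  W : En L1
  lev : W.G.Lev ℵ₀
  σ : ∀ {I I' : LO} (i : Em I I') (ρ : I' → I.add one), Monotone ρ → (∀ z, ρ (i z) = inl z) →
    Em (W.G.ob I') (W.G.ob (I.add (I'.add (I'.op.add I'))))
  old : ∀ {I I' : LO} (i : Em I I') (ρ : I' → I.add one) (hm hr) {A : LO} (e : Em A I')
    (e' : Em A (I.add (I'.add (I'.op.add I')))),
    (∀ x, (∃ z, e x = i z ∧ e' x = inl z) ∨ (ρ (e x) = inr () ∧ e' x = inr (inl (e x)))) →
    ∀ w, σ i ρ hm hr (W.G.mp e w) = W.G.mp e' w
  nat : ∀ {I I' : LO} (i : Em I I') (ρ : I' → I.add one) (hm hr) {I1 I1' : LO} (i1 : Em I1 I1')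
    (ρ1 : I1' → I1.add one) (hm1 hr1) (f : Em I I1) (f' : Em I' I1'),
    (∀ z, f' (i z) = i1 (f z)) → (∀ y, ρ1 (f' y) = amap f (rf one) (ρ y)) →
    ∀ w, σ i1 ρ1 hm1 hr1 (W.G.mp f' w) =
      W.G.mp (amap f (amap f' (amap (omap f') f'))) (σ i ρ hm hr w)

/-- first variable of two -/
abbrev v1 : NO L2 := fst L1 L1
/-- second variable of two -/
abbrev v2 : NO L2 := snd L1 L1
/-- first variable of three -/
abbrev w1 : NO L3 := fst L1 L2
/-- second variable of three -/
abbrev w2 : NO L3 := v1.wh (snd L1 L2)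
/-- third variable of three -/
abbrev w3 : NO L3 := v2.wh (snd L1 L2)

/-- `1 + p + 1 + q` -/
abbrev II : NO L2 := Fu.add (cst L2 one) (v1.add (Fu.add (cst L2 one) v2))
/-- `(p, q, X) ↦ (p, q)` -/
abbrev piq : Fu L3 L2 := w1.pair w2
/-- `(p, q, X) ↦ (p + X, q)` -/
abbrev gq : Fu L3 L2 := (w1.add w3).pair w2
/-- `(p, q, X) ↦ (p, q + J)` -/
abbrev hq (J : NO L3) : Fu L3 L2 := w1.pair (w2.add J)

/-- `(p, q, X) ↦ (p + X, q, X)` -/
@[reducible] def gE : En L3 :=
  ⟨(w1.add w3).pair (w2.pair w3), ⟨fun a => (inl, rf a.2.1, rf a.2.2), fun _ => rfl⟩⟩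

/-- `(p, q, X) ↦ (p, q + J, X)` -/
@[reducible] def hE (J : NO L3) : En L3 :=
  ⟨w1.pair ((w2.add J).pair w3), ⟨fun a => (rf a.1, inl, rf a.2.2), fun _ => rfl⟩⟩

/-- a family with the two block moves -/
structure MV (K : KC) where
  P : LF L1 K.toPC
  lev : P.Lev K.k0
  atom : P.Atom
  J1 : NO L3
  J2 : NO L3
  lev1 : J1.Lev K.k0
  lev2 : J2.Lev K.k0
  m1 : Mp (P.wh ((w1.add w3).add w2)) (P.wh (w1.add (w2.add J1)))
  m2 : Mp (P.wh (w2.add (w1.add w3))) (P.wh ((w2.add J2).add w1))
  m1_old : ∀ (a : L3.Obj) (x : K.U (P.ob (a.1.add a.2.1))),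
    m1 a (P.mp (amap inl (rf _)) x) = P.mp (amap (rf _) inl) x
  m2_old : ∀ (a : L3.Obj) (x : K.U (P.ob (a.2.1.add a.1))),
    m2 a (P.mp (amap (rf _) inl) x) = P.mp (amap inl (rf _)) x

/-- a family in which new points can be moved naturally into any cut -/
structure PS (K : KC) where
  P : LF L1 K.toPC
  lev : P.Lev K.k0
  atom : P.Atom
  O : NO L3
  levO : O.Lev K.k0
  u : ∀ (a b A : LO), Em (a.add b) A → K.U (P.ob A) →
    K.U (P.ob (a.add ((O.ob (a, b, A)).add b)))
  u_hom : ∀ a b A i, K.IsH (u a b A i)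
  u_old : ∀ a b A i x, u a b A i (P.mp i x) = P.mp (amap (rf a) inr) x
  u_nat : ∀ {a b A a' b' A' : LO} (i : Em (a.add b) A) (i' : Em (a'.add b') A') (f : Em a a')
    (g : Em b b') (h : Em A A'), (∀ x, h (i x) = i' (amap f g x)) →
    (∀ y, h y ∈ range i' → y ∈ range i) → ∀ x, u a' b' A' i' (P.mp h x) =
      P.mp (amap f (amap (O.mp (a := (a, b, A)) (b := (a', b', A')) (f, g, h)) g)) (u a b A i x)

/-- the move as a map of families -/
@[reducible] def PS.uni {K : KC} (S : PS K) {T : Ct} (a b A : NO T) (i : NT (a.add b) A)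
    (hi : i.Full) :
    Mp (S.P.wh A) (S.P.wh (a.add ((S.O.wh (a.pair (b.pair A))).add b))) where
  app c := S.u (a.ob c) (b.ob c) (A.ob c) (i.app c)
  hom _ := S.u_hom _ _ _ _
  nat f := S.u_nat (i.app _) (i.app _) (a.mp f) (b.mp f) (A.mp f)
    (fun x => (i.nat' f x).symm) (hi _ _ f)

/-! ### free amalgams -/

/-- appending on top -/
abbrev tS (W : NO L1) : Fu L1 L1 := tau.add W

/-- appending below -/
abbrev bS (V : NO L1) : Fu L1 L1 := V.add tau

section NFdef

variable {C : PC} {N E N' D : LF L1 C}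

/-- the unit of the top shift -/
abbrev tU (X : LF L1 C) (W : NO L1) : Mp X (X.wh (tS W)) := X.un (NT.inl tau W)

/-- the unit of the bottom shift -/
abbrev bU (X : LF L1 C) (V : NO L1) : Mp X (X.wh (bS V)) := X.un (NT.inr V tau)

/-- the extension embeds in a top shift of the base -/
def TE (j : Mp N N') : Prop :=
  ∃ (W : NO L1) (ψ : Mp N' (N.wh (tS W))), ∀ a x, ψ a (j a x) = tU N W a x

/-- the extension embeds in a bottom shift of the base -/
def BE (i : Mp N E) : Prop :=
  ∃ (V : NO L1) (χ : Mp E (N.wh (bS V))), ∀ a x, χ a (i a x) = bU N V a x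

/-- `E` and `N'` are freely amalgamated over `N` in `D` -/
def NF (i : Mp N E) (j : Mp N N') (e : Mp E D) (n : Mp N' D) : Prop :=
  TE j ∧ ∃ (V : NO L1) (χ : Mp E (N.wh (bS V))), (∀ a x, χ a (i a x) = bU N V a x) ∧
    El D (N'.wh (bS V)) (RO (GR e (χ.trans (j.wh (bS V)))) (GR n (bU N' V)))

end NFdef

/-- extensions of level `ν` of standard families embed in standard families -/
def UU {K : KC} (S : PS K) (ν : Cardinal.{0}) : Prop :=
  ∀ (I : NO L1) (D : LF L1 K.toPC) (φ : Mp (S.P.wh I) D), I.Lev ν → D.Lev ν →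
    ∃ (I' : NO L1) (n : NT I I') (ψ : Mp D (S.P.wh I')), I'.Lev ν ∧
      ∀ a x, ψ a (φ a x) = S.P.mp (n.app a) x

/-! ### chains -/

/-- a continuous chain of natural orders with union `top` -/
structure NCh (Λ : Type) [LinearOrder Λ] {T : Ct} (top : NO T) where
  Q : Λ → NO T
  ι : ∀ i, NT (Q i) top
  mono : ∀ i j, i ≤ j → ∀ a, range ((ι i).app a) ⊆ range ((ι j).app a)
  cont : ∀ δ, IsSuccLimit δ → ∀ a y, ∃ i < δ, (ι δ).app a y ∈ range ((ι i).app a)
  cover : ∀ a y, ∃ i, y ∈ range ((ι i).app a)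

/-- a continuous chain of families with union `top` -/
structure FCh (Λ : Type) [LinearOrder Λ] {T : Ct} {C : PC} (top : LF T C) where
  X : Λ → LF T C
  ι : ∀ i, Mp (X i) top
  mono : ∀ i j, i ≤ j → ∀ a, range (ι i a) ⊆ range (ι j a)
  cont : ∀ δ, IsSuccLimit δ → ∀ a y, ∃ i < δ, ι δ a y ∈ range (ι i a)
  cover : ∀ a y, ∃ i, y ∈ range (ι i a)

namespace NCh

variable {Λ : Type} [LinearOrder Λ] {T : Ct} {top top' : NO T}

/-- transition maps -/
noncomputable def tr (c : NCh Λ top) {i j : Λ} (h : i ≤ j) : NT (c.Q i) (c.Q j) :=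
  (NT.fac (c.ι i) (c.ι j) (c.mono i j h)).choose

@[simp] theorem ι_tr (c : NCh Λ top) {i j : Λ} (h : i ≤ j) (a : T.Obj) (y : (c.Q i).ob a) :
    (c.ι j).app a ((c.tr h).app a y) = (c.ι i).app a y :=
  (NT.fac (c.ι i) (c.ι j) (c.mono i j h)).choose_spec a y

theorem tr_tr (c : NCh Λ top) {i j k : Λ} (h : i ≤ j) (h' : j ≤ k) (a : T.Obj)
    (y : (c.Q i).ob a) : (c.tr h').app a ((c.tr h).app a y) = (c.tr (h.trans h')).app a y :=
  ((c.ι k).app a).inj (by simp)

/-- a constant chain -/
@[reducible] def cst (Λ : Type) [LinearOrder Λ] [Nonempty Λ] (top : NO T) : NCh Λ top where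
  Q _ := top
  ι _ := NT.rfl' top
  mono _ _ _ _ := Subset.rfl
  cont δ hδ _ y := by
    obtain ⟨i, hi⟩ := not_isMin_iff.1 hδ.not_isMin
    exact ⟨i, hi, y, rfl⟩
  cover _ y := ⟨Classical.arbitrary Λ, y, rfl⟩

/-- sum of chains -/
@[reducible] def add (c : NCh Λ top) (d : NCh Λ top') : NCh Λ (top.add top') where
  Q i := (c.Q i).add (d.Q i)
  ι i := (c.ι i).add (d.ι i)
  mono i j h a := by
    rintro _ ⟨y, rfl⟩
    induction y using add_ind with
    | l y => obtain ⟨x, e⟩ := c.mono i j h a ⟨y, rfl⟩; exact ⟨inl x, congrArg inl e⟩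
    | r y => obtain ⟨x, e⟩ := d.mono i j h a ⟨y, rfl⟩; exact ⟨inr x, congrArg inr e⟩
  cont δ hδ a y := by
    induction y using add_ind with
    | l y => obtain ⟨i, h, x, e⟩ := c.cont δ hδ a y; exact ⟨i, h, inl x, congrArg inl e⟩
    | r y => obtain ⟨i, h, x, e⟩ := d.cont δ hδ a y; exact ⟨i, h, inr x, congrArg inr e⟩
  cover a y := by
    induction y using add_ind with
    | l y => obtain ⟨i, x, e⟩ := c.cover a y; exact ⟨i, inl x, congrArg inl e⟩
    | r y => obtain ⟨i, x, e⟩ := d.cover a y; exact ⟨i, inr x, congrArg inr e⟩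

/-- the chain of standard families -/
@[reducible] def fam [Nonempty Λ] {C : PC} (c : NCh Λ top) (P : LF L1 C) : FCh Λ (P.wh top) where
  X i := P.wh (c.Q i)
  ι i := P.nt (c.ι i)
  mono i j h a := P.range_mono (c.mono i j h a)
  cont δ hδ a y := by
    have : Nonempty (Iio δ) := (not_isMin_iff.1 hδ.not_isMin).elim fun i hi => ⟨⟨i, hi⟩⟩
    obtain ⟨i, x, rfl⟩ := P.cover (fun i : Iio δ => (c.Q i).ob a)
      (fun i => (c.tr (le_of_lt i.2)).app a) (fun i j => ⟨max i j, by
        rintro _ ⟨x, rfl⟩; exact ⟨_, c.tr_tr (show i.1 ≤ (max i j).1 from le_max_left i j) _ a x⟩,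
        by rintro _ ⟨x, rfl⟩
           exact ⟨_, c.tr_tr (show j.1 ≤ (max i j).1 from le_max_right i j) _ a x⟩⟩)
      (fun z => by
        obtain ⟨i, hi, x, e⟩ := c.cont δ hδ a z
        exact ⟨⟨i, hi⟩, x, ((c.ι δ).app a).inj ((c.ι_tr _ a x).trans e)⟩) y
    exact ⟨i, i.2, x, (P.mp_eq (fun z => c.ι_tr _ a z) x).symm⟩
  cover a := P.cover (fun i => (c.Q i).ob a) (fun i => (c.ι i).app a)
    (fun i j => ⟨max i j, c.mono _ _ (le_max_left i j) a, c.mono _ _ (le_max_right i j) a⟩)
    (c.cover a)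

end NCh

namespace FCh

variable {Λ : Type} [LinearOrder Λ] {T : Ct} {C : PC} {top : LF T C}

/-- transition maps -/
noncomputable def tr (c : FCh Λ top) {i j : Λ} (h : i ≤ j) : Mp (c.X i) (c.X j) :=
  (Mp.fac (c.ι i) (c.ι j) (c.mono i j h)).choose

@[simp] theorem ι_tr (c : FCh Λ top) {i j : Λ} (h : i ≤ j) (a : T.Obj) (y : C.U ((c.X i).ob a)) :
    c.ι j a (c.tr h a y) = c.ι i a y :=
  (Mp.fac (c.ι i) (c.ι j) (c.mono i j h)).choose_spec a y

theorem tr_tr (c : FCh Λ top) {i j k : Λ} (h : i ≤ j) (h' : j ≤ k) (a : T.Obj)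
    (y : C.U ((c.X i).ob a)) : c.tr h' a (c.tr h a y) = c.tr (h.trans h') a y :=
  (c.ι k).inj a (by simp)

end FCh

theorem NCh.fam_tr {Λ : Type} [LinearOrder Λ] [Nonempty Λ] {T : Ct} {top : NO T} {C : PC}
    (c : NCh Λ top) (P : LF L1 C) {i j : Λ} (h : i ≤ j) : (c.fam P).tr h = P.nt (c.tr h) :=
  Mp.ext fun a x => ((c.fam P).ι j).inj a (((c.fam P).ι_tr h a x).trans
    (P.mp_eq (fun z => c.ι_tr h a z) x).symm)

/-! ### the concrete orders of the core lemma -/

/-- `I + τ + τ` -/
abbrev MM (I : NO L1) : NO L1 := I.add (tau.add tau)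

/-- `I + τ + L + τ` -/
abbrev Q1 (I L : NO L1) : NO L1 := I.add (tau.add (L.add tau))

/-- `I + τ + S × L + τ` -/
abbrev QQ (I L : NO L1) : NO L2 := (I.wh v1).add (v1.add ((v2.mul (L.wh v1)).add v1))

/-- `M + S × Kd` -/
abbrev TH (M Kd : NO L1) : NO L2 := (M.wh v1).add (v2.mul (Kd.wh v1))

section Maps

variable {I L I' L' : NO L1}

/-- the first copy of `τ` -/
abbrev mη (I : NO L1) : NT tau (MM I) := (NT.inl tau tau).trans (NT.inr I _)

/-- functoriality of `MM` -/
abbrev mmap' (n : NT I I') : NT (MM I) (MM I') := n.add (NT.rfl' _)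

/-- functoriality of `Q1` -/
abbrev q1map (n : NT I I') (m : NT L L') : NT (Q1 I L) (Q1 I' L') :=
  n.add ((NT.rfl' _).add (m.add (NT.rfl' _)))

/-- functoriality of `QQ` -/
abbrev qqmap (n : NT I I') (m : NT L L') : NT (QQ I L) (QQ I' L') :=
  (n.wh v1).add ((NT.rfl' _).add (((NT.rfl' _).mul (m.wh v1)).add (NT.rfl' _)))

/-- the inclusion of `MM I` in `Q1 I L` -/
abbrev mq (I L : NO L1) : NT (MM I) (Q1 I L) :=
  (NT.rfl' I).add ((NT.rfl' tau).add (NT.inr L tau))

/-- the inclusion of `MM I` in `QQ I L` -/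
@[reducible] def mz (I L : NO L1) (S : LO) : NT (MM I) ((QQ I L).wh (at2 S)) :=
  NT.mk' (fun a => amap (rf _) (amap (rf a) inr)) fun _ _ _ y => by
    induction y using add_ind with
    | l y => rfl
    | r y => induction y using add_ind <;> rfl

/-- the copy of `Q1 I L` over the point `c` -/
@[reducible] def cp (I L : NO L1) {S : LO} (c : S) : NT (Q1 I L) ((QQ I L).wh (at2 S)) :=
  NT.mk' (fun a => amap (rf _) (amap (rf a) (amap (cop c) (rf a)))) fun _ _ _ y => by
    induction y using add_ind with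
    | l y => rfl
    | r y =>
      induction y using add_ind with
      | l y => rfl
      | r y => induction y using add_ind <;> rfl

/-- the copy of `M + Kd` over the point `c` -/
@[reducible] def thc (M Kd : NO L1) {S : LO} (c : S) : NT (M.add Kd) ((TH M Kd).wh (at2 S)) :=
  NT.mk' (fun _ => amap (rf _) (cop c)) fun _ _ _ y => by induction y using add_ind <;> rfl

/-- the inclusion of `M` in `TH M Kd` -/
@[reducible] def thz (M Kd : NO L1) (S : LO) : NT M ((TH M Kd).wh (at2 S)) :=
  NT.mk' (fun _ => inl) fun _ _ _ _ => rfl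

/-- `L` is put on top of the first block -/
@[reducible] def sN (I L : NO L1) : NT (Q1 I L) ((MM I).wh (tS L)) :=
  NT.mk' (fun a => amap (I.mp inl) (elim (inl.trans inl) (amap inr inl) fun x y => by
      induction y using add_ind <;> simp)) fun _ _ f y => by
    induction y using add_ind with
    | l y => exact congrArg inl (I.mp_sq (f := f) (g' := (tS L).mp f) (fun _ => rfl) y)
    | r y =>
      induction y using add_ind with
      | l y => rfl
      | r y => induction y using add_ind <;> rfl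

end Maps

/-- an embedding of `(1 + S) × b` from its parts -/
def LO.dis {S b c : LO} (f : Em b c) (g : Em (S.mul b) c) (h : ∀ x y, f x < g y) :
    Em ((one.add S).mul b) c :=
  ⟨fun z => cs (fun _ => f (p2 z)) (fun s => g (pr s (p2 z))) (p1 z), fun z z' hz => by
    induction z using mul_ind with | _ s y => ?_
    induction z' using mul_ind with | _ s' y' => ?_
    induction s using add_ind <;> induction s' using add_ind
    · simpa [pr_lt] using hz
    · exact h _ _
    · simp [pr_lt] at hz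
    · simpa [pr_lt] using hz⟩

@[simp] theorem LO.dis_l {S b c : LO} (f : Em b c) (g : Em (S.mul b) c) (h) (u : one) (y : b) :
    dis f g h (pr (inl u) y) = f y := rfl

@[simp] theorem LO.dis_r {S b c : LO} (f : Em b c) (g : Em (S.mul b) c) (h) (s : S) (y : b) :
    dis f g h (pr (inr s) y) = g (pr s y) := rfl

/-- the lowest copy of `L` is put on top of the first block, through `ℓ` -/
@[reducible] def stdN (I L : NO L1) {L' : NO L1} (ℓ : NT L L') (S : LO) :
    NT ((QQ I L).wh (at2 (one.add S))) (((QQ I L).wh (at2 S)).wh (tS L')) :=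
  NT.mk' (fun a => amap (I.mp inl) (elim (inl.trans inl)
      (elim (dis ((ℓ.app a).trans (inr.trans inl)) ((mmap (rf S) (L.mp inl)).trans (inl.trans inr))
        fun _ _ => inl_lt_inr _ _) (inl.trans (inr.trans inr)) fun x y => by
          induction x using mul_ind with | _ s z => ?_
          induction s using add_ind <;> simp) fun x y => by
        induction y using add_ind with
        | l y =>
          induction y using mul_ind with | _ s z => ?_
          induction s using add_ind <;> simp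
        | r y => simp)) fun _ _ f y => by
    induction y using add_ind with
    | l y => exact congrArg inl (I.mp_sq (f := f) (g' := (tS L').mp f) (fun _ => rfl) y)
    | r y =>
      induction y using add_ind with
      | l y => rfl
      | r y =>
        induction y using add_ind with
        | l y =>
          induction y using mul_ind with | _ s z => ?_
          induction s using add_ind with
          | l s => exact congrArg (fun w => inr (inl (inr w))) (ℓ.nat' f z)
          | r s =>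
            exact congrArg (fun w => inr (inr (inl (pr s w))))
              (L.mp_sq (f := f) (g := inl) (f' := inl) (g' := (tS L').mp f) (fun _ => rfl) z)
        | r y => rfl

/-- elements supported by an increasing tuple of admissible length in the natural order -/
def Pc {T : Ct} {C : PC} (P : LF L1 C) (ok : ℕ → Prop) (Q : NO T) (a : T.Obj)
    (x : C.U ((P.wh Q).ob a)) : Prop :=
  ∃ (m : ℕ) (u : Em (fin m) (Q.ob a)), ok m ∧ x ∈ range (P.mp u)

/-- elements supported by at most `k` points of the context -/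
def Ar {C : PC} (k : ℕ) (X : LF L1 C) (a : LO) (x : C.U (X.ob a)) : Prop :=
  ∃ m ≤ k, ∃ t : Em (fin m) a, x ∈ range (X.mp t)

end Pool.Agent.P.MP_860a31_lc.H
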