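import Mathlib

/-!
Finitary endofunctors of linear orders: the pullback property after a substitution, and the
natural retraction.
-/

open Set Function

namespace Pool.Agent.P.MP_860a31_lc.H

/-- a finitary functor from linear orders to linear orders -/
structure F1 where
  ob : (a : Type) → [LinearOrder a] → Type
  lo : ∀ (a : Type) [LinearOrder a], LinearOrder (ob a)
  mp : ∀ {a b : Type} [LinearOrder a] [LinearOrder b], (a ↪o b) → ob a ↪o ob b
  mp_comp : ∀ {a b c : Type} [LinearOrder a] [LinearOrder b] [LinearOrder c] (f : a ↪o b)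
    (g : b ↪o c) (y : ob a), mp g (mp f y) = mp (f.trans g) y
  fin : ∀ (a : Type) [LinearOrder a] (y : ob a),
    ∃ (n : ℕ) (e : Fin n ↪o a) (y₀ : ob (Fin n)), mp e y₀ = y

attribute [instance] F1.lo

/-- the substitution that makes every functor preserve intersections -/
abbrev Dd (a : Type) : Type := WithBot a ×ₗ ℕ

/-- its action on embeddings -/
def Dmap {a b : Type} [LinearOrder a] [LinearOrder b] (f : a ↪o b) : Dd a ↪o Dd b :=
  OrderEmbedding.ofStrictMono (fun p => toLex (WithBot.map f (ofLex p).1, (ofLex p).2))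
    fun p q h => by
      rcases Prod.Lex.lt_iff.1 h with h | ⟨h, h'⟩
      · exact Prod.Lex.lt_iff.2 (Or.inl (f.strictMono.withBot_map h))
      · exact Prod.Lex.lt_iff.2 (Or.inr ⟨congrArg (WithBot.map f) h, h'⟩)

/-- its unit -/
def Deta (a : Type) [LinearOrder a] : a ↪o Dd a :=
  OrderEmbedding.ofStrictMono (fun x => toLex ((x : WithBot a), 0))
    fun _ _ h => Prod.Lex.lt_iff.2 (Or.inl (WithBot.coe_lt_coe.2 h))

theorem Dmap_apply {a b : Type} [LinearOrder a] [LinearOrder b] (f : a ↪o b) (x : WithBot a)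
    (n : ℕ) : Dmap f (toLex (x, n)) = toLex (WithBot.map f x, n) := rfl

theorem Dmap_eta {a b : Type} [LinearOrder a] [LinearOrder b] (f : a ↪o b) (x : a) :
    Dmap f (Deta a x) = Deta b (f x) := rfl

theorem mem_range_Dmap {a b : Type} [LinearOrder a] [LinearOrder b] {f : a ↪o b} {p : Dd b} :
    p ∈ range (Dmap f) ↔ ∀ x : b, (ofLex p).1 = x → x ∈ range f := by
  constructor
  · rintro ⟨q, rfl⟩ x hx
    obtain ⟨y, -, hy⟩ := WithBot.map_eq_some_iff.1 hx
    exact ⟨y, hy⟩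
  · intro h
    obtain ⟨⟨x, n⟩, rfl⟩ := toLex.surjective p
    induction x using WithBot.recBotCoe with
    | bot => exact ⟨toLex (⊥, n), rfl⟩
    | coe x =>
      obtain ⟨y, rfl⟩ := h x rfl
      exact ⟨toLex (y, n), rfl⟩

namespace F1

variable (J : F1) {a b c Z : Type} [LinearOrder a] [LinearOrder b] [LinearOrder c] [LinearOrder Z]

theorem mp_eq {f : a ↪o b} {g : b ↪o c} {k : a ↪o c} (h : ∀ x, g (f x) = k x) (y : J.ob a) :
    J.mp g (J.mp f y) = J.mp k y := by
  rw [J.mp_comp]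
  congr 2
  ext x
  exact h x

theorem range_mono {f : a ↪o c} {g : b ↪o c} (h : range f ⊆ range g) :
    range (J.mp f) ⊆ range (J.mp g) := by
  choose k hk using fun x => h ⟨x, rfl⟩
  rintro _ ⟨y, rfl⟩
  exact ⟨J.mp (OrderEmbedding.ofStrictMono k fun x x' hx =>
    g.lt_iff_lt.1 (by rw [hk, hk]; exact f.strictMono hx)) y, J.mp_eq hk y⟩

/-- `y` is supported on `S` -/
def Sup (S : Set Z) (y : J.ob Z) : Prop := y ∈ range (J.mp (OrderEmbedding.subtype (· ∈ S)))

variable {J}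

theorem sup_iff {f : a ↪o Z} {y : J.ob Z} : J.Sup (range f) y ↔ y ∈ range (J.mp f) :=
  ⟨fun h => J.range_mono (by rintro _ ⟨x, rfl⟩; exact x.2) h,
    fun h => J.range_mono (by rintro _ ⟨x, rfl⟩; exact ⟨⟨_, x, rfl⟩, rfl⟩) h⟩

theorem Sup.mono {S S' : Set Z} {y : J.ob Z} (h : J.Sup S y) (hS : S ⊆ S') : J.Sup S' y :=
  J.range_mono (by rintro _ ⟨x, rfl⟩; exact ⟨⟨_, hS x.2⟩, rfl⟩) h

theorem exists_sup {f : a ↪o Z} {y : J.ob Z} (h : y ∈ range (J.mp f)) :
    ∃ s : Finset Z, ↑s ⊆ range f ∧ J.Sup s y := by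
  classical
  obtain ⟨y, rfl⟩ := h
  obtain ⟨n, e, y₀, rfl⟩ := J.fin a y
  refine ⟨Finset.univ.image (e.trans f), ?_, ?_⟩
  · intro x hx
    obtain ⟨i, -, rfl⟩ := Finset.mem_image.1 hx
    exact ⟨e i, rfl⟩
  · rw [Finset.coe_image, Finset.coe_univ, image_univ]
    exact sup_iff.2 ⟨y₀, (J.mp_comp e f y₀).symm⟩

/-- moving a point that is outside one of two supports -/
theorem Sup.move {S₁ S₂ : Set Z} {y : J.ob Z} (h₁ : J.Sup S₁ y) (h₂ : J.Sup S₂ y) {u u' : Z}
    (hu : u ∉ S₂) (h : ∀ x ∈ S₁ ∪ S₂, x ≠ u → (x < u → x < u') ∧ (u < x → u' < x)) :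
    J.Sup (insert u' (S₁ \ {u})) y := by
  classical
  let φ : ↥(S₁ ∪ S₂) ↪o Z := OrderEmbedding.ofStrictMono (fun x => if x.1 = u then u' else x.1)
    fun x x' hx => by
      have hx' : x.1 < x'.1 := hx
      dsimp only
      split_ifs with e e' e'
      · exact absurd (e.trans e'.symm) hx'.ne
      · exact (h _ x'.2 e').2 (e ▸ hx')
      · exact (h _ x.2 e).1 (e' ▸ hx')
      · exact hx'
  obtain ⟨y₁, e₁⟩ := h₁
  obtain ⟨y₂, e₂⟩ := h₂
  let i₁ : ↥S₁ ↪o ↥(S₁ ∪ S₂) := OrderEmbedding.ofStrictMono (fun x => ⟨x.1, Or.inl x.2⟩)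
    fun _ _ hx => hx
  let i₂ : ↥S₂ ↪o ↥(S₁ ∪ S₂) := OrderEmbedding.ofStrictMono (fun x => ⟨x.1, Or.inr x.2⟩)
    fun _ _ hx => hx
  have e : J.mp i₁ y₁ = J.mp i₂ y₂ := (J.mp (OrderEmbedding.subtype (· ∈ S₁ ∪ S₂))).injective (by
    rw [J.mp_eq (k := OrderEmbedding.subtype (· ∈ S₁)) (fun _ => rfl),
      J.mp_eq (k := OrderEmbedding.subtype (· ∈ S₂)) (fun _ => rfl), e₁, e₂])
  have e' : J.mp (i₁.trans φ) y₁ = y := by
    rw [← J.mp_comp, e, ← e₂]
    exact J.mp_eq (fun x => if_neg fun hx : x.1 = u => hu (hx ▸ x.2)) y₂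
  refine (sup_iff.2 ⟨y₁, e'⟩).mono ?_
  rintro _ ⟨x, rfl⟩
  change (if x.1 = u then u' else x.1) ∈ _
  split_ifs with hx
  · exact mem_insert _ _
  · exact mem_insert_of_mem _ ⟨x.2, hx⟩

/-- two supports that meet inside a set that is cofinal below each of its gaps -/
theorem sup_of_gap {A : Set Z} (hA : ∀ u ∉ A, ∀ s : Finset Z, (∀ x ∈ s, x < u → x ∈ A) →
      ∃ u' ∈ A, u' < u ∧ ∀ x ∈ s, x < u → x < u') {y : J.ob Z} (n : ℕ) :
    ∀ s₁ s₂ : Finset Z, (((s₁ : Set Z) ∪ s₂) \ A).ncard ≤ n → (s₁ : Set Z) ∩ s₂ ⊆ A →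
      J.Sup s₁ y → J.Sup s₂ y → J.Sup A y := by
  classical
  induction n with
  | zero =>
    intro s₁ s₂ hn _ h₁ _
    have hf : (((s₁ : Set Z) ∪ s₂) \ A).Finite := (s₁.finite_toSet.union s₂.finite_toSet).sdiff
    rw [Nat.le_zero, ncard_eq_zero hf, sdiff_eq_empty] at hn
    exact h₁.mono (subset_union_left.trans hn)
  | succ n ih =>
    have key : ∀ s₁ s₂ : Finset Z, (((s₁ : Set Z) ∪ s₂) \ A).ncard ≤ n + 1 →
        (s₁ : Set Z) ∩ s₂ ⊆ A → J.Sup s₁ y → J.Sup s₂ y → ∀ u ∈ s₁, u ∉ A →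
        (∀ x ∈ (s₁ : Set Z) ∪ s₂, x < u → x ∈ A) → J.Sup A y := by
      intro s₁ s₂ hn hi h₁ h₂ u hu huA hm
      have hf : (((s₁ : Set Z) ∪ s₂) \ A).Finite := (s₁.finite_toSet.union s₂.finite_toSet).sdiff
      have hu₂ : u ∉ (s₂ : Set Z) := fun h => huA (hi ⟨hu, h⟩)
      obtain ⟨u', a1, a2, a3⟩ := hA u huA (s₁ ∪ s₂) (by simpa using hm)
      have h₃ := h₁.move h₂ hu₂ (u' := u') fun x hx _ =>
        ⟨a3 x (by simpa using hx), fun h => a2.trans h⟩
      refine ih (insert u' (s₁.erase u)) s₂ ?_ ?_ (by simpa using h₃) h₂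
      · have h1 : ((↑(insert u' (s₁.erase u)) : Set Z) ∪ s₂) \ A ⊆ ((s₁ ∪ s₂) \ A) \ {u} := by
          rintro x ⟨hx | hx, hxA⟩
          · rcases Finset.mem_insert.1 hx with rfl | hx
            · exact absurd a1 hxA
            · exact ⟨⟨Or.inl (Finset.mem_of_mem_erase hx), hxA⟩, Finset.ne_of_mem_erase hx⟩
          · exact ⟨⟨Or.inr hx, hxA⟩, fun e => hu₂ (e ▸ hx)⟩
        have h2 := ncard_le_ncard h1 hf.sdiff
        have h3 := ncard_sdiff_singleton_lt_of_mem
          (show u ∈ ((s₁ : Set Z) ∪ s₂) \ A from ⟨Or.inl hu, huA⟩) hf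
        omega
      · rintro x ⟨hx, hx'⟩
        rcases Finset.mem_insert.1 hx with rfl | hx
        · exact a1
        · exact hi ⟨Finset.mem_of_mem_erase hx, hx'⟩
    intro s₁ s₂ hn hi h₁ h₂
    have hf : (((s₁ : Set Z) ∪ s₂) \ A).Finite := (s₁.finite_toSet.union s₂.finite_toSet).sdiff
    rcases (((s₁ : Set Z) ∪ s₂) \ A).eq_empty_or_nonempty with h0 | h0
    · exact h₁.mono (subset_union_left.trans (sdiff_eq_empty.1 h0))
    obtain ⟨u, ⟨hu, huA⟩, hm⟩ := exists_min_image _ id hf h0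
    have hm' : ∀ x ∈ (s₁ : Set Z) ∪ s₂, x < u → x ∈ A := fun x hx hlt => by
      by_contra hc
      exact hlt.not_ge (hm x ⟨hx, hc⟩)
    rcases hu with hu | hu
    · exact key s₁ s₂ hn hi h₁ h₂ u hu huA hm'
    · exact key s₂ s₁ (by rwa [union_comm]) (by rwa [inter_comm]) h₂ h₁ u hu huA
        (by rwa [union_comm])

/-- the composite with `Dd` preserves intersections -/
theorem pb_D (J : F1) {h₁ : a ↪o Z} {h₂ : b ↪o Z} {k : c ↪o Z}
    (h : range h₁ ∩ range h₂ ⊆ range k) :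
    range (J.mp (Dmap h₁)) ∩ range (J.mp (Dmap h₂)) ⊆ range (J.mp (Dmap k)) := by
  classical
  rintro y ⟨y₁, y₂⟩
  obtain ⟨s₁, a1, b1⟩ := exists_sup y₁
  obtain ⟨s₂, a2, b2⟩ := exists_sup y₂
  refine sup_iff.1 (sup_of_gap ?_ _ s₁ s₂ le_rfl (fun p hp => mem_range_Dmap.2 fun x hx =>
    h ⟨mem_range_Dmap.1 (a1 hp.1) x hx, mem_range_Dmap.1 (a2 hp.2) x hx⟩) b1 b2)
  intro u hu s hs
  have key : ∀ p ∈ range (Dmap k), p ≤ u → ∀ n, toLex ((ofLex p).1, n) < u := fun p hp hpu n => by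
    refine Prod.Lex.lt_iff.2 (Or.inl ?_)
    rcases Prod.Lex.le_iff.1 hpu with h | ⟨h, -⟩
    · exact h
    · exact absurd (mem_range_Dmap.2 fun x hx => mem_range_Dmap.1 hp x (h.trans hx)) hu
  rcases (s.filter (· < u)).eq_empty_or_nonempty with h0 | h0
  · refine ⟨toLex (⊥, 0), ⟨toLex (⊥, 0), rfl⟩, key (toLex (⊥, 0)) ⟨toLex (⊥, 0), rfl⟩ bot_le 0,
      fun x hx hxu => ?_⟩
    exact absurd (h0 ▸ Finset.mem_filter.2 ⟨hx, hxu⟩) (Finset.notMem_empty x)
  · obtain ⟨p, hp, hm⟩ := Finset.exists_max_image _ id h0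
    obtain ⟨hp1, hp2⟩ := Finset.mem_filter.1 hp
    refine ⟨toLex ((ofLex p).1, (ofLex p).2 + 1), mem_range_Dmap.2 fun x hx =>
      mem_range_Dmap.1 (hs p hp1 hp2) x hx, key p (hs p hp1 hp2) hp2.le _, fun x hx hxu => ?_⟩
    exact (hm x (Finset.mem_filter.2 ⟨hx, hxu⟩)).trans_lt
      (Prod.Lex.lt_iff.2 (Or.inr ⟨rfl, Nat.lt_succ_self _⟩))

section Retr

variable {η : ∀ (a : Type) [LinearOrder a], a ↪o J.ob a}

/-- the position of a new point depends only on its cut -/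
theorem cut_lt (hη : ∀ (a b : Type) [LinearOrder a] [LinearOrder b] (f : a ↪o b) (x : a),
      J.mp f (η a x) = η b (f x)) {f : a ↪o b} {g : a ↪o c} {p : b} {q : c} (hp : p ∉ range f)
    (hq : q ∉ range g) (h : ∀ x, f x < p ↔ g x < q) (y : J.ob a) :
    η b p < J.mp f y ↔ η c q < J.mp g y := by
  classical
  have h' : ∀ x, p < f x → q < g x := fun x hx =>
    lt_of_le_of_ne (not_lt.1 fun e => hx.not_gt ((h x).2 e)) fun e => hq ⟨x, e.symm⟩
  let φ : ↥(insert p (range f)) ↪o c := OrderEmbedding.ofStrictMono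
    (fun x => if hx : x.1 ∈ range f then g hx.choose else q) fun x x' hx => by
      have hx' : x.1 < x'.1 := hx
      dsimp only
      split_ifs with e e' e'
      · exact g.strictMono (f.lt_iff_lt.1 (by rwa [e.choose_spec, e'.choose_spec]))
      · exact (h _).1 (by rw [e.choose_spec]; exact hx'.trans_eq (x'.2.resolve_right e'))
      · exact h' _ (by rw [e'.choose_spec]; exact (x.2.resolve_right e).symm.trans_lt hx')
      · exact absurd ((x.2.resolve_right e).trans (x'.2.resolve_right e').symm) hx'.ne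
  let i : a ↪o ↥(insert p (range f)) := OrderEmbedding.ofStrictMono
    (fun x => ⟨f x, Or.inr ⟨x, rfl⟩⟩) fun _ _ hx => f.strictMono hx
  have e1 : J.mp f y = J.mp (OrderEmbedding.subtype (· ∈ insert p (range f))) (J.mp i y) :=
    (J.mp_eq (fun _ => rfl) y).symm
  have e2 : J.mp g y = J.mp φ (J.mp i y) := (J.mp_eq (fun x => by
    have hx : f x ∈ range f := ⟨x, rfl⟩
    exact (dif_pos hx).trans (congrArg g (f.injective hx.choose_spec))) y).symm
  have e3 : η b p = J.mp (OrderEmbedding.subtype (· ∈ insert p (range f)))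
      (η _ ⟨p, mem_insert _ _⟩) := by rw [hη]; rfl
  have e4 : η c q = J.mp φ (η _ ⟨p, mem_insert _ _⟩) := by
    rw [hη]
    exact congrArg (η c) (show φ ⟨p, mem_insert _ _⟩ = q from dif_neg hp).symm
  rw [e1, e2, e3, e4, OrderEmbedding.lt_iff_lt, OrderEmbedding.lt_iff_lt]

/-- the order with a new point below every point and at the top -/
abbrev Db (a : Type) : Type := WithTop a ×ₗ Bool

/-- the old points -/
def Dold (a : Type) [LinearOrder a] : a ↪o Db a :=
  OrderEmbedding.ofStrictMono (fun x => toLex ((x : WithTop a), true))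
    fun _ _ h => Prod.Lex.lt_iff.2 (Or.inl (WithTop.coe_lt_coe.2 h))

theorem Dold_lt {x : a} {w : WithTop a} : Dold a x < toLex (w, false) ↔ (x : WithTop a) < w := by
  refine Prod.Lex.lt_iff.trans ⟨fun h => h.elim id fun h => absurd h.2 ?_, Or.inl⟩
  exact not_lt.2 (Bool.false_le _)

variable (η) in
/-- the new point just below `w` is below `y` -/
def Bel (w : WithTop a) (y : J.ob a) : Prop := η (Db a) (toLex (w, false)) < J.mp (Dold a) y

theorem bel_iff (hη : ∀ (a b : Type) [LinearOrder a] [LinearOrder b] (f : a ↪o b) (x : a),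
      J.mp f (η a x) = η b (f x)) {f : a ↪o b} {g : a ↪o c} {w : WithTop b} {w' : WithTop c}
    (h : ∀ x, (f x : WithTop b) < w ↔ (g x : WithTop c) < w') (y : J.ob a) :
    Bel η w (J.mp f y) ↔ Bel η w' (J.mp g y) := by
  unfold Bel
  rw [J.mp_comp, J.mp_comp]
  refine cut_lt hη ?_ ?_ (fun x => Dold_lt.trans ((h x).trans Dold_lt.symm)) y
  · rintro ⟨x, hx⟩
    exact Bool.noConfusion (congrArg (fun p => (ofLex p).2) hx)
  · rintro ⟨x, hx⟩
    exact Bool.noConfusion (congrArg (fun p => (ofLex p).2) hx)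

/-- the largest point with a given cut over a finite set -/
theorem exists_up {n : ℕ} (e : Fin n ↪o a) (w : WithTop a) :
    ∃ v : WithTop (Fin n), w ≤ WithTop.map e v ∧
      ∀ i : Fin n, (i : WithTop (Fin n)) < v ↔ (e i : WithTop a) < w := by
  classical
  obtain ⟨v, hv, hm⟩ := Finset.exists_min_image
    (Finset.univ.filter fun v : WithTop (Fin n) => w ≤ WithTop.map e v) id
    ⟨⊤, Finset.mem_filter.2 ⟨Finset.mem_univ _, le_top⟩⟩
  have hv' := (Finset.mem_filter.1 hv).2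
  refine ⟨v, hv', fun i => ⟨fun hi => not_le.1 fun h => hi.not_ge
    (hm i (Finset.mem_filter.2 ⟨Finset.mem_univ _, h⟩)), fun hi => not_le.1 fun h => hi.not_ge ?_⟩⟩
  exact hv'.trans (e.monotone.withTop_map h)

theorem exists_max (hη : ∀ (a b : Type) [LinearOrder a] [LinearOrder b] (f : a ↪o b) (x : a),
      J.mp f (η a x) = η b (f x)) {n : ℕ} (y : J.ob (Fin n)) :
    ∃ r : WithBot (WithTop (Fin n)), ∀ (a : Type) [LinearOrder a] (e : Fin n ↪o a)
      (w : WithTop a), Bel η w (J.mp e y) ↔ ↑w ≤ WithBot.map (WithTop.map e) r := by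
  classical
  have mono : ∀ (a : Type) [LinearOrder a] (w w' : WithTop a) (z : J.ob a), w ≤ w' →
      Bel η w' z → Bel η w z := fun a _ w w' z h h' =>
    lt_of_le_of_lt ((η (Db a)).monotone (show toLex (w, false) ≤ toLex (w', false) from
      Prod.Lex.toLex_le_toLex.2 (h.lt_or_eq.imp id fun e => ⟨e, le_rfl⟩))) h'
  let i : Fin n ↪o Fin n := RelEmbedding.refl _
  refine ⟨(Finset.univ.filter fun v : WithTop (Fin n) => Bel η v (J.mp i y)).max, fun a _ e w => ?_⟩
  obtain ⟨v, a1, a2⟩ := exists_up e w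
  have b1 : Bel η w (J.mp e y) ↔ Bel η v (J.mp i y) := bel_iff hη (fun x => (a2 x).symm) y
  rw [b1]
  constructor
  · intro h
    have h1 := Finset.le_max (s := Finset.univ.filter fun v : WithTop (Fin n) =>
      Bel η v (J.mp i y)) (Finset.mem_filter.2 ⟨Finset.mem_univ v, h⟩)
    exact (WithBot.coe_le_coe.2 a1).trans (e.monotone.withTop_map.withBot_map h1)
  · intro h
    rcases hm : (Finset.univ.filter fun v : WithTop (Fin n) => Bel η v (J.mp i y)).max with _ | r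
    · rw [hm] at h
      exact absurd h (WithBot.not_coe_le_bot w)
    · have h1 := (Finset.mem_filter.1 (Finset.mem_of_max hm)).2
      rw [hm] at h
      have h2 : w ≤ WithTop.map e r := WithBot.coe_le_coe.1 h
      refine mono _ _ _ _ ?_ h1
      induction r using WithTop.recTopCoe with
      | top => exact le_top
      | coe r => exact not_lt.1 fun h3 => ((a2 r).1 h3).not_ge h2

/-- the natural monotone retraction -/
theorem exists_retr (hη : ∀ (a b : Type) [LinearOrder a] [LinearOrder b] (f : a ↪o b) (x : a),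
      J.mp f (η a x) = η b (f x)) :
    ∃ ρ : ∀ (a : Type) [LinearOrder a], J.ob a → WithBot (WithTop a),
      (∀ (a : Type) [LinearOrder a], Monotone (ρ a)) ∧
      (∀ (a : Type) [LinearOrder a] (x : a), ρ a (η a x) = ((x : WithTop a) : WithBot _)) ∧
      ∀ (a b : Type) [LinearOrder a] [LinearOrder b] (f : a ↪o b) (y : J.ob a),
        ρ b (J.mp f y) = WithBot.map (WithTop.map f) (ρ a y) := by
  have ex : ∀ (a : Type) [LinearOrder a] (y : J.ob a), ∃ r : WithBot (WithTop a),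
      ∀ w : WithTop a, Bel η w y ↔ ↑w ≤ r := fun a _ y => by
    obtain ⟨n, e, y₀, rfl⟩ := J.fin a y
    obtain ⟨r, hr⟩ := exists_max hη y₀
    exact ⟨_, hr a e⟩
  choose ρ hρ using ex
  have le : ∀ (a : Type) [LinearOrder a] (r r' : WithBot (WithTop a)),
      (∀ w : WithTop a, ↑w ≤ r → ↑w ≤ r') → r ≤ r' := fun a _ r r' h => by
    induction r using WithBot.recBotCoe with
    | bot => exact bot_le
    | coe r => exact h r le_rfl
  have un : ∀ (a : Type) [LinearOrder a] (y : J.ob a) (r : WithBot (WithTop a)),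
      (∀ w : WithTop a, Bel η w y ↔ ↑w ≤ r) → ρ a y = r := fun a _ y r h =>
    le_antisymm (le a _ _ fun w hw => (h w).1 ((hρ a y w).2 hw))
      (le a _ _ fun w hw => (hρ a y w).1 ((h w).2 hw))
  refine ⟨ρ, fun a _ y y' h => le a _ _ fun w hw => (hρ a y' w).1
    (lt_of_lt_of_le ((hρ a y w).2 hw) ((J.mp _).monotone h)), fun a _ x => un a _ _ fun w => ?_,
    fun a b _ _ f y => ?_⟩
  · unfold Bel
    rw [hη, OrderEmbedding.lt_iff_lt, WithBot.coe_le_coe, ← not_lt, ← Dold_lt, not_lt]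
    exact ⟨le_of_lt, fun h => lt_of_le_of_ne h fun e =>
      Bool.noConfusion (congrArg (fun p => (ofLex p).2) e)⟩
  · obtain ⟨n, e, y₀, rfl⟩ := J.fin a y
    obtain ⟨r, hr⟩ := exists_max hη y₀
    rw [J.mp_comp, un _ _ _ (hr _ e), un _ _ _ (hr _ (e.trans f)), WithBot.map_map,
      WithTop.map_comp_map]
    rfl

end Retr

end F1

end Pool.Agent.P.MP_860a31_lc.H
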