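import Pool.Agent.P.MP_860a31_lc.E.Fam
import Pool.Agent.P.MP_860a31_lc.H.Retr

/-!
Unions of `ω`-chains of finitary functors of linear orders and the fixed point that absorbs the
junk of iterated moves.
-/

open Cardinal hiding univ
open Set Function

namespace Pool.Agent.P.MP_860a31_lc.H

namespace UniP

variable {a b c d : Type} [LinearOrder a] [LinearOrder b] [LinearOrder c] [LinearOrder d]

/-- the sum of two embeddings -/
def sumE (f : a ↪o b) (g : c ↪o d) : a ⊕ₗ c ↪o b ⊕ₗ d :=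
  OrderEmbedding.ofStrictMono (fun p => toLex ((ofLex p).map f g)) fun p q h => by
    rcases p with p | p <;> rcases q with q | q
    · exact Sum.Lex.inl_lt_inl_iff.2 (f.strictMono (Sum.Lex.inl_lt_inl_iff.1 h))
    · exact Sum.Lex.inl_lt_inr _ _
    · exact absurd h Sum.Lex.not_inr_lt_inl
    · exact Sum.Lex.inr_lt_inr_iff.2 (g.strictMono (Sum.Lex.inr_lt_inr_iff.1 h))

/-- the product of two embeddings -/
def prodE (f : a ↪o b) (g : c ↪o d) : a ×ₗ c ↪o b ×ₗ d :=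
  OrderEmbedding.ofStrictMono (fun p => toLex (f (ofLex p).1, g (ofLex p).2)) fun p q h => by
    rcases Prod.Lex.lt_iff.1 h with h | ⟨h, h'⟩
    · exact Prod.Lex.lt_iff.2 (Or.inl (f.strictMono h))
    · exact Prod.Lex.lt_iff.2 (Or.inr ⟨congrArg f h, g.strictMono h'⟩)

/-- the left summand -/
def inlO (a b : Type) [LinearOrder a] [LinearOrder b] : a ↪o a ⊕ₗ b :=
  OrderEmbedding.ofStrictMono (fun x => toLex (Sum.inl x)) fun _ _ h => Sum.Lex.inl_lt_inl_iff.2 h

theorem mp_id (J : F1) (y : J.ob a) : J.mp (RelEmbedding.refl _ : a ↪o a) y = y :=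
  (J.mp (RelEmbedding.refl _ : a ↪o a)).injective (J.mp_eq (fun _ => rfl) y)

theorem card_le (J : F1) {κ : Cardinal.{0}} (hκ : ℵ₀ ≤ κ) (h : ∀ n, #(J.ob (Fin n)) ≤ κ)
    (a : Type) [LinearOrder a] : #(J.ob a) ≤ #a + κ :=
  E.card_cover (ι := Σ n, Fin n ↪o a) (fun p => J.mp p.2)
    (fun y => by obtain ⟨n, e, y0, h⟩ := J.fin a y; exact ⟨⟨n, e⟩, y0, h⟩)
    (hκ.trans (self_le_add_left _ _)) ((E.card_emb a).trans (add_le_add le_rfl hκ))
    fun p => (h p.1).trans (self_le_add_left _ _)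

/-- finitely many elements have a common finite support -/
theorem fin_many (J : F1) {ι : Type} [Finite ι] (y : ι → J.ob a) (x : ι → a) :
    ∃ (n : ℕ) (e : Fin n ↪o a), (∀ i, y i ∈ range (J.mp e)) ∧ ∀ i, x i ∈ range e := by
  classical
  have := Fintype.ofFinite ι
  choose n e y0 h using fun i => J.fin a (y i)
  obtain ⟨k, t, ht⟩ := E.exists_emb_range
    ((Finset.univ.biUnion fun i => Finset.univ.image (e i)) ∪ Finset.univ.image x)
  refine ⟨k, t, fun i => J.range_mono (f := e i) ?_ ⟨y0 i, h i⟩, fun i => ?_⟩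
  · rw [ht]
    rintro _ ⟨j, rfl⟩
    exact Finset.mem_coe.2 (Finset.mem_union_left _ (Finset.mem_biUnion.2
      ⟨i, Finset.mem_univ _, Finset.mem_image_of_mem _ (Finset.mem_univ _)⟩))
  · rw [ht]
    exact Finset.mem_coe.2 (Finset.mem_union_right _ (Finset.mem_image_of_mem _ (Finset.mem_univ _)))

section Colim

variable (Z : ℕ → F1) (ι : ∀ (n : ℕ) (a : Type) [LinearOrder a], (Z n).ob a ↪o (Z (n + 1)).ob a)

/-- the transition maps of a chain -/
noncomputable def tr (a : Type) [LinearOrder a] {n m : ℕ} (h : n ≤ m) : (Z n).ob a ↪o (Z m).ob a :=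
  Nat.leRec (motive := fun m _ => (Z n).ob a ↪o (Z m).ob a) (RelEmbedding.refl _)
    (fun m _ e => e.trans (ι m a)) h

theorem tr_self (n : ℕ) (x : (Z n).ob a) : tr Z ι a (le_refl n) x = x := by
  unfold tr; rw [Nat.leRec_self]; rfl

theorem tr_succ {n m : ℕ} (h : n ≤ m) (h' : n ≤ m + 1) (x : (Z n).ob a) :
    tr Z ι a h' x = ι m a (tr Z ι a h x) := by
  unfold tr; rw [Nat.leRec_succ _ _ h]; rfl

theorem tr_tr {n m k : ℕ} (h : n ≤ m) (h' : m ≤ k) (x : (Z n).ob a) :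
    tr Z ι a h' (tr Z ι a h x) = tr Z ι a (h.trans h') x := by
  induction k, h' using Nat.le_induction with
  | base => rw [tr_self]
  | succ k hk ih => rw [tr_succ Z ι hk, tr_succ Z ι (h.trans hk), ih]

/-- the underlying preorder of the union -/
def Sg (a : Type) [LinearOrder a] : Type := Σ n, (Z n).ob a

variable {Z}

theorem le_all {n m : ℕ} {x : (Z n).ob a} {y : (Z m).ob a} {k l : ℕ} (h1 : n ≤ k) (h2 : m ≤ k)
    (h3 : n ≤ l) (h4 : m ≤ l) (h : tr Z ι a h1 x ≤ tr Z ι a h2 y) :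
    tr Z ι a h3 x ≤ tr Z ι a h4 y := by
  rw [← (tr Z ι a (le_max_right k l)).le_iff_le, tr_tr, tr_tr]
  rwa [← (tr Z ι a (le_max_left k l)).le_iff_le, tr_tr, tr_tr] at h

/-- the order of the union -/
@[reducible] def pre (a : Type) [LinearOrder a] : Preorder (Sg Z a) where
  le p q := ∃ k h h', tr Z ι a (n := p.1) (m := k) h p.2 ≤ tr Z ι a (n := q.1) h' q.2
  le_refl p := ⟨_, le_rfl, le_rfl, le_rfl⟩
  le_trans p q r := by
    rintro ⟨k, h1, h2, h⟩ ⟨l, h3, h4, h'⟩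
    exact ⟨max k l, h1.trans (le_max_left _ _), h4.trans (le_max_right _ _),
      (le_all ι h1 h2 _ (h2.trans (le_max_left _ _)) h).trans (le_all ι h3 h4 _ _ h')⟩

theorem exists_colim (hι : ∀ (n : ℕ) (a b : Type) [LinearOrder a] [LinearOrder b] (f : a ↪o b) x,
      (Z (n + 1)).mp f (ι n a x) = ι n b ((Z n).mp f x)) :
    ∃ (O : F1) (u : ∀ (n : ℕ) (a : Type) [LinearOrder a], (Z n).ob a ↪o O.ob a),
      (∀ (n : ℕ) (a : Type) [LinearOrder a] x, u (n + 1) a (ι n a x) = u n a x) ∧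
      (∀ (n : ℕ) (a b : Type) [LinearOrder a] [LinearOrder b] (f : a ↪o b) x,
        O.mp f (u n a x) = u n b ((Z n).mp f x)) ∧
      ∀ (a : Type) [LinearOrder a] (y : O.ob a), ∃ n x, u n a x = y := by
  classical
  have trn : ∀ (a b : Type) [LinearOrder a] [LinearOrder b] (f : a ↪o b) {n m : ℕ} (h : n ≤ m) x,
      (Z m).mp f (tr Z ι a h x) = tr Z ι b h ((Z n).mp f x) := by
    intro a b _ _ f n m h x
    induction m, h using Nat.le_induction with
    | base => rw [tr_self, tr_self]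
    | succ k hk ih => rw [tr_succ Z ι hk, tr_succ Z ι hk, hι, ih]
  have tot : ∀ (a : Type) [LinearOrder a], @Std.Total (Sg Z a) (pre ι a).le := fun a _ =>
    ⟨fun p q => (le_total (tr Z ι a (le_max_left p.1 q.1) p.2)
      (tr Z ι a (le_max_right p.1 q.1) q.2)).imp (fun h => ⟨_, _, _, h⟩) fun h => ⟨_, _, _, h⟩⟩
  let ob : ∀ (a : Type) [LinearOrder a], Type := fun a _ =>
    letI := pre ι a; Antisymmetrization (Sg Z a) (· ≤ ·)
  let lo : ∀ (a : Type) [LinearOrder a], LinearOrder (ob a) := fun a _ =>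
    letI := pre ι a; haveI := tot a
    inferInstanceAs (LinearOrder (Antisymmetrization (Sg Z a) (· ≤ ·)))
  let mk : ∀ (a : Type) [LinearOrder a], Sg Z a → ob a := fun a _ =>
    letI := pre ι a; toAntisymmetrization (· ≤ ·)
  have mkle : ∀ (a : Type) [LinearOrder a] (p q : Sg Z a),
      (lo a).le (mk a p) (mk a q) ↔ (pre ι a).le p q := fun a _ p q => Iff.rfl
  have mks : ∀ (a : Type) [LinearOrder a] (y : ob a), ∃ p, mk a p = y := fun a _ y =>
    Quotient.exists_rep y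
  have mple : ∀ (a b : Type) [LinearOrder a] [LinearOrder b] (f : a ↪o b) (p q : Sg Z a),
      (pre ι b).le ⟨p.1, (Z p.1).mp f p.2⟩ ⟨q.1, (Z q.1).mp f q.2⟩ ↔ (pre ι a).le p q := by
    intro a b _ _ f p q
    refine exists_congr fun k => exists_congr fun h => exists_congr fun h' => ?_
    dsimp only
    rw [← trn, ← trn, OrderEmbedding.le_iff_le]
  choose rp hrp using mks
  let mp : ∀ (a b : Type) [LinearOrder a] [LinearOrder b] (f : a ↪o b),
      @OrderEmbedding (ob a) (ob b) (lo a).toLE (lo b).toLE := fun a b _ _ f =>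
    @OrderEmbedding.ofMapLEIff _ _ (lo a).toPartialOrder (lo b).toPreorder
      (fun y => mk b ⟨(rp a y).1, (Z _).mp f (rp a y).2⟩) fun y y' =>
        (mkle b _ _).trans ((mple a b f _ _).trans ((mkle a _ _).symm.trans (by rw [hrp, hrp])))
  have mpk : ∀ (a b : Type) [LinearOrder a] [LinearOrder b] (f : a ↪o b) (p : Sg Z a),
      mp a b f (mk a p) = mk b ⟨p.1, (Z p.1).mp f p.2⟩ := fun a b _ _ f p =>
    (lo b).le_antisymm _ _
      ((mkle b _ _).2 ((mple a b f _ _).2 ((mkle a _ _).1 (by rw [hrp]))))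
      ((mkle b _ _).2 ((mple a b f _ _).2 ((mkle a _ _).1 (by rw [hrp]))))
  refine ⟨⟨ob, lo, fun {a b} _ _ f => mp a b f, fun f g y => ?_, fun a _ y => ?_⟩,
    fun n a _ => @OrderEmbedding.ofMapLEIff _ _ _ (lo a).toPreorder (fun x => mk a ⟨n, x⟩)
      fun x y => (mkle a _ _).trans ⟨fun ⟨k, h, h', e⟩ => (tr Z ι a h).le_iff_le.1 e,
        fun e => ⟨n, le_rfl, le_rfl, (tr Z ι a le_rfl).monotone e⟩⟩,
    fun n a _ x => ?_, fun n a b _ _ f x => mpk a b f ⟨n, x⟩, fun a _ y => ⟨_, _, hrp a y⟩⟩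
  · rw [← hrp _ y, mpk, mpk, mpk]
    exact congrArg (fun z => mk _ ⟨_, z⟩) ((Z _).mp_comp f g _)
  · obtain ⟨n, e, y0, h⟩ := (Z _).fin a (rp a y).2
    exact ⟨n, e, mk _ ⟨_, y0⟩, by rw [mpk]; dsimp only; rw [h]; exact hrp a y⟩
  · have e : tr Z ι a (le_refl (n + 1)) (ι n a x) = tr Z ι a (Nat.le_succ n) x := by
      rw [tr_self, tr_succ Z ι le_rfl, tr_self]
    exact (lo a).le_antisymm _ _ ((mkle a _ _).2 ⟨_, _, _, e.le⟩) ((mkle a _ _).2 ⟨_, _, _, e.ge⟩)

end Colim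

/-- the order with a copy of `Z a` for each point, in reverse order, on top of `a` -/
abbrev Amb (Z : F1) (a : Type) [LinearOrder a] : Type := a ⊕ₗ (aᵒᵈ ×ₗ Z.ob a)

/-- its action on embeddings and on maps of functors -/
def ambE {Z Z' : F1} (f : a ↪o b) (g : Z.ob a ↪o Z'.ob b) : Amb Z a ↪o Amb Z' b :=
  sumE f (prodE f.dual g)

theorem amb_fin (Z : F1) {n : ℕ} (e : Fin n ↪o Amb Z a) :
    ∃ (k : ℕ) (t : Fin k ↪o a), range e ⊆ range (ambE t (Z.mp t)) := by
  classical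
  let S := {i // ∃ p, e i = toLex (Sum.inr p)}
  let T := {i // ∃ p, e i = toLex (Sum.inl p)}
  obtain ⟨k, t, h1, h2⟩ := fin_many Z (ι := S) (fun i => (ofLex i.2.choose).2)
    (fun i => OrderDual.ofDual (ofLex i.2.choose).1)
  obtain ⟨l, s, hs⟩ := E.exists_emb_range (Finset.univ.image fun i : T => i.2.choose)
  obtain ⟨m, r, p, q, hp, hq⟩ := E.exists_ref t s
  refine ⟨m, r, ?_⟩
  rintro _ ⟨i, rfl⟩
  rcases h : e i with x | x
  · let j : T := ⟨i, x, h⟩
    obtain ⟨u, hu⟩ : j.2.choose ∈ range s := by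
      rw [hs]; exact Finset.mem_coe.2 (Finset.mem_image_of_mem _ (Finset.mem_univ j))
    refine ⟨toLex (Sum.inl (q u)), ?_⟩
    rw [← h, j.2.choose_spec, ← hu, ← hq]
    rfl
  · let j : S := ⟨i, x, h⟩
    obtain ⟨u, hu⟩ := h1 j
    obtain ⟨v, hv⟩ := h2 j
    refine ⟨toLex (Sum.inr (toLex (OrderDual.toDual (p v), Z.mp p u))), ?_⟩
    rw [← h, j.2.choose_spec]
    refine congrArg (fun z => toLex (Sum.inr z)) (Prod.ext ?_ ?_)
    · exact congrArg OrderDual.toDual ((DFunLike.congr_fun hp v).trans hv)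
    · exact (Z.mp_comp p r u).trans (by rw [hp]; exact hu)

theorem ambE_eq {Z Z' Z'' : F1} {f : a ↪o b} {g : Z.ob a ↪o Z'.ob b} {f' : b ↪o c}
    {g' : Z'.ob b ↪o Z''.ob c} {f'' : a ↪o c} {g'' : Z.ob a ↪o Z''.ob c}
    (h1 : ∀ x, f' (f x) = f'' x) (h2 : ∀ x, g' (g x) = g'' x) (p : Amb Z a) :
    ambE f' g' (ambE f g p) = ambE f'' g'' p := by
  rcases p with p | p
  · exact congrArg (fun z => toLex (Sum.inl z)) (h1 p)
  · exact congrArg (fun z => toLex (Sum.inr z)) (Prod.ext (h1 _) (h2 _))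

/-- one step of the iteration -/
def Phi (J Z : F1) : F1 where
  ob a _ := J.ob (Amb Z a)
  lo _ _ := inferInstance
  mp f := J.mp (ambE f (Z.mp f))
  mp_comp f g y := J.mp_eq (ambE_eq (fun _ => rfl) (Z.mp_comp f g)) y
  fin a _ y := by
    obtain ⟨n, e, y0, h⟩ := J.fin _ y
    obtain ⟨k, t, ht⟩ := amb_fin Z e
    obtain ⟨y1, h1⟩ := J.range_mono ht ⟨y0, h⟩
    exact ⟨k, t, y1, h1⟩

/-- the empty functor -/
def zero : F1 where
  ob _ _ := Empty
  lo _ _ := inferInstance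
  mp _ := RelEmbedding.refl _
  mp_comp _ _ _ := rfl
  fin _ _ y := y.elim

/-- the iteration -/
def It (J : F1) : ℕ → F1
  | 0 => zero
  | n + 1 => Phi J (It J n)

/-- the transition maps -/
def itE (J : F1) : ∀ (n : ℕ) (a : Type) [LinearOrder a], (It J n).ob a ↪o (It J (n + 1)).ob a
  | 0, _, _ => OrderEmbedding.ofIsEmpty (α := Empty)
  | n + 1, a, _ => J.mp (ambE (RelEmbedding.refl _) (itE J n a))

theorem itE_nat (J : F1) (n : ℕ) : ∀ (a b : Type) [LinearOrder a] [LinearOrder b] (f : a ↪o b) x,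
    (It J (n + 1)).mp f (itE J n a x) = itE J n b ((It J n).mp f x) := by
  induction n with
  | zero => intro a b _ _ f x; exact x.elim
  | succ n ih =>
    intro a b _ _ f x
    exact (J.mp_eq (ambE_eq (f'' := f) (g'' := ((It J n).mp f).trans (itE J n b)) (fun _ => rfl)
      (ih a b f)) x).trans (J.mp_eq (ambE_eq (fun _ => rfl) fun _ => rfl) x).symm

theorem card_amb (Z : F1) {κ : Cardinal.{0}} (hκ : ℵ₀ ≤ κ) (n : ℕ) (h : #(Z.ob (Fin n)) ≤ κ) :
    #(Amb Z (Fin n)) ≤ κ := by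
  have h0 : #(Fin n) ≤ κ := mk_le_aleph0.trans hκ
  change #(Fin n ⊕ (Fin n × Z.ob (Fin n))) ≤ κ
  rw [mk_sum, mk_prod, lift_id, lift_id, lift_id]
  exact add_le_of_le hκ h0 (mul_le_of_le hκ h0 h)

/-- a functor that absorbs `J` of its own ambient order -/
theorem exists_fix (J : F1) {κ : Cardinal.{0}} (hκ : ℵ₀ ≤ κ) (hJ : ∀ n, #(J.ob (Fin n)) ≤ κ) :
    ∃ (O : F1) (c : ∀ (a : Type) [LinearOrder a], J.ob (Amb O a) ↪o O.ob a),
      (∀ n, #(O.ob (Fin n)) ≤ κ) ∧
      ∀ (a b : Type) [LinearOrder a] [LinearOrder b] (f : a ↪o b) y,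
        O.mp f (c a y) = c b (J.mp (ambE f (O.mp f)) y) := by
  obtain ⟨O, u, h1, h2, h3⟩ := exists_colim (itE J) (itE_nat J)
  let R : ∀ (n : ℕ) (a : Type) [LinearOrder a], J.ob (Amb O a) → O.ob a → Prop := fun n a _ y z =>
    ∃ w : J.ob (Amb (It J n) a), J.mp (ambE (RelEmbedding.refl _) (u n a)) w = y ∧
      u (n + 1) a w = z
  have up : ∀ (a : Type) [LinearOrder a] (n m : ℕ), n ≤ m → ∀ y z, R n a y z → R m a y z := by
    intro a _ n m h y z r
    induction m, h using Nat.le_induction with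
    | base => exact r
    | succ k _ ih =>
      obtain ⟨w, e1, e2⟩ := ih
      exact ⟨itE J (k + 1) a w, (J.mp_eq (ambE_eq (fun _ => rfl) (h1 k a)) w).trans e1,
        (h1 (k + 1) a w).trans e2⟩
  have le : ∀ (a : Type) [LinearOrder a] n m y z y' z', R n a y z → R m a y' z' →
      (z ≤ z' ↔ y ≤ y') := by
    intro a _ n m y z y' z' r r'
    obtain ⟨w, rfl, rfl⟩ := up a n _ (le_max_left n m) _ _ r
    obtain ⟨w', rfl, rfl⟩ := up a m _ (le_max_right n m) _ _ r'
    rw [OrderEmbedding.le_iff_le, OrderEmbedding.le_iff_le]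
    rfl
  have rg : ∀ (a : Type) [LinearOrder a] (n m : ℕ), n ≤ m → range (u n a) ⊆ range (u m a) := by
    intro a _ n m h
    induction m, h using Nat.le_induction with
    | base => exact subset_rfl
    | succ k _ ih => exact ih.trans (by rintro _ ⟨x, rfl⟩; exact ⟨_, h1 k a x⟩)
  have ex : ∀ (a : Type) [LinearOrder a] (y : J.ob (Amb O a)), ∃ n z, R n a y z := by
    intro a _ y
    obtain ⟨k, e, y0, h⟩ := J.fin _ y
    have : ∀ i, ∃ n, ∀ m, n ≤ m → e i ∈ range (ambE (RelEmbedding.refl _ : a ↪o a) (u m a)) := by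
      intro i
      rcases e i with x | x
      · exact ⟨0, fun m _ => ⟨toLex (Sum.inl x), rfl⟩⟩
      · obtain ⟨n, w, hw⟩ := h3 a (ofLex x).2
        refine ⟨n, fun m hm => ?_⟩
        obtain ⟨w', hw'⟩ := rg a n m hm ⟨w, hw⟩
        exact ⟨toLex (Sum.inr (toLex ((ofLex x).1, w'))),
          congrArg (fun z => toLex (Sum.inr z)) (Prod.ext rfl hw')⟩
    choose n hn using this
    obtain ⟨w, hw⟩ := J.range_mono (g := ambE (RelEmbedding.refl _ : a ↪o a)
      (u (Finset.univ.sup n) a)) (by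
        rintro _ ⟨i, rfl⟩; exact hn i _ (Finset.le_sup (Finset.mem_univ i))) ⟨y0, h⟩
    exact ⟨_, _, w, hw, rfl⟩
  choose n z hz using ex
  have cd : ∀ k m, #((It J k).ob (Fin m)) ≤ κ := fun k => by
    induction k with
    | zero => intro m; exact (mk_eq_zero Empty).trans_le (zero_le)
    | succ k ih =>
      intro m
      exact (card_le J hκ hJ _).trans (add_le_of_le hκ (card_amb _ hκ m (ih m)) le_rfl)
  refine ⟨O, fun a _ => OrderEmbedding.ofMapLEIff (z a) fun y y' =>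
    le a _ _ _ _ _ _ (hz a y) (hz a y'), fun m => E.card_cover (fun k => u k (Fin m)) (h3 _) hκ
      (by rwa [mk_nat]) fun k => cd k m, fun a b _ _ f y => ?_⟩
  have r : R (n a y) b (J.mp (ambE f (O.mp f)) y) (O.mp f (z a y)) := by
    obtain ⟨w, e1, e2⟩ := hz a y
    refine ⟨(It J (n a y + 1)).mp f w, Eq.trans ?_ (congrArg _ e1), by rw [← e2, h2]⟩
    exact (J.mp_eq (ambE_eq (f'' := f) (g'' := ((It J _).mp f).trans (u _ b)) (fun _ => rfl)
      fun _ => rfl) w).trans (J.mp_eq (ambE_eq (fun _ => rfl) (h2 _ a b f)) w).symm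
  exact le_antisymm ((le b _ _ _ _ _ _ r (hz b _)).2 le_rfl) ((le b _ _ _ _ _ _ (hz b _) r).2 le_rfl)

end UniP

end Pool.Agent.P.MP_860a31_lc.H
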