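import Pool.Agent.P.MP_860a31_lc.H.Cm
import Pool.Agent.P.MP_860a31_lc.H.Cof

/-!
A family with both block moves.
-/

open Cardinal hiding univ
open Set Order Function

namespace Pool.Agent.P.MP_860a31_lc.H

open LO E Fu

namespace MvP

open CmP

variable {K : KC}

/-- exchange of the two variables -/
abbrev sw : Fu L2 L2 := v2.pair v1

/-- two copies of the variable -/
abbrev db : NO L1 := tau.add tau

/-- the first variable inside the coded context -/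
@[reducible] def i1 : NT v1 II := (NT.inl v1 _).trans (NT.inr _ _)

/-- the second variable inside the coded context -/
@[reducible] def i2 : NT v2 II := ((NT.inr _ v2).trans (NT.inr _ _)).trans (NT.inr _ _)

/-- the unit of the words over the coded context -/
@[reducible] def eW (c : Cd) : NT II (c.W.G.wh II) :=
  ⟨fun a => c.W.η.app (II.ob a), fun f => c.W.η.nat (II.mp f)⟩

/-- both variables, in their order -/
@[reducible] def n1 (c : Cd) : NT (uF L2) (c.W.G.wh II) :=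
  NT.mk' (fun a => (LO.elim (i1.app a) (i2.app a) fun _ _ =>
    inr.mono (inl_lt_inr _ _)).trans ((eW c).app a)) fun _ _ f y => by
      refine Eq.trans ?_ ((eW c).nat' f _)
      induction y using add_ind <;> rfl

/-- both variables, in different copies -/
@[reducible] def n2 (c : Cd) : NT (uF L2) ((db.wh (c.W.G.wh II)).wh sw) :=
  NT.mk' (fun a => amap ((i2.trans (eW c)).app (sw.ob a)) ((i1.trans (eW c)).app (sw.ob a)))
    fun _ _ f y => by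
      induction y using add_ind with
      | l y => exact congrArg inl ((i2.trans (eW c)).nat' (sw.mp f) y)
      | r y => exact congrArg inr ((i1.trans (eW c)).nat' (sw.mp f) y)

/-- small families with an atom -/
structure Sm (K : KC) where
  Y : LF L1 K.toPC
  lev : Y.Lev K.k0
  atom : Y.Atom

theorem atom_db {Y : LF L1 K.toPC} (h : Y.Atom) : (Y.wh db).Atom :=
  h.wh db ⟨fun _ => inl, fun _ => rfl⟩

theorem lev_db {Y : LF L1 K.toPC} (h : Y.Lev K.k0) : (Y.wh db).Lev K.k0 :=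
  h.wh K.inf ((lev_id K.inf L1).add K.inf (lev_id K.inf L1))

theorem step1 (c : Cd) (S : Sm K) : ∃ (S' : Sm K) (ι : Mp S.Y S'.Y)
    (ψ : Mp (ZZ c S.Y) (S'.Y.wh (uF L2))), ∀ a x, ∃ y, ψ a y = ι (L2.U a) x := by
  obtain ⟨Y', ι, ψ, l, h⟩ := cof S.Y S.atom (ZZ c S.Y) (lev_ZZ c S.lev)
    ⟨(S.Y.nt (n1 c)).app, (S.Y.nt (n1 c)).hom, (S.Y.nt (n1 c)).nat⟩
  exact ⟨⟨Y', l, ι.atom S.atom⟩, ι, ψ, fun a x => ⟨_, h a x⟩⟩

theorem step2 (c : Cd) (S : Sm K) : ∃ (S' : Sm K) (ι : Mp S.Y S'.Y)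
    (ψ : Mp (ZZ c (S.Y.wh db)) ((S'.Y.wh (uF L2)).wh sw)),
      ∀ a x, ∃ y, ψ a y = ι (L2.U (sw.ob a)) x := by
  obtain ⟨Y', ι, ψ, l, h⟩ := cof S.Y S.atom ((ZZ c (S.Y.wh db)).wh sw)
    ((lev_ZZ c (lev_db S.lev)).wh K.inf ((lev_v2 K.inf).pair K.inf (lev_v1 K.inf)))
    ⟨(S.Y.nt (n2 c)).app, (S.Y.nt (n2 c)).hom, (S.Y.nt (n2 c)).nat⟩
  exact ⟨⟨Y', l, ι.atom S.atom⟩, ι, ⟨(ψ.wh sw).app, (ψ.wh sw).hom, (ψ.wh sw).nat⟩,
    fun a x => ⟨_, h (sw.ob a) x⟩⟩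

end MvP

open CmP MvP in
/-- paper P* -/
theorem pstar (K : KC) : Nonempty (MV K) := by
  obtain ⟨c⟩ := code
  obtain ⟨Y0, l0, a0⟩ := exists_base K
  choose A ι ψ hψ using step1 (K := K) c
  choose B ι' ψ' hψ' using step2 (K := K) c
  let S : ℕ → Sm K := fun k => Nat.rec ⟨Y0, l0, a0⟩ (fun _ s => B (A s)) k
  obtain ⟨P, u, hu, hs⟩ := colimF (fun k => (S k).Y) fun k => (ι (S k)).trans (ι' (A (S k)))
  let ζ : ∀ k, Mp (ZZ c (S k).Y) (P.wh (uF L2)) := fun k =>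
    (ψ (S k)).trans (((ι' (A (S k))).trans (u (k + 1))).wh (uF L2))
  have hζ : ∀ k a x, ∃ y, ζ k a y = u k (L2.U a) x := fun k a x => by
    obtain ⟨y, e⟩ := hψ (S k) a x
    exact ⟨y, (congrArg (fun w => u (k + 1) _ (ι' (A (S k)) _ w)) e).trans (hu k _ x)⟩
  let ζ' : ∀ k, Mp (ZZ c ((A (S k)).Y.wh db)) ((P.wh (uF L2)).wh sw) := fun k =>
    (ψ' (A (S k))).trans (((u (k + 1)).wh (uF L2)).wh sw)
  have hζ' : ∀ k a x, ∃ y, ζ' k a y = u k (L2.U (sw.ob a)) x := fun k a x => by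
    obtain ⟨y, e⟩ := hψ' (A (S k)) a (ι (S k) _ x)
    exact ⟨y, (congrArg (u (k + 1) _) e).trans (hu k _ x)⟩
  obtain ⟨J1, β1, l1, h1⟩ := cm c (fun k => (S k).Y) (fun k => (S k).atom) (fun k => (S k).lev)
    (P.wh (uF L2)) ζ (fun k a => by rintro _ ⟨x, rfl⟩; exact hζ (k + 1) a _) fun a y => by
      obtain ⟨k, x, rfl⟩ := hs _ y
      exact ⟨k, hζ k a x⟩
  obtain ⟨J2, β2, l2, h2⟩ := cm c (fun k => (A (S k)).Y.wh db) (fun k => atom_db (A (S k)).atom)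
    (fun k => lev_db (A (S k)).lev) ((P.wh (uF L2)).wh sw) ζ'
    (fun k a => by rintro _ ⟨x, rfl⟩; exact hζ' (k + 1) a _) fun a y => by
      obtain ⟨k, x, rfl⟩ := hs _ y
      exact ⟨k, hζ' k a x⟩
  exact ⟨⟨P, LF.lev_cover _ u hs K.inf (by rw [mk_nat]; exact K.inf) fun k => (S k).lev,
    (u 0).atom a0, J1, J2, l1, l2, ⟨β1.app, β1.hom, β1.nat⟩, ⟨β2.app, β2.hom, β2.nat⟩, h1, h2⟩⟩

end Pool.Agent.P.MP_860a31_lc.H
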