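import Pool.Agent.P.MP_860a31_lc.H.Df

/-!
From the two block moves to the natural move of all new points into a cut.
-/

open Cardinal hiding univ
open Set Order Function

namespace Pool.Agent.P.MP_860a31_lc.H

open LO E Fu

namespace UniQ

/-- unions of directed systems of natural orders -/
theorem colimNO {T : Ct} (ι : Type) [Preorder ι] [IsDirected ι (· ≤ ·)] (A : ι → NO T)
    (t : ∀ i j, i ≤ j → NT (A i) (A j))
    (tc : ∀ i j k (hij : i ≤ j) (hjk : j ≤ k) a x,
      (t j k hjk).app a ((t i j hij).app a x) = (t i k (hij.trans hjk)).app a x) :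
    ∃ (B : NO T) (u : ∀ i, NT (A i) B),
      (∀ i j h a x, (u j).app a ((t i j h).app a x) = (u i).app a x) ∧
      ∀ a y, ∃ i x, (u i).app a x = y := by
  choose B u h1 h2 using fun a => LO.colim ι (fun i => (A i).ob a) (fun i j h => (t i j h).app a)
    fun i j k hij hjk => tc i j k hij hjk a
  choose ix px hpx using h2
  have key : ∀ a b (f : T.Hom a b) i j x y, (u a i x < u a j y ↔
      u b i ((A i).mp f x) < u b j ((A j).mp f y)) := fun a b f i j x y => by
    obtain ⟨k, hi, hj⟩ := exists_ge_ge i j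
    rw [← h1 a i k hi, ← h1 a j k hj, ← h1 b i k hi, ← h1 b j k hj, (t i k hi).nat',
      (t j k hj).nat', Em.lt_iff, Em.lt_iff, Em.lt_iff]
  let m : ∀ a b, T.Hom a b → Em (B a) (B b) := fun a b f =>
    ⟨fun y => u b _ ((A _).mp f (px a y)), fun y y' h => (key a b f _ _ _ _).1 (by rwa [hpx, hpx])⟩
  have hm : ∀ a b (f : T.Hom a b) i x, m a b f (u a i x) = u b i ((A i).mp f x) :=
    fun a b f i x => le_antisymm
      (not_lt.1 fun h => ((key a b f _ _ _ _).2 h).ne (hpx a _).symm)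
      (not_lt.1 fun h => ((key a b f _ _ _ _).2 h).ne (hpx a _))
  refine ⟨⟨B, fun f => m _ _ f, fun a => Em.ext fun y => ?_, fun f g => Em.ext fun y => ?_,
    fun a y => ?_⟩, fun i => NT.mk' (fun a => u a i) fun a b f x => (hm a b f i x).symm,
    fun i j h a x => h1 a i j h x, fun a y => ⟨_, _, hpx a y⟩⟩
  · rw [← hpx a y, hm, mp_rf]; rfl
  · rw [← hpx _ y, hm]
    exact (congrArg _ ((A _).mp_mp f g _).symm).trans
      ((hm _ _ g _ _).symm.trans (congrArg _ (hm _ _ f _ _).symm))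
  · obtain ⟨a0, h, y0, k1, k2⟩ := (A _).fin a (px a y)
    exact ⟨a0, h, u a0 _ y0, k1, (hm _ _ h _ _).trans ((congrArg _ k2).trans (hpx a y))⟩

/-- size of the values of a one-variable natural order -/
theorem card_no {J : NO L1} {κ : Cardinal.{0}} (hκ : ℵ₀ ≤ κ) (h : J.Lev κ) (a : LO)
    (ha : #a ≤ κ) : #(J.ob a) ≤ κ :=
  card_cover (ι := Σ n, Fin n ↪o a.car) (fun p => J.mp (Em.of (a := fin p.1) p.2))
    (fun y => by
      obtain ⟨b, g, y0, hb, rfl⟩ := J.fin a y
      obtain ⟨n, e, e', k1, -⟩ := exists_fin b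
      exact ⟨⟨n, (e'.trans g).oe⟩, J.mp e y0, J.mp_eq (f := e) (g := e'.trans g) (k := g)
        (fun x => congrArg g (k1 x)) y0⟩)
    hκ ((card_emb a.car).trans (add_le_of_le hκ ha hκ)) fun p => h (fin p.1) inferInstance

/-- size of the values of a three-variable natural order -/
theorem card_no3 {J : NO L3} {κ : Cardinal.{0}} (hκ : ℵ₀ ≤ κ) (h : J.Lev κ) (a : L3.Obj)
    (ha : #(L3.U a) ≤ κ) : #(J.ob a) ≤ κ :=
  (J.mp (L3.eta a)).card_le.trans (card_no (J := J.wh (xiF L3)) hκ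
    (fun z hz => h _ (L3.xi_fin z hz)) _ ha)

/-- the order with a copy of `Z a` for each point, in reverse order, on top of `a` -/
abbrev Amb (Z : NO L1) : NO L1 := tau.add (tau.op.mul Z)

/-- its action on maps -/
abbrev ambN {Z Z' : NO L1} (n : NT Z Z') : NT (Amb Z) (Amb Z') :=
  (NT.rfl' tau).add ((NT.rfl' tau.op).mul n)

theorem amb_ind {a b : LO} {p : (a.add (a.op.mul b)).car → Prop} (l : ∀ x, p (inl x))
    (r : ∀ x w, p (inr (pr (dn x) w))) (z : (a.add (a.op.mul b)).car) : p z := by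
  induction z using add_ind with
  | l x => exact l x
  | r z => exact r (LO.up (p1 z)) (p2 z)

/-- the iteration -/
def It (J : NO L1) : ℕ → NO L1
  | 0 => cst L1 zero
  | n + 1 => J.wh (Amb (It J n))

/-- its steps -/
def itE (J : NO L1) : ∀ n : ℕ, NT (It J n) (It J (n + 1))
  | 0 => NT.mk' (fun _ => emp _) fun _ _ _ y => y.elim0
  | n + 1 => NT.ap J (ambN (itE J n))

/-- its transition maps -/
noncomputable def itT (J : NO L1) {n m : ℕ} (h : n ≤ m) : NT (It J n) (It J m) :=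
  Nat.leRec (motive := fun m _ => NT (It J n) (It J m)) (NT.rfl' _)
    (fun m _ e => e.trans (itE J m)) h

theorem itT_self (J : NO L1) (n : ℕ) (a : LO) (x : (It J n).ob a) :
    (itT J (le_refl n)).app a x = x := by
  unfold itT; rw [Nat.leRec_self]; rfl

theorem itT_succ (J : NO L1) {n m : ℕ} (h : n ≤ m) (h' : n ≤ m + 1) (a : LO) (x : (It J n).ob a) :
    (itT J h').app a x = (itE J m).app a ((itT J h).app a x) := by
  unfold itT; rw [Nat.leRec_succ _ _ h]; rfl

theorem itT_itT (J : NO L1) {n m k : ℕ} (h : n ≤ m) (h' : m ≤ k) (a : LO) (x : (It J n).ob a) :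
    (itT J h').app a ((itT J h).app a x) = (itT J (h.trans h')).app a x := by
  induction k, h' using Nat.le_induction with
  | base => rw [itT_self]
  | succ k hk ih => rw [itT_succ J hk, itT_succ J (h.trans hk), ih]

theorem lev_amb {Z : NO L1} {κ : Cardinal.{0}} (hκ : ℵ₀ ≤ κ) (h : Z.Lev κ) : (Amb Z).Lev κ := by
  intro a ha
  have h0 : #a ≤ κ := mk_le_aleph0.trans hκ
  change #(a.add (a.op.mul (Z.ob a))) ≤ κ
  rw [card_add, card_mul]
  exact add_le_of_le hκ h0 (mul_le_of_le hκ h0 (h a ha))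

/-- a natural order that absorbs `J` of its own ambient order -/
theorem exists_fix (J : NO L1) {κ : Cardinal.{0}} (hκ : ℵ₀ ≤ κ) (hJ : J.Lev κ) :
    ∃ O : NO L1, O.Lev κ ∧ Nonempty (NT (J.wh (Amb O)) O) := by
  obtain ⟨O, u, h0, h3⟩ := colimNO ℕ (It J) (fun _ _ h => itT J h) fun _ _ _ => itT_itT J
  have h1 : ∀ n a x, (u (n + 1)).app a ((itE J n).app a x) = (u n).app a x := fun n a x => by
    rw [← h0 n (n + 1) n.le_succ, itT_succ J le_rfl, itT_self]
  let R : ∀ (n : ℕ) (a : LO), J.ob ((Amb O).ob a) → O.ob a → Prop := fun n a y z =>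
    ∃ w : J.ob ((Amb (It J n)).ob a), J.mp ((ambN (u n)).app a) w = y ∧ (u (n + 1)).app a w = z
  have up : ∀ (a : LO) (n m : ℕ), n ≤ m → ∀ y z, R n a y z → R m a y z := by
    intro a n m h y z r
    induction m, h using Nat.le_induction with
    | base => exact r
    | succ k _ ih =>
      obtain ⟨w, e1, e2⟩ := ih
      refine ⟨(itE J (k + 1)).app a w, (J.mp_eq (fun x => ?_) w).trans e1,
        (h1 (k + 1) a w).trans e2⟩
      induction x using amb_ind with
      | l x => rfl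
      | r x v => exact congrArg (fun s => inr (pr (dn x) s)) (h1 k a v)
  have lt : ∀ (a : LO) n m y z y' z', R n a y z → R m a y' z' → (z < z' ↔ y < y') := by
    intro a n m y z y' z' r r'
    obtain ⟨w, rfl, rfl⟩ := up a n _ (le_max_left n m) _ _ r
    obtain ⟨w', rfl, rfl⟩ := up a m _ (le_max_right n m) _ _ r'
    exact (Em.lt_iff _).trans (Em.lt_iff _).symm
  have ex : ∀ (a : LO) (y : J.ob ((Amb O).ob a)), ∃ n z, R n a y z := by
    intro a y
    obtain ⟨b, e, y0, hb, h⟩ := J.fin _ y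
    have : ∀ i, ∃ n, ∀ m, n ≤ m → e i ∈ range ((ambN (u m)).app a) := by
      intro i
      generalize e i = z
      induction z using amb_ind with
      | l x => exact ⟨0, fun m _ => ⟨inl x, rfl⟩⟩
      | r x v =>
        obtain ⟨n, w, rfl⟩ := h3 a v
        exact ⟨n, fun m hm => ⟨inr (pr (dn x) ((itT J hm).app a w)),
          congrArg (fun s => inr (pr (dn x) s)) (h0 n m hm a w)⟩⟩
    choose n hn using this
    obtain ⟨N, hN⟩ := (finite_range n).bddAbove
    obtain ⟨w, hw⟩ := J.range_mono (k := (ambN (u N)).app a) (by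
      rintro _ ⟨i, rfl⟩; exact hn i _ (hN ⟨i, rfl⟩)) ⟨y0, h⟩
    exact ⟨_, _, w, hw, rfl⟩
  choose n z hz using ex
  have cd : ∀ k, (It J k).Lev κ := fun k => by
    induction k with
    | zero => intro a _; exact (mk_le_aleph0 (α := Fin 0)).trans hκ
    | succ k ih => intro a ha; exact card_no hκ hJ _ (lev_amb hκ ih a ha)
  refine ⟨O, fun a ha => card_cover (fun k => (u k).app a) (h3 a) hκ (by rwa [mk_nat])
    fun k => cd k a ha, ⟨NT.mk' (fun a => ⟨z a, fun y y' h =>
      (lt a _ _ _ _ _ _ (hz a y) (hz a y')).2 h⟩) fun a b f y => ?_⟩⟩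
  have r : R (n a y) b (J.mp ((Amb O).mp f) y) (O.mp f (z a y)) := by
    obtain ⟨w, e1, e2⟩ := hz a y
    exact ⟨(It J (n a y + 1)).mp f w, Eq.trans (J.mp_sq ((ambN (u _)).nat' f) w) (congrArg _ e1),
      by rw [← e2, NT.nat']⟩
  exact le_antisymm (not_lt.1 fun h => ((lt b _ _ _ _ _ _ r (hz b _)).1 h).false)
    (not_lt.1 fun h => ((lt b _ _ _ _ _ _ (hz b _) r).1 h).false)

section Sp

variable {C : PC} {P : LF L1 C} {a b : LO}

variable (P) in
/-- `y` is supported on `t` -/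
def Sp (t : Set a) (y : C.U (P.ob a)) : Prop := y ∈ range (P.mp (val t))

theorem Sp.rg {t : Set a} {y : C.U (P.ob a)} (h : Sp P t y) {f : Em b a} (ht : t ⊆ range f) :
    y ∈ range (P.mp f) := P.range_mono ((range_val t).le.trans ht) h

theorem sp_of {t : Set a} {f : Em b a} (ht : ∀ x, f x ∈ t) (y : C.U (P.ob b)) :
    Sp P t (P.mp f y) :=
  P.range_mono (by rintro _ ⟨x, rfl⟩; exact ⟨⟨_, ht x⟩, rfl⟩) ⟨y, rfl⟩

theorem Sp.mono {t t' : Set a} {y : C.U (P.ob a)} (h : Sp P t y) (ht : t ⊆ t') : Sp P t' y :=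
  h.rg (ht.trans (range_val t').ge)

end Sp

section Mv

variable {K : KC} (V : MV K) {O : NO L1} {a b : LO}

/-- the junk of a one-point move inside an order -/
abbrev Jm : NO L1 := V.J1.wh (tau.pair (tau.pair (cst L1 one)))

variable (cc : NT ((Jm V).wh (Amb O)) O)

/-- the points of the copies indexed by `F` -/
def Cp (O : NO L1) (F : Set a) : Set ((Amb O).ob a) := {z | ∃ x ∈ F, ∃ w, z = inr (pr (dn x) w)}

/-- the domain of the move of `x` -/
def Dm (O : NO L1) (x : a) : Set ((Amb O).ob a) := range (inl : Em a _) ∪ Cp O (Ioi x)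

/-- the context of the move of `x` -/
abbrev cx (O : NO L1) (x : a) (t : Set ((Amb O).ob a)) : L3.Obj :=
  (((Amb O).ob a).sub {z | z < inl x ∧ z ∈ t}, ((Amb O).ob a).sub {z | inl x < z ∧ z ∈ t}, one)

/-- the inclusion of the domain -/
def dmE (O : NO L1) (x : a) (t : Set ((Amb O).ob a)) :
    Em (((cx O x t).1.add one).add (cx O x t).2.1) ((Amb O).ob a) :=
  elim (elim (val _) (pt (inl x)) fun p _ => p.2.1) (val _) fun p q => by
    induction p using add_ind with
    | l p => exact p.2.1.trans q.2.1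
    | r p => exact q.2.1

theorem sub_dmE (x : a) (t : Set ((Amb O).ob a)) : t ⊆ range (dmE O x t) := fun z hz => by
  rcases lt_trichotomy z (inl x) with h | rfl | h
  · exact ⟨inl (inl ⟨z, h, hz⟩), rfl⟩
  · exact ⟨inl (inr ()), rfl⟩
  · exact ⟨inr ⟨z, h, hz⟩, rfl⟩

theorem dm_lt {x : a} {z : (Amb O).ob a} (h : z ∈ Dm O x) (w : O.ob a) :
    z < inr (pr (dn x) w) := by
  obtain ⟨z, rfl⟩ | ⟨z, hz, w, rfl⟩ := h
  · exact inl_lt_inr _ _
  · exact inr.mono (pr_lt.2 (Or.inl hz))

/-- the junk goes into the copy of `x` -/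
def jk (x : a) : Em ((cx O x (Dm O x)).1.add ((cx O x (Dm O x)).2.1.add
    (V.J1.ob (cx O x (Dm O x))))) ((Amb O).ob a) :=
  elim (val _) (elim (val _)
    (((V.J1.mp (a := cx O x (Dm O x)) (b := ((Amb O).ob a, (Amb O).ob a, one))
      (val _, val _, rf one)).trans (cc.app a)).trans ((cop (dn x)).trans inr))
    fun p _ => dm_lt p.2.2 _) fun p q => by
      induction q using add_ind with
      | l q => exact p.2.1.trans q.2.1
      | r q => exact dm_lt p.2.2 _

/-- the move of `x` in the ambient order -/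
noncomputable def M (x : a) (y : K.U (V.P.ob ((Amb O).ob a))) : K.U (V.P.ob ((Amb O).ob a)) :=
  V.P.mp (jk V cc x) (V.m1 (cx O x (Dm O x)) (invFun (V.P.mp (dmE O x (Dm O x))) y))

theorem M_ev (x : a) (y) : M V cc x (V.P.mp (dmE O x (Dm O x)) y) =
    V.P.mp (jk V cc x) (V.m1 (cx O x (Dm O x)) y) := by
  unfold M
  rw [leftInverse_invFun (V.P.inj _) y]

/-- the composite of the moves of the points of `F`, largest first -/
noncomputable def Mf (F : Finset a) (y : K.U (V.P.ob ((Amb O).ob a))) :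
    K.U (V.P.ob ((Amb O).ob a)) := (F.sort (· ≤ ·)).foldr (M V cc) y

theorem Mf_empty (y : K.U (V.P.ob ((Amb O).ob a))) : Mf V cc ∅ y = y := by
  unfold Mf; rw [Finset.sort_empty]; rfl

theorem Mf_insert {x : a} {F : Finset a} (h : ∀ z ∈ F, x < z) (y : K.U (V.P.ob ((Amb O).ob a))) :
    Mf V cc (insert x F) y = M V cc x (Mf V cc F y) := by
  unfold Mf
  rw [Finset.sort_insert _ (fun z hz => (h z hz).le) fun hx => (h x hx).false]
  rfl

variable {V}

theorem M_hom (x : a) {Y : K.Obj} {g : K.U Y → K.U (V.P.ob ((Amb O).ob a))}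
    (hg : K.IsH g) (h : ∀ y, Sp V.P (Dm O x) (g y)) : K.IsH fun y => M V cc x (g y) := by
  obtain ⟨k, h1, h2⟩ := PC.factor hg (V.P.hom (dmE O x (Dm O x))) (by
    rintro _ ⟨y, rfl⟩; exact (h y).rg (sub_dmE x _))
  exact PC.congr (K.comp h1 (K.comp (V.m1.hom (cx O x (Dm O x))) (V.P.hom (jk V cc x))))
    fun y => by rw [← h2, M_ev]

theorem M_fix {x : a} {t : Set ((Amb O).ob a)} (ht : t ⊆ Dm O x) (hx : inl x ∉ t)
    {y : K.U (V.P.ob ((Amb O).ob a))} (h : Sp V.P t y) : M V cc x y = y := by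
  obtain ⟨z, rfl⟩ := h.rg (f := (amap inl (rf _)).trans (dmE O x (Dm O x))) fun z hz => by
    rcases lt_trichotomy z (inl x) with h | rfl | h
    · exact ⟨inl ⟨z, h, ht hz⟩, rfl⟩
    · exact absurd hz hx
    · exact ⟨inr ⟨z, h, ht hz⟩, rfl⟩
  rw [← V.P.mp_eq (f := amap inl (rf _)) (g := dmE O x (Dm O x)) (fun _ => rfl), M_ev,
    V.m1_old (cx O x (Dm O x))]
  exact V.P.mp_sq (fun p => by induction p using add_ind <;> rfl) z

theorem M_into {x : a} {t : Set ((Amb O).ob a)} (ht : t ⊆ Dm O x)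
    {y : K.U (V.P.ob ((Amb O).ob a))} (h : Sp V.P t y) :
    Sp V.P ((t \ {inl x}) ∪ Cp O {x}) (M V cc x y) := by
  obtain ⟨z, rfl⟩ := h.rg (sub_dmE x t)
  let g : L3.Hom (cx O x t) (cx O x (Dm O x)) :=
    (⟨fun p => ⟨p.1, p.2.1, ht p.2.2⟩, fun _ _ h => h⟩,
      ⟨fun p => ⟨p.1, p.2.1, ht p.2.2⟩, fun _ _ h => h⟩, rf one)
  rw [← V.P.mp_eq (f := ((w1.add w3).add w2).mp g) (g := dmE O x (Dm O x)) (fun p => by
    induction p using add_ind with
    | l p => induction p using add_ind <;> rfl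
    | r p => rfl), M_ev]
  refine (congrArg (V.P.mp (jk V cc x)) (V.m1.nat g z)).symm ▸ ?_
  refine (V.P.mp_comp ((w1.add (w2.add V.J1)).mp g) (jk V cc x) _).symm ▸ sp_of (fun p => ?_) _
  induction p using add_ind with
  | l p => exact Or.inl ⟨p.2.2, p.2.1.ne⟩
  | r p =>
    induction p using add_ind with
    | l p => exact Or.inl ⟨p.2.2, p.2.1.ne'⟩
    | r p => exact Or.inr ⟨x, rfl, _, rfl⟩

theorem amb_dm (f : Em a b) (x : a) {z : (Amb O).ob a} (h : z ∈ Dm O x) :
    (Amb O).mp f z ∈ Dm O (f x) := by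
  obtain ⟨z, rfl⟩ | ⟨z, hz, w, rfl⟩ := h
  · exact Or.inl ⟨f z, rfl⟩
  · exact Or.inr ⟨f z, f.mono hz, _, rfl⟩

theorem M_nat (f : Em a b) {x : a} {y : K.U (V.P.ob ((Amb O).ob a))} (h : Sp V.P (Dm O x) y) :
    M V cc (f x) (V.P.mp ((Amb O).mp f) y) = V.P.mp ((Amb O).mp f) (M V cc x y) := by
  obtain ⟨z, rfl⟩ := h.rg (sub_dmE x _)
  let g : L3.Hom (cx O x (Dm O x)) (cx O (f x) (Dm O (f x))) :=
    (⟨fun p => ⟨(Amb O).mp f p.1, ((Amb O).mp f).mono p.2.1, amb_dm f x p.2.2⟩,
        fun _ _ h => ((Amb O).mp f).mono h⟩,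
      ⟨fun p => ⟨(Amb O).mp f p.1, ((Amb O).mp f).mono p.2.1, amb_dm f x p.2.2⟩,
        fun _ _ h => ((Amb O).mp f).mono h⟩, rf one)
  rw [M_ev, V.P.mp_sq (f' := ((w1.add w3).add w2).mp g) (g' := dmE O (f x) (Dm O (f x))) (fun p => by
    induction p using add_ind with
    | l p => induction p using add_ind <;> rfl
    | r p => rfl), M_ev]
  refine (congrArg (V.P.mp (jk V cc (f x))) (V.m1.nat g z)).trans (V.P.mp_sq (fun p => ?_) _)
  induction p using add_ind with
  | l p => rfl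
  | r p =>
    induction p using add_ind with
    | l p => rfl
    | r p =>
      refine congrArg (fun s => inr (pr (dn (f x)) s)) (Eq.trans (congrArg (cc.app b) ?_)
        (cc.nat' f _))
      exact (V.J1.mp_mp _ _ p).trans (V.J1.mp_mp
        (a := cx O x (Dm O x)) (b := ((Amb O).ob a, (Amb O).ob a, one))
        (c := ((Amb O).ob b, (Amb O).ob b, one)) (val _, val _, rf one)
        ((Amb O).mp f, (Amb O).mp f, rf one) p).symm

theorem sub_dm {x : a} {F : Finset a} (h : ∀ z ∈ F, x < z) {t : Set a} :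
    (inl : Em a _) '' (t \ F) ∪ Cp O F ⊆ Dm O x := by
  rintro _ (⟨z, -, rfl⟩ | ⟨z, hz, w, rfl⟩)
  · exact Or.inl ⟨z, rfl⟩
  · exact Or.inr ⟨z, h z hz, w, rfl⟩

theorem Mf_into {t : Set a} {y : K.U (V.P.ob ((Amb O).ob a))}
    (h : Sp V.P (a := (Amb O).ob a) ((inl : Em a _) '' t) y) (F : Finset a) :
    Sp V.P (a := (Amb O).ob a) ((inl : Em a _) '' (t \ F) ∪ Cp O F) (Mf V cc F y) := by
  induction F using Finset.induction_on_min with
  | empty => rw [Mf_empty]; exact h.mono fun z hz => Or.inl (by simpa using hz)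
  | insert x F hx ih =>
    rw [Mf_insert _ _ hx]
    refine (M_into cc (sub_dm hx) ih).mono ?_
    rintro _ (⟨⟨z, hz, rfl⟩ | ⟨z, hz, w, rfl⟩, h2⟩ | ⟨z, rfl, w, rfl⟩)
    · refine Or.inl ⟨z, ⟨hz.1, fun e => ?_⟩, rfl⟩
      rcases Finset.mem_insert.1 e with rfl | e
      exacts [h2 rfl, hz.2 e]
    · exact Or.inr ⟨z, Finset.mem_insert_of_mem hz, w, rfl⟩
    · exact Or.inr ⟨z, Finset.mem_insert_self _ _, w, rfl⟩

theorem Mf_dm {x : a} {F : Finset a} (h : ∀ z ∈ F, x < z) (y : K.U (V.P.ob a)) :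
    Sp V.P (Dm O x) (Mf V cc F (V.P.mp inl y)) :=
  (Mf_into cc (t := univ) (sp_of (f := inl) (fun z => mem_image_of_mem _ trivial) y) F).mono (sub_dm h)

theorem Mf_hom (F : Finset a) : K.IsH fun y => Mf V cc F (V.P.mp inl y) := by
  induction F using Finset.induction_on_min with
  | empty => exact PC.congr (V.P.hom _) fun y => (Mf_empty _ _ _).symm
  | insert x F hx ih =>
    exact PC.congr (M_hom cc x ih (Mf_dm cc hx)) fun y => (Mf_insert _ _ hx _).symm

theorem Mf_filter {t : Set a} [DecidablePred (· ∈ t)] {y : K.U (V.P.ob ((Amb O).ob a))}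
    (h : Sp V.P (a := (Amb O).ob a) ((inl : Em a _) '' t) y) (F : Finset a) :
    Mf V cc F y = Mf V cc (F.filter (· ∈ t)) y := by
  induction F using Finset.induction_on_min with
  | empty => rfl
  | insert x F hx ih =>
    rw [Mf_insert _ _ hx, Finset.filter_insert]
    split_ifs with e
    · rw [Mf_insert _ _ fun z hz => hx z (Finset.mem_filter.1 hz).1, ih]
    · rw [M_fix cc (sub_dm hx) ?_ (Mf_into cc h F), ih]
      rintro (⟨z, hz, e'⟩ | ⟨z, -, w, e'⟩)
      · exact e (inl.inj e' ▸ hz.1)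
      · exact inl_ne_inr _ _ e'

theorem Mf_nat (f : Em a b) (y : K.U (V.P.ob a)) (F : Finset a) :
    Mf V cc (F.image f) (V.P.mp inl (V.P.mp f y)) =
      V.P.mp ((Amb O).mp f) (Mf V cc F (V.P.mp inl y)) := by
  induction F using Finset.induction_on_min with
  | empty =>
    rw [Finset.image_empty, Mf_empty, Mf_empty]
    exact V.P.mp_sq (f := f) (g := inl) (f' := inl) (g' := (Amb O).mp f) (fun _ => rfl) y
  | insert x F hx ih =>
    rw [Finset.image_insert, Mf_insert _ _ hx, Mf_insert _ _ fun z hz => by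
      obtain ⟨w, hw, rfl⟩ := Finset.mem_image.1 hz
      exact f.mono (hx w hw), ih]
    exact M_nat cc f (Mf_dm cc hx y)

end Mv

/-- all new points can be moved to the top, naturally for pullback squares -/
theorem top {K : KC} (V : MV K) : ∃ O : NO L1, O.Lev K.k0 ∧
    ∃ u : ∀ a A : LO, Em a A → K.U (V.P.ob A) → K.U (V.P.ob (a.add (O.ob A))),
      (∀ a A i, K.IsH (u a A i)) ∧ (∀ a A i y, u a A i (V.P.mp i y) = V.P.mp inl y) ∧
      ∀ (a A b B : LO) (i : Em a A) (j : Em b B) (g : Em a b) (f : Em A B),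
        (∀ x, f (i x) = j (g x)) → (∀ x, f x ∈ range j → x ∈ range i) →
        ∀ y, u b B j (V.P.mp f y) = V.P.mp (amap g (O.mp f)) (u a A i y) := by
  classical
  obtain ⟨O, hO, ⟨cc⟩⟩ := exists_fix (Jm V) K.inf fun a ha => V.lev1 (a, a, one) inferInstance
  let F : ∀ {a A s : LO} (i : Em a A) (e : Em s A) [Finite s], Finset A := fun i e _ =>
    (finite_range e).toFinset.filter (· ∉ range i)
  have hF : ∀ {a A s : LO} (i : Em a A) (e : Em s A) [Finite s] z,
      z ∈ F i e ↔ z ∈ range e ∧ z ∉ range i := fun i e _ z => by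
    simp only [F, Finset.mem_filter, Finite.mem_toFinset]
  have sp : ∀ {A s : LO} (e : Em s A) (x : K.U (V.P.ob s)),
      Sp V.P (a := (Amb O).ob A) ((inl : Em A _) '' range e) (V.P.mp inl (V.P.mp e x)) :=
    fun e x => (V.P.mp_comp e inl x).symm ▸ sp_of (f := e.trans inl)
      (t := (inl : Em _ _) '' range e) (fun z => ⟨e z, mem_range_self z, rfl⟩) x
  have wd : ∀ {a A s s' : LO} (i : Em a A) (e : Em s A) (e' : Em s' A) [Finite s] [Finite s'] x,
      range e ⊆ range e' → Mf V cc (F i e') (V.P.mp inl (V.P.mp e x)) =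
        Mf V cc (F i e) (V.P.mp inl (V.P.mp e x)) := fun i e e' _ _ x h => by
    rw [Mf_filter cc (sp e x)]
    congr 1
    ext z
    rw [Finset.mem_filter, hF, hF]
    exact ⟨fun k => ⟨k.2, k.1.2⟩, fun k => ⟨⟨h k.1, k.2⟩, k.1⟩⟩
  have ex : ∀ (a A : LO) (i : Em a A),
      ∃ u : K.U (V.P.ob A) → K.U (V.P.ob (a.add ((tau.op.mul O).ob A))), K.IsH u ∧
        ∀ (s : LO) (e : Em s A) [Finite s] x, V.P.mp (amap i (rf _)) (u (V.P.mp e x)) =
          Mf V cc (F i e) (V.P.mp inl (V.P.mp e x)) := by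
    intro a A i
    have hc : ∀ (s s' : LO) (e : Em s A) (e' : Em s' A) [Finite s] [Finite s'] x y,
        V.P.mp e x = V.P.mp e' y → Mf V cc (F i e) (V.P.mp inl (V.P.mp e x)) =
          Mf V cc (F i e') (V.P.mp inl (V.P.mp e' y)) := fun s s' e e' hs hs' x y h => by
      have : Finite (A.sub (range e ∪ range e')) :=
        ((finite_range e).union (finite_range e')).to_subtype
      rw [← wd i e (val (range e ∪ range e')) x (subset_union_left.trans (range_val _).ge),
        ← wd i e' (val (range e ∪ range e')) y (subset_union_right.trans (range_val _).ge), h]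
    have hs : ∀ y : K.U (V.P.ob A), ∃ (s : Finset A) (x : _), V.P.mp (val (s : Set A)) x = y :=
      fun y => by
        obtain ⟨b, f, y0, hb, rfl⟩ := V.P.fin A y
        exact ⟨(finite_range f).toFinset, V.P.range_mono
          ((finite_range f).coe_toFinset.ge.trans (range_val _).ge) ⟨y0, rfl⟩⟩
    obtain ⟨k, h1, h2⟩ := CC.lift (C := K.toCC) (fun s : Finset A => V.P.ob (A.sub s))
      (fun s => V.P.mp (val (s : Set A)))
      (fun s x => Mf V cc (F i (val (s : Set A))) (V.P.mp inl (V.P.mp (val (s : Set A)) x)))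
      (fun s => V.P.hom _)
      (fun s => K.comp (g := fun y => Mf V cc (F i (val (s : Set A))) (V.P.mp inl y)) (V.P.hom _)
        (Mf_hom cc _))
      (fun s s' => ⟨s ∪ s', V.P.range_mono ((range_val _).le.trans
          ((Finset.coe_subset.2 Finset.subset_union_left).trans (range_val _).ge)),
        V.P.range_mono ((range_val _).le.trans
          ((Finset.coe_subset.2 Finset.subset_union_right).trans (range_val _).ge))⟩)
      hs fun s s' x y h => hc _ _ _ _ x y h
    have h5 : ∀ (s : LO) (e : Em s A) [Finite s] x,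
        k (V.P.mp e x) = Mf V cc (F i e) (V.P.mp inl (V.P.mp e x)) := fun s e _ x => by
      obtain ⟨r, y, h⟩ := hs (V.P.mp e x)
      exact (congrArg k h.symm).trans ((h2 r y).trans (hc _ _ _ _ _ _ h))
    obtain ⟨u, h3, h4⟩ := PC.factor h1 (V.P.hom (amap i (rf ((tau.op.mul O).ob A)))) (by
      rintro _ ⟨y, rfl⟩
      obtain ⟨s, e, x, hs, rfl⟩ := V.P.fin A y
      rw [h5]
      refine (Mf_into cc (sp e x) _).rg ?_
      rintro _ (⟨z, hz, rfl⟩ | ⟨z, -, w, rfl⟩)
      · obtain ⟨z, rfl⟩ : z ∈ range i := by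
          by_contra hn
          exact hz.2 ((hF i e z).2 ⟨hz.1, hn⟩)
        exact ⟨inl z, rfl⟩
      · exact ⟨inr _, rfl⟩)
    exact ⟨u, h3, fun s e _ x => (h4 _).trans (h5 s e x)⟩
  choose u h1 h2 using ex
  refine ⟨tau.op.mul O, fun a ha => ?_, u, h1, fun a A i y => ?_, fun a A b B i j g f e1 e2 y => ?_⟩
  · exact (inr (a := a)).card_le.trans (lev_amb K.inf hO a ha)
  · obtain ⟨s, e, x, hs, rfl⟩ := V.P.fin a y
    refine V.P.inj (amap i (rf _)) ?_
    have : F i (e.trans i) = ∅ := Finset.eq_empty_of_forall_notMem fun z hz => by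
      obtain ⟨⟨l, rfl⟩, hn⟩ := (hF _ _ z).1 hz
      exact hn ⟨e l, rfl⟩
    rw [V.P.mp_comp e i, L1_comp, h2, this, Mf_empty, V.P.mp_comp, V.P.mp_comp, V.P.mp_comp]
    rfl
  · obtain ⟨s, e, x, hs, rfl⟩ := V.P.fin A y
    refine V.P.inj (amap j (rf _)) ?_
    have : F j (e.trans f) = (F i e).image f := by
      ext z
      rw [hF, Finset.mem_image]
      constructor
      · rintro ⟨⟨l, rfl⟩, hn⟩
        exact ⟨e l, (hF _ _ _).2 ⟨⟨l, rfl⟩, fun ⟨w, hw⟩ =>
          hn ⟨g w, (e1 w).symm.trans (congrArg f hw)⟩⟩, rfl⟩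
      · rintro ⟨z, hz, rfl⟩
        obtain ⟨⟨l, rfl⟩, hn⟩ := (hF _ _ _).1 hz
        exact ⟨⟨l, rfl⟩, fun h => hn (e2 _ h)⟩
    rw [V.P.mp_comp e f, L1_comp, h2, this, ← L1_comp, ← V.P.mp_comp e f, Mf_nat, ← h2]
    refine V.P.mp_sq (fun p => ?_) _
    induction p using add_ind with
    | l p => exact congrArg inl (e1 p)
    | r p => rfl

end UniQ

/-- the two block moves give the move of all new points into a cut -/
theorem uni {K : KC} (V : MV K) : ∃ S : PS K, S.P = V.P := by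
  obtain ⟨O, hO, u, h1, h2, h3⟩ := UniQ.top V
  refine ⟨⟨V.P, V.lev, V.atom, V.J2.wh (w2.pair (w1.pair (O.wh w3))), fun c hc => ?_,
    fun a b A i y => V.P.mp asr (V.m2 (b, a, O.ob A) (V.P.mp asr (u (a.add b) A i y))),
    fun a b A i => K.comp (K.comp (K.comp (h1 _ _ i) (V.P.hom asr)) (V.m2.hom (b, a, O.ob A)))
      (V.P.hom asr), fun a b A i x => ?_,
    fun {a b A a' b' A'} i i' f g h e1 e2 x => ?_⟩, rfl⟩
  · have h4 : Finite c.1 := finite_l (b := c.2.1.add c.2.2)
    have h5 : Finite (c.2.1.add c.2.2) := finite_r (a := c.1)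
    have h6 : Finite c.2.1 := finite_l (b := c.2.2)
    have h7 : Finite c.2.2 := finite_r (a := c.2.1)
    refine UniQ.card_no3 K.inf V.lev2 _ ?_
    change #(c.2.1.add (c.1.add (O.ob c.2.2))) ≤ K.k0
    rw [card_add, card_add]
    exact add_le_of_le K.inf (mk_le_aleph0.trans K.inf)
      (add_le_of_le K.inf (mk_le_aleph0.trans K.inf) (hO _ h7))
  · rw [h2, V.P.mp_eq (k := amap (rf a) inl) (fun p => by induction p using add_ind <;> rfl),
      V.m2_old (b, a, O.ob A)]
    exact V.P.mp_eq (fun p => by induction p using add_ind <;> rfl) x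
  · let k : L3.Hom (b, a, O.ob A) (b', a', O.ob A') := (g, f, O.mp h)
    rw [h3 _ _ _ _ i i' (amap f g) h e1 e2,
      V.P.mp_sq (f' := asr) (g' := (w2.add (w1.add w3)).mp k) (fun p => by
        induction p using add_ind with
        | l p => induction p using add_ind <;> rfl
        | r p => rfl)]
    refine (congrArg (V.P.mp asr) (V.m2.nat k _)).trans (V.P.mp_sq (fun p => ?_) _)
    induction p using add_ind with
    | l p => induction p using add_ind <;> rfl
    | r p => rfl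

end Pool.Agent.P.MP_860a31_lc.H
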