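import Pool.Agent.P.MP_860a31_lc.H.UpM
import Pool.Agent.P.MP_860a31_lc.H.Mv
import Pool.Agent.P.MP_860a31_lc.H.Uni

/-!
Stability above the categoricity cardinal.
-/

open Cardinal hiding univ
open Set Order Function

namespace Pool.Agent.P.MP_860a31_lc.H

open LO E Fu

theorem uuAll {K : KC} (S : PS K) (θ : Cardinal.{0}) (hθ : K.k0 ≤ θ) : UU S θ := by
  induction θ using WellFoundedLT.induction with | _ θ ih => ?_
  rcases hθ.eq_or_lt with rfl | hlt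
  · exact uu0 S
  have IH : ∀ μ, K.k0 ≤ μ → μ < θ → UU S μ := fun μ h1 h2 => ih μ h2 h1
  have h0 : ℵ₀ ≤ θ := K.inf.trans hθ
  intro I0 D φ lI lD
  obtain ⟨I, n0, hI, hl⟩ := pbExt I0
  have lI' : I.Lev θ := hl θ h0 lI
  have lM := lev_MM h0 lI'
  obtain ⟨D1, f, g, lD1, e1⟩ := Mp.ap hθ φ (S.P.nt (n0.trans (NT.inl I (tau.add tau)))) lD
    (LF.Lev.wh h0 (S.lev.mono hθ) lM)
  obtain ⟨H, ψ, hH, lH⟩ := wu hlt IH D1 lD1
  obtain ⟨J, χ, lJ, e2⟩ := upMain hlt IH hI hH lI' lH (g.trans ψ)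
  refine ⟨(MM I).add J, (n0.trans (NT.inl I (tau.add tau))).trans (NT.inl _ J),
    f.trans (ψ.trans χ), lM.add h0 lJ, fun a x => ?_⟩
  exact (congrArg (fun y => χ a (ψ a y)) (e1 a x)).trans
    ((e2 a _).trans (S.P.mp_eq (fun _ => rfl) x))

/-- a finite part of `A + J` embeds in `A + ω` over `A` -/
theorem fin_top (A J : LO) {n : ℕ} (t : Em (LO.fin n) (A.add J)) :
    ∃ (F : LO) (i : Em F J) (_ : Em F nat), range t ⊆ range (amap (rf A) i) := by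
  let s : Set J := {y | inr y ∈ range t}
  have hs : s.Finite := (finite_range t).preimage (inr (a := A)).inj.injOn
  have : Finite (J.sub s) := hs
  obtain ⟨m, e, -⟩ := exists_fin (J.sub s)
  refine ⟨J.sub s, val s, e.trans ⟨Fin.val, Fin.val_strictMono⟩, fun y hy => ?_⟩
  induction y using add_ind with
  | l y => exact ⟨inl y, rfl⟩
  | r y => exact ⟨inr ⟨y, hy⟩, rfl⟩

/-- the constant family over a constant standard family -/
def cstMp {C : PC} (P : LF L1 C) (A : LO) {N : C.Obj} (e : C.U (P.ob A) → C.U N) (he : C.IsH e) :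
    Mp (P.wh (cst L1 A)) (LF.cst L1 N) :=
  ⟨fun _ => e, fun _ => he, fun _ x => congrArg e (P.mp_id A x)⟩

theorem real_top {K : KC} {S : PS K} {θ : Cardinal.{0}} (hθ : K.k0 ≤ θ) (hU : UU S θ) (A : LO)
    (hA : #A ≤ θ) : K.Real (S.P.mp (a := A) (b := A.add nat) inl) := by
  intro Z e c he
  have h0 : ℵ₀ ≤ θ := K.inf.trans hθ
  obtain ⟨N, k, hk, h1, h2⟩ := PC.ls' hθ Z (S := insert c (range e))
    (mk_insert_le.trans (add_le_of_le h0 (mk_range_le.trans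
      (S.P.card_le h0 (S.lev.mono hθ) A hA)) (one_le_aleph0.trans h0)))
  obtain ⟨e0, he0, h3⟩ := PC.factor he hk ((subset_insert _ _).trans h1)
  obtain ⟨c0, rfl⟩ := h1 (mem_insert _ _)
  obtain ⟨J, ψ, -, -, h4⟩ := hU.top hθ (pb_cst (T' := L1) L1 A) (cstMp S.P A e0 he0)
    (lev_cst (T' := L1) L1 hA)
    fun _ _ => h2
  obtain ⟨n, t, x, hx⟩ := S.P.fin1 _ (ψ zero c0)
  obtain ⟨F, i, j, h5⟩ := fin_top A (J.ob zero) t
  obtain ⟨y, hy⟩ := S.P.range_mono (g := t) (k := amap (rf A) i) h5 ⟨x, hx⟩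
  refine ⟨S.P.mp (amap (rf A) j) y, ?_⟩
  have E1 : K.El Z (S.P.ob (A.add (J.ob zero))) (G k (ψ zero)) := PC.El.span hk (ψ.hom zero)
  have E2 : K.El (S.P.ob (A.add (J.ob zero))) (S.P.ob (A.add nat))
      (G (S.P.mp (amap (rf A) i)) (S.P.mp (amap (rf A) j))) := PC.El.span (S.P.hom _) (S.P.hom _)
  refine E1.trans E2 ?_
  rintro _ _ (⟨w, rfl, rfl⟩ | ⟨rfl, rfl⟩)
  · exact ⟨_, ⟨e0 w, h3 w, h4 zero w⟩, S.P.mp inl w, S.P.mp_eq (fun _ => rfl) w,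
      S.P.mp_eq (fun _ => rfl) w⟩
  · exact ⟨_, ⟨c0, rfl, rfl⟩, y, hy, rfl⟩

theorem kmainH : S_KMain fun _ => True := by
  intro K _ θ hθ M hM
  have hk : K.k0 ≤ θ := ((lt_hanf K.inf).le.trans K.hl).trans hθ
  have h0 : ℵ₀ ≤ θ := K.inf.trans hk
  obtain ⟨V⟩ := pstar K
  obtain ⟨S, -⟩ := uni V
  have hU := uuAll S θ hk
  obtain ⟨D, f, g, lD⟩ := LF.jep hk (X := S.P.wh tau) (Y := LF.cst L1 M)
    (S.lev.mono hk) fun _ _ => hM
  obtain ⟨I, -, ψ, lI, -⟩ := hU tau D f (lev_id h0 L1) lD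
  have hA : #(I.ob zero) ≤ θ := lI zero inferInstance
  have hg : K.IsH fun x => ψ zero (g zero x) := K.comp (g.hom zero) (ψ.hom zero)
  refine ⟨S.P.ob ((I.ob zero).add nat), fun x => S.P.mp inl (ψ zero (g zero x)),
    K.comp hg (S.P.hom _), S.P.card_le h0 (S.lev.mono hk) _
      ((card_add _ _).trans_le (add_le_of_le h0 hA (mk_nat.trans_le h0))), ?_⟩
  intro Z e c he
  obtain ⟨Y, p, q, hp, hq, h⟩ := K.ap he hg
  obtain ⟨a', h'⟩ := real_top hk hU _ hA Y q (p c) hq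
  refine ⟨a', h'.pull_left hp ?_⟩
  rintro _ _ (⟨w, rfl, rfl⟩ | ⟨rfl, rfl⟩)
  · exact Or.inl ⟨_, (h w).symm, rfl⟩
  · exact Or.inr ⟨rfl, rfl⟩

end Pool.Agent.P.MP_860a31_lc.H
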