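import Pool.Agent.P.MP_860a31_lc.H.Std
import Pool.Agent.P.MP_860a31_lc.H.Uug
import Pool.Agent.P.MP_860a31_lc.H.Club

/-!
Freeness in bounded arity at one stage of a long chain.
-/

open Cardinal hiding univ
open Set Order Function

namespace Pool.Agent.P.MP_860a31_lc.H

open LO E Fu

namespace KnfP

/-- the value of an extension embeds in a long standard value -/
theorem emb {K : KC} (S : PS K) {M : NO L1} {X : LF L1 K.toPC} (lM : M.Lev (2 ^ K.k0))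
    (lX : X.Lev (2 ^ K.k0)) (F : Mp (S.P.wh M) X) {θ : Cardinal.{0}} (hθ : θ < hanf K.k0) :
    ∃ g : K.U (X.ob (LO.wo θ)) → K.U (S.P.ob ((M.ob (LO.wo θ)).add (LO.wo K.lam))), K.IsH g ∧
      ∀ x, g (F (LO.wo θ) x) = S.P.mp inl x := by
  have hi : ℵ₀ ≤ K.k0 := K.inf
  have h2 : ℵ₀ ≤ 2 ^ K.k0 := hi.trans (cantor _).le
  have h3 : #(W θ) + 2 ^ K.k0 < hanf K.k0 :=
    add_lt_of_lt (hi.trans (lt_hanf hi).le)
      ((self_le_add_right _ _).trans_lt (card_W_lt hi hθ).2) (pow_lt_hanf hi)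
  have h4 : #(W θ) + 2 ^ K.k0 ≤ K.lam := (h3.trans_le K.hl).le
  have h5 : #((M.ob (LO.wo θ)).add (LO.wo K.lam)) = K.lam := by
    rw [card_add]
    change _ + #(W K.lam) = _
    rw [W.card K.lam_inf]
    exact add_eq_right K.lam_inf ((lM.card h2 (LO.wo θ)).trans h4)
  have h6 : #(K.U (S.P.ob ((M.ob (LO.wo θ)).add (LO.wo K.lam)))) = K.lam :=
    le_antisymm (S.P.card_le K.lam_inf (S.lev.mono K.k0_lt.le) _ h5.le)
      (h5.ge.trans (S.atom.le_card _))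
  exact PC.Univ.ext ((satK K).2 _ h6 _ h3) (F.hom _) (S.P.hom inl) (lX.card h2 (LO.wo θ))

/-- closure points of a map from a small part of a chain of families into a chain of orders -/
theorem ev_in {C : PC} {κ : Cardinal.{0}} (P : LF L1 C) {M : NO L1} (c : NCh (J κ) M)
    {X : LF L1 C} (d : FCh (J κ) X) (ld : ∀ i, (d.X i).Lev κ) (z w t : LO) [Finite t]
    (g : C.U (X.ob t) → C.U (P.ob ((M.ob z).add w))) :
    ∀ᶠ δ in cf κ, ∀ x, g (d.ι δ t x) ∈ range (P.mp (amap ((c.ι δ).app z) (rf w))) := by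
  have hm : ∀ i j, i ≤ j → range (amap ((c.ι i).app z) (rf w)) ⊆
      range (amap ((c.ι j).app z) (rf w)) := fun i j h => by
    rintro _ ⟨y, rfl⟩
    induction y using add_ind with
    | l y => obtain ⟨x, e⟩ := c.mono i j h z ⟨y, rfl⟩; exact ⟨inl x, congrArg inl e⟩
    | r y => exact ⟨inr y, rfl⟩
  have hc : ∀ y, ∃ i, y ∈ range (P.mp (amap ((c.ι i).app z) (rf w))) := fun y =>
    P.cover (fun i => ((c.Q i).ob z).add w) (fun i => amap ((c.ι i).app z) (rf w))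
      (fun i j => ⟨max i j, hm _ _ (le_max_left i j), hm _ _ (le_max_right i j)⟩)
      (fun y => by
        induction y using add_ind with
        | l y => obtain ⟨i, x, e⟩ := c.cover z y; exact ⟨i, inl x, congrArg inl e⟩
        | r y => exact ⟨⊥, inr y, rfl⟩) y
  choose ix hix using hc
  choose b hb using fun i => J.bdd_fun (ld i t inferInstance) fun x => ix (g (d.ι i t x))
  filter_upwards [ev_closed b, ev_lim] with δ h1 h2 x
  obtain ⟨i, hi, x', e⟩ := d.cont δ h2 t x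
  rw [← e]
  exact P.range_mono (hm _ _ ((hb i x').trans (h1 i hi)).le) (hix _)

theorem fin2 (Q Q' : NO L1) (a : LO) (y : Q.ob a) (y' : Q'.ob a) :
    ∃ (n : ℕ) (t : Em (LO.fin n) a) (x : Q.ob (LO.fin n)) (x' : Q'.ob (LO.fin n)),
      Q.mp t x = y ∧ Q'.mp t x' = y' := by
  obtain ⟨n, t, x, e⟩ := Fu.fin1 (Q.mul Q') a (pr y y')
  exact ⟨n, t, p1 x, p2 x, pr_inj.1 e⟩

end KnfP

open KnfP

/-- paper KNF -/
theorem knf {K : KC} (S : PS K) {M : NO L1} (c : NCh (J K.k0) M) (hc : ∀ i, (c.Q i).PB)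
    (η : ∀ i, NT tau (c.Q i)) (lc : ∀ i, (c.Q i).Lev K.k0) {X : LF L1 K.toPC}
    (d : FCh (J K.k0) X) (ld : ∀ i, (d.X i).Lev K.k0) (f : ∀ i, Mp (S.P.wh (c.Q i)) (d.X i))
    (F : Mp (S.P.wh M) X) (hf : ∀ i a x, d.ι i a (f i a x) = F a (S.P.mp ((c.ι i).app a) x)) :
    ∃ δ, ∀ (k : ℕ) (D' : LF L1 K.toPC) (e' : Mp (d.X δ) D') (n' : Mp (S.P.wh (c.Q (succ δ))) D'),
      NF (f δ) (S.P.nt (c.tr (le_succ δ))) e' n' →
      El (d.X (succ δ)) D'
        (RO (GR (f (succ δ)) n') (GP (Ar k (d.X δ)) (d.tr (le_succ δ)) e')) := by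
  classical
  have hi : ℵ₀ ≤ K.k0 := K.inf
  have h2 : ℵ₀ ≤ 2 ^ K.k0 := hi.trans (cantor _).le
  have hJ : #(J K.k0) ≤ 2 ^ K.k0 := by rw [J.card hi]; exact succ_le_of_lt (cantor _)
  have lM : M.Lev (2 ^ K.k0) :=
    Fu.lev_cover c.Q c.ι c.cover h2 hJ fun i => (lc i).mono (cantor _).le
  have lX : X.Lev (2 ^ K.k0) :=
    LF.lev_cover d.X d.ι d.cover h2 hJ fun i => (ld i).mono (cantor _).le
  choose g hg hgF using fun (θ : Cardinal.{0}) (hθ : θ < hanf K.k0) => emb S lM lX F hθ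
  obtain ⟨δ, hδ⟩ := club_claim hi (fun θ t δ => ∀ hθ : θ < hanf K.k0,
      ∀ x, g θ hθ (X.mp (val (a := LO.wo θ) (t : Set (W θ))) (d.ι δ _ x)) ∈
        range (S.P.mp (amap ((c.ι δ).app (LO.wo θ)) (rf (LO.wo K.lam))))) fun θ hθ t => by
    have : Finite ((LO.wo θ).sub (t : Set (W θ))) := t.finite_toSet.to_subtype
    filter_upwards [ev_in S.P c d ld (LO.wo θ) (LO.wo K.lam) ((LO.wo θ).sub (t : Set (W θ)))
      fun y => g θ hθ (X.mp (val (a := LO.wo θ) (t : Set (W θ))) y)] with δ h _ using h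
  refine ⟨δ, fun k D' e' n' hN => ?_⟩
  choose θ' hθ' Xs hXs hC using fun p : {θ : Cardinal.{0} // θ < hanf K.k0} => hδ k p.1 p.2
  obtain ⟨A, A0, v, ω, Φ, -, k1, k2, k3, k4⟩ := uug (C := K.toCC) hi S.P S.lev (c.Q (succ δ))
    (lc _) (d.X (succ δ)) (ld _) (f (succ δ)) {θ : Cardinal.{0} // θ < hanf K.k0}
    (fun p => (LO.wo (θ' p)).sub (Xs p)) (fun p => (M.ob (LO.wo (θ' p))).add (LO.wo K.lam))
    (fun p => ((c.Q (succ δ)).mp (val (a := LO.wo (θ' p)) (Xs p))).trans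
      (((c.ι (succ δ)).app _).trans inl))
    (fun p x => g _ (hθ' p) (X.mp (val (a := LO.wo (θ' p)) (Xs p)) (d.ι (succ δ) _ x)))
    (fun p => K.comp (K.comp ((d.ι _).hom _) (X.hom _)) (hg _ _))
    (fun p x => by
      rw [hf, ← F.nat, hgF]
      refine (congrArg (S.P.mp inl) (S.P.mp_comp _ _ x)).trans (S.P.mp_eq (fun y => ?_) x)
      exact congrArg inl ((c.ι (succ δ)).nat' _ y).symm)
    (fun p => range (amap ((c.ι δ).app (LO.wo (θ' p))) (rf (LO.wo K.lam))))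
    fun θ hθ => ⟨⟨θ, hθ⟩, hXs _⟩
  have r1 : ∀ a, range (((c.tr (le_succ δ)).trans ω).app a) ⊆ range (v.app a) := fun a => by
    rintro _ ⟨y, rfl⟩
    obtain ⟨n, t, y0, rfl⟩ := Fu.fin1 _ a y
    obtain ⟨u, hu⟩ := k2 n ((c.tr (le_succ δ)).app _ y0) fun p s =>
      ⟨inl ((c.Q δ).mp (s.trans (val (a := LO.wo (θ' p)) (Xs p))) y0), congrArg inl (by
        rw [Fu.mp_mp, ← NT.nat', c.ι_tr])⟩
    refine ⟨A0.mp t u, ?_⟩
    rw [v.nat', hu, ((c.tr (le_succ δ)).trans ω).nat']; rfl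
  obtain ⟨n1, hn1⟩ := NT.fac _ v r1
  have hS := std S (hc δ) (hc (succ δ)) (η δ) n1 (c.tr (le_succ δ)) v ω hn1 (by
    rintro a y ⟨y', e⟩
    obtain ⟨n, t, y0, y0', rfl, rfl⟩ := fin2 _ _ a y y'
    rw [v.nat', ω.nat'] at e
    have e0 := (A.mp t).inj e
    obtain ⟨p, s, w, hw⟩ := k3 n y0' ⟨y0, e0.symm⟩
    induction w using add_ind with
    | r w => exact absurd hw (inr_ne_inl _ _)
    | l w =>
      have hw' : (c.tr (le_succ δ)).app _ w =
          (c.Q (succ δ)).mp (s.trans (val (a := LO.wo (θ' p)) (Xs p))) y0' :=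
        ((c.ι (succ δ)).app _).inj ((c.ι_tr _ _ w).trans ((inl.inj hw).trans
          (congrArg _ ((c.Q (succ δ)).mp_mp s _ y0'))))
      obtain ⟨y1, rfl⟩ := Fu.PB.full (hc δ) (c.tr (le_succ δ)) _ _ _ y0' ⟨w, hw'⟩
      refine ⟨(c.Q δ).mp t y1, ?_⟩
      rw [n1.nat', (v.app _).inj ((hn1 _ y1).trans e0)])
  have hsq : ∀ a x, d.tr (le_succ δ) a (f δ a x) =
      f (succ δ) a (S.P.mp ((c.tr (le_succ δ)).app a) x) := fun a x => (d.ι (succ δ)).inj a (by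
    rw [d.ι_tr, hf, hf]
    exact congrArg _ (S.P.mp_eq (fun y => c.ι_tr _ a y) x).symm)
  have hU := hS.uq hN (R := fun a x x' => S.P.mp (v.app a) x = Φ a (d.tr (le_succ δ) a x'))
    ⟨_, S.P.nt v, (d.tr (le_succ δ)).trans Φ, by
      rintro a _ _ (⟨w, rfl, rfl⟩ | h)
      · change S.P.mp _ (S.P.mp _ w) = Φ a (d.tr _ a (f δ a w))
        rw [hsq, k1]
        exact S.P.mp_sq (fun y => hn1 a y) w
      · exact h⟩
  refine hU.pull_left Φ ?_
  rintro a _ _ (⟨w, rfl, rfl⟩ | ⟨_, ⟨m, hm, t, w, rfl⟩, rfl, rfl⟩)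
  · exact Or.inl ⟨w, (k1 a w).symm, rfl⟩
  · obtain ⟨u, hu⟩ := k4 m (d.tr (le_succ δ) _ w) fun p s => by
      let s' : Em (LO.fin m) (LO.wo (θ' p)) := s.trans (val (a := LO.wo (θ' p)) (Xs p))
      let tt : Finset (W (θ' p)) := Finset.univ.image s'
      obtain ⟨e, he⟩ := LO.fac s' (val (a := LO.wo (θ' p)) (tt : Set (W (θ' p)))) (by
        rintro _ ⟨i, rfl⟩
        exact ⟨⟨s' i, Finset.mem_image_of_mem _ (Finset.mem_univ i)⟩, rfl⟩)
      have h1 := hC p tt (by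
        intro x hx
        obtain ⟨i, -, rfl⟩ := Finset.mem_image.1 hx
        exact (s i).2) (Finset.card_image_le.trans (by simpa using hm)) (hθ' p) ((d.X δ).mp e w)
      refine S.P.range_mono (range_val _).ge ?_
      rw [(d.ι _).nat, d.ι_tr, X.mp_comp]
      rw [(d.ι _).nat, X.mp_eq (f := e) (g := val (a := LO.wo (θ' p)) (tt : Set (W (θ' p))))
        (k := s') he] at h1
      exact h1
    have e1 : S.P.mp (v.app a) (S.P.mp (A0.mp t) u) = Φ a (d.tr (le_succ δ) a ((d.X δ).mp t w)) := by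
      rw [(d.tr _).nat, Φ.nat, ← hu]
      exact (S.P.nt v).nat t u
    exact Or.inr ⟨S.P.mp (A0.mp t) u, _, e1, e1, rfl⟩

end Pool.Agent.P.MP_860a31_lc.H
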