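import Pool.Agent.P.MP_860a31_lc.H.Pb2

/-!
Recursion producing a continuous chain of natural orders with attached data.
-/

open Cardinal hiding univ
open Set Order Function

namespace Pool.Agent.P.MP_860a31_lc.H

open LO E Fu

theorem NCh.tr_rfl {Λ : Type} [LinearOrder Λ] {T : Ct} {top : NO T} (c : NCh Λ top) {i : Λ}
    (h : i ≤ i) (a : T.Obj) (y : (c.Q i).ob a) : (c.tr h).app a y = y :=
  ((c.ι i).app a).inj (c.ι_tr h a y)

theorem FCh.tr_rfl {Λ : Type} [LinearOrder Λ] {T : Ct} {C : PC} {top : LF T C} (c : FCh Λ top)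
    {i : Λ} (h : i ≤ i) (a : T.Obj) (y : C.U ((c.X i).ob a)) : c.tr h a y = y :=
  (c.ι i).inj a (c.ι_tr h a y)

/-- continuity in terms of the transition maps -/
theorem NCh.cont' {Λ : Type} [LinearOrder Λ] {T : Ct} {top : NO T} (c : NCh Λ top) {δ : Λ}
    (hδ : IsSuccLimit δ) (a : T.Obj) (y : (c.Q δ).ob a) :
    ∃ (i : Iio δ) (x : (c.Q i).ob a), (c.tr i.2.le).app a x = y := by
  obtain ⟨i, hi, x, e⟩ := c.cont δ hδ a y
  exact ⟨⟨i, hi⟩, x, ((c.ι δ).app a).inj ((c.ι_tr _ a x).trans e)⟩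

theorem FCh.cont' {Λ : Type} [LinearOrder Λ] {T : Ct} {C : PC} {top : LF T C} (c : FCh Λ top)
    {δ : Λ} (hδ : IsSuccLimit δ) (a : T.Obj) (y : C.U ((c.X δ).ob a)) :
    ∃ (i : Iio δ) (x : C.U ((c.X i).ob a)), c.tr i.2.le a x = y := by
  obtain ⟨i, hi, x, e⟩ := c.cont δ hδ a y
  exact ⟨⟨i, hi⟩, x, (c.ι δ).inj a ((c.ι_tr _ a x).trans e)⟩

/-- continuity of the standard families along a chain of natural orders -/
theorem NCh.cont_fam {Λ : Type} [LinearOrder Λ] {T : Ct} {top : NO T} (c : NCh Λ top) {C : PC}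
    (P : LF L1 C) {δ : Λ} (hδ : IsSuccLimit δ) (a : T.Obj) (y : C.U (P.ob ((c.Q δ).ob a))) :
    ∃ (i : Iio δ) (x : C.U (P.ob ((c.Q i).ob a))), P.mp ((c.tr i.2.le).app a) x = y := by
  have : Nonempty Λ := ⟨δ⟩
  obtain ⟨i, x, e⟩ := (c.fam P).cont' hδ a y
  rw [c.fam_tr] at e
  exact ⟨i, x, e⟩

/-- the map out of the union of a chain of families -/
theorem Mp.liftCh {T : Ct} {C : CC} {ι : Type} [LinearOrder ι] (A : ι → LF T C.toPC)
    {B D : LF T C.toPC} (u : ∀ i, Mp (A i) B) (g : ∀ i, Mp (A i) D)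
    (hd : ∀ i j, i ≤ j → ∀ a x, ∃ y, u j a y = u i a x ∧ g j a y = g i a x)
    (hs : ∀ a y, ∃ i x, u i a x = y) : ∃ k : Mp B D, ∀ i a x, k a (u i a x) = g i a x := by
  refine Mp.lift A u g (fun a i j => ⟨max i j, ?_, ?_⟩) hs fun a i j x y e => ?_
  · rintro _ ⟨x, rfl⟩
    exact (hd _ _ (le_max_left i j) a x).imp fun _ h => h.1
  · rintro _ ⟨x, rfl⟩
    exact (hd _ _ (le_max_right i j) a x).imp fun _ h => h.1
  · obtain ⟨x', h1, h2⟩ := hd _ _ (le_max_left i j) a x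
    obtain ⟨y', h3, h4⟩ := hd _ _ (le_max_right i j) a y
    rw [← h2, ← h4, (u _).inj a (h1.trans (e.trans h3.symm))]

/-- states of the recursion -/
structure NSt {Λ : Type} {T : Ct} (Dat : Λ → NO T → Type 1) : Type 1 where
  j : Λ
  Q : NO T
  x : Dat j Q

theorem NSt.norm {Λ D : Type} {T : Ct} {Dat : Λ → NO T → Type 1} (p : D → Λ) (F : D → NSt Dat)
    (h : ∀ a, (F a).j = p a) : ∃ (Q : D → NO T) (x : ∀ a, Dat (p a) (Q a)),
      F = fun a => ⟨p a, Q a, x a⟩ := by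
  have : ∀ a, ∃ (Q : NO T) (x : Dat (p a) Q), F a = ⟨p a, Q, x⟩ := fun a => by
    have e := h a
    generalize F a = S at e
    obtain ⟨j, Q, x⟩ := S
    obtain rfl : j = p a := e
    exact ⟨Q, x, rfl⟩
  choose Q x hx using this
  exact ⟨Q, x, funext hx⟩

/-- Recursion along a continuous chain of natural orders `Q j` with data `Dat j (Q j)`.  At limits
the order is the union; only the data have to be supplied. -/
theorem nrec {Λ : Type} [LinearOrder Λ] [WellFoundedLT Λ] [SuccOrder Λ] [OrderBot Λ]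
    [NoMaxOrder Λ] {T : Ct} (Dat : Λ → NO T → Type 1) (Inv : ∀ j Q, Dat j Q → Prop)
    (Coh Step : ∀ i j, i ≤ j → ∀ Q Q', Dat i Q → Dat j Q' → NT Q Q' → Prop)
    (hid : ∀ j Q x, Coh j j le_rfl Q Q x x (NT.rfl' Q))
    (hcomp : ∀ i j k h h' Q Q' Q'' x y z n m, Coh i j h Q Q' x y n → Coh j k h' Q' Q'' y z m →
      Coh i k (h.trans h') Q Q'' x z (n.trans m))
    (h0 : ∃ Q x, Inv ⊥ Q x)
    (hstep : ∀ j Q x, Inv j Q x → ∃ Q' y n, Inv (succ j) Q' y ∧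
      Coh j (succ j) (le_succ j) Q Q' x y n ∧ Step j (succ j) (le_succ j) Q Q' x y n)
    (hlim : ∀ δ, IsSuccLimit δ → ∀ (Q : Iio δ → NO T) (x : ∀ a : Iio δ, Dat a (Q a))
      (t : ∀ a b : Iio δ, a ≤ b → NT (Q a) (Q b)) (B : NO T) (u : ∀ a, NT (Q a) B),
      (∀ a : Iio δ, Inv a (Q a) (x a)) →
      (∀ (a b : Iio δ) (h : a ≤ b), Coh a b h (Q a) (Q b) (x a) (x b) (t a b h)) →
      (∀ a b h z y, (u b).app z ((t a b h).app z y) = (u a).app z y) →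
      (∀ z y, ∃ a w, (u a).app z w = y) →
      ∃ y : Dat δ B, Inv δ B y ∧ ∀ a : Iio δ, Coh a δ a.2.le (Q a) B (x a) y (u a)) :
    ∃ (top : NO T) (c : NCh Λ top) (x : ∀ j, Dat j (c.Q j)), (∀ j, Inv j (c.Q j) (x j)) ∧
      (∀ i j h, Coh i j h (c.Q i) (c.Q j) (x i) (x j) (c.tr h)) ∧
      ∀ j, Step j (succ j) (le_succ j) (c.Q j) (c.Q (succ j)) (x j) (x (succ j))
        (c.tr (le_succ j)) := by
  obtain ⟨Q0, x0, h0⟩ := h0
  obtain ⟨F, t, -, k1, k2, -, k4, k5, k6⟩ := gchain1 (Λ := Λ) (St := NSt Dat) (ι := T.Obj)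
    (fun S a => (S.Q.ob a).car)
    (fun S S' g => ∃ (h : S.j ≤ S'.j) (n : NT S.Q S'.Q), (∀ a y, n.app a y = g a y) ∧
      Coh _ _ h _ _ S.x S'.x n)
    (fun S => ⟨le_rfl, NT.rfl' _, fun _ _ => rfl, hid _ _ _⟩)
    (by
      rintro S S' S'' f g ⟨h, n, e, r⟩ ⟨h', m, e', r'⟩
      exact ⟨h.trans h', n.trans m, fun a y => (e' a _).trans (congrArg _ (e a y)),
        hcomp _ _ _ _ _ _ _ _ _ _ _ _ _ r r'⟩)
    (fun j S => S.j = j ∧ Inv _ _ S.x)
    (fun _ S S' g => ∃ (h : S.j ≤ S'.j) (n : NT S.Q S'.Q), (∀ a y, n.app a y = g a y) ∧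
      Step _ _ h _ _ S.x S'.x n)
    ⟨⊥, Q0, x0⟩ ⟨rfl, h0⟩
    (by
      rintro _ ⟨j, Q, x⟩ ⟨rfl, hx⟩
      obtain ⟨Q', y, n, r1, r2, r3⟩ := hstep j Q x hx
      exact ⟨⟨succ j, Q', y⟩, fun a => n.app a, ⟨le_succ j, n, fun _ _ => rfl, r2⟩, ⟨rfl, r1⟩,
        le_succ j, n, fun _ _ => rfl, r3⟩)
    (by
      rintro δ hδ ⟨F, t, hom, tid, tc⟩ hI hS
      clear hS
      dsimp only at hI ⊢
      obtain ⟨Q, x, rfl⟩ := NSt.norm (fun a : Iio δ => a.1) F fun a => (hI a).1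
      choose _ n e r using hom
      obtain ⟨B, u, u1, u2⟩ := Fu.colim (Iio δ) Q n fun i j k hij hjk a y => by
        rw [e, e, e]; exact tc i j k hij hjk a y
      obtain ⟨y, y1, y2⟩ := hlim δ hδ Q x n B u (fun a => (hI a).2) r u1 u2
      exact ⟨⟨δ, B, y⟩, fun a z => (u a).app z, ⟨rfl, y1⟩,
        fun a => ⟨a.2.le, u a, fun _ _ => rfl, y2 a⟩,
        fun a b h z w => (congrArg _ (e a b h z w).symm).trans (u1 a b h z w), u2⟩)
  obtain ⟨Q, x, rfl⟩ := NSt.norm (fun a : Λ => a) F fun a => (k1 a).1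
  choose _ n e r using k2
  obtain ⟨B, u, u1, u2⟩ := Fu.colim Λ Q n fun i j k hij hjk a y => by
    rw [e, e, e]; exact k4 i j k hij hjk a y
  let c : NCh Λ B :=
    { Q := Q
      ι := u
      mono := fun i j h a => by rintro _ ⟨y, rfl⟩; exact ⟨_, u1 i j h a y⟩
      cont := fun δ hδ a y => by
        obtain ⟨i, hi, w, rfl⟩ := k6 δ hδ a y
        exact ⟨i, hi, w, ((congrArg _ (e i δ hi.le a w).symm).trans (u1 i δ hi.le a w)).symm⟩
      cover := u2 }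
  have ht : ∀ i j (h : i ≤ j), c.tr h = n i j h := fun i j h =>
    NT.ext' fun a y => ((u j).app a).inj ((c.ι_tr h a y).trans (u1 i j h a y).symm)
  refine ⟨B, c, x, fun j => (k1 j).2, fun i j h => ht i j h ▸ r i j h, fun j => ?_⟩
  obtain ⟨_, m, e', r'⟩ := k5 j
  obtain rfl : m = c.tr (le_succ j) :=
    (NT.ext' fun a y => (e' a y).trans (e _ _ _ a y).symm).trans (ht _ _ _).symm
  exact r'

end Pool.Agent.P.MP_860a31_lc.H
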