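import Pool.Agent.P.MP_860a31_lc.H.Cut
import Pool.Agent.P.MP_860a31_lc.H.Kan
import Pool.Agent.P.MP_860a31_lc.H.Rec
import Pool.Agent.P.MP_860a31_lc.E.OpEx

/-!
A natural order giving universal extensions at the bottom level.
-/

open Cardinal hiding univ
open Set Order Function

namespace Pool.Agent.P.MP_860a31_lc.H

open LO E Fu

namespace WstP

/-- the ordered sum of a family of natural orders -/
theorem sig {ι : Type} (G : ι → NO L1) : ∃ (W : NO L1) (u : ∀ i, NT (G i) W),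
    ∀ a y, ∃ i x, (u i).app a x = y := by
  classical
  let _ : LinearOrder ι := linearOrderOfSTO WellOrderingRel
  let W : NO L1 :=
    { ob := fun a => ⟨Σₗ i, ((G i).ob a).car⟩
      mp := fun f => ⟨fun p => ⟨p.1, (G p.1).mp f p.2⟩, fun p q h => by
        cases h with
        | left _ _ h => exact Sigma.Lex.left _ _ h
        | right _ _ h => exact Sigma.Lex.right _ _ (((G _).mp f).mono h)⟩
      mp_id := fun a => Em.ext fun p => congrArg (Sigma.mk p.1) ((G p.1).mp_rf a p.2)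
      mp_comp := fun f g => Em.ext fun p => congrArg (Sigma.mk p.1) ((G p.1).mp_mp f g p.2).symm
      fin := fun a p => by
        obtain ⟨a0, h, y0, h1, h2⟩ := (G p.1).fin a p.2
        exact ⟨a0, h, ⟨p.1, y0⟩, h1, congrArg (Sigma.mk p.1) h2⟩ }
  exact ⟨W, fun i => NT.mk' (fun a => ⟨fun y => ⟨i, y⟩, fun _ _ h => Sigma.Lex.right _ _ h⟩)
    fun _ _ _ _ => rfl, fun a p => ⟨p.1, p.2, rfl⟩⟩

/-- a natural order as a substitution -/
@[reducible] def toSub (J : NO L1) : Sub where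
  σ k := ((tau.add J).ob (LO.fin k)).car
  mp {k l} a := ((tau.add J).mp (Em.of (a := LO.fin k) (b := LO.fin l) a)).oe
  mp_id k x := (tau.add J).mp_rf (LO.fin k) x
  mp_comp {k l n} a b x := (tau.add J).mp_mp (Em.of (a := LO.fin k) (b := LO.fin l) a)
    (Em.of (a := LO.fin l) (b := LO.fin n) b) x
  η k := (inl : Em (LO.fin k) _).oe
  nat _ _ := rfl

/-- an initial segment -/
noncomputable abbrev seg {κ : Cardinal.{0}} (j : W κ) : LO := (LO.wo κ).sub (Iio j)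

/-- copies of `V` indexed by `a` -/
abbrev cps (a : LO) (V : NO L1) : NO L1 := Fu.mul (cst L1 a) V

/-- initial segments of copies -/
@[reducible] noncomputable def vch (κ : Cardinal.{0}) (V : NO L1) :
    NCh (W κ) (cps (LO.wo κ) V) where
  Q j := cps (seg j) V
  ι j := NT.mk' (fun _ => mmap (val _) (rf _)) fun _ _ _ _ => rfl
  mono i j h a := by
    rintro _ ⟨y, rfl⟩
    induction y using mul_ind with | _ s y => ?_
    exact ⟨pr (a := seg j) ⟨s.1, lt_of_lt_of_le s.2 h⟩ y, rfl⟩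
  cont δ hδ a y := by
    induction y using mul_ind with | _ s y => ?_
    exact ⟨succ s.1, hδ.succ_lt s.2, pr (a := seg (succ s.1)) ⟨s.1, lt_succ s.1⟩ y, rfl⟩
  cover a y := by
    induction y using mul_ind with | _ s y => ?_
    exact ⟨succ (α := W κ) s, pr (a := seg (succ (α := W κ) s)) ⟨s, lt_succ (α := W κ) s⟩ y, rfl⟩

theorem vstep (κ : Cardinal.{0}) (H V : NO L1) (j : W κ) :
    ∃ k : NT ((((NCh.cst (W κ) H).add (vch κ V)).Q j).add V)
      (((NCh.cst (W κ) H).add (vch κ V)).Q (succ j)),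
      ∀ a y, k.app a (inl y) = (((NCh.cst (W κ) H).add (vch κ V)).tr (le_succ j)).app a y := by
  let c := (NCh.cst (W κ) H).add (vch κ V)
  let m : NT V (H.add (cps (LO.wo κ) V)) :=
    NT.mk' (fun _ => (cop (a := LO.wo κ) j).trans inr) fun _ _ _ _ => rfl
  obtain ⟨k, hk⟩ := NT.fac (NT.elim (c.ι j) m fun a x y => by
    induction x using add_ind with
    | l x => exact inl_lt_inr _ _
    | r x => exact inr.mono (pr_lt.2 (Or.inl (p1 (a := seg j) x).2))) (c.ι (succ j)) fun a => by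
    rintro _ ⟨x, rfl⟩
    induction x using add_ind with
    | l x => exact c.mono _ _ (le_succ j) a ⟨x, rfl⟩
    | r x => exact ⟨inr (pr (a := seg (succ j)) ⟨j, lt_succ j⟩ x), rfl⟩
  exact ⟨k, fun a y => ((c.ι (succ j)).app a).inj ((hk a _).trans (c.ι_tr _ a y).symm)⟩

end WstP

open WstP

theorem w0 : ∃ W0 : NO L1, W0.Lev ℵ₀ ∧ ∀ (J : NO L1) (n m : ℕ)
    (b : Em (LO.fin m) (J.ob (LO.fin n))), ∃ (G : NO L1) (g : NT G J) (_ : NT G W0)
      (b0 : Em (LO.fin m) (G.ob (LO.fin n))), ∀ i, g.app (LO.fin n) (b0 i) = b i := by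
  choose Op S a h1 h2 h3 using opEx
  choose E e e1 e2 e3 _ using sub_en
  obtain ⟨W0, u, hu⟩ := sig fun t : Σ p : ℕ × ℕ, Op p.1 p.2 => (E (S _ _ t.2)).G
  refine ⟨W0, Fu.lev_cover _ u hu le_rfl ?_ fun t => lev_of_cover _ (e3 _) le_rfl (h2 _ _ t.2),
    fun J n m b => ?_⟩
  · have : ∀ n m, Countable (Op n m) := fun n m => mk_le_aleph0_iff.1 (h1 n m)
    exact mk_le_aleph0
  obtain ⟨t, w, w1, -, w3⟩ := h3 m n (toSub J) (b.trans (inr : Em _ ((LO.fin n).add _))).oe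
  obtain ⟨k, hk⟩ := kan_lift (R := tau.add J) (σ := fun k => ⟨(S m n t).σ k⟩)
    (mp := fun _ _ c => Em.of ((S m n t).mp c.oe)) (e1 (S m n t)) (e2 (S m n t)) (e3 (S m n t))
    (fun k => Em.of (w k)) fun k l c y => w1 k l c.oe y
  let p : ∀ z, Set ((E (S m n t)).G.ob z) := fun z => {y | k.app z y ∈ range inr}
  have hn : ∀ a b (f : L1.Hom a b) y, y ∈ p a → (E (S m n t)).G.mp f y ∈ p b := by
    rintro a b f y ⟨x, hx⟩
    exact ⟨J.mp f x, ((k.nat' f y).trans (congrArg _ hx.symm)).symm⟩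
  have hf : ∀ a y, y ∈ p a → ∃ (a0 : L1.Obj) (h : L1.Hom a0 a) (y0 : (E (S m n t)).G.ob a0),
      Finite (L1.U a0) ∧ y0 ∈ p a0 ∧ (E (S m n t)).G.mp h y0 = y := by
    rintro a y ⟨x, hx⟩
    obtain ⟨a0, h, y0, r1, rfl⟩ := (E (S m n t)).G.fin a y
    refine ⟨a0, h, y0, r1, ?_, rfl⟩
    rcases add_cases (k.app a0 y0) with ⟨z, hz⟩ | hz
    · exact absurd (hx.trans ((k.nat' h y0).trans (congrArg _ hz.symm))) (inr_ne_inl _ _)
    · exact hz
  have hb : ∀ i, k.app _ (e (S m n t) n (LO.fin n) (rf _) (a m n t i)) = inr (b i) := fun i =>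
    (hk n _ (rf _) _).trans (((tau.add J).mp_rf (LO.fin n) _).trans (w3 i))
  obtain ⟨g, hg⟩ := NT.fac ((NT.val _ p hn hf).trans k) (NT.inr tau J) fun a => by
    rintro _ ⟨y, rfl⟩
    exact y.2
  exact ⟨_, g, (NT.val _ p hn hf).trans (u ⟨(m, n), t⟩),
    ⟨fun i => ⟨e (S m n t) n (LO.fin n) (rf _) (a m n t i), b i, (hb i).symm⟩,
      fun i j h => (e _ _ _ _).mono ((a m n t).strictMono h)⟩,
    fun i => inr.inj ((hg _ _).trans (hb i))⟩

/-- a finite tuple in a sum comes from a finite tuple in the second summand -/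
theorem split_tup {a b : LO} {k : ℕ} (s : Em (LO.fin k) (a.add b)) :
    ∃ (m : ℕ) (t : Em (LO.fin m) b), range s ⊆ range (amap (rf a) t) := by
  obtain ⟨m, e, e', h, -⟩ := @exists_fin (b.sub (inr ⁻¹' range s))
    ((finite_range s).preimage inr.inj.injOn)
  refine ⟨m, e'.trans (val _), fun y hy => ?_⟩
  induction y using add_ind with
  | l y => exact ⟨inl y, rfl⟩
  | r y => exact ⟨inr (e ⟨y, hy⟩), congrArg (fun z : b.sub (inr ⁻¹' range s) => inr z.1) (h ⟨y, hy⟩)⟩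

/-- paper W* -/
theorem wstar {K : KC} {S : PS K} (hU : UU S K.k0) : ∃ W : NO L1, W.PB ∧ W.Lev K.k0 ∧
    ∀ (H : NO L1) (D : LF L1 K.toPC) (φ : Mp (S.P.wh H) D), H.PB → H.Lev K.k0 → D.Lev K.k0 →
      ∃ ψ : Mp D (S.P.wh (H.add W)), ∀ a x, ψ a (φ a x) = S.P.mp inl x := by
  have hκ := K.inf
  obtain ⟨W0, l0, h0⟩ := w0
  obtain ⟨V, v, pV, lV⟩ := pbExt W0
  replace lV := lV _ hκ (l0.mono hκ)
  have pV' : ∀ a, (cps a V).PB := fun a => Fu.PB.mul (pb_cst _ _) pV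
  have lV' : ∀ a : LO, #a ≤ K.k0 → (cps a V).Lev K.k0 := fun a h =>
    Fu.Lev.mul hκ (lev_cst (T' := L1) _ h) lV
  refine ⟨cps (LO.wo K.k0) V, pV' _, lV' _ (W.card hκ).le, fun H D φ pH lH lD => ?_⟩
  let c := (NCh.cst (W K.k0) H).add (vch K.k0 V)
  have pc : ∀ j, (c.Q j).PB := fun j => Fu.PB.add pH (pV' (seg j))
  have lc : ∀ j, (c.Q j).Lev K.k0 := fun j => lH.add hκ (lV' (seg j) (W.iio hκ j).le)
  have lP : ∀ {Q : NO L1}, Q.Lev K.k0 → (S.P.wh Q).Lev K.k0 := fun h => S.lev.wh hκ h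
  have ct : ∀ i j (h : i ≤ j) a y, (c.tr h).app a (inl y) = inl y := fun i j h a y =>
    ((c.ι j).app a).inj (c.ι_tr h a _)
  obtain ⟨en, hen⟩ : ∃ en : W K.k0 → Σ n, K.U (D.ob (LO.fin n)), Surjective en := by
    have : #(Σ n, K.U (D.ob (LO.fin n))) ≤ #(W K.k0) := by
      rw [W.card hκ]
      exact card_cover (fun n x => (⟨n, x⟩ : Σ n, K.U (D.ob (LO.fin n))))
        (fun p => ⟨p.1, p.2, rfl⟩) hκ (by rwa [mk_nat]) fun n => lD _ inferInstance
    obtain ⟨e⟩ := (Cardinal.le_def _ _).1 this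
    have : Nonempty (Σ n, K.U (D.ob (LO.fin n))) := ⟨⟨0, Classical.arbitrary _⟩⟩
    exact ⟨invFun e, invFun_surjective e.injective⟩
  obtain ⟨R, r, x, k1, k2, k3⟩ := nrec (Λ := W K.k0) (T := L1)
    (fun j R => Mp D (S.P.wh R) × Mp (S.P.wh (c.Q j)) (S.P.wh R))
    (fun j R x => R.Lev K.k0 ∧ ∀ a y, x.1 a (φ a y) = x.2 a (S.P.mp inl y))
    (fun i j h R R' x x' n => (∀ a y, x'.1 a y = S.P.mp (n.app a) (x.1 a y)) ∧
      ∀ a y, x'.2 a (S.P.mp ((c.tr h).app a) y) = S.P.mp (n.app a) (x.2 a y))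
    (fun i j _ _ _ _ x' _ => x'.1 _ (en i).2 ∈ range (x'.2 (LO.fin (en i).1)))
    (fun j R x => ⟨fun a y => (S.P.mp_id _ _).symm, fun a y => by
      rw [S.P.mp_self (c.tr_rfl _ a)]; exact (S.P.mp_id _ _).symm⟩)
    (fun i j k h h' R R' R'' x y z n m r r' => ⟨fun a w => by
      rw [r'.1, r.1]; exact S.P.mp_comp _ _ _, fun a w => by
      rw [← S.P.mp_eq (c.tr_tr h h' a), r'.2, r.2]; exact S.P.mp_comp _ _ _⟩)
    (by
      obtain ⟨Z, f, g, lZ, e⟩ := Mp.ap le_rfl φ (S.P.nt (NT.inl H ((vch K.k0 V).Q ⊥))) lD (lP (lc ⊥))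
      obtain ⟨R, n, χ, lR, e'⟩ := hU (c.Q ⊥) Z g (lc ⊥) lZ
      exact ⟨R, (f.trans χ, g.trans χ), lR, fun a y => congrArg (χ a) (e a y)⟩)
    (by
      rintro j R ⟨d, e⟩ ⟨lR, hd⟩
      obtain ⟨J, ψ, -, lJ, hψ⟩ := hU.top le_rfl (pc j) e (lc j) (lP lR)
      obtain ⟨k, s, y, hy⟩ := S.P.fin1 _ (ψ _ (d _ (en j).2))
      obtain ⟨m, b, hb⟩ := split_tup s
      obtain ⟨G, g, g', b0, hg⟩ := h0 J _ m b
      obtain ⟨q, hq⟩ := vstep K.k0 H V j
      obtain ⟨Z, f, f', lZ, hf⟩ := Mp.ap le_rfl (S.P.nt ((NT.rfl' (c.Q j)).add g))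
        (S.P.nt (((NT.rfl' (c.Q j)).add (g'.trans v)).trans q)) (lP ((lc j).add hκ lJ))
        (lP (lc (succ j)))
      obtain ⟨R', n, χ, lR', hχ⟩ := hU R Z (ψ.trans f) lR lZ
      have key : ∀ a w, f' a (S.P.mp ((c.tr (le_succ j)).app a) w) = f a (ψ a (e a w)) :=
        fun a w => by
          rw [hψ]
          refine Eq.trans ?_ ((hf a (S.P.mp inl w)).symm.trans ?_)
          · exact congrArg (f' a) (S.P.mp_eq (f := inl) (k := (c.tr (le_succ j)).app a)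
              (g := (((NT.rfl' (c.Q j)).add (g'.trans v)).trans q).app a) (hq a) w).symm
          · exact congrArg (f a) (S.P.mp_eq (f := inl) (k := inl) (fun _ => rfl) w)
      refine ⟨R', ((d.trans (ψ.trans f)).trans χ, f'.trans χ), n, ⟨lR', fun a w => ?_⟩,
        ⟨fun a w => hχ a _, fun a w => (congrArg (χ a) (key a w)).trans (hχ a _)⟩, ?_⟩
      · refine congrArg (χ a) (Eq.trans ?_ ((key a (S.P.mp inl w)).symm.trans
          (congrArg (f' a) (S.P.mp_eq (ct _ _ (le_succ j) a) w))))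
        exact congrArg (fun z => f a (ψ a z)) (hd a w)
      · obtain ⟨w, hw⟩ := S.P.range_mono (g := s) (k := ((NT.rfl' (c.Q j)).add g).app _) (by
          refine hb.trans ?_
          rintro _ ⟨z, rfl⟩
          induction z using add_ind with
          | l z => exact ⟨inl z, rfl⟩
          | r z => exact ⟨inr (b0 z), congrArg inr (hg z)⟩) ⟨y, rfl⟩
        exact ⟨_, congrArg (χ _) ((hf _ w).symm.trans (congrArg (f _) (hw.trans hy)))⟩)
    (by
      intro δ hδ Q x t B u hI hC u1 u2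
      let o : Iio δ := ⟨⊥, hδ.bot_lt⟩
      have hd : ∀ (i : Iio δ) a y, S.P.mp ((u o).app a) ((x o).1 a y) =
          S.P.mp ((u i).app a) ((x i).1 a y) := fun i a y => by
        have h : o ≤ i := (bot_le : ⊥ ≤ i.1)
        rw [(hC o i h).1]
        exact (S.P.mp_eq (u1 o i h a) _).symm
      obtain ⟨e, he⟩ := Mp.liftCh (fun i : Iio δ => S.P.wh (c.Q i))
        (fun i => S.P.nt (c.tr i.2.le)) (fun i => (x i).2.trans (S.P.nt (u i)))
        (fun i j h a y => ⟨S.P.mp ((c.tr h).app a) y, S.P.mp_eq (c.tr_tr h _ a) y,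
          (congrArg _ ((hC i j h).2 a y)).trans (S.P.mp_eq (u1 i j h a) _)⟩)
        (c.cont_fam S.P hδ)
      refine ⟨((x o).1.trans (S.P.nt (u o)), e),
        ⟨Fu.lev_cover Q u u2 hκ (W.iio hκ δ).le fun i => (hI i).1, fun a y => ?_⟩,
        fun i => ⟨hd i, he i⟩⟩
      exact ((congrArg _ ((hI o).2 a y)).trans (he o a _).symm).trans
        (congrArg (e a) (S.P.mp_eq (ct o δ o.2.le a) y)))
  obtain ⟨e, he⟩ := Mp.liftCh (fun i => S.P.wh (c.Q i)) (fun i => S.P.nt (c.ι i))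
    (fun i => (x i).2.trans (S.P.nt (r.ι i)))
    (fun i j h a y => ⟨S.P.mp ((c.tr h).app a) y, S.P.mp_eq (c.ι_tr h a) y,
      (congrArg _ ((k2 i j h).2 a y)).trans (S.P.mp_eq (r.ι_tr h a) _)⟩) (c.fam S.P).cover
  obtain ⟨ψ, hψ⟩ := ((x ⊥).1.trans (S.P.nt (r.ι ⊥))).fac e (Mp.range_fin1 _ _ fun n => by
    rintro _ ⟨y, rfl⟩
    obtain ⟨j, hj⟩ := hen ⟨n, y⟩
    have := k3 j
    rw [hj] at this
    obtain ⟨w, hw⟩ := this
    refine ⟨_, (he (succ j) _ w).trans ((congrArg _ (hw.trans ((k2 ⊥ _ bot_le).1 _ y))).trans ?_)⟩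
    exact S.P.mp_eq (r.ι_tr _ _) _)
  refine ⟨ψ, fun a y => e.inj a ((hψ a _).trans ((congrArg _ ((k1 ⊥).2 a y)).trans
    ((he ⊥ a _).symm.trans (congrArg (e a) (S.P.mp_eq (fun _ => rfl) y)))))⟩

end Pool.Agent.P.MP_860a31_lc.H
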