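import Pool.Agent.P.MP_860a31_lc.H.Knf
import Pool.Agent.P.MP_860a31_lc.H.Wst
import Pool.Agent.P.MP_860a31_lc.H.Core

/-!
Local character at the bottom level.
-/

open Cardinal hiding univ
open Set Order Function

namespace Pool.Agent.P.MP_860a31_lc.H

open LO E Fu

namespace LcP

/-- points with a support of at most `k` elements -/
def ar (Q : NO L1) (k : ℕ) (a : LO) : Set (Q.ob a) :=
  {y | ∃ m ≤ k, ∃ t : Em (LO.fin m) a, y ∈ range (Q.mp t)}

theorem ar_nat (Q : NO L1) (k : ℕ) (a b : LO) (f : Em a b) (y : Q.ob a) (h : y ∈ ar Q k a) :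
    Q.mp f y ∈ ar Q k b := by
  obtain ⟨m, hm, t, y, rfl⟩ := h
  exact ⟨m, hm, t.trans f, y, (Q.mp_mp t f y).symm⟩

theorem ar_fin (Q : NO L1) (k : ℕ) (a : LO) (y : Q.ob a) (h : y ∈ ar Q k a) :
    ∃ (a0 : LO) (h : Em a0 a) (y0 : Q.ob a0), Finite a0 ∧ y0 ∈ ar Q k a0 ∧ Q.mp h y0 = y := by
  obtain ⟨m, hm, t, y, rfl⟩ := h
  exact ⟨_, t, y, inferInstance, ⟨m, hm, rf _, y, Q.mp_rf _ y⟩, rfl⟩

/-- the filtration by the size of supports -/
@[reducible] def arCh (Q : NO L1) : NCh ℕ Q where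
  Q k := Q.sub (ar Q k) (ar_nat Q k) (ar_fin Q k)
  ι k := NT.val Q (ar Q k) (ar_nat Q k) (ar_fin Q k)
  mono i j h a := by
    rintro _ ⟨⟨y, m, hm, e⟩, rfl⟩
    exact ⟨⟨y, m, hm.trans h, e⟩, rfl⟩
  cont δ hδ := absurd hδ not_isSuccLimit
  cover a y := by
    obtain ⟨n, t, x, rfl⟩ := Q.fin1 a y
    exact ⟨n, ⟨_, n, le_rfl, t, x, rfl⟩, rfl⟩

theorem arCh_pb {Q : NO L1} (h : Q.PB) (k : ℕ) : ((arCh Q).Q k).PB := by
  refine Fu.PB.of_full h ((arCh Q).ι k) ?_
  rintro a b f y ⟨⟨_, m, hm, t, hy⟩, rfl⟩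
  have : Finite (LO.sub a (f ⁻¹' range t)) :=
    ((finite_range t).preimage f.inj.injOn).to_subtype
  obtain ⟨n, e, e', k1, -⟩ := exists_fin (LO.sub a (f ⁻¹' range t))
  obtain ⟨r, -⟩ := LO.fac ((e'.trans (val _)).trans f) t (by rintro _ ⟨i, rfl⟩; exact (e' i).2)
  obtain ⟨y0, h0⟩ := h t f ((e'.trans (val _)).trans f) (by
    rintro _ ⟨h1, x, rfl⟩
    exact ⟨e ⟨x, h1⟩, congrArg (fun z : LO.sub a (f ⁻¹' range t) => f z.1) (k1 ⟨x, h1⟩)⟩) ⟨hy, y, rfl⟩
  exact ⟨⟨y, n, (UnifP.le_of_emb r.oe).trans hm, e'.trans (val _), y0,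
    (Q.mp f).inj ((Q.mp_mp _ f y0).trans h0)⟩, rfl⟩

theorem ar_sup {Q : NO L1} {k : ℕ} {a : LO} {y : Q.ob a} (h : y ∈ ar Q k a) :
    ∃ s : Finset a, s.card ≤ k + 1 ∧ ∀ (b : LO) (t : Em b a), (s : Set a) ⊆ range t →
      y ∈ range (Q.mp t) := by
  obtain ⟨m, hm, t, hy⟩ := h
  refine ⟨Finset.univ.image t, Finset.card_image_le.trans (by simpa using hm.trans k.le_succ),
    fun b r hr => Q.range_mono (g := t) (k := r) ?_ hy⟩
  rintro _ ⟨i, rfl⟩
  exact hr (Finset.mem_coe.2 (Finset.mem_image_of_mem _ (Finset.mem_univ i)))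

/-- pieces have bounded arity -/
theorem pc_ar {C : PC} (P : LF L1 C) (I L : NO L1) (k : ℕ) (a : LO)
    (w : C.U ((P.wh (Q1 ((arCh I).Q k) ((arCh L).Q k))).ob a))
    (h : Pc P (· ≤ k) (Q1 ((arCh I).Q k) ((arCh L).Q k)) a w) :
    Ar (k * (k + 1)) (P.wh (Q1 I L)) a (P.mp ((q1map ((arCh I).ι k) ((arCh L).ι k)).app a) w) := by
  obtain ⟨m, u, hm, x, rfl⟩ := h
  have key : ∀ y : (Q1 ((arCh I).Q k) ((arCh L).Q k)).ob a, ∃ s : Finset a, s.card ≤ k + 1 ∧
      ∀ (b : LO) (t : Em b a), (s : Set a) ⊆ range t →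
        (q1map ((arCh I).ι k) ((arCh L).ι k)).app a y ∈ range ((Q1 I L).mp t) := by
    intro y
    induction y using add_ind with
    | l y =>
      obtain ⟨s, h1, h2⟩ := ar_sup y.2
      exact ⟨s, h1, fun b t ht => (h2 b t ht).elim fun z hz => ⟨inl z, congrArg inl hz⟩⟩
    | r y =>
      induction y using add_ind with
      | l y =>
        exact ⟨{y}, by simp, fun b t ht => (ht (by simp) : y ∈ range t).elim fun z hz =>
          ⟨inr (inl z), congrArg (fun v => inr (inl v)) hz⟩⟩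
      | r y =>
        induction y using add_ind with
        | l y =>
          obtain ⟨s, h1, h2⟩ := ar_sup y.2
          exact ⟨s, h1, fun b t ht => (h2 b t ht).elim fun z hz =>
            ⟨inr (inr (inl z)), congrArg (fun v => inr (inr (inl v))) hz⟩⟩
        | r y =>
          exact ⟨{y}, by simp, fun b t ht => (ht (by simp) : y ∈ range t).elim fun z hz =>
            ⟨inr (inr (inr z)), congrArg (fun v => inr (inr (inr v))) hz⟩⟩
  choose s h1 h2 using key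
  let T : Finset a := Finset.univ.biUnion fun i => s (u i)
  have hT : T.card ≤ k * (k + 1) :=
    (Finset.card_biUnion_le_card_mul _ _ (k + 1) fun i _ => h1 _).trans
      (Nat.mul_le_mul_right _ (by simpa using hm))
  refine ⟨T.card, hT, Em.of (T.orderEmbOfFin rfl), ?_⟩
  rw [P.mp_comp]
  refine P.range_mono ?_ ⟨x, rfl⟩
  rintro _ ⟨i, rfl⟩
  exact h2 (u i) _ _ ((Finset.coe_subset.2 (Finset.subset_biUnion_of_mem (fun i => s (u i))
    (Finset.mem_univ i))).trans (T.range_orderEmbOfFin rfl).ge)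

end LcP

open LcP

/-- paper LC -/
theorem lc {K : KC} (S : PS K) {I H : NO L1} (c : NCh (J K.k0) I) (g : NCh (J K.k0) H)
    (hc : ∀ i, (c.Q i).PB) (hg : ∀ i, (g.Q i).PB) (lc : ∀ i, (c.Q i).Lev K.k0)
    (lg : ∀ i, (g.Q i).Lev K.k0) (f : ∀ i, Mp (S.P.wh (MM (c.Q i))) (S.P.wh (g.Q i)))
    (F : Mp (S.P.wh (MM I)) (S.P.wh H))
    (hf : ∀ i a x, S.P.mp ((g.ι i).app a) (f i a x) = F a (S.P.mp ((mmap' (c.ι i)).app a) x)) :
    ∃ δ, NF (f δ) (S.P.nt (mmap' (c.tr (le_succ δ)))) (S.P.nt (g.tr (le_succ δ)))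
      (f (succ δ)) := by
  have hU := uu0 S
  obtain ⟨W, hW, lW, HW⟩ := wstar hU
  let cM : NCh (J K.k0) (MM I) := c.add (NCh.cst _ (tau.add tau))
  let gW : NCh (J K.k0) (H.add W) := g.add (NCh.cst _ W)
  have e0 : ∀ i a x, (gW.fam S.P).ι i a (S.P.mp inl x) = S.P.mp inl (S.P.mp ((g.ι i).app a) x) :=
    fun i a x => S.P.mp_sq (f := inl) (g := (gW.ι i).app a) (f' := (g.ι i).app a) (g' := inl)
      (fun _ => rfl) x
  let f' : ∀ i, Mp (S.P.wh (cM.Q i)) ((gW.fam S.P).X i) := fun i =>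
    (f i).trans (S.P.nt (NT.inl (g.Q i) W))
  have hf' : ∀ i a x, (gW.fam S.P).ι i a (f' i a x) =
      F.trans (S.P.nt (NT.inl H W)) a (S.P.mp ((cM.ι i).app a) x) := fun i a x =>
    (e0 i a _).trans (congrArg _ (hf i a x))
  have ld : ∀ i, ((gW.fam S.P).X i).Lev K.k0 := fun i => S.lev.wh K.inf ((lg i).add K.inf lW)
  obtain ⟨δ, hδ⟩ := knf S cM (fun i => pb_MM (hc i)) (fun i => mη (c.Q i))
    (fun i => lev_MM K.inf (lc i)) (gW.fam S.P) ld f' _ hf'
  have hs := le_succ δ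
  have e1 : cM.tr hs = mmap' (c.tr hs) := NT.ext' fun a y => ((cM.ι _).app a).inj (by
    rw [NCh.ι_tr]
    induction y using add_ind with
    | l y => exact congrArg inl (c.ι_tr hs a y).symm
    | r y => rfl)
  have e2 : ∀ a x, (gW.fam S.P).tr hs a (S.P.mp inl x) =
      S.P.mp inl (S.P.mp ((g.tr hs).app a) x) := fun a x => ((gW.fam S.P).ι _).inj a (by
    rw [FCh.ι_tr, e0, e0]
    exact congrArg _ (S.P.mp_eq (fun y => g.ι_tr hs a y) x).symm)
  rw [e1] at hδ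
  have lτ : tau.Lev K.k0 := lev_id K.inf L1
  obtain ⟨L, ψ0, hL, lL, hψ0⟩ := hU.cut le_rfl (a := (c.Q δ).add tau) (b := tau)
    (Fu.PB.add (Fu.PB.add (hc δ) (pb_id L1)) (pb_id L1))
    ((S.P.nt (NT.asr (c.Q δ) tau tau)).trans (f δ))
    (((lc δ).add K.inf lτ).add K.inf lτ) (S.lev.wh K.inf (lg δ))
  let ψ : Mp (S.P.wh (g.Q δ)) (S.P.wh (Q1 (c.Q δ) L)) :=
    ψ0.trans (S.P.nt (NT.asr (c.Q δ) tau (L.add tau)))
  have hψ : ∀ a x, ψ a (f δ a x) = S.P.mp ((mq (c.Q δ) L).app a) x := fun a x => by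
    obtain ⟨x, rfl⟩ := S.P.surj (f := (asr : Em ((((c.Q δ).ob a).add a).add a) _)) (fun y => by
      induction y using add_ind with
      | l y => exact ⟨inl (inl y), rfl⟩
      | r y =>
        induction y using add_ind with
        | l y => exact ⟨inl (inr y), rfl⟩
        | r y => exact ⟨inr y, rfl⟩) x
    refine (congrArg _ (hψ0 a x)).trans (S.P.mp_sq (fun y => ?_) x)
    induction y using add_ind with
    | l y => induction y using add_ind <;> rfl
    | r y => rfl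
  obtain ⟨χ, hχ⟩ := HW (g.Q δ) _ ψ (hg δ) (lg δ) (S.lev.wh K.inf (lev_Q1 K.inf (lc δ) lL))
  have hχ' : ∀ a x, χ a (S.P.mp ((mq (c.Q δ) L).app a) x) = f' δ a x := fun a x =>
    (congrArg _ (hψ a x).symm).trans (hχ a _)
  obtain ⟨D', e', n', lD', hN⟩ := NF.ex_small le_rfl
    (hU.be (pb_MM (hc δ)) (mη _) (f' δ) (lev_MM K.inf (lc δ)) (ld δ))
    (te_std S (pb_MM (hc δ)) (mη _) (mmap' (c.tr hs))) (ld δ)
    (S.lev.wh K.inf (lev_MM K.inf (lc (succ δ))))
  have hN' : NF (S.P.nt (mq (c.Q δ) L)) (S.P.nt (mmap' (c.tr hs))) (χ.trans e') n' :=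
    hN.down χ (Mp.rfl' _) (Mp.rfl' _) hχ' (fun _ _ => rfl) (fun _ _ => rfl) fun _ _ => rfl
  have main := core le_rfl hU (Λ := ℕ) (by rw [mk_nat]; exact K.inf) (arCh (c.Q δ)) (arCh L)
    (arCh_pb (hc δ)) (arCh_pb hL) (lc δ) lL (fun k m => m ≤ k) (fun _ _ _ h h' => h'.trans h)
    (fun _ h => absurd h not_isSuccLimit) (fun m => ⟨m, le_rfl⟩) (pb_MM (hc (succ δ)))
    (lev_MM K.inf (lc (succ δ))) (mη _) (ld (succ δ)) (S.P.nt (mmap' (c.tr hs)))
    (χ.trans ((gW.fam S.P).tr hs)) (f' (succ δ))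
    (fun a x => ((gW.fam S.P).ι _).inj a ((hf' _ a _).trans (Eq.trans (congrArg _
      (S.P.mp_eq (k := (cM.ι δ).app a) (fun y => e1 ▸ cM.ι_tr hs a y) x))
      ((hf' δ a x).symm.trans (((gW.fam S.P).ι_tr hs a _).symm.trans
        (congrArg (fun z => (gW.fam S.P).ι _ a ((gW.fam S.P).tr hs a z)) (hχ' a x).symm))))))
    fun k => ⟨D', (S.P.nt (q1map ((arCh (c.Q δ)).ι k) ((arCh L).ι k))).trans (χ.trans e'), n', lD',
      (std S (pb_MM (arCh_pb (hc δ) k)) (pb_MM (hc δ)) (mη _) (mq _ _)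
        (mmap' ((arCh (c.Q δ)).ι k)) (q1map ((arCh (c.Q δ)).ι k) ((arCh L).ι k)) (mq _ _)
        (fun a y => by
          induction y using add_ind with
          | l y => rfl
          | r y => induction y using add_ind <;> rfl) (by
          rintro a y ⟨z, hz⟩
          induction y using add_ind with
          | l y => exact ⟨inl y, rfl⟩
          | r y =>
            induction y using add_ind with
            | l y => exact ⟨inr (inl y), rfl⟩
            | r y =>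
              induction y using add_ind with
              | r y => exact ⟨inr (inr y), rfl⟩
              | l y =>
                induction z using add_ind with
                | l z => exact absurd hz (inl_ne_inr _ _)
                | r z =>
                  induction z using add_ind with
                  | l z => exact absurd (inr.inj hz) (inl_ne_inr _ _)
                  | r z => exact absurd (inr.inj (inr.inj hz)) (inr_ne_inl _ _))).tr1 hN',
      (hδ (k * (k + 1)) D' e' n' hN).mono (by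
        rintro a _ _ (h | ⟨w, hw, rfl, rfl⟩)
        · exact Or.inl h
        · obtain ⟨r, hr, t, z, hz⟩ := pc_ar S.P (c.Q δ) L k a w hw
          exact Or.inr ⟨_, ⟨r, hr, t, χ _ z, (χ.nat t z).symm.trans (congrArg (χ a) hz)⟩, rfl, rfl⟩)⟩
  exact ⟨δ, main.down ψ (Mp.rfl' _) (S.P.nt (NT.inl (g.Q (succ δ)) W)) hψ (fun _ _ => rfl)
    (fun a x => (e2 a x).symm.trans (congrArg _ (hχ a x).symm)) fun _ _ => rfl⟩

end Pool.Agent.P.MP_860a31_lc.H
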