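import Pool.Agent.P.MP_860a31_lc.H.Cx

/-!
Families: finitary functors from a context category to a class of models, their maps and joint
embeddings.
-/

open Cardinal hiding univ
open Set Order Function

namespace Pool.Agent.P.MP_860a31_lc.H

open LO E

/-- finitary functors into `C` -/
structure LF (T : Ct) (C : PC) where
  ob : T.Obj → C.Obj
  mp : ∀ {a b}, T.Hom a b → C.U (ob a) → C.U (ob b)
  hom : ∀ {a b} (f : T.Hom a b), C.IsH (mp f)
  mp_id : ∀ a x, mp (T.id a) x = x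
  mp_comp : ∀ {a b c} (f : T.Hom a b) (g : T.Hom b c) x, mp g (mp f x) = mp (T.comp f g) x
  fin : ∀ a y, ∃ (a0 : T.Obj) (h : T.Hom a0 a) (y0 : C.U (ob a0)), Finite (T.U a0) ∧ mp h y0 = y

/-- maps of families -/
structure Mp {T : Ct} {C : PC} (X Y : LF T C) where
  app : ∀ a, C.U (X.ob a) → C.U (Y.ob a)
  hom : ∀ a, C.IsH (app a)
  nat : ∀ {a b} (f : T.Hom a b) x, app b (X.mp f x) = Y.mp f (app a x)

instance {T : Ct} {C : PC} (X Y : LF T C) :
    CoeFun (Mp X Y) (fun _ => ∀ a, C.U (X.ob a) → C.U (Y.ob a)) := ⟨Mp.app⟩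

/-- relations between families -/
abbrev Rl {T : Ct} {C : PC} (X Y : LF T C) : Type 1 := ∀ a, C.U (X.ob a) → C.U (Y.ob a) → Prop

namespace LF

variable {T T' : Ct} {C : PC}

theorem inj (X : LF T C) {a b : T.Obj} (f : T.Hom a b) : Injective (X.mp f) := C.inj (X.hom f)

theorem mp_eq (X : LF T C) {a b c : T.Obj} {f : T.Hom a b} {g : T.Hom b c} {k : T.Hom a c}
    (e : ∀ y, T.um g (T.um f y) = T.um k y) (x : C.U (X.ob a)) : X.mp g (X.mp f x) = X.mp k x := by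
  rw [X.mp_comp, T.ext (T.comp f g) k fun y => by rw [T.um_comp, e]]

theorem mp_sq (X : LF T C) {a b b' c : T.Obj} {f : T.Hom a b} {g : T.Hom b c} {f' : T.Hom a b'}
    {g' : T.Hom b' c} (e : ∀ y, T.um g (T.um f y) = T.um g' (T.um f' y)) (x : C.U (X.ob a)) :
    X.mp g (X.mp f x) = X.mp g' (X.mp f' x) := by
  rw [X.mp_comp f' g']; exact X.mp_eq (fun y => by rw [T.um_comp, e]) x

theorem mp_congr (X : LF T C) {a b : T.Obj} {f g : T.Hom a b} (e : ∀ y, T.um f y = T.um g y)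
    (x : C.U (X.ob a)) : X.mp f x = X.mp g x := by rw [T.ext f g e]

theorem mp_self (X : LF T C) {a : T.Obj} {f : T.Hom a a} (e : ∀ y, T.um f y = y)
    (x : C.U (X.ob a)) : X.mp f x = x :=
  (X.mp_congr (fun y => (e y).trans (T.um_id a y).symm) x).trans (X.mp_id a x)

theorem range_mono (X : LF T C) {a b c : T.Obj} {g : T.Hom a c} {k : T.Hom b c}
    (h : range (T.um g) ⊆ range (T.um k)) : range (X.mp g) ⊆ range (X.mp k) := by
  obtain ⟨e, rfl⟩ := T.fac g k h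
  rintro _ ⟨y, rfl⟩
  exact ⟨_, X.mp_comp e k y⟩

theorem surj (X : LF T C) {a b : T.Obj} {f : T.Hom a b} (h : Surjective (T.um f)) :
    Surjective (X.mp f) := fun y =>
  X.range_mono (g := T.id b) (k := f) (h.range_eq ▸ subset_univ _) ⟨y, X.mp_id b y⟩

/-- an element lies in the range of one member of a directed cover of the context -/
theorem cover (X : LF T C) {ι : Sort*} [Nonempty ι] {a : T.Obj} (A : ι → T.Obj)
    (h : ∀ i, T.Hom (A i) a)
    (hd : ∀ i j, ∃ k, range (T.um (h i)) ⊆ range (T.um (h k)) ∧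
      range (T.um (h j)) ⊆ range (T.um (h k)))
    (hc : ∀ y, ∃ i x, T.um (h i) x = y) (y : C.U (X.ob a)) : ∃ i x, X.mp (h i) x = y := by
  obtain ⟨a0, g, y0, h1, rfl⟩ := X.fin a y
  choose ix px hpx using fun x => hc (T.um g x)
  obtain ⟨k, hk⟩ := Directed.finite_le (r := (· ≤ ·)) (f := fun i => range (T.um (h i))) hd ix
  exact ⟨k, X.range_mono (by rintro _ ⟨x, rfl⟩; exact hk x ⟨_, hpx x⟩) ⟨y0, rfl⟩⟩

/-- whiskering -/
@[reducible] def wh (X : LF T C) (G : Fu T' T) : LF T' C where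
  ob a := X.ob (G.ob a)
  mp f := X.mp (G.mp f)
  hom _ := X.hom _
  mp_id a x := by rw [G.mp_id, X.mp_id]
  mp_comp f g x := by rw [X.mp_comp, G.mp_comp]
  fin a y := by
    obtain ⟨b, g, y0, h1, rfl⟩ := X.fin _ y
    obtain ⟨a0, h, g0, h2, rfl⟩ := G.finH g h1
    exact ⟨a0, h, _, h2, X.mp_comp g0 _ y0⟩

/-- a constant family -/
@[reducible] def cst (T : Ct) (M : C.Obj) : LF T C where
  ob _ := M
  mp _ x := x
  hom _ := C.idH M
  mp_id _ _ := rfl
  mp_comp _ _ _ := rfl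
  fin a y := by
    obtain ⟨a0, h, h1, -⟩ := Ct.sub_fin a finite_empty
    exact ⟨a0, h, y, h1, rfl⟩

/-- the map induced by a natural transformation -/
@[reducible] def nt (X : LF T C) {G H : Fu T' T} (n : NT G H) : Mp (X.wh G) (X.wh H) where
  app a := X.mp (n.app a)
  hom _ := X.hom _
  nat f x := by
    dsimp only
    rw [X.mp_comp, X.mp_comp, n.nat]

/-- the map induced by a unit -/
@[reducible] def un (X : LF T C) {G : Fu T T} (n : NT (Fu.idF T) G) : Mp X (X.wh G) where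
  app a := X.mp (n.app a)
  hom _ := X.hom _
  nat := (X.nt n).nat

/-- size bound on finite contexts -/
def Lev (X : LF T C) (ν : Cardinal.{0}) : Prop :=
  ∀ a, Finite (T.U a) → #(C.U (X.ob a)) ≤ ν

/-- some element has different images under different points -/
def Atom (X : LF T C) : Prop :=
  ∃ x : C.U (X.ob (T.Xi one)), ∀ (z : LO) (u v : z),
    X.mp (T.xm (pt u)) x = X.mp (T.xm (pt v)) x → u = v

end LF

namespace Mp

variable {T T' : Ct} {C : PC} {X Y Z : LF T C}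

theorem inj (φ : Mp X Y) (a : T.Obj) : Injective (φ a) := C.inj (φ.hom a)

@[ext] theorem ext {φ ψ : Mp X Y} (h : ∀ a x, φ a x = ψ a x) : φ = ψ := by
  cases φ; cases ψ; congr; funext a x; exact h a x

/-- identity -/
@[reducible] def rfl' (X : LF T C) : Mp X X := ⟨fun _ x => x, fun _ => C.idH _, fun _ _ => rfl⟩

/-- first `φ`, then `ψ` -/
@[reducible] def trans (φ : Mp X Y) (ψ : Mp Y Z) : Mp X Z :=
  ⟨fun a x => ψ a (φ a x), fun a => C.comp (φ.hom a) (ψ.hom a), fun f x => by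
    rw [φ.nat, ψ.nat]⟩

/-- whiskering -/
@[reducible] def wh (φ : Mp X Y) (G : Fu T' T) : Mp (X.wh G) (Y.wh G) :=
  ⟨fun a => φ (G.ob a), fun _ => φ.hom _, fun f => φ.nat (G.mp f)⟩

/-- factorisation through a map with larger range -/
theorem fac (φ : Mp X Z) (ψ : Mp Y Z) (h : ∀ a, range (φ a) ⊆ range (ψ a)) :
    ∃ k : Mp X Y, ∀ a x, ψ a (k a x) = φ a x := by
  choose k h1 h2 using fun a => PC.factor (φ.hom a) (ψ.hom a) (h a)
  exact ⟨⟨k, h1, fun f x => ψ.inj _ (by rw [h2, ψ.nat, h2, φ.nat])⟩, h2⟩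

/-- it suffices to compare ranges on finite contexts -/
theorem range_fin (φ : Mp X Z) (ψ : Mp Y Z)
    (h : ∀ a, Finite (T.U a) → range (φ a) ⊆ range (ψ a)) (a : T.Obj) :
    range (φ a) ⊆ range (ψ a) := by
  rintro _ ⟨x, rfl⟩
  obtain ⟨a0, g, x0, h1, rfl⟩ := X.fin a x
  obtain ⟨y, hy⟩ := h a0 h1 ⟨x0, rfl⟩
  exact ⟨Y.mp g y, by rw [ψ.nat, hy, φ.nat]⟩

/-- it suffices to compare maps on finite contexts -/
theorem eq_fin (φ ψ : Mp X Y) (h : ∀ a, Finite (T.U a) → ∀ x, φ a x = ψ a x) (a : T.Obj)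
    (x : C.U (X.ob a)) : φ a x = ψ a x := by
  obtain ⟨a0, g, x0, h1, rfl⟩ := X.fin a x
  rw [φ.nat, ψ.nat, h a0 h1]

theorem lev (φ : Mp X Y) {ν : Cardinal.{0}} (h : Y.Lev ν) : X.Lev ν :=
  fun a ha => (PC.card_le (φ.hom a)).trans (h a ha)

theorem atom (φ : Mp X Y) (h : X.Atom) : Y.Atom := by
  obtain ⟨x, hx⟩ := h
  exact ⟨φ _ x, fun z u v e => hx z u v (φ.inj _ (by rw [φ.nat, φ.nat, e]))⟩

end Mp

/-- joint embedding of two families identifying related elements -/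
def El {T : Ct} {C : PC} (X Y : LF T C) (R : Rl X Y) : Prop :=
  ∃ (Z : LF T C) (f : Mp X Z) (g : Mp Y Z), ∀ a x y, R a x y → f a x = g a y

/-- the joint graph of two maps of families -/
def GR {T : Ct} {C : PC} {A X Y : LF T C} (φ : Mp A X) (ψ : Mp A Y) : Rl X Y :=
  fun a x y => ∃ w, φ a w = x ∧ ψ a w = y

/-- the joint graph on the elements satisfying `p` -/
def GP {T : Ct} {C : PC} {A X Y : LF T C} (p : ∀ a, C.U (A.ob a) → Prop) (φ : Mp A X)
    (ψ : Mp A Y) : Rl X Y :=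
  fun a x y => ∃ w, p a w ∧ φ a w = x ∧ ψ a w = y

/-- union of relations -/
def RO {T : Ct} {C : PC} {X Y : LF T C} (R R' : Rl X Y) : Rl X Y := fun a x y => R a x y ∨ R' a x y

/-- natural and finitary relations -/
structure Gd {T : Ct} {C : PC} {X Y : LF T C} (R : Rl X Y) : Prop where
  nat : ∀ a b (f : T.Hom a b) x y, R a x y → R b (X.mp f x) (Y.mp f y)
  fin : ∀ a x y, R a x y → ∃ (a0 : T.Obj) (h : T.Hom a0 a) (x0 : C.U (X.ob a0))
    (y0 : C.U (Y.ob a0)), Finite (T.U a0) ∧ R a0 x0 y0 ∧ X.mp h x0 = x ∧ Y.mp h y0 = y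

/-- natural and finitary sets of elements -/
structure Gp {T : Ct} {C : PC} {A : LF T C} (p : ∀ a, C.U (A.ob a) → Prop) : Prop where
  nat : ∀ a b (f : T.Hom a b) x, p a x → p b (A.mp f x)
  fin : ∀ a x, p a x → ∃ (a0 : T.Obj) (h : T.Hom a0 a) (x0 : C.U (A.ob a0)),
    Finite (T.U a0) ∧ p a0 x0 ∧ A.mp h x0 = x

section Rel

variable {T T' : Ct} {C : PC} {A X Y X' Y' : LF T C} {R R' : Rl X Y}

theorem GR.mk (φ : Mp A X) (ψ : Mp A Y) (a : T.Obj) (w : C.U (A.ob a)) :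
    GR φ ψ a (φ a w) (ψ a w) := ⟨w, rfl, rfl⟩

theorem Gd.gp {p : ∀ a, C.U (A.ob a) → Prop} (hp : Gp p) (φ : Mp A X) (ψ : Mp A Y) :
    Gd (GP p φ ψ) where
  nat := by
    rintro a b f _ _ ⟨w, h, rfl, rfl⟩
    exact ⟨_, hp.nat a b f w h, φ.nat f w, ψ.nat f w⟩
  fin := by
    rintro a _ _ ⟨w, h, rfl, rfl⟩
    obtain ⟨a0, g, w0, h1, h2, rfl⟩ := hp.fin a w h
    exact ⟨a0, g, _, _, h1, ⟨w0, h2, rfl, rfl⟩, (φ.nat g w0).symm, (ψ.nat g w0).symm⟩

theorem Gd.gr (φ : Mp A X) (ψ : Mp A Y) : Gd (GR φ ψ) where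
  nat := by
    rintro a b f _ _ ⟨w, rfl, rfl⟩
    exact ⟨_, φ.nat f w, ψ.nat f w⟩
  fin := by
    rintro a _ _ ⟨w, rfl, rfl⟩
    obtain ⟨a0, g, w0, h1, rfl⟩ := A.fin a w
    exact ⟨a0, g, _, _, h1, ⟨w0, rfl, rfl⟩, (φ.nat g w0).symm, (ψ.nat g w0).symm⟩

theorem Gd.or (h : Gd R) (h' : Gd R') : Gd (RO R R') where
  nat a b f x y r := r.imp (h.nat a b f x y) (h'.nat a b f x y)
  fin a x y r := by
    rcases r with r | r
    · obtain ⟨a0, g, x0, y0, h1, h2, h3⟩ := h.fin a x y r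
      exact ⟨a0, g, x0, y0, h1, Or.inl h2, h3⟩
    · obtain ⟨a0, g, x0, y0, h1, h2, h3⟩ := h'.fin a x y r
      exact ⟨a0, g, x0, y0, h1, Or.inr h2, h3⟩

/-- the relation of having the same image -/
theorem Gd.eq {Z : LF T C} (f : Mp X Z) (g : Mp Y Z) : Gd (fun a x y => f a x = g a y) where
  nat a b h x y e := by rw [f.nat, g.nat, e]
  fin a x y e := by
    obtain ⟨b, h, x0, h1, rfl⟩ := X.fin a x
    obtain ⟨b', h', y0, h1', rfl⟩ := Y.fin a y
    obtain ⟨a0, k, u, u', k1, rfl, rfl⟩ := Ct.dir2 h h' h1 h1'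
    refine ⟨a0, k, X.mp u x0, Y.mp u' y0, k1, Z.inj k ?_, X.mp_comp _ _ _, Y.mp_comp _ _ _⟩
    rw [← f.nat, ← g.nat, X.mp_comp, Y.mp_comp, e]

namespace El

theorem mono (h : El X Y R) (H : ∀ a x y, R' a x y → R a x y) : El X Y R' := by
  obtain ⟨Z, f, g, e⟩ := h
  exact ⟨Z, f, g, fun a x y r => e a x y (H a x y r)⟩

theorem symm (h : El X Y R) {S : Rl Y X} (H : ∀ a y x, S a y x → R a x y) : El Y X S := by
  obtain ⟨Z, f, g, e⟩ := h
  exact ⟨Z, g, f, fun a y x r => (e a x y (H a y x r)).symm⟩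

theorem of_hom (f : Mp X Y) (H : ∀ a x y, R a x y → f a x = y) : El X Y R :=
  ⟨Y, f, Mp.rfl' Y, H⟩

theorem of_hom' (g : Mp Y X) (H : ∀ a x y, R a x y → x = g a y) : El X Y R :=
  ⟨X, Mp.rfl' X, g, H⟩

theorem pull (k : Mp X' X) (k' : Mp Y' Y) (h : El X Y R) {S : Rl X' Y'}
    (H : ∀ a x y, S a x y → R a (k a x) (k' a y)) : El X' Y' S := by
  obtain ⟨Z, f, g, e⟩ := h
  exact ⟨Z, k.trans f, k'.trans g, fun a x y r => e a _ _ (H a x y r)⟩

theorem pull_left (k : Mp X' X) (h : El X Y R) {S : Rl X' Y}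
    (H : ∀ a x y, S a x y → R a (k a x) y) : El X' Y S := h.pull k (Mp.rfl' Y) H

theorem pull_right (k : Mp Y' Y) (h : El X Y R) {S : Rl X Y'}
    (H : ∀ a x y, S a x y → R a x (k a y)) : El X Y' S := h.pull (Mp.rfl' X) k H

/-- the relation may be closed under the structure maps -/
theorem clos (h : El X Y R) : El X Y fun a x y =>
    ∃ (b : T.Obj) (f : T.Hom b a) (x0 : C.U (X.ob b)) (y0 : C.U (Y.ob b)),
      R b x0 y0 ∧ X.mp f x0 = x ∧ Y.mp f y0 = y := by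
  obtain ⟨Z, f, g, e⟩ := h
  refine ⟨Z, f, g, ?_⟩
  rintro a _ _ ⟨b, k, x0, y0, r, rfl, rfl⟩
  rw [f.nat, g.nat, e b x0 y0 r]

/-- whiskering; the new relation may use the closure of the old one -/
theorem wh (h : El X Y R) (G : Fu T' T) {S : Rl (X.wh G) (Y.wh G)}
    (H : ∀ a x y, S a x y → R (G.ob a) x y ∨ ∃ (b : T.Obj) (f : T.Hom b (G.ob a))
      (x0 : C.U (X.ob b)) (y0 : C.U (Y.ob b)), R b x0 y0 ∧ X.mp f x0 = x ∧ Y.mp f y0 = y) :
    El (X.wh G) (Y.wh G) S := by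
  obtain ⟨Z, f, g, e⟩ := h
  refine ⟨Z.wh G, f.wh G, g.wh G, fun a x y s => ?_⟩
  rcases H a x y s with r | ⟨b, k, x0, y0, r, rfl, rfl⟩
  · exact e _ x y r
  · exact (f.nat k x0).trans ((congrArg _ (e b x0 y0 r)).trans (g.nat k y0).symm)

/-- evaluation at a context -/
theorem ev (h : El X Y R) (a : T.Obj) : C.El (X.ob a) (Y.ob a) (R a) := by
  obtain ⟨Z, f, g, e⟩ := h
  exact ⟨_, f a, g a, f.hom a, g.hom a, e a⟩

theorem func (h : El X Y R) {a : T.Obj} {x : C.U (X.ob a)} {y y' : C.U (Y.ob a)} (h1 : R a x y)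
    (h2 : R a x y') : y = y' := (h.ev a).func h1 h2

theorem func' (h : El X Y R) {a : T.Obj} {x x' : C.U (X.ob a)} {y : C.U (Y.ob a)} (h1 : R a x y)
    (h2 : R a x' y) : x = x' := (h.ev a).symm.func h1 h2

end El

end Rel

section CCpart

variable {T : Ct} {C : CC}

/-- the map out of a directed union of families -/
theorem Mp.lift {ι : Type} (A : ι → LF T C.toPC) {B D : LF T C.toPC} (u : ∀ i, Mp (A i) B)
    (g : ∀ i, Mp (A i) D)
    (hd : ∀ a i j, ∃ k, range (u i a) ⊆ range (u k a) ∧ range (u j a) ⊆ range (u k a))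
    (hs : ∀ a y, ∃ i x, u i a x = y) (hc : ∀ a i j x y, u i a x = u j a y → g i a x = g j a y) :
    ∃ k : Mp B D, ∀ i a x, k a (u i a x) = g i a x := by
  choose k h1 h2 using fun a => CC.lift (fun i => (A i).ob a) (fun i => u i a) (fun i => g i a)
    (fun i => (u i).hom a) (fun i => (g i).hom a) (hd a) (hs a) (hc a)
  refine ⟨⟨k, h1, fun {a b} f y => ?_⟩, fun i a x => h2 a i x⟩
  obtain ⟨i, x, rfl⟩ := hs a y
  rw [← (u i).nat, h2, h2, (g i).nat]

/-- colimits of directed systems of families -/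
theorem LF.colim (ι : Type) [Preorder ι] [IsDirected ι (· ≤ ·)] [Nonempty ι]
    (A : ι → LF T C.toPC) (t : ∀ i j, i ≤ j → Mp (A i) (A j))
    (tc : ∀ i j k (hij : i ≤ j) (hjk : j ≤ k) a x,
      t j k hjk a (t i j hij a x) = t i k (hij.trans hjk) a x) :
    ∃ (B : LF T C.toPC) (u : ∀ i, Mp (A i) B), (∀ i j h a x, u j a (t i j h a x) = u i a x) ∧
      ∀ a y, ∃ i x, u i a x = y := by
  choose B u k1 k2 k3 using fun a => C.colim ι (fun i => (A i).ob a) (fun i j h => t i j h a)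
    (fun i j h => (t i j h).hom a) (fun i x => (t i i le_rfl).inj a (tc _ _ _ _ _ _ _))
    fun i j k hij hjk => tc i j k hij hjk a
  have hl : ∀ a b (f : T.Hom a b), ∃ k : C.U (B a) → C.U (B b), C.IsH k ∧
      ∀ i x, k (u a i x) = u b i ((A i).mp f x) := fun a b f =>
    CC.lift (fun i => (A i).ob a) (u a) (fun i x => u b i ((A i).mp f x)) (k1 a)
      (fun i => C.comp ((A i).hom f) (k1 b i)) (fun i j => by
        obtain ⟨k, hi, hj⟩ := exists_ge_ge i j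
        exact ⟨k, by rintro _ ⟨x, rfl⟩; exact ⟨_, k2 a i k hi x⟩,
          by rintro _ ⟨x, rfl⟩; exact ⟨_, k2 a j k hj x⟩⟩) (k3 a) fun i j x y h => by
        obtain ⟨k, hi, hj⟩ := exists_ge_ge i j
        rw [← k2 a i k hi, ← k2 a j k hj] at h
        rw [← k2 b i k hi, ← k2 b j k hj, (t i k hi).nat, (t j k hj).nat, C.inj (k1 a k) h]
  choose m hm hum using hl
  refine ⟨⟨B, fun f => m _ _ f, fun f => hm _ _ f,
    fun a y => by obtain ⟨i, x, rfl⟩ := k3 a y; rw [hum, (A i).mp_id],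
    fun f g y => by obtain ⟨i, x, rfl⟩ := k3 _ y; rw [hum, hum, hum, (A i).mp_comp],
    fun a y => ?_⟩, fun i => ⟨fun a => u a i, fun a => k1 a i, fun f x => (hum _ _ f i x).symm⟩,
    fun i j h a x => k2 a i j h x, k3⟩
  obtain ⟨i, x, rfl⟩ := k3 a y
  obtain ⟨a0, h, x0, h1, rfl⟩ := (A i).fin a x
  exact ⟨a0, h, _, h1, hum _ _ h i x0⟩

/-- a natural family of morphisms on finite contexts extends to a map of families -/
theorem Mp.of_fin {X Y : LF T C.toPC}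
    (φ : ∀ a, Finite (T.U a) → C.U (X.ob a) → C.U (Y.ob a)) (h : ∀ a ha, C.IsH (φ a ha))
    (hn : ∀ a b ha hb (f : T.Hom a b) x, φ b hb (X.mp f x) = Y.mp f (φ a ha x)) :
    ∃ k : Mp X Y, ∀ a ha x, k a x = φ a ha x := by
  have key : ∀ a, ∃ k : C.U (X.ob a) → C.U (Y.ob a), C.IsH k ∧
      ∀ b hb (f : T.Hom b a) x, k (X.mp f x) = Y.mp f (φ b hb x) := fun a => by
    choose A g h1 h2 using fun s : {s : Set (T.U a) // s.Finite} => Ct.sub_fin a s.2
    have hc : ∀ b hb (f : T.Hom b a) b' hb' (f' : T.Hom b' a) x y, X.mp f x = X.mp f' y →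
        Y.mp f (φ b hb x) = Y.mp f' (φ b' hb' y) := fun b hb f b' hb' f' x y e => by
      obtain ⟨a0, k, u, u', k1, rfl, rfl⟩ := Ct.dir2 f f' hb hb'
      rw [← X.mp_comp, ← X.mp_comp] at e
      rw [← Y.mp_comp, ← Y.mp_comp, ← hn _ _ hb k1, ← hn _ _ hb' k1, X.inj k e]
    have hs : ∀ y, ∃ s x, X.mp (g s) x = y := fun y => by
      obtain ⟨b, f, y0, hb, rfl⟩ := X.fin a y
      exact ⟨⟨_, finite_range (T.um f)⟩, X.range_mono (h2 ⟨_, finite_range (T.um f)⟩).ge ⟨y0, rfl⟩⟩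
    obtain ⟨k, k1, k2⟩ := CC.lift (fun s => X.ob (A s)) (fun s => X.mp (g s))
      (fun s x => Y.mp (g s) (φ _ (h1 s) x)) (fun s => X.hom _)
      (fun s => C.comp (h _ _) (Y.hom _)) (fun s s' => ⟨⟨_, s.2.union s'.2⟩,
        X.range_mono (by rw [h2, h2]; exact subset_union_left),
        X.range_mono (by rw [h2, h2]; exact subset_union_right)⟩) hs
      fun s s' x y e => hc _ _ _ _ _ _ x y e
    refine ⟨k, k1, fun b hb f x => ?_⟩
    obtain ⟨s, y, e⟩ := hs (X.mp f x)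
    rw [← e, k2]
    exact hc _ _ _ _ _ _ _ _ e
  choose k k1 k2 using key
  refine ⟨⟨k, k1, fun {a b} f y => ?_⟩, fun a ha x => ?_⟩
  · obtain ⟨c, g, y0, hc, rfl⟩ := X.fin a y
    rw [X.mp_comp, k2 b c hc, k2 a c hc, Y.mp_comp]
  · have := k2 a a ha (T.id a) x
    rwa [X.mp_id, Y.mp_id] at this

end CCpart

end Pool.Agent.P.MP_860a31_lc.H
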