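import Pool.Agent.P.MP_860a31_lc.H.Std
import Pool.Agent.P.MP_860a31_lc.H.Rec

/-!
Long transitivity.
-/

open Cardinal hiding univ
open Set Order Function

namespace Pool.Agent.P.MP_860a31_lc.H

open LO E Fu

/-- new points on top are free from an extension of the base -/
theorem std_top {K : KC} (S : PS K) {I I' J J' : NO L1} (h : I.PB) (h' : I'.PB) (η : NT tau I)
    (n : NT I I') (m : NT J J') :
    NF (S.P.nt (NT.inl I J)) (S.P.nt n) (S.P.nt (n.add m)) (S.P.nt (NT.inl I' J')) :=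
  std S h h' η _ _ _ _ (fun _ _ => rfl) fun a y hy => by
    induction y using add_ind with
    | l y => exact ⟨y, rfl⟩
    | r y => obtain ⟨w, e⟩ := hy; exact absurd e (inl_ne_inr _ _)

/-- the successor step of long transitivity -/
theorem ltStep {K : KC} {S : PS K} {ν : Cardinal.{0}} (hν : K.k0 ≤ ν) (hU : UU S ν)
    {I I' J : NO L1} (h : I.PB) (h' : I'.PB) (hJ : J.PB) (η : NT tau I) (n : NT I I')
    (lI : I'.Lev ν) (lJ : J.Lev ν) {X X' : LF L1 K.toPC} (lX : X'.Lev ν) {f : Mp (S.P.wh I) X}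
    {f' : Mp (S.P.wh I') X'} {e : Mp X X'} (hN : NF f (S.P.nt n) e f')
    (φ : Mp X (S.P.wh (I.add J))) (hφ : ∀ a x, φ a (f a x) = S.P.mp inl x) :
    ∃ (J' : NO L1) (φ' : Mp X' (S.P.wh (I'.add J'))) (m : NT J J'),
      (J'.PB ∧ J'.Lev ν ∧ ∀ a x, φ' a (f' a x) = S.P.mp inl x) ∧
      ∀ a x, φ' a (e a x) = S.P.mp ((n.add m).app a) (φ a x) := by
  have h0 : ℵ₀ ≤ ν := K.inf.trans hν
  have lQ : (I'.add J).Lev ν := lI.add h0 lJ
  have hE := hN.uq (std_top S h h' η n (NT.rfl' J)) (R := fun a x y => φ a x = y)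
    (El.of_hom φ (by
      rintro a _ _ (⟨w, rfl, rfl⟩ | r)
      · exact hφ a w
      · exact r))
  obtain ⟨Z, g, g', lZ, hg⟩ := hE.small K.code hν lX ((S.lev.mono hν).wh h0 lQ)
  obtain ⟨J', ψ, p1, p2, p3⟩ := hU.top hν (h'.add hJ) g' lQ lZ
  refine ⟨J.add J', g.trans (ψ.trans (S.P.nt (NT.asr I' J J'))), NT.inl J J',
    ⟨hJ.add p1, lJ.add h0 p2, fun a x => ?_⟩, fun a x => ?_⟩
  · change S.P.mp _ (ψ a (g a (f' a x))) = _
    rw [hg a _ _ (Or.inl (GR.mk _ _ a x)), p3]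
    exact (S.P.mp_comp _ _ _).trans (S.P.mp_eq (fun _ => rfl) x)
  · change S.P.mp _ (ψ a (g a (e a x))) = _
    rw [hg a _ _ (Or.inr ⟨x, _, rfl, rfl, rfl⟩), p3]
    refine (S.P.mp_comp _ _ _).trans (S.P.mp_eq (fun y => ?_) _)
    induction y using add_ind <;> rfl

/-- paper LT -/
theorem ltMain {K : KC} (S : PS K) {Λ : Type} [LinearOrder Λ] [WellFoundedLT Λ] [SuccOrder Λ] [OrderBot Λ] [NoMaxOrder Λ]
    {H : NO L1} (c : NCh Λ H) {X : LF L1 K.toPC} (d : FCh Λ X) (η : ∀ j, NT tau (c.Q j))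
    (hc : ∀ j, (c.Q j).PB) (f : ∀ j, Mp (S.P.wh (c.Q j)) (d.X j)) (F : Mp (S.P.wh H) X)
    (hf : ∀ j a x, d.ι j a (f j a x) = F a (S.P.mp ((c.ι j).app a) x))
    (ν : Λ → Cardinal.{0}) (hν : Monotone ν) (hk : ∀ j, K.k0 ≤ ν j) (hi : ∀ j, #(Iio j) ≤ ν j)
    (hU : ∀ j, UU S (ν j)) (lc : ∀ j, (c.Q j).Lev (ν j)) (ld : ∀ j, (d.X j).Lev (ν j))
    (hN : ∀ j, NF (f j) (S.P.nt (c.tr (le_succ j))) (d.tr (le_succ j)) (f (succ j))) :
    (∃ (J : NO L1) (φ : Mp X (S.P.wh (H.add J))), J.PB ∧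
      (∀ θ : Cardinal.{0}, #Λ ≤ θ → (∀ j, ν j ≤ θ) → J.Lev θ) ∧
      ∀ a x, φ a (F a x) = S.P.mp inl x) ∧
    ∀ j, NF (f j) (S.P.nt (c.ι j)) (d.ι j) F := by
  have hft : ∀ i j (h : i ≤ j) a x,
      f j a (S.P.mp ((c.tr h).app a) x) = d.tr h a (f i a x) := fun i j h a x =>
    (d.ι j).inj a (by rw [hf, d.ι_tr, hf, S.P.mp_eq (k := (c.ι i).app a) (c.ι_tr h a)])
  obtain ⟨J, e, φ, p1, p2, -⟩ := nrec (Λ := Λ) (T := L1)
    (fun j J => Mp (d.X j) (S.P.wh ((c.Q j).add J)))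
    (fun j J φ => J.PB ∧ J.Lev (ν j) ∧ ∀ a x, φ a (f j a x) = S.P.mp inl x)
    (fun i j h J J' φ ψ n => ∀ a x, ψ a (d.tr h a x) = S.P.mp (((c.tr h).add n).app a) (φ a x))
    (fun _ _ _ _ _ _ _ _ => True)
    (fun j J φ a x => by
      rw [d.tr_rfl]
      refine (S.P.mp_self (fun y => ?_) _).symm
      induction y using add_ind with
      | l y => exact congrArg inl (c.tr_rfl _ a y)
      | r y => rfl)
    (fun i j k h h' _ _ _ φ ψ χ n m r r' a x => by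
      rw [← d.tr_tr h h', r', r]
      refine S.P.mp_eq (fun y => ?_) _
      induction y using add_ind with
      | l y => exact congrArg inl (c.tr_tr h h' a y)
      | r y => rfl)
    ((hU ⊥).top (hk ⊥) (hc ⊥) (f ⊥) (lc ⊥) (ld ⊥))
    (fun j J φ h => by
      obtain ⟨J', φ', m, r1, r2⟩ := ltStep (hk (succ j)) (hU (succ j)) (hc j) (hc (succ j)) h.1
        (η j) (c.tr (le_succ j)) (lc (succ j)) (h.2.1.mono (hν (le_succ j))) (ld (succ j)) (hN j) φ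
        h.2.2
      exact ⟨J', φ', m, r1, r2, trivial⟩)
    (fun δ hδ Q φ t B u hI hC u1 u2 => by
      obtain ⟨Φ, hΦ⟩ := Mp.liftCh (fun a : Iio δ => d.X a) (fun a => d.tr a.2.le)
        (fun a => (φ a).trans (S.P.nt ((c.tr a.2.le).add (u a)))) (fun i j h a x => by
          refine ⟨d.tr h a x, d.tr_tr _ _ a x, ?_⟩
          change S.P.mp _ (φ j a _) = _
          rw [hC i j h]
          refine S.P.mp_eq (fun y => ?_) _
          induction y using add_ind with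
          | l y => exact congrArg inl (c.tr_tr _ _ a y)
          | r y => exact congrArg inr (u1 i j h a y)) (d.cont' hδ)
      refine ⟨Φ, ⟨Fu.pb_cover Q u u2 (fun i j => ⟨max i j, fun a => ⟨?_, ?_⟩⟩) fun a => (hI a).1,
        Fu.lev_cover Q u u2 (K.inf.trans (hk δ)) (hi δ) fun a => (hI a).2.1.mono (hν a.2.le),
        fun a x => ?_⟩, hΦ⟩
      · rintro _ ⟨y, rfl⟩
        exact ⟨_, u1 _ _ (le_max_left i j) a y⟩
      · rintro _ ⟨y, rfl⟩
        exact ⟨_, u1 _ _ (le_max_right i j) a y⟩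
      · obtain ⟨i, x, rfl⟩ := c.cont_fam S.P hδ a x
        rw [hft, hΦ]
        change S.P.mp _ (φ i a _) = _
        rw [(hI i).2.2]
        exact S.P.mp_sq (fun _ => by rfl) x)
  obtain ⟨Φ, hΦ⟩ := Mp.liftCh d.X d.ι
    (fun j => (φ j).trans (S.P.nt ((c.ι j).add (e.ι j)))) (fun i j h a x => by
      refine ⟨d.tr h a x, d.ι_tr h a x, ?_⟩
      change S.P.mp _ (φ j a _) = _
      rw [p2 i j h]
      refine S.P.mp_eq (fun y => ?_) _
      induction y using add_ind with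
      | l y => exact congrArg inl (c.ι_tr h a y)
      | r y => exact congrArg inr (e.ι_tr h a y)) d.cover
  have hF : ∀ a x, Φ a (F a x) = S.P.mp inl x := fun a x => by
    obtain ⟨i, x, rfl⟩ := (c.fam S.P).cover a x
    change Φ a (F a (S.P.mp _ x)) = _
    rw [← hf, hΦ]
    change S.P.mp _ (φ i a _) = _
    rw [(p1 i).2.2]
    exact S.P.mp_sq (fun _ => by rfl) x
  refine ⟨⟨J, Φ, e.pb_top fun j => (p1 j).1, fun θ h1 h2 => Fu.lev_cover e.Q e.ι e.cover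
    (K.inf.trans ((hk ⊥).trans (h2 ⊥))) h1 fun j => (p1 j).2.1.mono (h2 j), hF⟩, fun j => ?_⟩
  exact (std_top S (hc j) (c.pb_top hc) (η j) (c.ι j) (e.ι j)).down (φ j) (Mp.rfl' _) Φ
    (p1 j).2.2 (fun _ _ => rfl) (hΦ j) hF

end Pool.Agent.P.MP_860a31_lc.H
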