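import Pool.Agent.P.MP_860a31_lc.H.Loc1
import Pool.Agent.P.MP_860a31_lc.H.Lt
import Pool.Agent.P.MP_860a31_lc.H.Core

/-!
Continuity of free amalgams.
-/

open Cardinal hiding univ
open Set Order Function

namespace Pool.Agent.P.MP_860a31_lc.H

open LO E Fu

/-- paper LOC -/
theorem loc {K : KC} {S : PS K} {ν : Cardinal.{0}} (hν : K.k0 ≤ ν) (hU : UU S ν) {Λ : Type}
    [LinearOrder Λ] [WellFoundedLT Λ] [SuccOrder Λ] [OrderBot Λ] [NoMaxOrder Λ] (hΛ : #Λ ≤ ν)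
    {I H : NO L1} (c : NCh Λ I) (g : NCh Λ H) (hc : ∀ i, (c.Q i).PB) (hg : ∀ i, (g.Q i).PB)
    (η : ∀ i, NT tau (g.Q i)) (lI : I.Lev ν) (lH : H.Lev ν)
    (f : ∀ i, Mp (S.P.wh (MM (c.Q i))) (S.P.wh (g.Q i))) (F : Mp (S.P.wh (MM I)) (S.P.wh H))
    (hf : ∀ i a x, S.P.mp ((g.ι i).app a) (f i a x) = F a (S.P.mp ((mmap' (c.ι i)).app a) x))
    {M' : NO L1} (hM : M'.PB) (lM : M'.Lev ν) (η' : NT tau M') {D : LF L1 K.toPC} (lD : D.Lev ν)
    (p : Mp (S.P.wh (MM I)) (S.P.wh M')) (b : Mp (S.P.wh H) D) (n : Mp (S.P.wh M') D)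
    (hN : ∀ i, NF (f i) ((S.P.nt (mmap' (c.ι i))).trans p) ((S.P.nt (g.ι i)).trans b) n) :
    NF F p b n := by
  have h0 : ℵ₀ ≤ ν := K.inf.trans hν
  have lP : S.P.Lev ν := S.lev.mono hν
  obtain ⟨L, d, φ, Φ, hd, lL, p1, p2, p3⟩ := loc1 hν hU hΛ c g hc hg η lI lH f F hf fun i =>
    (hN i).down (Mp.rfl' _) ((S.P.nt (mmap' (c.ι (succ i)))).trans p)
      ((S.P.nt (g.ι (succ i))).trans b) (fun _ _ => rfl)
      (fun a x => congrArg (p a) (S.P.mp_eq (fun y => by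
        induction y using add_ind with
        | l y => exact congrArg inl (c.ι_tr _ a y)
        | r y => rfl) x))
      (fun a x => congrArg (b a) (S.P.mp_eq (g.ι_tr _ a) x)) (hN (succ i)).comm
  let q : NCh Λ (Q1 I L) := c.add ((NCh.cst Λ tau).add (d.add (NCh.cst Λ tau)))
  have hq : ∀ i, q.tr (le_succ i) = q1map (c.tr (le_succ i)) (d.tr (le_succ i)) := fun i =>
    NT.ext' fun a y => ((q.ι _).app a).inj ((q.ι_tr _ a y).trans (by
      induction y using add_ind with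
      | l y => exact congrArg inl (c.ι_tr _ a y).symm
      | r y =>
        induction y using add_ind with
        | l y => rfl
        | r y =>
          induction y using add_ind with
          | l y => exact congrArg (fun w => inr (inr (inl w))) (d.ι_tr _ a y).symm
          | r y => rfl))
  have lQ : (S.P.wh (Q1 I L)).Lev ν := lP.wh h0 (lev_Q1 h0 lI lL)
  have hT := (ltMain S g (q.fam S.P) η hg φ Φ p2 (fun _ => ν) monotone_const (fun _ => hν)
    (fun _ => (mk_subtype_le _).trans hΛ) (fun _ => hU) (fun j => lH.of_nt (g.ι j))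
    (fun j => ((q.fam S.P).ι j).lev lQ) fun j => by rw [q.fam_tr, hq]; exact p3 j).2
  have hH : H.PB := g.pb_top hg
  obtain ⟨Dt, e', n', lDt, hA⟩ := NF.ex_small hν (hU.be hH ((η ⊥).trans (g.ι ⊥)) Φ lH lQ)
    (hU.te hH ((η ⊥).trans (g.ι ⊥)) b lH lD) lQ lD
  have cov : ∀ a (x : K.U ((S.P.wh (MM I)).ob a)), ∃ i y,
      S.P.mp ((mmap' (c.ι i)).app a) y = x := ((c.add (NCh.cst Λ (tau.add tau))).fam S.P).cover
  have hF : ∀ a x, Φ a (F a x) = S.P.mp ((mq I L).app a) x := fun a x => by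
    obtain ⟨i, x, rfl⟩ := cov a x
    rw [← hf, ← p2, p1]
    refine S.P.mp_sq (fun y => ?_) x
    induction y using add_ind with
    | l y => rfl
    | r y => induction y using add_ind <;> rfl
  have hb : ∀ a x, n a (p a x) = b a (F a x) := fun a x => by
    obtain ⟨i, x, rfl⟩ := cov a x
    rw [← hf]
    exact ((hN i).comm a x).symm
  refine (core hν hU hΛ c d hc hd lI lL (fun _ _ => True) (fun _ _ _ _ h => h)
    (fun δ hδ _ => (not_isMin_iff.1 hδ.not_isMin).imp fun _ h => ⟨h, trivial⟩)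
    (fun _ => ⟨⊥, trivial⟩) hM lM η' lDt p e' (n.trans n') (fun a x => ?_) fun i =>
      ⟨Dt, _, n.trans n', lDt, ((hN i).tr2' ((hT i).tr1 hA)).congr (p1 i) (fun _ _ => rfl)
        (fun _ _ => rfl) fun _ _ => rfl, El.of_hom (Mp.rfl' _) ?_⟩).down Φ (Mp.rfl' _) n' hF
      (fun _ _ => rfl) (fun a x => (hA.comm a x).symm) fun _ _ => rfl
  · rw [← hF, hA.comm, ← hb]
  · rintro a _ _ (⟨x, rfl, rfl⟩ | ⟨x, -, rfl, rfl⟩) <;> rfl

end Pool.Agent.P.MP_860a31_lc.H
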