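import Pool.Agent.P.MP_860a31_lc.H.Pb

/-!
Recursive construction of a continuous chain of natural orders with data attached to each stage.
-/

open Cardinal hiding univ
open Set Order Function

namespace Pool.Agent.P.MP_860a31_lc.H

open LO E Fu

/-- A continuous chain of natural orders `L i` with data `Dt i (L i)`; `Hom` holds for all
transition maps and `Step` for the successor steps. -/
theorem nrecD {Λ : Type} [LinearOrder Λ] [WellFoundedLT Λ] [SuccOrder Λ] [OrderBot Λ]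
    [NoMaxOrder Λ] {T : Ct} (Dt : Λ → NO T → Type 1)
    (Hom Step : ∀ {i j : Λ} (_ : i ≤ j) {L L' : NO T}, Dt i L → Dt j L' → NT L L' → Prop)
    (hid : ∀ i L (φ : Dt i L), Hom le_rfl φ φ (NT.rfl' L))
    (hcomp : ∀ {i j k : Λ} (h : i ≤ j) (h' : j ≤ k) {L L' L'' : NO T} (φ : Dt i L) (φ' : Dt j L')
      (φ'' : Dt k L'') n n', Hom h φ φ' n → Hom h' φ' φ'' n' → Hom (h.trans h') φ φ'' (n.trans n'))
    (L0 : NO T) (φ0 : Dt ⊥ L0)
    (hstep : ∀ i L (φ : Dt i L), ∃ (L' : NO T) (φ' : Dt (succ i) L') (n : NT L L'),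
      Hom (le_succ i) φ φ' n ∧ Step (le_succ i) φ φ' n)
    (hlim : ∀ δ, IsSuccLimit δ → ∀ (A : Iio δ → NO T) (φ : ∀ i : Iio δ, Dt i (A i))
      (t : ∀ i j : Iio δ, i ≤ j → NT (A i) (A j)) (B : NO T) (u : ∀ i, NT (A i) B),
      (∀ (i j : Iio δ) (h : i ≤ j), Hom (i := i) (j := j) h (φ i) (φ j) (t i j h)) →
      (∀ i j h a x, (u j).app a ((t i j h).app a x) = (u i).app a x) →
      (∀ a y, ∃ i x, (u i).app a x = y) →
      ∃ ψ : Dt δ B, ∀ i : Iio δ, Hom (le_of_lt i.2) (φ i) ψ (u i)) :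
    ∃ (L : NO T) (d : NCh Λ L) (φ : ∀ i, Dt i (d.Q i)),
      (∀ i j (h : i ≤ j), Hom h (φ i) (φ j) (d.tr h)) ∧
      ∀ i, Step (le_succ i) (φ i) (φ (succ i)) (d.tr (le_succ i)) := by
  have key : ∀ (S : Σ i, Σ L, Dt i L) (a : Λ), S.1 = a → ∃ g, S = ⟨a, g⟩ := by
    rintro ⟨i, g⟩ _ rfl; exact ⟨g, rfl⟩
  obtain ⟨F, t, -, h1, h2, -, h4, h5, h6⟩ := gchain1 (Λ := Λ) (St := Σ i, Σ L, Dt i L)
    (ι := T.Obj) (fun S a => (S.2.1.ob a).car)
    (fun S S' t => ∃ (h : S.1 ≤ S'.1) (n : NT S.2.1 S'.2.1), (∀ a x, n.app a x = t a x) ∧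
      Hom h S.2.2 S'.2.2 n)
    (fun S => ⟨le_rfl, NT.rfl' _, fun _ _ => rfl, hid _ _ _⟩)
    (by
      rintro S S' S'' f g ⟨h, n, k1, k2⟩ ⟨h', n', k3, k4⟩
      exact ⟨h.trans h', n.trans n', fun a x => (k3 a _).trans (congrArg (g a) (k1 a x)),
        hcomp h h' _ _ _ n n' k2 k4⟩)
    (fun i S => S.1 = i)
    (fun _ S S' t => ∀ (h : S.1 ≤ S'.1) (n : NT S.2.1 S'.2.1), (∀ a x, n.app a x = t a x) →
      Step h S.2.2 S'.2.2 n)
    ⟨⊥, L0, φ0⟩ rfl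
    (by
      rintro _ ⟨i, L, φ⟩ rfl
      obtain ⟨L', φ', n, k1, k2⟩ := hstep i L φ
      refine ⟨⟨succ i, L', φ'⟩, fun a x => n.app a x, ⟨le_succ i, n, fun _ _ => rfl, k1⟩, rfl,
        fun h n' e => ?_⟩
      obtain rfl : n' = n := NT.ext' e
      exact k2)
    (by
      rintro δ hδ ⟨F, t, hom, ti, tc⟩ hc -
      dsimp only at hc ⊢
      choose G hG using fun a => key (F a) a (hc a)
      obtain rfl : F = fun a => ⟨a.1, G a⟩ := funext hG
      choose hs n k1 k2 using hom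
      obtain ⟨B, u, k3, k4⟩ := Fu.colim (Iio δ) (fun a => (G a).1) n
        fun i j k hij hjk a x => by rw [k1, k1, k1, tc]
      obtain ⟨ψ, hψ⟩ := hlim δ hδ (fun a => (G a).1) (fun a => (G a).2) n B u k2 k3 k4
      exact ⟨⟨δ, B, ψ⟩, fun i a x => (u i).app a x, rfl,
        fun i => ⟨le_of_lt i.2, u i, fun _ _ => rfl, hψ i⟩,
        fun i j h a x => by rw [← k1]; exact k3 i j h a x, k4⟩)
  choose G hG using fun a => key (F a) a (h1 a)
  obtain rfl : F = fun a => ⟨a, G a⟩ := funext hG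
  choose hs n k1 k2 using h2
  obtain ⟨B, u, k3, k4⟩ := Fu.colim Λ (fun a => (G a).1) n
    fun i j k hij hjk a x => by rw [k1, k1, k1, h4]
  let d : NCh Λ B := ⟨fun a => (G a).1, u,
    fun i j h a => by rintro _ ⟨x, rfl⟩; exact ⟨_, k3 i j h a x⟩,
    fun δ hδ a y => by
      obtain ⟨i, h, x, rfl⟩ := h6 δ hδ a y
      exact ⟨i, h, x, by rw [← k1]; exact (k3 i δ h.le a x).symm⟩,
    fun a y => k4 a y⟩
  have e : ∀ i j (h : i ≤ j), d.tr h = n i j h := fun i j h =>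
    NT.ext' fun a x => ((u j).app a).inj ((d.ι_tr h a x).trans (k3 i j h a x).symm)
  refine ⟨B, d, fun a => (G a).2, fun i j h => ?_, fun i => ?_⟩
  · rw [e]; exact k2 i j h
  · rw [e]; exact h5 i _ _ (k1 i _ _)

end Pool.Agent.P.MP_860a31_lc.H
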