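import Pool.Agent.P.MP_860a31_lc.H.Std
import Pool.Agent.P.MP_860a31_lc.H.NRec

/-!
Standardisation of a chain of free steps.
-/

open Cardinal hiding univ
open Set Order Function

namespace Pool.Agent.P.MP_860a31_lc.H

open LO E Fu

namespace LocP

/-- the map out of the union of a chain of families -/
theorem liftC {T : Ct} {C : CC} {ι : Type} [LinearOrder ι] (A : ι → LF T C.toPC)
    {B D : LF T C.toPC} (t : ∀ i j, i ≤ j → Mp (A i) (A j)) (u : ∀ i, Mp (A i) B)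
    (g : ∀ i, Mp (A i) D) (hu : ∀ i j h a x, u j a (t i j h a x) = u i a x)
    (hg : ∀ i j h a x, g j a (t i j h a x) = g i a x) (hs : ∀ a y, ∃ i x, u i a x = y) :
    ∃ k : Mp B D, ∀ i a x, k a (u i a x) = g i a x := by
  refine Mp.lift A u g (fun a i j => ⟨max i j, ?_, ?_⟩) hs fun a i j x y e => ?_
  · rintro _ ⟨x, rfl⟩; exact ⟨_, hu _ _ (le_max_left i j) a x⟩
  · rintro _ ⟨x, rfl⟩; exact ⟨_, hu _ _ (le_max_right i j) a x⟩
  · rw [← hg i _ (le_max_left i j), ← hg j _ (le_max_right i j)]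
    exact congrArg _ ((u _).inj a (by rw [hu, hu, e]))

variable {Λ : Type} [LinearOrder Λ]

theorem tr_self {T : Ct} {top : NO T} (c : NCh Λ top) (i : Λ) (a : T.Obj) (y : (c.Q i).ob a) :
    (c.tr (le_refl i)).app a y = y := ((c.ι i).app a).inj (c.ι_tr _ a y)

/-- a limit stage of a chain of standard families is covered by the earlier stages -/
theorem cov [Nonempty Λ] {T : Ct} {C : PC} {top : NO T} (c : NCh Λ top) (P : LF L1 C) {δ : Λ}
    (hδ : IsSuccLimit δ) (a : T.Obj) (y : C.U (P.ob ((c.Q δ).ob a))) :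
    ∃ (i : Iio δ) (x : C.U (P.ob ((c.Q i).ob a))), P.mp ((c.tr (le_of_lt i.2)).app a) x = y := by
  obtain ⟨i, h, x, e⟩ := (c.fam P).cont δ hδ a y
  exact ⟨⟨i, h⟩, x, P.inj ((c.ι δ).app a) ((P.mp_eq (fun z => c.ι_tr h.le a z) x).trans e)⟩

/-- the chain of the orders `MM` -/
abbrev mmC [Nonempty Λ] {I : NO L1} (c : NCh Λ I) : NCh Λ (MM I) :=
  c.add (NCh.cst Λ (tau.add tau))

theorem mmC_ι [Nonempty Λ] {I : NO L1} (c : NCh Λ I) (i : Λ) : (mmC c).ι i = mmap' (c.ι i) := rfl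

theorem mmC_tr [Nonempty Λ] {I : NO L1} (c : NCh Λ I) {i j : Λ} (h : i ≤ j) :
    (mmC c).tr h = mmap' (c.tr h) :=
  NT.ext' fun a y => (((mmC c).ι j).app a).inj (((mmC c).ι_tr h a y).trans (by
    induction y using add_ind with
    | l y => exact congrArg inl (c.ι_tr h a y).symm
    | r y => rfl))

/-- the chain of the orders `Q1` -/
abbrev q1C [Nonempty Λ] {I L : NO L1} (c : NCh Λ I) (d : NCh Λ L) : NCh Λ (Q1 I L) :=
  c.add ((NCh.cst Λ tau).add (d.add (NCh.cst Λ tau)))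

theorem q1C_ι [Nonempty Λ] {I L : NO L1} (c : NCh Λ I) (d : NCh Λ L) (i : Λ) :
    (q1C c d).ι i = q1map (c.ι i) (d.ι i) := rfl

theorem q1_comp {I I' I'' L L' L'' : NO L1} {n : NT I I'} {n' : NT I' I''} {n'' : NT I I''}
    {m : NT L L'} {m' : NT L' L''} {m'' : NT L L''} {a : LO}
    (hn : ∀ y, n'.app a (n.app a y) = n''.app a y) (hm : ∀ y, m'.app a (m.app a y) = m''.app a y)
    (y : (Q1 I L).ob a) :
    (q1map n' m').app a ((q1map n m).app a y) = (q1map n'' m'').app a y := by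
  induction y using add_ind with
  | l y => exact congrArg inl (hn y)
  | r y =>
    induction y using add_ind with
    | l y => rfl
    | r y =>
      induction y using add_ind with
      | l y => exact congrArg (fun w => inr (inr (inl w))) (hm y)
      | r y => rfl

theorem q1C_tr [Nonempty Λ] {I L : NO L1} (c : NCh Λ I) (d : NCh Λ L) {i j : Λ} (h : i ≤ j) :
    (q1C c d).tr h = q1map (c.tr h) (d.tr h) :=
  NT.ext' fun a y => (((q1C c d).ι j).app a).inj (((q1C c d).ι_tr h a y).trans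
    (q1_comp (c.ι_tr h a) (d.ι_tr h a) y).symm)

theorem q1_mq {I I' L L' : NO L1} (n : NT I I') (m : NT L L') (a : LO) (y : (MM I).ob a) :
    (q1map n m).app a ((mq I L).app a y) = (mq I' L').app a ((mmap' n).app a y) := by
  induction y using add_ind with
  | l y => rfl
  | r y => induction y using add_ind <;> rfl

variable {K : KC} {S : PS K} {ν : Cardinal.{0}}

/-- absorption between the two copies of the variable -/
theorem cut0 (hν : K.k0 ≤ ν) (hU : UU S ν) {I : NO L1} (hI : I.PB) (lI : I.Lev ν)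
    {D : LF L1 K.toPC} (lD : D.Lev ν) (φ : Mp (S.P.wh (MM I)) D) :
    ∃ (L : NO L1) (ψ : Mp D (S.P.wh (Q1 I L))), L.PB ∧ L.Lev ν ∧
      ∀ a x, ψ a (φ a x) = S.P.mp ((mq I L).app a) x := by
  have h0 := K.inf.trans hν
  obtain ⟨L, ψ, h1, h2, h3⟩ := hU.cut hν (a := I.add tau) (b := tau)
    (Fu.PB.add (Fu.PB.add hI (pb_id L1)) (pb_id L1)) ((S.P.nt (NT.asr I tau tau)).trans φ)
    ((lI.add h0 (lev_id h0 L1)).add h0 (lev_id h0 L1)) lD
  refine ⟨L, ψ.trans (S.P.nt (NT.asr I tau (L.add tau))), h1, h2, fun a x => ?_⟩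
  have e : S.P.mp ((NT.asr I tau tau).app a) (S.P.mp ((NT.asl I tau tau).app a) x) = x :=
    (S.P.mp_comp _ _ x).trans (S.P.mp_self (fun y => by
      induction y using add_ind with
      | l y => rfl
      | r y => induction y using add_ind <;> rfl) x)
  refine (congrArg (fun w => S.P.mp _ (ψ a (φ a w))) e.symm).trans
    ((congrArg _ (h3 a _)).trans ((congrArg _ (S.P.mp_comp _ _ x)).trans
      (S.P.mp_eq (fun y => ?_) x)))
  induction y using add_ind with
  | l y => rfl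
  | r y => induction y using add_ind <;> rfl

/-- absorption on top of the middle block -/
theorem cut1 (hν : K.k0 ≤ ν) (hU : UU S ν) {I L : NO L1} (hI : I.PB) (lI : I.Lev ν) (hL : L.PB)
    (lL : L.Lev ν) {D : LF L1 K.toPC} (lD : D.Lev ν) (φ : Mp (S.P.wh (Q1 I L)) D) :
    ∃ (J : NO L1) (ψ : Mp D (S.P.wh (Q1 I (L.add J)))), J.PB ∧ J.Lev ν ∧
      ∀ a x, ψ a (φ a x) = S.P.mp ((q1map (NT.rfl' I) (NT.inl L J)).app a) x := by
  have h0 := K.inf.trans hν
  let r : NT ((I.add (tau.add L)).add tau) (Q1 I L) :=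
    (NT.asr I (tau.add L) tau).trans ((NT.rfl' I).add (NT.asr tau L tau))
  let r' : NT (Q1 I L) ((I.add (tau.add L)).add tau) :=
    ((NT.rfl' I).add (NT.asl tau L tau)).trans (NT.asl I (tau.add L) tau)
  obtain ⟨J, ψ, h1, h2, h3⟩ := hU.cut hν (a := I.add (tau.add L)) (b := tau)
    (Fu.PB.add (Fu.PB.add hI (Fu.PB.add (pb_id L1) hL)) (pb_id L1)) ((S.P.nt r).trans φ)
    ((lI.add h0 ((lev_id h0 L1).add h0 lL)).add h0 (lev_id h0 L1)) lD
  let r2 : NT ((I.add (tau.add L)).add (J.add tau)) (Q1 I (L.add J)) :=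
    (NT.asr I (tau.add L) (J.add tau)).trans ((NT.rfl' I).add
      ((NT.asr tau L (J.add tau)).trans ((NT.rfl' tau).add (NT.asl L J tau))))
  refine ⟨J, ψ.trans (S.P.nt r2), h1, h2, fun a x => ?_⟩
  have e : S.P.mp (r.app a) (S.P.mp (r'.app a) x) = x :=
    (S.P.mp_comp _ _ x).trans (S.P.mp_self (fun y => by
      induction y using add_ind with
      | l y => rfl
      | r y =>
        induction y using add_ind with
        | l y => rfl
        | r y => induction y using add_ind <;> rfl) x)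
  refine (congrArg (fun w => S.P.mp _ (ψ a (φ a w))) e.symm).trans
    ((congrArg _ (h3 a _)).trans ((congrArg _ (S.P.mp_comp _ _ x)).trans
      (S.P.mp_eq (fun y => ?_) x)))
  induction y using add_ind with
  | l y => rfl
  | r y =>
    induction y using add_ind with
    | l y => rfl
    | r y => induction y using add_ind <;> rfl

/-- adding points to the first block and to the middle block is free -/
theorem stdQ (S : PS K) {I I' L : NO L1} (hI : I.PB) (hI' : I'.PB) (n : NT I I') :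
    NF (S.P.nt (mq I L)) (S.P.nt (mmap' n)) (S.P.nt (q1map n (NT.rfl' L))) (S.P.nt (mq I' L)) := by
  refine std S (pb_MM hI) (pb_MM hI') (mη I) _ _ _ _ (q1_mq n _) fun a y h => ?_
  induction y using add_ind with
  | l y => exact ⟨inl y, rfl⟩
  | r y =>
    induction y using add_ind with
    | l y => exact ⟨inr (inl y), rfl⟩
    | r y =>
      induction y using add_ind with
      | r y => exact ⟨inr (inr y), rfl⟩
      | l y =>
        obtain ⟨z, e⟩ := h
        induction z using add_ind with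
        | l z => exact absurd e (inl_ne_inr _ _)
        | r z =>
          induction z using add_ind with
          | l z => exact absurd (inr.inj e) (inl_ne_inr _ _)
          | r z => exact absurd (inr.inj (inr.inj e)) (inr_ne_inl _ _)

/-- the successor step -/
theorem step (hν : K.k0 ≤ ν) (hU : UU S ν) {I I' H H' L : NO L1} (hI : I.PB) (hI' : I'.PB)
    (hH : H.PB) (η : NT tau H) (lI : I.Lev ν) (lI' : I'.Lev ν) (lH : H.Lev ν) (lH' : H'.Lev ν)
    (hL : L.PB) (lL : L.Lev ν) (n : NT I I') (m : NT H H')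
    {f : Mp (S.P.wh (MM I)) (S.P.wh H)} {f' : Mp (S.P.wh (MM I')) (S.P.wh H')}
    (hN : NF f (S.P.nt (mmap' n)) (S.P.nt m) f') (φ : Mp (S.P.wh H) (S.P.wh (Q1 I L)))
    (hφ : ∀ a x, φ a (f a x) = S.P.mp ((mq I L).app a) x) :
    ∃ (J : NO L1) (φ' : Mp (S.P.wh H') (S.P.wh (Q1 I' (L.add J)))), J.PB ∧ J.Lev ν ∧
      (∀ a x, φ' a (f' a x) = S.P.mp ((mq I' (L.add J)).app a) x) ∧
      NF φ (S.P.nt m) (S.P.nt (q1map n (NT.inl L J))) φ' := by
  have h0 := K.inf.trans hν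
  have lP := S.lev.mono hν
  have lQ := lP.wh h0 (lev_Q1 h0 lI lL)
  obtain ⟨A, e, k, lA, h1⟩ := NF.ex_small hν (hU.be hH η φ lH lQ) (te_std S hH η m) lQ
    (lP.wh h0 lH')
  have h2 := (hN.tr2' h1).congr (i' := S.P.nt (mq I L)) hφ (fun _ _ => rfl) (fun _ _ => rfl)
    fun _ _ => rfl
  obtain ⟨Z, u, v, lZ, h3⟩ := (h2.uq0 (stdQ S hI hI' n)).small K.code hν lA
    (lP.wh h0 (lev_Q1 h0 lI' lL))
  obtain ⟨J, ψ, h4, h5, h6⟩ := cut1 hν hU hI' lI' hL lL lZ v
  refine ⟨J, k.trans (u.trans ψ), h4, h5, fun a x => ?_,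
    h1.push (u.trans ψ) (fun a x => ?_) fun _ _ => rfl⟩
  · refine (congrArg (ψ a) (h3 a _ _ (Or.inl ⟨x, rfl, rfl⟩))).trans ((h6 a _).trans
      (S.P.mp_eq (fun y => ?_) x))
    induction y using add_ind with
    | l y => rfl
    | r y => induction y using add_ind <;> rfl
  · exact (congrArg (ψ a) (h3 a _ _ (Or.inr ⟨x, rfl, rfl⟩))).trans ((h6 a _).trans
      (S.P.mp_eq (q1_comp (fun _ => rfl) fun _ => rfl) x))

end LocP

open LocP in
/-- paper LOC, step 1 -/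
theorem loc1 {K : KC} {S : PS K} {ν : Cardinal.{0}} (hν : K.k0 ≤ ν) (hU : UU S ν) {Λ : Type}
    [LinearOrder Λ] [WellFoundedLT Λ] [SuccOrder Λ] [OrderBot Λ] [NoMaxOrder Λ] (hΛ : #Λ ≤ ν)
    {I H : NO L1} (c : NCh Λ I) (g : NCh Λ H) (hc : ∀ i, (c.Q i).PB) (hg : ∀ i, (g.Q i).PB)
    (η : ∀ i, NT tau (g.Q i)) (lI : I.Lev ν) (lH : H.Lev ν)
    (f : ∀ i, Mp (S.P.wh (MM (c.Q i))) (S.P.wh (g.Q i))) (F : Mp (S.P.wh (MM I)) (S.P.wh H))
    (hf : ∀ i a x, S.P.mp ((g.ι i).app a) (f i a x) = F a (S.P.mp ((mmap' (c.ι i)).app a) x))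
    (hN : ∀ i, NF (f i) (S.P.nt (mmap' (c.tr (le_succ i)))) (S.P.nt (g.tr (le_succ i)))
      (f (succ i))) :
    ∃ (L : NO L1) (d : NCh Λ L) (φ : ∀ i, Mp (S.P.wh (g.Q i)) (S.P.wh (Q1 (c.Q i) (d.Q i))))
      (Φ : Mp (S.P.wh H) (S.P.wh (Q1 I L))), (∀ i, (d.Q i).PB) ∧ L.Lev ν ∧
      (∀ i a x, φ i a (f i a x) = S.P.mp ((mq (c.Q i) (d.Q i)).app a) x) ∧
      (∀ i a x, S.P.mp ((q1map (c.ι i) (d.ι i)).app a) (φ i a x) =
        Φ a (S.P.mp ((g.ι i).app a) x)) ∧
      ∀ i, NF (φ i) (S.P.nt (g.tr (le_succ i)))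
        (S.P.nt (q1map (c.tr (le_succ i)) (d.tr (le_succ i)))) (φ (succ i)) := by
  have h0 := K.inf.trans hν
  have lc : ∀ i, (c.Q i).Lev ν := fun i => Fu.Lev.of_nt (c.ι i) lI
  have lg : ∀ i, (g.Q i).Lev ν := fun i => Fu.Lev.of_nt (g.ι i) lH
  have hf' : ∀ i j (h : i ≤ j) a x, S.P.mp ((g.tr h).app a) (f i a x) =
      f j a (S.P.mp ((mmap' (c.tr h)).app a) x) := fun i j h a x =>
    S.P.inj ((g.ι j).app a) ((S.P.mp_eq (g.ι_tr h a) _).trans ((hf i a x).trans
      ((congrArg (F a) (S.P.mp_eq (fun y => by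
        induction y using add_ind with
        | l y => exact congrArg inl (c.ι_tr h a y)
        | r y => rfl) x).symm).trans (hf j a _).symm)))
  obtain ⟨L0, φ0, k1, k2, k3⟩ := cut0 hν hU (hc ⊥) (lc ⊥) ((S.lev.mono hν).wh h0 (lg ⊥)) (f ⊥)
  obtain ⟨L, d, φ, h1, h2⟩ := nrecD (Λ := Λ)
    (fun i L => {φ : Mp (S.P.wh (g.Q i)) (S.P.wh (Q1 (c.Q i) L)) // L.PB ∧ L.Lev ν ∧
      ∀ a x, φ a (f i a x) = S.P.mp ((mq (c.Q i) L).app a) x})
    (fun h _ _ φ φ' n => ∀ a x, φ'.1 a (S.P.mp ((g.tr h).app a) x) =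
      S.P.mp ((q1map (c.tr h) n).app a) (φ.1 a x))
    (fun h _ _ φ φ' n => NF φ.1 (S.P.nt (g.tr h)) (S.P.nt (q1map (c.tr h) n)) φ'.1)
    (fun i L φ a x => (congrArg (φ.1 a) (S.P.mp_self (tr_self g i a) x)).trans
      (S.P.mp_self (fun y => by
        induction y using add_ind with
        | l y => exact congrArg inl (tr_self c i a y)
        | r y =>
          induction y using add_ind with
          | l y => rfl
          | r y => induction y using add_ind <;> rfl) _).symm)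
    (fun h h' _ _ _ φ φ' φ'' n n' k k' a x =>
      (congrArg (φ''.1 a) (S.P.mp_eq (g.tr_tr h h' a) x).symm).trans ((k' a _).trans
        ((congrArg _ (k a x)).trans (S.P.mp_eq (q1_comp (c.tr_tr h h' a) fun _ => rfl) _))))
    L0 ⟨φ0, k1, k2, k3⟩
    (by
      rintro i L ⟨φ, k1, k2, k3⟩
      obtain ⟨J, φ', k4, k5, k6, k7⟩ := step hν hU (hc i) (hc (succ i)) (hg i) (η i) (lc i)
        (lc (succ i)) (lg i) (lg (succ i)) k1 k2 _ _ (hN i) φ k3
      exact ⟨L.add J, ⟨φ', k1.add k4, k2.add h0 k5, k6⟩, NT.inl L J,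
        fun a x => (k7.comm a x).symm, k7⟩)
    (by
      intro δ hδ A φ t B u k1 k2 k3
      obtain ⟨ψ, hψ⟩ := liftC (fun i : Iio δ => S.P.wh (g.Q i))
        (fun i j h => S.P.nt (g.tr (show i.1 ≤ j.1 from h)))
        (fun i => S.P.nt (g.tr (le_of_lt i.2)))
        (fun i => (φ i).1.trans (S.P.nt (q1map (c.tr (le_of_lt i.2)) (u i))))
        (fun i j h a x => S.P.mp_eq (g.tr_tr _ _ a) x)
        (fun i j h a x => (congrArg _ (k1 i j h a x)).trans
          (S.P.mp_eq (q1_comp (c.tr_tr _ _ a) (k2 i j h a)) _)) (cov g S.P hδ)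
      refine ⟨⟨ψ, Fu.pb_cover A u k3 (fun i j => ⟨max i j, fun a => ⟨?_, ?_⟩⟩) fun i => (φ i).2.1,
        Fu.lev_cover A u k3 h0 ((mk_set_le _).trans hΛ) fun i => (φ i).2.2.1, fun a x => ?_⟩, hψ⟩
      · rintro _ ⟨x, rfl⟩; exact ⟨_, k2 _ _ (le_max_left i j) a x⟩
      · rintro _ ⟨x, rfl⟩; exact ⟨_, k2 _ _ (le_max_right i j) a x⟩
      · obtain ⟨i, x, rfl⟩ := cov (mmC c) S.P hδ a x
        rw [mmC_tr]
        exact (congrArg (ψ a) (hf' i δ _ a x).symm).trans ((hψ i a _).trans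
          ((congrArg _ ((φ i).2.2.2 a x)).trans (S.P.mp_sq (q1_mq _ _ a) x))))
  obtain ⟨Φ, hΦ⟩ := liftC (fun i => S.P.wh (g.Q i)) (fun i j h => S.P.nt (g.tr h))
    (fun i => S.P.nt (g.ι i)) (fun i => (φ i).1.trans (S.P.nt (q1map (c.ι i) (d.ι i))))
    (fun i j h a x => S.P.mp_eq (g.ι_tr h a) x)
    (fun i j h a x => (congrArg _ (h1 i j h a x)).trans
      (S.P.mp_eq (q1_comp (c.ι_tr h a) (d.ι_tr h a)) _)) (g.fam S.P).cover
  exact ⟨L, d, fun i => (φ i).1, Φ, fun i => (φ i).2.1,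
    Fu.lev_cover d.Q d.ι d.cover h0 hΛ fun i => (φ i).2.2.1, fun i => (φ i).2.2.2,
    fun i a x => (hΦ i a x).symm, h2⟩

end Pool.Agent.P.MP_860a31_lc.H
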