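import Pool.Agent.P.MP_860a31_lc.H.Df
import Pool.Agent.P.MP_860a31_lc.E.Nat
import Pool.Agent.P.MP_860a31_lc.E.Unif
import Pool.Agent.P.MP_860a31_lc.E.FamMorley

/-!
Joint embeddings of families from joint embeddings of their values on large diagonal contexts;
amalgamation and joint embedding for families.
-/

open Cardinal hiding univ
open Set Order Function

namespace Pool.Agent.P.MP_860a31_lc.H

open LO E Fu

theorem Em.ref {z : LO} {m n : ℕ} (s : Em (LO.fin m) z) (s' : Em (LO.fin n) z) :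
    ∃ (k : ℕ) (t : Em (LO.fin k) z) (a : Em (LO.fin m) (LO.fin k)) (a' : Em (LO.fin n) (LO.fin k)),
      a.trans t = s ∧ a'.trans t = s' := by
  obtain ⟨k, t, a, a', h, h'⟩ := exists_ref s.oe s'.oe
  exact ⟨k, Em.of t, Em.of a, Em.of a', Em.ext fun x => DFunLike.congr_fun h x,
    Em.ext fun x => DFunLike.congr_fun h' x⟩

theorem card_em (z : LO) : #(Σ n, Em (LO.fin n) z) ≤ #z + ℵ₀ := by
  refine (mk_le_of_injective (f := fun p : Σ n, Em (LO.fin n) z =>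
    (⟨p.1, p.2.oe⟩ : Σ n, Fin n ↪o z.car)) ?_).trans (card_emb z)
  rintro ⟨n, s⟩ ⟨m, t⟩ h
  obtain rfl : n = m := congrArg Sigma.fst h
  have : s.oe = t.oe := sigma_mk_injective (β := fun n => Fin n ↪o z.car) h
  rw [Em.ext (f := s) (g := t) fun x => DFunLike.congr_fun this x]

namespace LF

variable {T : Ct}

section PCpart

variable {C : PC}

theorem fin1 (X : LF L1 C) (z : LO) (y : C.U (X.ob z)) :
    ∃ (n : ℕ) (s : Em (LO.fin n) z) (x : C.U (X.ob (LO.fin n))), X.mp s x = y := by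
  obtain ⟨a, h, y0, ha, rfl⟩ := X.fin z y
  obtain ⟨n, e, e', h1, -⟩ := exists_fin a
  exact ⟨n, e'.trans h, X.mp e y0, X.mp_eq (f := e) (g := e'.trans h) (fun x => congrArg h (h1 x)) y0⟩

/-- the underlying functor on the finite orders -/
@[reducible] def fam (X : LF L1 C) : Fam C where
  ob n := X.ob (LO.fin n)
  mp a := X.mp (Em.of a)
  hom _ := X.hom _
  mp_id _ x := X.mp_self (fun _ => rfl) x
  mp_comp _ _ x := X.mp_eq (fun _ => rfl) x

theorem card_le1 (X : LF L1 C) {ν : Cardinal.{0}} (hν : ℵ₀ ≤ ν) (h : X.Lev ν) (z : LO)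
    (hz : #z ≤ ν) : #(C.U (X.ob z)) ≤ ν :=
  card_cover (ι := Σ n, Em (LO.fin n) z) (fun p => X.mp p.2)
    (fun y => by obtain ⟨n, s, x, e⟩ := X.fin1 z y; exact ⟨⟨n, s⟩, x, e⟩) hν
    ((card_em z).trans (add_le_of_le hν hz hν)) fun p => h _ inferInstance

theorem Lev.mono {X : LF T C} {ν ν' : Cardinal.{0}} (h : X.Lev ν) (e : ν ≤ ν') : X.Lev ν' :=
  fun a ha => (h a ha).trans e

theorem Lev.xi {X : LF T C} {ν : Cardinal.{0}} (h : X.Lev ν) : (X.wh (xiF T)).Lev ν :=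
  fun z hz => h _ (T.xi_fin z hz)

/-- the size of a value -/
theorem card_le (X : LF T C) {ν : Cardinal.{0}} (hν : ℵ₀ ≤ ν) (h : X.Lev ν) (a : T.Obj)
    (ha : #(T.U a) ≤ ν) : #(C.U (X.ob a)) ≤ ν :=
  (PC.card_le (X.hom (T.eta a))).trans ((X.wh (xiF T)).card_le1 hν h.xi _ ha)

/-- every family has a level -/
theorem exists_lev (X : LF T C) : ∃ ν, X.Lev ν := by
  refine ⟨#(Σ n, C.U (X.ob (T.Xi (LO.fin n)))), fun a ha => ?_⟩
  obtain ⟨n, e, -⟩ := exists_fin (T.U a)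
  exact ((PC.card_le (X.hom (T.eta a))).trans (PC.card_le (X.hom (T.xm e)))).trans
    (mk_le_of_injective (sigma_mk_injective (β := fun n => C.U (X.ob (T.Xi (LO.fin n)))) (i := n)))

theorem exists_lev2 (X Y : LF T C) : ∃ ν, C.k0 ≤ ν ∧ X.Lev ν ∧ Y.Lev ν := by
  obtain ⟨ν, h⟩ := X.exists_lev
  obtain ⟨ν', h'⟩ := Y.exists_lev
  exact ⟨max C.k0 (max ν ν'), le_max_left _ _,
    h.mono ((le_max_left _ _).trans (le_max_right _ _)),
    h'.mono ((le_max_right _ _).trans (le_max_right _ _))⟩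

end PCpart

variable {C : CC}

/-- the universal property of a value -/
theorem lift1 (X : LF L1 C.toPC) (z : LO) {D : C.Obj}
    (g : ∀ n, Em (LO.fin n) z → C.U (X.ob (LO.fin n)) → C.U D) (hg : ∀ n s, C.IsH (g n s))
    (hn : ∀ m n (a : Em (LO.fin m) (LO.fin n)) (s : Em (LO.fin n) z) x,
      g n s (X.mp a x) = g m (a.trans s) x) :
    ∃ k : C.U (X.ob z) → C.U D, C.IsH k ∧ ∀ n (s : Em (LO.fin n) z) x, k (X.mp s x) = g n s x := by
  obtain ⟨k, h1, h2⟩ := CC.lift (ι := Σ n, Em (LO.fin n) z) (fun p => X.ob (LO.fin p.1))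
    (fun p => X.mp p.2) (fun p => g p.1 p.2) (fun p => X.hom _) (fun p => hg _ _) (fun p q => by
      obtain ⟨k, t, a, a', ha, ha'⟩ := Em.ref p.2 q.2
      refine ⟨⟨k, t⟩, ?_, ?_⟩
      · rintro _ ⟨x, rfl⟩; exact ⟨X.mp a x, by rw [X.mp_comp, L1_comp, ha]⟩
      · rintro _ ⟨x, rfl⟩; exact ⟨X.mp a' x, by rw [X.mp_comp, L1_comp, ha']⟩)
    (fun y => by obtain ⟨n, s, x, h⟩ := X.fin1 z y; exact ⟨⟨n, s⟩, x, h⟩) (fun p q x y h => by
      obtain ⟨k, t, a, a', ha, ha'⟩ := Em.ref p.2 q.2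
      have h' : X.mp t (X.mp a x) = X.mp t (X.mp a' y) := by
        rw [X.mp_comp, X.mp_comp, L1_comp, L1_comp, ha, ha', h]
      rw [← ha, ← ha', ← hn, ← hn, X.inj t h'])
  exact ⟨k, h1, fun n s x => h2 ⟨n, s⟩ x⟩

/-- the family of values of a functor on the finite orders -/
@[reducible] noncomputable def ofFam (P : Fam C.toPC) : LF L1 C.toPC where
  ob a := P.ev a.car
  mp f := P.evmap (Em.oe f)
  hom _ := Fam.evmap_h _
  mp_id a y := by
    obtain ⟨k, t, x, rfl⟩ := Fam.evi_surj y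
    rw [Fam.evmap_evi]
    congr 1
  mp_comp f g y := by
    rw [Fam.evmap_evmap]
    congr 1
  fin a y := by
    obtain ⟨k, t, x, rfl⟩ := Fam.evi_surj y
    refine ⟨LO.fin k, Em.of t, P.evi (RelEmbedding.refl _) x, inferInstance, ?_⟩
    rw [Fam.evmap_evi]
    congr 1

theorem ofFam_evi (P : Fam C.toPC) {a b : LO} (f : Em a b) {n : ℕ} (s : Em (LO.fin n) a)
    (x : C.U (P.ob n)) : (ofFam P).mp f (P.evi s.oe x) = P.evi (s.trans f).oe x :=
  (Fam.evmap_evi _ _ x).trans (by congr 1)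

theorem ofFam_lev (P : Fam C.toPC) {ν : Cardinal.{0}} (hν : ℵ₀ ≤ ν)
    (h : ∀ n, #(C.U (P.ob n)) ≤ ν) : (ofFam P).Lev ν := fun a _ =>
  P.card_ev_le a.car hν ((lt_aleph0_of_finite _).le.trans hν) h

/-- a natural family on finite orders extends to a map of families -/
theorem to_ofFam (X : LF L1 C.toPC) (Q : Fam C.toPC)
    (φ : ∀ n, C.U (X.ob (LO.fin n)) → C.U (Q.ob n)) (h : Fam.Nt X.fam Q φ) :
    ∃ k : Mp X (ofFam Q), ∀ z n (s : Em (LO.fin n) z) x, k z (X.mp s x) = Q.evi s.oe (φ n x) := by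
  choose k h1 h2 using fun z => X.lift1 z (fun n s x => Q.evi s.oe (φ n x))
    (fun n s => C.comp (h.hom n) (Fam.evi_h _)) fun m n a s x => by
      have := h.nat a.oe x
      change φ n (X.mp a x) = _ at this
      rw [this, Fam.evi_mp]
      congr 1
  refine ⟨⟨k, h1, fun {a b} f y => ?_⟩, h2⟩
  obtain ⟨n, s, x, rfl⟩ := X.fin1 a y
  rw [X.mp_comp, h2, h2, ofFam_evi, L1_comp]

/-- the comparison map from the values of the underlying functor -/
theorem from_ev (X : LF L1 C.toPC) (z : LO) : ∃ k : C.U (X.fam.ev z.car) → C.U (X.ob z),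
    C.IsH k ∧ ∀ n (s : Fin n ↪o z.car) x, k (X.fam.evi s x) = X.mp (Em.of s) x :=
  Fam.ev_lift (P := X.fam) (fun _ s => X.mp (Em.of s)) (fun _ _ => X.hom _)
    fun _ _ x => X.mp_eq (fun _ => rfl) x

end LF

section Nat

variable {T : Ct} {C : CC} {X Y : LF T C.toPC} {R : Rl X Y}

/-- joint embeddings of the values on large diagonal contexts give a joint embedding -/
theorem El.nat (hC : C.HasCode) {ν : Cardinal.{0}} (hν : C.k0 ≤ ν) (hX : X.Lev ν) (hY : Y.Lev ν)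
    (hR : Gd R) (H : ∀ θ < hanf ν, ∃ z : LO, θ ≤ #z ∧
      C.El (X.ob (T.Xi z)) (Y.ob (T.Xi z)) (R (T.Xi z))) :
    ∃ (Z : LF T C.toPC) (f : Mp X Z) (g : Mp Y Z), Z.Lev ν ∧
      ∀ a x y, R a x y → f a x = g a y := by
  obtain ⟨Q, φ, φ', h1, h2, h3, h4⟩ := E.nat (unif famMorley) C hC ν hν (X.wh (xiF T)).fam
    (Y.wh (xiF T)).fam (fun n => R (T.Xi (LO.fin n))) (fun n => hX.xi _ inferInstance)
    (fun n => hY.xi _ inferInstance) fun θ hθ => by
      obtain ⟨z, hz, e⟩ := H θ hθ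
      obtain ⟨k, k1, k2⟩ := (X.wh (xiF T)).from_ev z
      obtain ⟨k', k1', k2'⟩ := (Y.wh (xiF T)).from_ev z
      refine ⟨z.car, inferInstance, hz, e.pull k1 k1' ?_⟩
      rintro _ _ ⟨n, s, x, x', r, rfl, rfl⟩
      rw [k2, k2']
      exact hR.nat _ _ _ _ _ r
  obtain ⟨f, hf⟩ := (X.wh (xiF T)).to_ofFam Q φ h1
  obtain ⟨g, hg⟩ := (Y.wh (xiF T)).to_ofFam Q φ' h2
  have key : ∀ z x y, R (T.Xi z) x y → f z x = g z y := fun z x y r => by
    obtain ⟨a0, h, x0, y0, ha, r0, rfl, rfl⟩ := hR.fin _ _ _ r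
    obtain ⟨z0, s0, g0, hz0, rfl⟩ := (xiF T).finH h ha
    obtain ⟨n, e, e', e1, -⟩ := exists_fin z0
    have e2 : T.comp g0 (T.xm s0) = T.comp (T.comp g0 (T.xm e)) (T.xm (e'.trans s0)) := by
      rw [Ct.assoc, ← T.xm_comp]
      congr 2
      exact Em.ext fun w => (congrArg s0 (e1 w)).symm
    change f z (X.mp (T.comp g0 (T.xm s0)) x0) = g z (Y.mp (T.comp g0 (T.xm s0)) y0)
    rw [e2, ← X.mp_comp, ← Y.mp_comp]
    exact (hf z n _ _).trans ((congrArg _ (h4 n _ _ (hR.nat _ _ _ _ _ r0))).trans (hg z n _ _).symm)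
  let η : NT (idF T) ((xiF T).wh (uF T)) := ⟨T.eta, T.eta_nat⟩
  exact ⟨(LF.ofFam Q).wh (uF T), (X.un η).trans (f.wh (uF T)), (Y.un η).trans (g.wh (uF T)),
    fun a ha => LF.ofFam_lev Q (C.inf.trans hν) h3 _ ha,
    fun a x y r => key _ _ _ (hR.nat _ _ _ _ _ r)⟩

/-- pointwise joint embeddings on all contexts give a joint embedding -/
theorem El.of_ev (hC : C.HasCode) (hR : Gd R) (H : ∀ a, C.El (X.ob a) (Y.ob a) (R a)) :
    El X Y R := by
  obtain ⟨ν, h0, h1, h2⟩ := X.exists_lev2 Y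
  obtain ⟨Z, f, g, -, e⟩ := El.nat hC h0 h1 h2 hR fun θ _ =>
    ⟨LO.wo θ, by rw [W.card']; exact le_max_left _ _, H _⟩
  exact ⟨Z, f, g, e⟩

/-- the joint embedding can be taken of the same level -/
theorem El.small (hC : C.HasCode) {ν : Cardinal.{0}} (hν : C.k0 ≤ ν) (h : El X Y R)
    (hX : X.Lev ν) (hY : Y.Lev ν) : ∃ (Z : LF T C.toPC) (f : Mp X Z) (g : Mp Y Z), Z.Lev ν ∧
      ∀ a x y, R a x y → f a x = g a y := by
  obtain ⟨Z, f, g, e⟩ := h
  obtain ⟨Z', f', g', h1, h2⟩ := El.nat hC hν hX hY (Gd.eq f g) fun θ _ =>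
    ⟨LO.wo θ, by rw [W.card']; exact le_max_left _ _, _, f _, g _, f.hom _, g.hom _, fun _ _ r => r⟩
  exact ⟨Z', f', g', h1, fun a x y r => h2 a x y (e a x y r)⟩

end Nat

section AP

variable {T : Ct} {K : KC} {A X Y Z X' Y' : LF T K.toPC}

/-- amalgamation for families -/
theorem El.span (φ : Mp A X) (ψ : Mp A Y) : El X Y (GR φ ψ) :=
  El.of_ev K.code (Gd.gr φ ψ) fun a => PC.El.span (φ.hom a) (ψ.hom a)

/-- joint embedding for families -/
theorem El.empty (X Y : LF T K.toPC) : El X Y (fun _ _ _ => False) :=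
  El.of_ev K.code ⟨fun _ _ _ _ _ h => h, fun _ _ _ h => h.elim⟩ fun _ => PC.El.empty _ _

theorem El.trans {R : Rl X Y} {R' : Rl Y Z} (h : El X Y R) (h' : El Y Z R') {S : Rl X Z}
    (H : ∀ a x z, S a x z → ∃ y, R a x y ∧ R' a y z) : El X Z S := by
  obtain ⟨V, f, f', h3⟩ := h
  obtain ⟨V', g, g', k3⟩ := h'
  obtain ⟨W, p, q, hpq⟩ := El.span f' g
  refine ⟨W, f.trans p, g'.trans q, fun a x z s => ?_⟩
  obtain ⟨y, r, r'⟩ := H a x z s
  change p a (f a x) = q a (g' a z)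
  rw [h3 a x y r, hpq a _ _ (GR.mk f' g a y), k3 a y z r']

/-- pushing forward along maps on both sides -/
theorem El.push {R : Rl X Y} (k : Mp X X') (k' : Mp Y Y') (h : El X Y R) {S : Rl X' Y'}
    (H : ∀ a x' y', S a x' y' → ∃ x y, R a x y ∧ k a x = x' ∧ k' a y = y') : El X' Y' S :=
  El.trans (R := fun a x' x => x' = k a x) (El.of_hom' k fun _ _ _ h => h)
    (El.trans h (El.of_hom (R := fun a y y' => k' a y = y') k' fun _ _ _ h => h)
      (S := fun a x y' => ∃ y, R a x y ∧ k' a y = y') fun _ _ _ h => h) fun a x' y' s => by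
      obtain ⟨x, y, r, rfl, rfl⟩ := H a x' y' s
      exact ⟨x, rfl, y, r, rfl⟩

theorem El.push_left {R : Rl X Y} (k : Mp X X') (h : El X Y R) {S : Rl X' Y}
    (H : ∀ a x' y, S a x' y → ∃ x, R a x y ∧ k a x = x') : El X' Y S :=
  h.push k (Mp.rfl' Y) fun a x' y s => by
    obtain ⟨x, r, e⟩ := H a x' y s
    exact ⟨x, y, r, e, rfl⟩

theorem El.push_right {R : Rl X Y} (k : Mp Y Y') (h : El X Y R) {S : Rl X Y'}
    (H : ∀ a x y', S a x y' → ∃ y, R a x y ∧ k a y = y') : El X Y' S :=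
  h.push (Mp.rfl' X) k fun a x y' s => by
    obtain ⟨y, r, e⟩ := H a x y' s
    exact ⟨x, y, r, rfl, e⟩

/-- a small amalgam -/
theorem Mp.ap {ν : Cardinal.{0}} (hν : K.k0 ≤ ν) (φ : Mp A X) (ψ : Mp A Y) (hX : X.Lev ν)
    (hY : Y.Lev ν) : ∃ (Z : LF T K.toPC) (f : Mp X Z) (g : Mp Y Z), Z.Lev ν ∧
      ∀ a w, f a (φ a w) = g a (ψ a w) := by
  obtain ⟨Z, f, g, h1, h2⟩ := (El.span φ ψ).small K.code hν hX hY
  exact ⟨Z, f, g, h1, fun a w => h2 a _ _ (GR.mk φ ψ a w)⟩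

/-- a small joint extension -/
theorem LF.jep {ν : Cardinal.{0}} (hν : K.k0 ≤ ν) (hX : X.Lev ν) (hY : Y.Lev ν) :
    ∃ (Z : LF T K.toPC) (_ : Mp X Z) (_ : Mp Y Z), Z.Lev ν := by
  obtain ⟨Z, f, g, h1, -⟩ := (El.empty X Y).small K.code hν hX hY
  exact ⟨Z, f, g, h1⟩

end AP

end Pool.Agent.P.MP_860a31_lc.H
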