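import Pool.Agent.P.MP_860a31_lc.H.Nt

/-!
Free amalgams: canonicity, uniqueness, monotonicity, transitivity.
-/

open Cardinal hiding univ
open Set Order Function

namespace Pool.Agent.P.MP_860a31_lc.H

open LO E Fu

section PCpart

variable {C : PC} {N E N' D N1 N2 : LF L1 C}

/-- paper CAN -/
theorem can {i : Mp N E} {j : Mp N N'} {W V : NO L1} (ψ : Mp N' (N.wh (tS W)))
    (hψ : ∀ a x, ψ a (j a x) = tU N W a x) (χ : Mp E (N.wh (bS V)))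
    (hχ : ∀ a x, χ a (i a x) = bU N V a x) :
    El (E.wh (tS W)) (N'.wh (bS V))
      (RO (GR (tU E W) (χ.trans (j.wh (bS V)))) (GR (ψ.trans (i.wh (tS W))) (bU N' V))) := by
  let G : NO L1 := (V.wh (tS W)).add (tau.add (W.wh (bS V)))
  let n1 : NT ((bS V).wh (tS W)) G :=
    NT.mk' (fun a => amap (rf _) (amap (rf a) (W.mp inr))) fun a b f y => by
      induction y using add_ind with
      | l y => rfl
      | r y =>
        induction y using add_ind with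
        | l y => rfl
        | r y =>
          exact congrArg (fun w => inr (inr w))
            (W.mp_sq (f := f) (g := inr) (f' := inr) (g' := (bS V).mp f) (fun _ => rfl) y)
  let n2 : NT ((tS W).wh (bS V)) G :=
    NT.mk' (fun a => asr.trans (amap (V.mp inl) (rf _))) fun a b f y => by
      induction y using add_ind with
      | l y =>
        induction y using add_ind with
        | l y =>
          exact congrArg inl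
            (V.mp_sq (f := f) (g := inl) (f' := inl) (g' := (tS W).mp f) (fun _ => rfl) y)
        | r y => rfl
      | r y => rfl
  refine ⟨N.wh G, (χ.wh (tS W)).trans (N.nt n1), (ψ.wh (bS V)).trans (N.nt n2), ?_⟩
  rintro a _ _ (⟨x, rfl, rfl⟩ | ⟨y, rfl, rfl⟩)
  · change N.mp (n1.app a) (χ _ (E.mp inl x)) = N.mp (n2.app a) (ψ _ (j _ (χ a x)))
    rw [hψ, χ.nat]
    exact N.mp_sq (fun y => by induction y using add_ind <;> rfl) _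
  · change N.mp (n1.app a) (χ _ (i _ (ψ a y))) = N.mp (n2.app a) (ψ _ (N'.mp inr y))
    rw [hχ, ψ.nat]
    exact N.mp_sq (fun y => by induction y using add_ind <;> rfl) _

theorem TE.refl (N : LF L1 C) : TE (Mp.rfl' N) := ⟨tau, tU N tau, fun _ _ => rfl⟩

theorem BE.refl (N : LF L1 C) : BE (Mp.rfl' N) := ⟨tau, bU N tau, fun _ _ => rfl⟩

theorem TE.pre {j : Mp N N'} {N0 : LF L1 C} {j0 : Mp N N0} (h : TE j) (k : Mp N0 N')
    (hk : ∀ a x, k a (j0 a x) = j a x) : TE j0 := by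
  obtain ⟨W, ψ, hψ⟩ := h
  exact ⟨W, k.trans ψ, fun a x => (congrArg (ψ a) (hk a x)).trans (hψ a x)⟩

theorem BE.pre {i : Mp N E} {N0 : LF L1 C} {i0 : Mp N N0} (h : BE i) (k : Mp N0 E)
    (hk : ∀ a x, k a (i0 a x) = i a x) : BE i0 := by
  obtain ⟨V, χ, hχ⟩ := h
  exact ⟨V, k.trans χ, fun a x => (congrArg (χ a) (hk a x)).trans (hχ a x)⟩

/-- two top shifts are one top shift -/
@[reducible] def tAs (W0 W1 : NO L1) : NT ((tS W0).wh (tS W1)) (tS (W1.add (W0.wh (tS W1)))) :=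
  NT.asr tau W1 (W0.wh (tS W1))

/-- two bottom shifts are one bottom shift -/
@[reducible] def bAs (V0 V1 : NO L1) : NT ((bS V0).wh (bS V1)) (bS ((V0.wh (bS V1)).add V1)) :=
  NT.asl (V0.wh (bS V1)) V1 tau

theorem tAs_un (X : LF L1 C) (W0 W1 : NO L1) (a : LO) (x : C.U (X.ob a)) :
    X.mp ((tAs W0 W1).app a) (tU X W0 _ (tU X W1 a x)) = tU X (W1.add (W0.wh (tS W1))) a x :=
  (congrArg _ (X.mp_comp _ _ x)).trans (X.mp_eq (fun _ => rfl) x)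

theorem bAs_un (X : LF L1 C) (V0 V1 : NO L1) (a : LO) (x : C.U (X.ob a)) :
    X.mp ((bAs V0 V1).app a) (bU X V0 _ (bU X V1 a x)) = bU X ((V0.wh (bS V1)).add V1) a x :=
  (congrArg _ (X.mp_comp _ _ x)).trans (X.mp_eq (fun _ => rfl) x)

theorem te_comp {j0 : Mp N N1} {j1 : Mp N1 N2} {W0 W1 : NO L1} (ψ0 : Mp N1 (N.wh (tS W0)))
    (h0 : ∀ a x, ψ0 a (j0 a x) = tU N W0 a x) (ψ1 : Mp N2 (N1.wh (tS W1)))
    (h1 : ∀ a x, ψ1 a (j1 a x) = tU N1 W1 a x) (a : LO) (x : C.U (N.ob a)) :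
    N.mp ((tAs W0 W1).app a) (ψ0 _ (ψ1 a (j1 a (j0 a x)))) =
      tU N (W1.add (W0.wh (tS W1))) a x := by
  rw [h1, ← tAs_un]
  exact congrArg _ ((congrArg _ (j0.nat _ x).symm).trans (h0 _ _))

theorem be_comp {i0 : Mp N N1} {i1 : Mp N1 N2} {V0 V1 : NO L1} (χ0 : Mp N1 (N.wh (bS V0)))
    (h0 : ∀ a x, χ0 a (i0 a x) = bU N V0 a x) (χ1 : Mp N2 (N1.wh (bS V1)))
    (h1 : ∀ a x, χ1 a (i1 a x) = bU N1 V1 a x) (a : LO) (x : C.U (N.ob a)) :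
    N.mp ((bAs V0 V1).app a) (χ0 _ (χ1 a (i1 a (i0 a x)))) =
      bU N ((V0.wh (bS V1)).add V1) a x := by
  rw [h1, ← bAs_un]
  exact congrArg _ ((congrArg _ (i0.nat _ x).symm).trans (h0 _ _))

theorem TE.trans {j : Mp N N'} {N'' : LF L1 C} {j' : Mp N' N''} (h : TE j) (h' : TE j') :
    TE (j.trans j') := by
  obtain ⟨W0, ψ0, h0⟩ := h
  obtain ⟨W1, ψ1, h1⟩ := h'
  exact ⟨_, (ψ1.trans (ψ0.wh (tS W1))).trans (N.nt (tAs W0 W1)), te_comp ψ0 h0 ψ1 h1⟩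

theorem BE.trans {i : Mp N E} {E' : LF L1 C} {i' : Mp E E'} (h : BE i) (h' : BE i') :
    BE (i.trans i') := by
  obtain ⟨V0, χ0, h0⟩ := h
  obtain ⟨V1, χ1, h1⟩ := h'
  exact ⟨_, (χ1.trans (χ0.wh (bS V1))).trans (N.nt (bAs V0 V1)), be_comp χ0 h0 χ1 h1⟩

namespace NF

variable {i : Mp N E} {j : Mp N N'} {e : Mp E D} {n : Mp N' D}

theorem te (h : NF i j e n) : TE j := h.1

theorem be (h : NF i j e n) : BE i := by
  obtain ⟨-, V, χ, hχ, -⟩ := h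
  exact ⟨V, χ, hχ⟩

/-- the square commutes -/
theorem comm (h : NF i j e n) (a : LO) (x : C.U (N.ob a)) : e a (i a x) = n a (j a x) := by
  obtain ⟨-, V, χ, hχ, h⟩ := h
  refine h.func' (Or.inl ⟨i a x, rfl, rfl⟩) (Or.inr ⟨j a x, rfl, ?_⟩)
  exact (j.nat _ x).symm.trans (congrArg _ (hχ a x).symm)

/-- monotonicity in the first side -/
theorem mono_left {E0 : LF L1 C} (h : NF i j e n) {i0 : Mp N E0} (k : Mp E0 E)
    (hk : ∀ a x, k a (i0 a x) = i a x) {e0 : Mp E0 D} (he : ∀ a x, e0 a x = e a (k a x)) :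
    NF i0 j e0 n := by
  obtain ⟨h0, V, χ, hχ, h⟩ := h
  refine ⟨h0, V, k.trans χ, fun a x => (congrArg (χ a) (hk a x)).trans (hχ a x), h.mono ?_⟩
  rintro a _ _ (⟨x, rfl, rfl⟩ | r)
  · exact Or.inl ⟨k a x, (he a x).symm, rfl⟩
  · exact Or.inr r

/-- passing to a subfamily of the amalgam -/
theorem pull {D' : LF L1 C} (h : NF i j e n) (k : Mp D' D) {e' : Mp E D'} {n' : Mp N' D'}
    (he : ∀ a x, k a (e' a x) = e a x) (hn : ∀ a x, k a (n' a x) = n a x) : NF i j e' n' := by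
  obtain ⟨h0, V, χ, hχ, h⟩ := h
  refine ⟨h0, V, χ, hχ, h.pull_left k ?_⟩
  rintro a _ _ (⟨x, rfl, rfl⟩ | ⟨x, rfl, rfl⟩)
  · exact Or.inl ⟨x, (he a x).symm, rfl⟩
  · exact Or.inr ⟨x, (hn a x).symm, rfl⟩

theorem congr {i' : Mp N E} {j' : Mp N N'} {e' : Mp E D} {n' : Mp N' D} (h : NF i j e n)
    (h1 : ∀ a x, i a x = i' a x) (h2 : ∀ a x, j a x = j' a x) (h3 : ∀ a x, e a x = e' a x)
    (h4 : ∀ a x, n a x = n' a x) : NF i' j' e' n' := by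
  rwa [← Mp.ext h1, ← Mp.ext h2, ← Mp.ext h3, ← Mp.ext h4]

/-- the bottom canonical amalgam -/
theorem ex_bot (hj : TE j) {V : NO L1} (χ : Mp E (N.wh (bS V)))
    (hχ : ∀ a x, χ a (i a x) = bU N V a x) : NF i j (χ.trans (j.wh (bS V))) (bU N' V) :=
  ⟨hj, V, χ, hχ, El.of_hom (Mp.rfl' _) (by rintro a _ _ (⟨x, rfl, rfl⟩ | ⟨x, rfl, rfl⟩) <;> rfl)⟩

end NF

end PCpart

namespace NF

variable {K : KC} {N E N' D E' N'' D' : LF L1 K.toPC} {i : Mp N E} {j : Mp N N'} {e : Mp E D}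
  {n : Mp N' D}

/-- comparison with any top canonical amalgam -/
theorem toT (h : NF i j e n) {W : NO L1} (ψ : Mp N' (N.wh (tS W)))
    (hψ : ∀ a x, ψ a (j a x) = tU N W a x) :
    El D (E.wh (tS W)) (RO (GR e (tU E W)) (GR n (ψ.trans (i.wh (tS W))))) := by
  obtain ⟨-, V, χ, hχ, h⟩ := h
  refine h.trans ((can ψ hψ χ hχ).symm fun _ _ _ r => r) ?_
  rintro a _ _ (⟨x, rfl, rfl⟩ | ⟨x, rfl, rfl⟩)
  · exact ⟨_, Or.inl ⟨x, rfl, rfl⟩, Or.inl ⟨x, rfl, rfl⟩⟩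
  · exact ⟨_, Or.inr ⟨x, rfl, rfl⟩, Or.inr ⟨x, rfl, rfl⟩⟩

theorem ofT (hi : BE i) {W : NO L1} (ψ : Mp N' (N.wh (tS W)))
    (hψ : ∀ a x, ψ a (j a x) = tU N W a x)
    (h : El D (E.wh (tS W)) (RO (GR e (tU E W)) (GR n (ψ.trans (i.wh (tS W)))))) :
    NF i j e n := by
  obtain ⟨V, χ, hχ⟩ := hi
  refine ⟨⟨W, ψ, hψ⟩, V, χ, hχ, h.trans (can ψ hψ χ hχ) ?_⟩
  rintro a _ _ (⟨x, rfl, rfl⟩ | ⟨x, rfl, rfl⟩)
  · exact ⟨_, Or.inl ⟨x, rfl, rfl⟩, Or.inl ⟨x, rfl, rfl⟩⟩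
  · exact ⟨_, Or.inr ⟨x, rfl, rfl⟩, Or.inr ⟨x, rfl, rfl⟩⟩

/-- comparison with any bottom canonical amalgam -/
theorem toB (h : NF i j e n) {V : NO L1} (χ : Mp E (N.wh (bS V)))
    (hχ : ∀ a x, χ a (i a x) = bU N V a x) :
    El D (N'.wh (bS V)) (RO (GR e (χ.trans (j.wh (bS V)))) (GR n (bU N' V))) := by
  obtain ⟨W, ψ, hψ⟩ := h.te
  refine (h.toT ψ hψ).trans (can ψ hψ χ hχ) ?_
  rintro a _ _ (⟨x, rfl, rfl⟩ | ⟨x, rfl, rfl⟩)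
  · exact ⟨_, Or.inl ⟨x, rfl, rfl⟩, Or.inl ⟨x, rfl, rfl⟩⟩
  · exact ⟨_, Or.inr ⟨x, rfl, rfl⟩, Or.inr ⟨x, rfl, rfl⟩⟩

/-- the top canonical amalgam -/
theorem ex_top (hi : BE i) {W : NO L1} (ψ : Mp N' (N.wh (tS W)))
    (hψ : ∀ a x, ψ a (j a x) = tU N W a x) : NF i j (tU E W) (ψ.trans (i.wh (tS W))) :=
  ofT hi ψ hψ
    (El.of_hom (Mp.rfl' _) (by rintro a _ _ (⟨x, rfl, rfl⟩ | ⟨x, rfl, rfl⟩) <;> rfl))

/-- existence -/
theorem ex (hi : BE i) (hj : TE j) : ∃ (D : LF L1 K.toPC) (e : Mp E D) (n : Mp N' D),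
    NF i j e n := by
  obtain ⟨W, ψ, hψ⟩ := hj
  exact ⟨_, _, _, ex_top hi ψ hψ⟩

/-- monotonicity in the second side -/
theorem mono_right (h : NF i j e n) {j0 : Mp N N''} (k : Mp N'' N')
    (hk : ∀ a x, k a (j0 a x) = j a x) {n0 : Mp N'' D} (hn : ∀ a x, n0 a x = n a (k a x)) :
    NF i j0 e n0 := by
  obtain ⟨W, ψ, hψ⟩ := h.te
  refine ofT h.be (k.trans ψ) (fun a x => (congrArg (ψ a) (hk a x)).trans (hψ a x))
    ((h.toT ψ hψ).mono ?_)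
  rintro a _ _ (r | ⟨x, rfl, rfl⟩)
  · exact Or.inl r
  · exact Or.inr ⟨k a x, (hn a x).symm, rfl⟩

/-- invariance under joint embeddings of the amalgam -/
theorem el (h : NF i j e n) {e' : Mp E D'} {n' : Mp N' D'}
    (H : El D D' (RO (GR e e') (GR n n'))) : NF i j e' n' := by
  obtain ⟨h0, V, χ, hχ, h⟩ := h
  refine ⟨h0, V, χ, hχ, (H.symm fun _ _ _ r => r).trans h ?_⟩
  rintro a _ _ (⟨x, rfl, rfl⟩ | ⟨x, rfl, rfl⟩)
  · exact ⟨_, Or.inl ⟨x, rfl, rfl⟩, Or.inl ⟨x, rfl, rfl⟩⟩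
  · exact ⟨_, Or.inr ⟨x, rfl, rfl⟩, Or.inr ⟨x, rfl, rfl⟩⟩

/-- passing to an extension of the amalgam -/
theorem push (h : NF i j e n) (k : Mp D D') {e' : Mp E D'} {n' : Mp N' D'}
    (he : ∀ a x, k a (e a x) = e' a x) (hn : ∀ a x, k a (n a x) = n' a x) : NF i j e' n' :=
  h.el (El.of_hom k (by
    rintro a _ _ (⟨x, rfl, rfl⟩ | ⟨x, rfl, rfl⟩)
    · exact he a x
    · exact hn a x))

/-- uniqueness, the first side varying -/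
theorem uqL (h : NF i j e n) {i' : Mp N E'} {e' : Mp E' D'} {n' : Mp N' D'} (h' : NF i' j e' n')
    {R : Rl E E'} (H : El E E' R) (hR : ∀ a x, R a (i a x) (i' a x)) {S : Rl D D'}
    (hS : ∀ a y y', S a y y' → GR n n' a y y' ∨ ∃ x x', R a x x' ∧ e a x = y ∧ e' a x' = y') :
    El D D' S := by
  obtain ⟨W, ψ, hψ⟩ := h.te
  have H1 := H.wh (tS W) (S := fun a p q => R _ p q ∨
      ∃ x x', R a x x' ∧ tU E W a x = p ∧ tU E' W a x' = q) fun a p q r =>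
    r.imp id fun ⟨x, x', r, e1, e2⟩ => ⟨a, inl, x, x', r, e1, e2⟩
  refine (h.toT ψ hψ).trans (H1.trans ((h'.toT ψ hψ).symm fun _ _ _ r => r)
    (S := fun a p y' => ∃ q, _ ∧ _) fun _ _ _ r => r) fun a y y' s => ?_
  rcases hS a y y' s with ⟨x, rfl, rfl⟩ | ⟨x, x', r, rfl, rfl⟩
  · exact ⟨_, Or.inr ⟨x, rfl, rfl⟩, _, Or.inl (hR _ _), Or.inr ⟨x, rfl, rfl⟩⟩
  · exact ⟨_, Or.inl ⟨x, rfl, rfl⟩, _, Or.inr ⟨x, x', r, rfl, rfl⟩, Or.inl ⟨x', rfl, rfl⟩⟩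

/-- uniqueness, the second side varying -/
theorem uqR (h : NF i j e n) {j' : Mp N N''} {e' : Mp E D'} {n' : Mp N'' D'} (h' : NF i j' e' n')
    {R : Rl N' N''} (H : El N' N'' R) (hR : ∀ a x, R a (j a x) (j' a x)) {S : Rl D D'}
    (hS : ∀ a y y', S a y y' → GR e e' a y y' ∨ ∃ x x', R a x x' ∧ n a x = y ∧ n' a x' = y') :
    El D D' S := by
  obtain ⟨V, χ, hχ⟩ := h.be
  have H1 := H.wh (bS V) (S := fun a p q => R _ p q ∨
      ∃ x x', R a x x' ∧ bU N' V a x = p ∧ bU N'' V a x' = q) fun a p q r =>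
    r.imp id fun ⟨x, x', r, e1, e2⟩ => ⟨a, inr, x, x', r, e1, e2⟩
  refine (h.toB χ hχ).trans (H1.trans ((h'.toB χ hχ).symm fun _ _ _ r => r)
    (S := fun a p y' => ∃ q, _ ∧ _) fun _ _ _ r => r) fun a y y' s => ?_
  rcases hS a y y' s with ⟨x, rfl, rfl⟩ | ⟨x, x', r, rfl, rfl⟩
  · exact ⟨_, Or.inl ⟨x, rfl, rfl⟩, _, Or.inl (hR _ _), Or.inl ⟨x, rfl, rfl⟩⟩
  · exact ⟨_, Or.inr ⟨x, rfl, rfl⟩, _, Or.inr ⟨x, x', r, rfl, rfl⟩, Or.inr ⟨x', rfl, rfl⟩⟩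

/-- paper UQ -/
theorem uq (h : NF i j e n) {E' D' : LF L1 K.toPC} {i' : Mp N E'} {e' : Mp E' D'}
    {n' : Mp N' D'} (h' : NF i' j e' n') {R : Rl E E'} (hR : El E E' (RO (GR i i') R)) :
    El D D' (RO (GR n n') fun a d d' => ∃ x x', R a x x' ∧ e a x = d ∧ e' a x' = d') :=
  h.uqL h' hR (fun a x => Or.inl (GR.mk i i' a x)) fun _ _ _ s =>
    s.imp id fun ⟨x, x', r, e1, e2⟩ => ⟨x, x', Or.inr r, e1, e2⟩

theorem uq0 (h : NF i j e n) {D' : LF L1 K.toPC} {e' : Mp E D'} {n' : Mp N' D'}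
    (h' : NF i j e' n') : El D D' (RO (GR n n') (GR e e')) :=
  h.uqL h' (El.of_hom (R := fun _ x y => x = y) (Mp.rfl' E) fun _ _ _ r => r) (fun _ _ => rfl) (by
    rintro a _ _ (r | ⟨x, rfl, rfl⟩)
    · exact Or.inl r
    · exact Or.inr ⟨x, x, rfl, rfl, rfl⟩)

/-- monotonicity and invariance in one statement -/
theorem mono (h : NF i j e n) {E0 N0 D0 : LF L1 K.toPC} {i0 : Mp N E0} {j0 : Mp N N0}
    {e0 : Mp E0 D0} {n0 : Mp N0 D0} (k : Mp E0 E) (k' : Mp N0 N')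
    (hk : ∀ a x, k a (i0 a x) = i a x) (hk' : ∀ a x, k' a (j0 a x) = j a x)
    (H : El D0 D (RO (GR e0 (k.trans e)) (GR n0 (k'.trans n)))) : NF i0 j0 e0 n0 :=
  ((h.mono_left k hk (e0 := k.trans e) fun _ _ => rfl).mono_right k' hk'
    (n0 := k'.trans n) fun _ _ => rfl).el (H.symm (by
      rintro a _ _ (⟨x, rfl, rfl⟩ | ⟨x, rfl, rfl⟩)
      · exact Or.inl ⟨x, rfl, rfl⟩
      · exact Or.inr ⟨x, rfl, rfl⟩))

/-- restriction to a subsquare -/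
theorem down (h : NF i j e n) {E0 N0 D0 : LF L1 K.toPC} {i0 : Mp N E0} {j0 : Mp N N0}
    {e0 : Mp E0 D0} {n0 : Mp N0 D0} (k : Mp E0 E) (k' : Mp N0 N') (m : Mp D0 D)
    (hk : ∀ a x, k a (i0 a x) = i a x) (hk' : ∀ a x, k' a (j0 a x) = j a x)
    (hm : ∀ a x, m a (e0 a x) = e a (k a x)) (hm' : ∀ a x, m a (n0 a x) = n a (k' a x)) :
    NF i0 j0 e0 n0 :=
  h.mono k k' hk hk' (El.of_hom m (by
    rintro a _ _ (⟨x, rfl, rfl⟩ | ⟨x, rfl, rfl⟩)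
    · exact hm a x
    · exact hm' a x))

theorem up (h : NF i j e n) {D' : LF L1 K.toPC} (m : Mp D D') :
    NF i j (e.trans m) (n.trans m) := h.push m (fun _ _ => rfl) fun _ _ => rfl

theorem ex_small {ν : Cardinal.{0}} (hν : K.k0 ≤ ν) (hi : BE i) (hj : TE j) (lE : E.Lev ν)
    (lN : N'.Lev ν) : ∃ (D : LF L1 K.toPC) (e : Mp E D) (n : Mp N' D), D.Lev ν ∧
      NF i j e n := by
  obtain ⟨D, e, n, h⟩ := ex hi hj
  obtain ⟨Z, k, e', n', h1, h2, h3⟩ := cut2F hν e n lE lN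
  exact ⟨Z, e', n', h1, h.pull k h2 h3⟩

theorem refl (hi : BE i) (e : Mp E D) : NF i (Mp.rfl' N) e (i.trans e) :=
  ofT hi (tU N tau) (fun _ _ => rfl) ((El.span e (tU E tau)).mono (by
    rintro a _ _ (r | ⟨x, rfl, rfl⟩)
    · exact r
    · exact ⟨i a x, rfl, (i.nat _ x).symm⟩))

/-- paper TR1 -/
theorem tr1 (h : NF i j e n) {N'' D' : LF L1 K.toPC} {j' : Mp N' N''} {e' : Mp D D'}
    {n' : Mp N'' D'} (h' : NF n j' e' n') : NF i (j.trans j') (e.trans e') n' := by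
  obtain ⟨W0, ψ0, k0⟩ := h.te
  obtain ⟨W1, ψ1, k1⟩ := h'.te
  refine ofT h.be ((ψ1.trans (ψ0.wh (tS W1))).trans (N.nt (tAs W0 W1)))
    (te_comp ψ0 k0 ψ1 k1) (((h'.toT ψ1 k1).trans
      ((h.toT ψ0 k0).wh (tS W1) fun _ _ _ r => Or.inl r) (S := fun a p y' => ∃ q, _ ∧ _)
        fun _ _ _ r => r).push_right (E.nt (tAs W0 W1)) ?_)
  rintro a _ _ (⟨x, rfl, rfl⟩ | ⟨x, rfl, rfl⟩)
  · exact ⟨_, ⟨_, Or.inl ⟨e a x, rfl, rfl⟩, Or.inl ⟨tU E W1 a x, e.nat _ x, rfl⟩⟩,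
      tAs_un E W0 W1 a x⟩
  · exact ⟨_, ⟨_, Or.inr ⟨x, rfl, rfl⟩, Or.inr ⟨ψ1 a x, rfl, rfl⟩⟩, (i.nat _ _).symm⟩

/-- transitivity along the first side, over arbitrary bases -/
theorem tr2' {N0 E0 E1 M D1 D2 : LF L1 K.toPC} {i0 : Mp N0 E0} {j0 : Mp N0 M} {e0 : Mp E0 D1}
    {n0 : Mp M D1} {i1 : Mp E0 E1} {e1 : Mp E1 D2} {n1 : Mp D1 D2} (h0 : NF i0 j0 e0 n0)
    (h1 : NF i1 e0 e1 n1) : NF (i0.trans i1) j0 e1 (n0.trans n1) := by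
  obtain ⟨V0, χ0, k0⟩ := h0.be
  obtain ⟨V1, χ1, k1⟩ := h1.be
  refine ⟨h0.te, _, (χ1.trans (χ0.wh (bS V1))).trans (N0.nt (bAs V0 V1)),
    be_comp χ0 k0 χ1 k1, (((h1.toB χ1 k1).trans
      ((h0.toB χ0 k0).wh (bS V1) fun _ _ _ r => Or.inl r) (S := fun a p y' => ∃ q, _ ∧ _)
        fun _ _ _ r => r).push_right (M.nt (bAs V0 V1)) ?_)⟩
  rintro a _ _ (⟨x, rfl, rfl⟩ | ⟨x, rfl, rfl⟩)
  · exact ⟨_, ⟨_, Or.inl ⟨x, rfl, rfl⟩, Or.inl ⟨χ1 a x, rfl, rfl⟩⟩, (j0.nat _ _).symm⟩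
  · exact ⟨_, ⟨_, Or.inr ⟨n0 a x, rfl, rfl⟩, Or.inr ⟨bU M V1 a x, n0.nat _ x, rfl⟩⟩,
      bAs_un M V0 V1 a x⟩

end NF

end Pool.Agent.P.MP_860a31_lc.H
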