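import Pool.Agent.P.MP_860a31_lc.E.FX

/-!
Bundled linear orders, ordered sums, lexicographic products and unions of chains.
-/

open Cardinal hiding univ
open Set Order Function

namespace Pool.Agent.P.MP_860a31_lc.H

/-- bundled linear orders -/
structure LO where
  car : Type
  [lo : LinearOrder car]

attribute [instance] LO.lo

instance : CoeSort LO Type := ⟨LO.car⟩

/-- order embeddings -/
structure Em (a b : LO) : Type where
  f : a → b
  mono : StrictMono f

instance (a b : LO) : CoeFun (Em a b) (fun _ => a → b) := ⟨Em.f⟩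

namespace Em

variable {a b c : LO}

@[ext] theorem ext {f g : Em a b} (h : ∀ x, f x = g x) : f = g := by
  cases f; cases g; congr; exact funext h

theorem inj (f : Em a b) : Injective f := f.mono.injective

@[simp] theorem lt_iff (f : Em a b) {x y : a} : f x < f y ↔ x < y := f.mono.lt_iff_lt

@[simp] theorem le_iff (f : Em a b) {x y : a} : f x ≤ f y ↔ x ≤ y := f.mono.le_iff_le

@[simp] theorem eq_iff (f : Em a b) {x y : a} : f x = f y ↔ x = y := f.inj.eq_iff

/-- first `f`, then `g` -/
def trans (f : Em a b) (g : Em b c) : Em a c := ⟨fun x => g (f x), g.mono.comp f.mono⟩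

@[simp] theorem trans_apply (f : Em a b) (g : Em b c) (x : a) : f.trans g x = g (f x) := rfl

/-- as an order embedding -/
def oe (f : Em a b) : a.car ↪o b.car := OrderEmbedding.ofStrictMono f f.mono

@[simp] theorem oe_apply (f : Em a b) (x : a) : f.oe x = f x := rfl

/-- from an order embedding -/
def of (f : a.car ↪o b.car) : Em a b := ⟨f, f.strictMono⟩

@[simp] theorem of_apply (f : a.car ↪o b.car) (x : a) : of f x = f x := rfl

theorem card_le (f : Em a b) : #a ≤ #b := mk_le_of_injective f.inj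

theorem finite (f : Em a b) [Finite b] : Finite a := Finite.of_injective _ f.inj

end Em

namespace LO

/-- ordered sum -/
def add (a b : LO) : LO := ⟨a.car ⊕ₗ b.car⟩

/-- lexicographic product, first factor dominant -/
def mul (a b : LO) : LO := ⟨a.car ×ₗ b.car⟩

/-- reversed order -/
def op (a : LO) : LO := ⟨a.carᵒᵈ⟩

/-- the empty order -/
abbrev zero : LO := ⟨Fin 0⟩

/-- the one-point order -/
abbrev one : LO := ⟨Unit⟩

/-- the natural numbers -/
abbrev nat : LO := ⟨ℕ⟩

/-- the `n`-point order -/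
abbrev fin (n : ℕ) : LO := ⟨Fin n⟩

/-- suborder -/
abbrev sub (a : LO) (s : Set a) : LO := ⟨s⟩

/-- the well-order of size `max θ ℵ₀` -/
noncomputable abbrev wo (θ : Cardinal.{0}) : LO := ⟨E.W θ⟩

variable {a b c d a' b' : LO}

/-- identity -/
def rf (a : LO) : Em a a := ⟨fun x => x, strictMono_id⟩

@[simp] theorem rf_apply (x : a) : rf a x = x := rfl

/-- inclusion of a suborder -/
def val (s : Set a) : Em (a.sub s) a := ⟨Subtype.val, Subtype.strictMono_coe _⟩

@[simp] theorem val_apply (s : Set a) (x : a.sub s) : val s x = x.1 := rfl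

@[simp] theorem range_val (s : Set a) : range (val s) = s := Subtype.range_coe

/-- the embedding of the empty order -/
def emp (a : LO) : Em zero a := ⟨Fin.elim0, fun x => x.elim0⟩

/-- the embedding with value `x` -/
def pt (x : a) : Em one a := ⟨fun _ => x, fun _ _ h => absurd h (lt_irrefl _)⟩

@[simp] theorem pt_apply (x : a) (u : one) : pt x u = x := rfl

/-- factorisation through an embedding with larger range -/
theorem fac (g : Em a c) (k : Em b c) (h : range g ⊆ range k) :
    ∃ e : Em a b, ∀ x, k (e x) = g x := by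
  choose e he using fun x => h ⟨x, rfl⟩
  exact ⟨⟨e, fun x y hxy => k.lt_iff.1 (by rw [he, he]; exact g.mono hxy)⟩, he⟩

/-- a finite order is isomorphic to some `fin n` -/
theorem exists_fin (a : LO) [Finite a] : ∃ (n : ℕ) (e : Em a (fin n)) (e' : Em (fin n) a),
    (∀ x, e' (e x) = x) ∧ ∀ i, e (e' i) = i := by
  have := Fintype.ofFinite a
  let f := monoEquivOfFin a rfl
  exact ⟨_, ⟨f.symm, f.symm.strictMono⟩, ⟨f, f.strictMono⟩, f.apply_symm_apply, f.symm_apply_apply⟩

/-! ### sums -/

/-- first summand -/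
def inl : Em a (a.add b) := ⟨fun x => toLex (Sum.inl x), Sum.Lex.inl_strictMono⟩

/-- second summand -/
def inr : Em b (a.add b) := ⟨fun x => toLex (Sum.inr x), Sum.Lex.inr_strictMono⟩

theorem add_cases (x : a.add b) : (∃ y, inl y = x) ∨ ∃ y, inr y = x := by
  rcases x with y | y
  · exact Or.inl ⟨y, rfl⟩
  · exact Or.inr ⟨y, rfl⟩

@[elab_as_elim]
theorem add_ind {p : (a.add b).car → Prop} (l : ∀ y, p (inl y)) (r : ∀ y, p (inr y))
    (x : (a.add b).car) : p x := by
  rcases add_cases x with ⟨y, rfl⟩ | ⟨y, rfl⟩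
  · exact l y
  · exact r y

@[simp] theorem inl_lt_inr (x : a) (y : b) : (inl x : a.add b) < inr y := Sum.Lex.inl_lt_inr x y

@[simp] theorem inl_le_inr (x : a) (y : b) : (inl x : a.add b) ≤ inr y := (inl_lt_inr x y).le

@[simp] theorem not_inr_lt_inl (x : a) (y : b) : ¬ (inr y : a.add b) < inl x :=
  (inl_le_inr x y).not_gt

@[simp] theorem not_inr_le_inl (x : a) (y : b) : ¬ (inr y : a.add b) ≤ inl x :=
  (inl_lt_inr x y).not_ge

@[simp] theorem inl_ne_inr (x : a) (y : b) : (inl x : a.add b) ≠ inr y := (inl_lt_inr x y).ne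

@[simp] theorem inr_ne_inl (x : a) (y : b) : (inr y : a.add b) ≠ inl x := (inl_lt_inr x y).ne'

/-- case distinction on a sum -/
def cs {γ : Sort*} (f : a → γ) (g : b → γ) (x : a.add b) : γ :=
  Sum.rec (motive := fun _ => γ) f g x

@[simp] theorem cs_inl {γ : Sort*} (f : a → γ) (g : b → γ) (x : a) : cs f g (inl x) = f x := rfl

@[simp] theorem cs_inr {γ : Sort*} (f : a → γ) (g : b → γ) (x : b) : cs f g (inr x) = g x := rfl

/-- the embedding of a sum given by two embeddings, one below the other -/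
def elim (f : Em a c) (g : Em b c) (h : ∀ x y, f x < g y) : Em (a.add b) c :=
  ⟨cs f g, fun x y hxy => by
    induction x using add_ind <;> induction y using add_ind
    · simpa using hxy
    · exact h _ _
    · simp at hxy
    · simpa using hxy⟩

@[simp] theorem elim_inl (f : Em a c) (g : Em b c) (h) (x : a) : elim f g h (inl x) = f x := rfl

@[simp] theorem elim_inr (f : Em a c) (g : Em b c) (h) (x : b) : elim f g h (inr x) = g x := rfl

/-- sum of embeddings -/
def amap (f : Em a a') (g : Em b b') : Em (a.add b) (a'.add b') :=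
  elim (f.trans inl) (g.trans inr) fun _ _ => inl_lt_inr _ _

@[simp] theorem amap_inl (f : Em a a') (g : Em b b') (x : a) : amap f g (inl x) = inl (f x) := rfl

@[simp] theorem amap_inr (f : Em a a') (g : Em b b') (x : b) : amap f g (inr x) = inr (g x) := rfl

/-- reassociation to the right -/
def asr : Em ((a.add b).add c) (a.add (b.add c)) :=
  elim (amap (rf a) inl) (inr.trans inr) fun x y => by induction x using add_ind <;> simp

/-- reassociation to the left -/
def asl : Em (a.add (b.add c)) ((a.add b).add c) :=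
  elim (inl.trans inl) (amap inr (rf c)) fun x y => by induction y using add_ind <;> simp

@[simp] theorem asr_ll (x : a) : (asr (inl (inl x)) : a.add (b.add c)) = inl x := rfl
@[simp] theorem asr_lr (x : b) : (asr (inl (inr x)) : a.add (b.add c)) = inr (inl x) := rfl
@[simp] theorem asr_r (x : c) : (asr (inr x) : a.add (b.add c)) = inr (inr x) := rfl
@[simp] theorem asl_l (x : a) : (asl (inl x) : (a.add b).add c) = inl (inl x) := rfl
@[simp] theorem asl_rl (x : b) : (asl (inr (inl x)) : (a.add b).add c) = inl (inr x) := rfl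
@[simp] theorem asl_rr (x : c) : (asl (inr (inr x)) : (a.add b).add c) = inr x := rfl

theorem card_add (a b : LO) : #(a.add b) = #a + #b := by
  change #(a.car ⊕ b.car) = _
  rw [mk_sum, lift_id, lift_id]

instance [Finite a] [Finite b] : Finite (a.add b) := inferInstanceAs (Finite (a.car ⊕ b.car))

theorem finite_l [Finite (a.add b)] : Finite a := Finite.of_injective _ (inl (b := b)).inj

theorem finite_r [Finite (a.add b)] : Finite b := Finite.of_injective _ (inr (a := a)).inj

/-! ### products -/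

/-- a pair -/
def pr (x : a) (y : b) : a.mul b := toLex (x, y)

/-- first coordinate -/
def p1 (z : a.mul b) : a := (ofLex z).1

/-- second coordinate -/
def p2 (z : a.mul b) : b := (ofLex z).2

@[simp] theorem p1_pr (x : a) (y : b) : p1 (pr x y) = x := rfl
@[simp] theorem p2_pr (x : a) (y : b) : p2 (pr x y) = y := rfl
@[simp] theorem pr_p (z : a.mul b) : pr (p1 z) (p2 z) = z := rfl

@[elab_as_elim]
theorem mul_ind {p : (a.mul b).car → Prop} (h : ∀ x y, p (pr x y)) (z : (a.mul b).car) : p z :=
  h (p1 z) (p2 z)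

theorem pr_lt {x x' : a} {y y' : b} : pr x y < pr x' y' ↔ x < x' ∨ x = x' ∧ y < y' :=
  Prod.Lex.toLex_lt_toLex

@[simp] theorem pr_inj {x x' : a} {y y' : b} : pr x y = pr x' y' ↔ x = x' ∧ y = y' :=
  ⟨fun h => ⟨congrArg p1 h, congrArg p2 h⟩, fun h => by rw [h.1, h.2]⟩

/-- product of embeddings -/
def mmap (f : Em a a') (g : Em b b') : Em (a.mul b) (a'.mul b') :=
  ⟨fun z => pr (f (p1 z)) (g (p2 z)), fun x y h => by
    induction x using mul_ind; induction y using mul_ind
    simpa [pr_lt] using h⟩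

@[simp] theorem mmap_pr (f : Em a a') (g : Em b b') (x : a) (y : b) :
    mmap f g (pr x y) = pr (f x) (g y) := rfl

/-- the copy of the second factor over a point -/
def cop (x : a) : Em b (a.mul b) := ⟨pr x, fun _ _ h => pr_lt.2 (Or.inr ⟨rfl, h⟩)⟩

@[simp] theorem cop_apply (x : a) (y : b) : cop x y = pr x y := rfl

theorem card_mul (a b : LO) : #(a.mul b) = #a * #b := by
  change #(a.car × b.car) = _
  rw [mk_prod, lift_id, lift_id]

instance [Finite a] [Finite b] : Finite (a.mul b) := inferInstanceAs (Finite (a.car × b.car))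

/-! ### reversal -/

/-- a point of the reversed order -/
def dn (x : a) : a.op := OrderDual.toDual x

/-- the underlying point -/
def up (x : a.op) : a := OrderDual.ofDual x

@[simp] theorem up_dn (x : a) : up (dn x) = x := rfl
@[simp] theorem dn_up (x : a.op) : dn (up x) = x := rfl

@[elab_as_elim]
theorem op_ind {p : a.op.car → Prop} (h : ∀ x, p (dn x)) (z : a.op.car) : p z := h (up z)

@[simp] theorem dn_lt {x y : a} : dn x < dn y ↔ y < x := Iff.rfl
@[simp] theorem dn_le {x y : a} : dn x ≤ dn y ↔ y ≤ x := Iff.rfl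
@[simp] theorem dn_inj {x y : a} : dn x = dn y ↔ x = y := Iff.rfl

/-- reversal of an embedding -/
def omap (f : Em a b) : Em a.op b.op := ⟨fun x => dn (f (up x)), fun _ _ h => f.mono h⟩

@[simp] theorem omap_dn (f : Em a b) (x : a) : omap f (dn x) = dn (f x) := rfl

theorem card_op (a : LO) : #a.op = #a := rfl

instance [Finite a] : Finite a.op := inferInstanceAs (Finite a.car)

/-! ### unions of directed systems -/

/-- points of a family of orders -/
structure CPt {ι : Type} (A : ι → LO) where
  i : ι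
  x : A i

theorem colim (ι : Type) [Preorder ι] [IsDirected ι (· ≤ ·)] (A : ι → LO)
    (t : ∀ i j, i ≤ j → Em (A i) (A j))
    (tc : ∀ i j k (hij : i ≤ j) (hjk : j ≤ k) x, t j k hjk (t i j hij x) = t i k (hij.trans hjk) x) :
    ∃ (B : LO) (u : ∀ i, Em (A i) B), (∀ i j h x, u j (t i j h x) = u i x) ∧
      ∀ y, ∃ i x, u i x = y := by
  classical
  let r : CPt A → CPt A → Prop := fun p q =>
    ∃ (k : ι) (h : p.i ≤ k) (h' : q.i ≤ k), t _ _ h p.x ≤ t _ _ h' q.x
  have key : ∀ (p q : CPt A) k (h : p.i ≤ k) (h' : q.i ≤ k),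
      r p q ↔ t _ _ h p.x ≤ t _ _ h' q.x := fun p q k h h' => by
    refine ⟨fun ⟨l, g, g', e⟩ => ?_, fun e => ⟨k, h, h', e⟩⟩
    obtain ⟨m, m1, m2⟩ := exists_ge_ge k l
    rw [← (t k m m1).le_iff, tc, tc, ← tc _ l m g m2, ← tc _ l m g' m2]
    exact (t l m m2).le_iff.2 e
  let _ : Preorder (CPt A) :=
    { le := r
      le_refl := fun p => ⟨p.i, le_rfl, le_rfl, le_rfl⟩
      le_trans := fun p q s h1 h2 => by
        obtain ⟨k, k1, k2⟩ := exists_ge_ge p.i q.i
        obtain ⟨m, m1, m2⟩ := exists_ge_ge k s.i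
        exact (key p s m (k1.trans m1) m2).2 (((key p q m _ (k2.trans m1)).1 h1).trans
          ((key q s m _ m2).1 h2)) }
  have tot : Std.Total (α := CPt A) (· ≤ ·) := ⟨fun p q => by
    obtain ⟨k, k1, k2⟩ := exists_ge_ge p.i q.i
    exact (le_total _ _).imp (key p q k k1 k2).2 (key q p k k2 k1).2⟩
  let B : LO := ⟨Antisymmetrization (CPt A) (· ≤ ·)⟩
  let m : CPt A → B := toAntisymmetrization (· ≤ ·)
  have le1 : ∀ p q : CPt A, m p ≤ m q ↔ r p q := fun p q =>
    toAntisymmetrization_le_toAntisymmetrization_iff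
  refine ⟨B, fun i => ⟨fun x => m ⟨i, x⟩, strictMono_of_le_iff_le fun x y => ?_⟩,
    fun i j h x => ?_, fun y => ?_⟩
  · rw [le1, key ⟨i, x⟩ ⟨i, y⟩ i le_rfl le_rfl]
    exact (t i i le_rfl).le_iff.symm
  · exact le_antisymm ((le1 ⟨j, _⟩ ⟨i, x⟩).2 ⟨j, le_rfl, h, (tc _ _ _ h le_rfl x).le⟩)
      ((le1 ⟨i, x⟩ ⟨j, _⟩).2 ⟨j, h, le_rfl, (tc _ _ _ h le_rfl x).ge⟩)
  · exact Antisymmetrization.induction_on (· ≤ ·) (p := fun y => ∃ i x, m ⟨i, x⟩ = y) y
      fun p => ⟨p.i, p.x, rfl⟩

end LO

end Pool.Agent.P.MP_860a31_lc.H
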