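import Pool.Agent.P.MP_860a31_lc.H.NatF

/-!
Levels, covers, unions, atoms and pieces.
-/

open Cardinal hiding univ
open Set Order Function

namespace Pool.Agent.P.MP_860a31_lc.H

open LO E Fu

section

variable {T T' T'' : Ct} {ν : Cardinal.{0}}

/-- every element of a one-variable family comes from some `fin n` -/
theorem Fu.fin1 (Q : NO L1) (a : LO) (y : Q.ob a) :
    ∃ (n : ℕ) (t : Em (LO.fin n) a) (x : Q.ob (LO.fin n)), Q.mp t x = y := by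
  obtain ⟨b, g, y0, hb, rfl⟩ := Q.fin a y
  obtain ⟨n, e, e', k1, -⟩ := exists_fin b
  exact ⟨n, e'.trans g, Q.mp e y0,
    Q.mp_eq (f := e) (g := e'.trans g) (k := g) (fun x => congrArg g (k1 x)) y0⟩

theorem Fu.Lev.mono {G : Fu T T'} {ν' : Cardinal.{0}} (h : G.Lev ν) (hν : ν ≤ ν') : G.Lev ν' :=
  fun a ha => (h a ha).trans hν

theorem Fu.card_le1 (Q : NO L1) (hν : ℵ₀ ≤ ν) (h : Q.Lev ν) (z : LO) (hz : #z ≤ ν) :
    #(Q.ob z) ≤ ν :=
  card_cover (ι := Σ n, Em (LO.fin n) z) (fun p => Q.mp p.2)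
    (fun y => by obtain ⟨n, s, x, e⟩ := Q.fin1 z y; exact ⟨⟨n, s⟩, x, e⟩) hν
    ((card_em z).trans (add_le_of_le hν hz hν)) fun p => h (LO.fin p.1) inferInstance

/-- the size of a value -/
theorem Fu.card_le (G : Fu T T') (hν : ℵ₀ ≤ ν) (h : G.Lev ν) (a : T.Obj) (ha : #(T.U a) ≤ ν) :
    #(T'.U (G.ob a)) ≤ ν :=
  (T'.um (G.mp (T.eta a))).card_le.trans
    (Fu.card_le1 ((uF T').wh (G.wh (xiF T))) hν (fun z hz => h _ (T.xi_fin z hz)) _ ha)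

theorem Fu.Lev.card {G : Fu T T'} (h : G.Lev ν) (hν : ℵ₀ ≤ ν) (a : T.Obj) :
    #(T'.U (G.ob a)) ≤ #(T.U a) + ν :=
  G.card_le (hν.trans le_add_self) (h.mono le_add_self) a le_self_add

theorem LF.Lev.card {C : PC} {X : LF T C} (h : X.Lev ν) (hν : ℵ₀ ≤ ν) (a : T.Obj) :
    #(C.U (X.ob a)) ≤ #(T.U a) + ν :=
  X.card_le (hν.trans le_add_self) (h.mono le_add_self) a le_self_add

theorem Fu.Lev.of_nt {G H : Fu T T'} (n : NT G H) (h : H.Lev ν) : G.Lev ν :=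
  fun a ha => (T'.um (n.app a)).card_le.trans (h a ha)

theorem card_fin_le (hν : ℵ₀ ≤ ν) (a : LO) (ha : Finite a) : #a ≤ ν :=
  (lt_aleph0_of_finite _).le.trans hν

theorem lev_id (hν : ℵ₀ ≤ ν) (T : Ct) : (idF T).Lev ν := fun _ ha => card_fin_le hν _ ha

theorem lev_uF (hν : ℵ₀ ≤ ν) (T : Ct) : (uF T).Lev ν := fun _ ha => card_fin_le hν _ ha

theorem lev_xiF (hν : ℵ₀ ≤ ν) (T : Ct) : (xiF T).Lev ν :=
  fun z hz => card_fin_le hν _ (T.xi_fin z hz)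

theorem lev_fst (hν : ℵ₀ ≤ ν) (T T' : Ct) : (fst T T').Lev ν := fun a ha =>
  card_fin_le hν _ (@finite_l (T.U a.1) (T'.U a.2) ha)

theorem lev_snd (hν : ℵ₀ ≤ ν) (T T' : Ct) : (snd T T').Lev ν := fun a ha =>
  card_fin_le hν _ (@finite_r (T.U a.1) (T'.U a.2) ha)

theorem lev_cst (T : Ct) {b : T'.Obj} (h : #(T'.U b) ≤ ν) : (cst T b).Lev ν := fun _ _ => h

theorem Fu.Lev.wh {G : Fu T' T''} {H : Fu T T'} (hν : ℵ₀ ≤ ν) (hG : G.Lev ν) (hH : H.Lev ν) :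
    (G.wh H).Lev ν := fun a ha => G.card_le hν hG _ (hH a ha)

theorem LF.Lev.wh {C : PC} {X : LF T' C} {H : Fu T T'} (hν : ℵ₀ ≤ ν) (hX : X.Lev ν)
    (hH : H.Lev ν) : (X.wh H).Lev ν := fun a ha => X.card_le hν hX _ (hH a ha)

theorem Fu.Lev.pair {G : Fu T T'} {H : Fu T T''} (hν : ℵ₀ ≤ ν) (hG : G.Lev ν) (hH : H.Lev ν) :
    (G.pair H).Lev ν := fun a ha =>
  (card_add _ _).le.trans (add_le_of_le hν (hG a ha) (hH a ha))

theorem Fu.Lev.add {Q Q' : NO T} (hν : ℵ₀ ≤ ν) (h : Q.Lev ν) (h' : Q'.Lev ν) :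
    (Q.add Q').Lev ν := fun a ha =>
  (card_add _ _).le.trans (add_le_of_le hν (h a ha) (h' a ha))

theorem Fu.Lev.mul {Q Q' : NO T} (hν : ℵ₀ ≤ ν) (h : Q.Lev ν) (h' : Q'.Lev ν) :
    (Q.mul Q').Lev ν := fun a ha =>
  (card_mul _ _).le.trans (mul_le_of_le hν (h a ha) (h' a ha))

theorem Fu.Lev.op {Q : NO T} (h : Q.Lev ν) : Q.op.Lev ν := fun a ha => h a ha

theorem lev_at2 (hν : ℵ₀ ≤ ν) {S : LO} (h : #S ≤ ν) : (at2 S).Lev ν :=
  (lev_id hν L1).pair hν (lev_cst L1 h)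

theorem lev_lift (hν : ℵ₀ ≤ ν) {s : En L1} (h : s.G.Lev ν) (T : Ct) : (s.lift T).G.Lev ν :=
  (lev_xiF hν T).wh hν (h.wh hν (lev_uF hν T))

theorem lev_MM (hν : ℵ₀ ≤ ν) {I : NO L1} (h : I.Lev ν) : (MM I).Lev ν :=
  h.add hν ((lev_id hν L1).add hν (lev_id hν L1))

theorem lev_Q1 (hν : ℵ₀ ≤ ν) {I L : NO L1} (h : I.Lev ν) (h' : L.Lev ν) : (Q1 I L).Lev ν :=
  h.add hν ((lev_id hν L1).add hν (h'.add hν (lev_id hν L1)))

theorem lev_QQ (hν : ℵ₀ ≤ ν) {I L : NO L1} (h : I.Lev ν) (h' : L.Lev ν) : (QQ I L).Lev ν :=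
  (h.wh hν (lev_fst hν L1 L1)).add hν ((lev_fst hν L1 L1).add hν
    (((lev_snd hν L1 L1).mul hν (h'.wh hν (lev_fst hν L1 L1))).add hν (lev_fst hν L1 L1)))

theorem lev_TH (hν : ℵ₀ ≤ ν) {I L : NO L1} (h : I.Lev ν) (h' : L.Lev ν) : (TH I L).Lev ν :=
  (h.wh hν (lev_fst hν L1 L1)).add hν
    ((lev_snd hν L1 L1).mul hν (h'.wh hν (lev_fst hν L1 L1)))

theorem Fu.exists_lev (G : Fu T T') : ∃ ν : Cardinal.{0}, G.Lev ν := by
  refine ⟨#(Σ n, T'.U (G.ob (T.Xi (LO.fin n)))), fun a ha => ?_⟩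
  obtain ⟨n, e, -⟩ := exists_fin (T.U a)
  exact ((T'.um (G.mp (T.eta a))).card_le.trans (T'.um (G.mp (T.xm e))).card_le).trans
    (mk_le_of_injective
      (sigma_mk_injective (β := fun n => (T'.U (G.ob (T.Xi (LO.fin n)))).car) (i := n)))

/-- a one-variable level bound can be checked on the orders `fin n` -/
theorem LF.lev_of_fin {C : PC} {X : LF L1 C} (h : ∀ n, #(C.U (X.ob (LO.fin n))) ≤ ν) :
    X.Lev ν := fun a ha => by
  obtain ⟨n, e, -⟩ := @exists_fin a ha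
  exact (PC.card_le (X.hom e)).trans (h n)

theorem Fu.lev_of_fin {Q : NO L1} (h : ∀ n, #(Q.ob (LO.fin n)) ≤ ν) : Q.Lev ν := fun a ha => by
  obtain ⟨n, e, -⟩ := @exists_fin a ha
  exact (Q.mp e).card_le.trans (h n)

theorem LF.lev_cover {C : PC} {ι : Type} {B : LF T C} (A : ι → LF T C) (u : ∀ i, Mp (A i) B)
    (hs : ∀ a y, ∃ i x, u i a x = y) (hν : ℵ₀ ≤ ν) (hι : #ι ≤ ν) (h : ∀ i, (A i).Lev ν) :
    B.Lev ν := fun a ha => card_cover (fun i => u i a) (hs a) hν hι fun i => h i a ha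

theorem Fu.lev_cover {ι : Type} {B : NO T} (A : ι → NO T) (u : ∀ i, NT (A i) B)
    (hs : ∀ a y, ∃ i x, (u i).app a x = y) (hν : ℵ₀ ≤ ν) (hι : #ι ≤ ν) (h : ∀ i, (A i).Lev ν) :
    B.Lev ν := fun a ha => card_cover (fun i => (u i).app a) (hs a) hν hι fun i => h i a ha

/-- unions of directed systems of natural orders -/
theorem Fu.colim (ι : Type) [Preorder ι] [IsDirected ι (· ≤ ·)] (A : ι → NO T)
    (t : ∀ i j, i ≤ j → NT (A i) (A j))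
    (tc : ∀ i j k (hij : i ≤ j) (hjk : j ≤ k) a x,
      (t j k hjk).app a ((t i j hij).app a x) = (t i k (hij.trans hjk)).app a x) :
    ∃ (B : NO T) (u : ∀ i, NT (A i) B),
      (∀ i j h a x, (u j).app a ((t i j h).app a x) = (u i).app a x) ∧
      ∀ a y, ∃ i x, (u i).app a x = y := by
  choose B u h1 h2 using fun a => LO.colim ι (fun i => (A i).ob a) (fun i j h => (t i j h).app a)
    fun i j k hij hjk => tc i j k hij hjk a
  have key : ∀ a b (f : T.Hom a b) i j x y, (u a i x ≤ u a j y ↔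
      u b i ((A i).mp f x) ≤ u b j ((A j).mp f y)) := fun a b f i j x y => by
    obtain ⟨k, hi, hj⟩ := exists_ge_ge i j
    rw [← h1 a i k hi, ← h1 a j k hj, ← h1 b i k hi, ← h1 b j k hj, (t i k hi).nat',
      (t j k hj).nat', Em.le_iff, Em.le_iff, Em.le_iff]
  have hl : ∀ a b (f : T.Hom a b), ∃ m : Em (B a) (B b),
      ∀ i x, m (u a i x) = u b i ((A i).mp f x) := fun a b f => by
    choose ix px hpx using h2 a
    refine ⟨⟨fun y => u b (ix y) ((A _).mp f (px y)), strictMono_of_le_iff_le fun y y' => ?_⟩,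
      fun i x => le_antisymm ?_ ?_⟩
    · rw [← key, hpx, hpx]
    · exact (key a b f _ _ _ _).1 (hpx _).le
    · exact (key a b f _ _ _ _).1 (hpx _).ge
  choose m hm using hl
  refine ⟨⟨B, fun f => m _ _ f, fun a => Em.ext fun y => ?_, fun f g => Em.ext fun y => ?_,
    fun a y => ?_⟩, fun i => NT.mk' (fun a => u a i) fun a b f x => (hm a b f i x).symm,
    fun i j h a x => h1 a i j h x, h2⟩
  · obtain ⟨i, x, rfl⟩ := h2 a y
    rw [hm, (A i).mp_rf]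
    rfl
  · obtain ⟨i, x, rfl⟩ := h2 _ y
    rw [L1_comp, Em.trans_apply, hm, hm, hm, (A i).mp_mp]
  · obtain ⟨i, x, rfl⟩ := h2 a y
    obtain ⟨a0, h, x0, h3, rfl⟩ := (A i).fin a x
    exact ⟨a0, h, u a0 i x0, h3, hm _ _ h i x0⟩

theorem LF.Atom.wh {C : PC} {X : LF T' C} (h : X.Atom) (G : Fu T T')
    (n : NT (xiF T') (G.wh (xiF T))) : (X.wh G).Atom := by
  obtain ⟨x, hx⟩ := h
  refine ⟨X.mp (n.app one) x, fun z u v e => hx z u v (X.inj (n.app z) ?_)⟩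
  exact ((X.nt n).nat (pt u) x).trans (e.trans ((X.nt n).nat (pt v) x).symm)

theorem LF.Atom.le_card {C : PC} {X : LF T C} (h : X.Atom) (z : LO) :
    #z ≤ #(C.U (X.ob (T.Xi z))) := by
  obtain ⟨x, hx⟩ := h
  exact mk_le_of_injective (f := fun u : z => X.mp (T.xm (pt u)) x) (hx z)

theorem Pc.map {C : PC} {P : LF L1 C} {ok ok' : ℕ → Prop} {Q : NO T} {Q' : NO T'} {a : T.Obj}
    {a' : T'.Obj} {x : C.U ((P.wh Q).ob a)} (h : Pc P ok Q a x) (hok : ∀ m, ok m → ok' m)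
    (e : Em (Q.ob a) (Q'.ob a')) : Pc P ok' Q' a' (P.mp e x) := by
  obtain ⟨m, u, h1, w, rfl⟩ := h
  exact ⟨m, u.trans e, hok m h1, w, (P.mp_comp u e w).symm⟩

theorem gp_Pc {C : PC} (P : LF L1 C) (ok : ℕ → Prop) (Q : NO T) :
    Gp (A := P.wh Q) (Pc P ok Q) where
  nat _ _ f _ h := h.map (fun _ k => k) (Q.mp f)
  fin a := by
    rintro _ ⟨m, u, h1, w, rfl⟩
    obtain ⟨a0, h, g0, h2, rfl⟩ := Q.finH (b := LO.fin m) u inferInstance
    exact ⟨a0, h, P.mp g0 w, h2, ⟨m, g0, h1, w, rfl⟩, P.mp_comp g0 _ w⟩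

theorem gp_Ar {C : PC} (k : ℕ) (X : LF L1 C) : Gp (A := X) (Ar k X) where
  nat := by
    rintro a b f _ ⟨m, h1, t, w, rfl⟩
    exact ⟨m, h1, t.trans f, w, (X.mp_comp t f w).symm⟩
  fin := by
    rintro a _ ⟨m, h1, t, w, rfl⟩
    exact ⟨LO.fin m, t, w, inferInstance, ⟨m, h1, rf _, w, X.mp_id _ w⟩, rfl⟩

end

end Pool.Agent.P.MP_860a31_lc.H
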