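import Pool.Agent.P.MP_860a31_lc.H.Pb1
import Pool.Agent.P.MP_860a31_lc.H.Pb2
import Pool.Agent.P.MP_860a31_lc.H.NatF
import Pool.Agent.P.MP_860a31_lc.H.Retr

/-!
Intersections, fullness, levels and unions for natural orders: the proofs are in `Pb1` and `Pb2`.
-/
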