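import Pool.Agent.P.MP_860a31_lc.H.Df

/-!
Preservation of intersections and fullness for natural orders.
-/

open Cardinal hiding univ
open Set Order Function

namespace Pool.Agent.P.MP_860a31_lc.H

open LO E Fu

section

variable {T T' T'' : Ct} {ν : Cardinal.{0}}

theorem pb_id (T : Ct) : (idF T).PB := fun _ _ _ h => h
theorem pb_uF (T : Ct) : (uF T).PB := fun _ _ _ h => h
theorem pb_cst (T : Ct) (b : T'.Obj) : (cst T b).PB := fun _ _ _ _ => inter_subset_left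

theorem pb_fst (T T' : Ct) : (fst T T').PB := by
  rintro a a1 a2 a0 h1 h2 k h y ⟨⟨x1, e1⟩, x2, e2⟩
  obtain ⟨w, hw⟩ := h (a := inl y) ⟨⟨inl x1, congrArg inl e1⟩, inl x2, congrArg inl e2⟩
  induction w using add_ind
  · exact ⟨_, by simpa using hw⟩
  · simp at hw

theorem pb_snd (T T' : Ct) : (snd T T').PB := by
  rintro a a1 a2 a0 h1 h2 k h y ⟨⟨x1, e1⟩, x2, e2⟩
  obtain ⟨w, hw⟩ := h (a := inr y) ⟨⟨inr x1, congrArg inr e1⟩, inr x2, congrArg inr e2⟩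
  induction w using add_ind
  · simp at hw
  · exact ⟨_, by simpa using hw⟩

theorem Fu.PB.wh {G : Fu T' T''} {H : Fu T T'} (hG : G.PB) (hH : H.PB) : (G.wh H).PB :=
  fun h1 h2 k h => hG _ _ _ (hH h1 h2 k h)

theorem Fu.PB.pair {G : Fu T T'} {H : Fu T T''} (hG : G.PB) (hH : H.PB) : (G.pair H).PB := by
  rintro a a1 a2 a0 h1 h2 k h _ ⟨⟨x, rfl⟩, y, hy⟩
  induction x using add_ind <;> induction y using add_ind
  · obtain ⟨w, hw⟩ := hG h1 h2 k h ⟨⟨_, rfl⟩, _, by simpa using hy⟩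
    exact ⟨inl w, congrArg inl hw⟩
  · simp at hy
  · simp at hy
  · obtain ⟨w, hw⟩ := hH h1 h2 k h ⟨⟨_, rfl⟩, _, by simpa using hy⟩
    exact ⟨inr w, congrArg inr hw⟩

theorem Fu.PB.add {Q Q' : NO T} (h : Q.PB) (h' : Q'.PB) : (Q.add Q').PB :=
  fun h1 h2 k e => (h.pair h') h1 h2 k e

theorem Fu.PB.mul {Q Q' : NO T} (h : Q.PB) (h' : Q'.PB) : (Q.mul Q').PB := by
  rintro a a1 a2 a0 h1 h2 k e _ ⟨⟨x, rfl⟩, y, hy⟩
  obtain ⟨w, hw⟩ := h h1 h2 k e ⟨⟨p1 x, rfl⟩, p1 y, congrArg p1 hy⟩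
  obtain ⟨w', hw'⟩ := h' h1 h2 k e ⟨⟨p2 x, rfl⟩, p2 y, congrArg p2 hy⟩
  exact ⟨pr w w', congrArg₂ pr hw hw'⟩

theorem Fu.PB.op {Q : NO T} (h : Q.PB) : Q.op.PB := fun h1 h2 k e => h h1 h2 k e

theorem pb_at2 (S : LO) : (at2 S).PB := Fu.PB.pair (pb_id L1) (pb_cst (T' := L1) L1 S)

theorem pb_MM {I : NO L1} (h : I.PB) : (MM I).PB :=
  Fu.PB.add h (Fu.PB.add (pb_id L1) (pb_id L1))

theorem pb_Q1 {I L : NO L1} (h : I.PB) (h' : L.PB) : (Q1 I L).PB :=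
  Fu.PB.add h (Fu.PB.add (pb_id L1) (Fu.PB.add h' (pb_id L1)))

theorem pb_QQ {I L : NO L1} (h : I.PB) (h' : L.PB) : (QQ I L).PB :=
  Fu.PB.add (Fu.PB.wh h (pb_fst _ _)) (Fu.PB.add (pb_fst _ _)
    (Fu.PB.add (Fu.PB.mul (pb_snd _ _) (Fu.PB.wh h' (pb_fst _ _))) (pb_fst _ _)))

theorem pb_TH {M Kd : NO L1} (h : M.PB) (h' : Kd.PB) : (TH M Kd).PB :=
  Fu.PB.add (Fu.PB.wh h (pb_fst _ _)) (Fu.PB.mul (pb_snd _ _) (Fu.PB.wh h' (pb_fst _ _)))

/-- paper 0.1 -/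
theorem Fu.PB.full {Q Q' : NO T} (h : Q.PB) (n : NT Q Q') : n.Full := by
  rintro a b f y ⟨y', e⟩
  obtain ⟨c, g, g', e1, e2⟩ := T.dbl f
  have e3 : Q.mp g' y' = Q.mp g y' := (n.app c).inj (by
    rw [n.nat', n.nat', e, Q'.mp_mp, Q'.mp_mp, e1])
  obtain ⟨x, hx⟩ := h g g' (T.comp f g) e2 ⟨⟨y', rfl⟩, y', e3⟩
  have e4 : Q.mp f x = y' := (Q.mp g).inj ((Q.mp_mp f g x).trans hx)
  exact ⟨x, (Q'.mp f).inj (by rw [← n.nat', e4, e])⟩

theorem Fu.PB.of_full {Q Q' : NO T} (h : Q'.PB) (n : NT Q Q') (hn : n.Full) : Q.PB := by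
  rintro a a1 a2 a0 h1 h2 k e y ⟨⟨x1, e1⟩, x2, e2⟩
  obtain ⟨w, hw⟩ : n.app a y ∈ range (Q'.mp k) := h h1 h2 k e
    ⟨⟨n.app _ x1, (n.nat' h1 x1).symm.trans (congrArg _ e1)⟩,
      n.app _ x2, (n.nat' h2 x2).symm.trans (congrArg _ e2)⟩
  obtain ⟨x, rfl⟩ := hn a0 a k w ⟨y, hw.symm⟩
  exact ⟨x, (n.app a).inj ((n.nat' k x).trans hw)⟩

theorem Fu.pb_cover {ι : Type} {B : NO T} (A : ι → NO T) (u : ∀ i, NT (A i) B)
    (hs : ∀ a y, ∃ i x, (u i).app a x = y)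
    (hd : ∀ i j, ∃ k, ∀ a, range ((u i).app a) ⊆ range ((u k).app a) ∧
      range ((u j).app a) ⊆ range ((u k).app a)) (h : ∀ i, (A i).PB) : B.PB := by
  rintro a a1 a2 a0 h1 h2 k e y ⟨⟨y1, e1⟩, y2, e2⟩
  obtain ⟨i, x1, rfl⟩ := hs a1 y1
  obtain ⟨j, x2, rfl⟩ := hs a2 y2
  obtain ⟨l, hl⟩ := hd i j
  obtain ⟨z1, hz1⟩ := (hl a1).1 ⟨x1, rfl⟩
  obtain ⟨z2, hz2⟩ := (hl a2).2 ⟨x2, rfl⟩
  have f1 : (u l).app a ((A l).mp h1 z1) = y := by rw [(u l).nat', hz1]; exact e1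
  have f2 : (u l).app a ((A l).mp h2 z2) = y := by rw [(u l).nat', hz2]; exact e2
  obtain ⟨w, hw⟩ := h l h1 h2 k e ⟨⟨z1, rfl⟩, z2, ((u l).app a).inj (f2.trans f1.symm)⟩
  exact ⟨(u l).app a0 w, ((u l).nat' k w).symm.trans ((congrArg _ hw).trans f1)⟩

theorem NCh.pb_top {Λ : Type} [LinearOrder Λ] {top : NO T} (c : NCh Λ top)
    (h : ∀ i, (c.Q i).PB) : top.PB :=
  Fu.pb_cover c.Q c.ι c.cover (fun i j => ⟨max i j, fun a =>
    ⟨c.mono _ _ (le_max_left i j) a, c.mono _ _ (le_max_right i j) a⟩⟩) h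

/-! ### every natural order extends to one preserving intersections -/

/-- a point of a support outside another support can be moved inside its cut -/
theorem sup_move (J : NO L1) {X : LO} {s1 s2 : Set X} {u u' : X} (h2 : u ∉ s2)
    (hl : ∀ p ∈ s1 ∪ s2, p < u → p < u') (hr : u' < u) {y : J.ob X}
    (y1 : y ∈ range (J.mp (val s1))) (y2 : y ∈ range (J.mp (val s2))) :
    y ∈ range (J.mp (val (insert u' (s1 \ {u})))) := by
  classical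
  obtain ⟨x1, e1⟩ := y1
  obtain ⟨x2, e2⟩ := y2
  let φ : Em (X.sub (s1 ∪ s2)) X := ⟨fun p => if p.1 = u then u' else p.1, fun p q hpq => by
    have hpq' : p.1 < q.1 := hpq
    by_cases hp : p.1 = u <;> by_cases hq : q.1 = u
    · exact absurd hpq' (by rw [hp, hq]; exact lt_irrefl _)
    · simp only [if_pos hp, if_neg hq]; exact hr.trans (hp ▸ hpq')
    · simp only [if_neg hp, if_pos hq]; exact hl _ p.2 (hq ▸ hpq')
    · simp only [if_neg hp, if_neg hq]; exact hpq'⟩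
  let i1 : Em (X.sub s1) (X.sub (s1 ∪ s2)) := ⟨fun p => ⟨p.1, Or.inl p.2⟩, fun _ _ h => h⟩
  let i2 : Em (X.sub s2) (X.sub (s1 ∪ s2)) := ⟨fun p => ⟨p.1, Or.inr p.2⟩, fun _ _ h => h⟩
  have e3 : J.mp i1 x1 = J.mp i2 x2 := (J.mp (val (s1 ∪ s2))).inj (by
    rw [J.mp_eq (f := i1) (k := val s1) (fun _ => rfl), J.mp_eq (f := i2) (k := val s2) (fun _ => rfl),
      e1, e2])
  have e4 : J.mp φ (J.mp i2 x2) = y := by
    rw [J.mp_eq (f := i2) (g := φ) (k := val s2) (fun p => if_neg fun e : p.1 = u => h2 (e ▸ p.2)), e2]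
  refine J.range_mono (g := i1.trans φ) (k := val _) ?_ ⟨x1, ?_⟩
  · rintro _ ⟨p, rfl⟩
    rw [L1_um, range_val]
    change (if p.1 = u then u' else p.1) ∈ _
    split_ifs with hp
    · exact mem_insert _ _
    · exact mem_insert_of_mem _ ⟨p.2, hp⟩
  · exact (J.mp_mp i1 φ x1).symm.trans (by rw [e3, e4])

theorem sup_core (J : NO L1) {X : LO} {A : Set X} (P1 : ∃ z ∈ A, ∀ x, z ≤ x)
    (P2 : ∀ p ∈ A, ∃ q ∈ A, p < q ∧ ∀ x, p < x → q ≤ x) {y : J.ob X} (n : ℕ) :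
    ∀ s1 s2 : Set X, s1.Finite → s2.Finite → s1 ∩ s2 ⊆ A → ((s1 ∪ s2) \ A).ncard ≤ n →
      y ∈ range (J.mp (val s1)) → y ∈ range (J.mp (val s2)) → y ∈ range (J.mp (val A)) := by
  induction n with
  | zero =>
    intro s1 s2 f1 f2 _ hn y1 _
    have h0 : (s1 ∪ s2) \ A = ∅ :=
      (ncard_eq_zero ((f1.union f2).sdiff)).1 (Nat.le_zero.1 hn)
    refine J.range_mono (g := val s1) (k := val A) ?_ y1
    rw [L1_um, L1_um, range_val, range_val]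
    exact subset_union_left.trans (sdiff_eq_empty.1 h0)
  | succ n ih =>
    have step : ∀ s1 s2 : Set X, s1.Finite → s2.Finite → s1 ∩ s2 ⊆ A →
        ((s1 ∪ s2) \ A).ncard ≤ n + 1 → y ∈ range (J.mp (val s1)) → y ∈ range (J.mp (val s2)) →
        ∀ u ∈ s1, u ∉ A → (∀ p ∈ s1 ∪ s2, p < u → p ∈ A) → y ∈ range (J.mp (val A)) := by
      intro s1 s2 f1 f2 hi hn y1 y2 u u1 uA hu
      have u2 : u ∉ s2 := fun h => uA (hi ⟨u1, h⟩)
      obtain ⟨u', a', hl, hr⟩ : ∃ u' ∈ A, (∀ p ∈ s1 ∪ s2, p < u → p < u') ∧ u' < u := by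
        rcases (({p ∈ s1 ∪ s2 | p < u} : Set X)).eq_empty_or_nonempty with h0 | h0
        · obtain ⟨z, zA, hz⟩ := P1
          exact ⟨z, zA, fun p hp hpu => absurd (show p ∈ ({p ∈ s1 ∪ s2 | p < u} : Set X) from
            ⟨hp, hpu⟩) (h0 ▸ notMem_empty p), lt_of_le_of_ne (hz u) fun e => uA (e ▸ zA)⟩
        · obtain ⟨p, ⟨p1, p2⟩, hp⟩ := exists_max_image _ id
            ((f1.union f2).subset (sep_subset _ _)) h0
          obtain ⟨q, qA, q1, q2⟩ := P2 p (hu p p1 p2)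
          exact ⟨q, qA, fun r hr hru => (hp r ⟨hr, hru⟩).trans_lt q1,
            lt_of_le_of_ne (q2 u p2) fun e => uA (e ▸ qA)⟩
      refine ih _ s2 (f1.sdiff.insert u') f2 ?_ ?_ (sup_move J u2 hl hr y1 y2) y2
      · rintro x ⟨rfl | hx, hx2⟩
        · exact a'
        · exact hi ⟨hx.1, hx2⟩
      · have hs : (insert u' (s1 \ {u}) ∪ s2) \ A ⊆ ((s1 ∪ s2) \ A) \ {u} := by
          rintro x ⟨(rfl | hx) | hx, xA⟩
          · exact absurd a' xA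
          · exact ⟨⟨Or.inl hx.1, xA⟩, hx.2⟩
          · exact ⟨⟨Or.inr hx, xA⟩, fun e => u2 ((show x = u from e) ▸ hx)⟩
        have h1 := ncard_le_ncard hs ((f1.union f2).sdiff.sdiff)
        have h2 := ncard_sdiff_singleton_lt_of_mem (s := (s1 ∪ s2) \ A) (a := u) ⟨Or.inl u1, uA⟩
          (f1.union f2).sdiff
        omega
    intro s1 s2 f1 f2 hi hn y1 y2
    rcases ((s1 ∪ s2) \ A).eq_empty_or_nonempty with h0 | h0
    · exact ih s1 s2 f1 f2 hi (by rw [h0]; simp) y1 y2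
    · obtain ⟨u, ⟨u1, uA⟩, hu⟩ := exists_min_image _ id (f1.union f2).sdiff h0
      have hp : ∀ p ∈ s1 ∪ s2, p < u → p ∈ A := fun p hp hpu => by
        by_contra pA
        exact (hu p ⟨hp, pA⟩).not_gt hpu
      rcases u1 with u1 | u1
      · exact step s1 s2 f1 f2 hi hn y1 y2 u u1 uA hp
      · exact step s2 s1 f2 f1 (inter_comm s1 s2 ▸ hi) (union_comm s1 s2 ▸ hn) y2 y1 u u1 uA
          (union_comm s1 s2 ▸ hp)

/-- every point has a finite support inside a given support -/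
theorem sup_fin (J : NO L1) {a X : LO} (h : Em a X) {y : J.ob X} (hy : y ∈ range (J.mp h)) :
    ∃ s : Set X, s.Finite ∧ s ⊆ range h ∧ y ∈ range (J.mp (val s)) := by
  obtain ⟨x, rfl⟩ := hy
  obtain ⟨a0, g, x0, h1, rfl⟩ := J.fin a x
  have : Finite a0 := h1
  refine ⟨range (g.trans h), finite_range _, by rintro _ ⟨p, rfl⟩; exact ⟨_, rfl⟩, ?_⟩
  exact J.range_mono (g := g.trans h) (k := val _) (by rw [L1_um, L1_um, range_val])
    ⟨x0, (J.mp_mp g h x0).symm⟩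

/-- `z ↦ (1 + z) × ω` -/
abbrev DD : NO L1 := ((cst L1 one).add tau).mul (cst L1 nat)

theorem pb_DD : DD.PB := Fu.PB.mul (Fu.PB.add (pb_cst (T' := L1) L1 one) (pb_id L1)) (pb_cst (T' := L1) L1 nat)

theorem pb_whDD (J : NO L1) : (J.wh DD).PB := by
  rintro a a1 a2 a0 h1 h2 k e y ⟨y1, y2⟩
  obtain ⟨s1, f1, r1, z1⟩ := sup_fin J (DD.mp h1) y1
  obtain ⟨s2, f2, r2, z2⟩ := sup_fin J (DD.mp h2) y2
  have := sup_core J (A := range (DD.mp k)) ⟨pr (inl ()) 0, ⟨pr (inl ()) 0, rfl⟩, fun x => ?_⟩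
    ?_ _ s1 s2 f1 f2 ((inter_subset_inter r1 r2).trans (pb_DD h1 h2 k e)) le_rfl z1 z2
  · exact J.range_mono (g := val _) (k := DD.mp k) (by rw [L1_um, L1_um, range_val]) this
  · induction x using mul_ind with | _ b m => ?_
    refine not_lt.1 fun h => ?_
    rcases pr_lt.1 h with h | ⟨-, h⟩
    · induction b using add_ind <;> simp at h
    · exact Nat.not_lt_zero _ h
  · rintro _ ⟨x, rfl⟩
    induction x using mul_ind with | _ b m => ?_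
    refine ⟨_, ⟨pr b (m + 1), rfl⟩, pr_lt.2 (Or.inr ⟨rfl, Nat.lt_succ_self m⟩), fun x hx => ?_⟩
    induction x using mul_ind with | _ b' m' => ?_
    refine not_lt.1 fun h => ?_
    rcases pr_lt.1 hx with hx | ⟨hx, hx'⟩ <;> rcases pr_lt.1 h with h | ⟨h, h'⟩
    · exact lt_asymm hx h
    · exact hx.ne' h
    · exact h.ne' hx
    · exact absurd (Nat.lt_succ_iff.1 h') (not_le.2 hx')

theorem card_ctble (J : NO L1) (hν : ℵ₀ ≤ ν) (h : J.Lev ν) (X : LO) [Countable X] :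
    #(J.ob X) ≤ ν := by
  have hs : Surjective fun p : Σ s : Finset X, J.ob (X.sub (s : Set X)) => J.mp (val _) p.2 :=
    fun y => by
      obtain ⟨s, f, -, x, e⟩ := sup_fin J (rf X) (y := y) ⟨y, J.mp_rf X y⟩
      lift s to Finset X using f
      exact ⟨⟨s, x⟩, e⟩
  refine (mk_le_of_surjective hs).trans ?_
  rw [mk_sigma]
  refine (sum_le_sum _ (fun _ => ν) fun s => h _ (inferInstanceAs (Finite (s : Set X)))).trans ?_
  rw [sum_const']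
  exact (mul_le_mul_left (mk_le_aleph0.trans hν) ν).trans (mul_eq_self hν).le

/-- paper 0.2 -/
theorem pbExt (Q : NO T) : ∃ (Q' : NO T) (_ : NT Q Q'), Q'.PB ∧
    ∀ ν : Cardinal.{0}, ℵ₀ ≤ ν → Q.Lev ν → Q'.Lev ν := by
  let η : NT tau DD := NT.mk' (fun a => ⟨fun x => pr (inr x) (0 : ℕ), fun _ _ h =>
    pr_lt.2 (Or.inl (inr.mono h))⟩) fun _ _ _ _ => rfl
  let s : En T := En.lift ⟨DD, η⟩ T
  refine ⟨((Q.wh (xiF T)).wh DD).wh (uF T), ⟨fun a => Q.mp (s.η.app a), (NT.ap Q s.η).nat⟩,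
    Fu.PB.wh (pb_whDD _) (pb_uF T), fun ν hν h a ha => ?_⟩
  have : Countable (DD.ob (T.U a)) := inferInstanceAs (Countable ((Unit ⊕ T.U a) × ℕ))
  exact card_ctble (Q.wh (xiF T)) hν (fun z hz => h _ (T.xi_fin z hz)) _

end

end Pool.Agent.P.MP_860a31_lc.H
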