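import Pool.Agent.P.MP_860a31_lc.H.Pb

/-!
The cut of a natural order at the place where appended arguments go.
-/

open Cardinal hiding univ
open Set Order Function

namespace Pool.Agent.P.MP_860a31_lc.H

open LO E Fu

namespace StdP

/-- a way of appending a second order to the first -/
structure Sh where
  G : NO L2
  ι1 : NT v1 G
  ι2 : NT v2 G

/-- appending on top -/
@[reducible] def shT : Sh := ⟨v1.add v2, NT.inl v1 v2, NT.inr v1 v2⟩

/-- appending below -/
@[reducible] def shB : Sh := ⟨v2.add v1, NT.inr v2 v1, NT.inl v2 v1⟩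

namespace Sh

variable (s : Sh) {I I' : NO L1} (η : NT tau I)

/-- the shift by `X` -/
abbrev sh (X : NO L1) : Fu L1 L1 := s.G.wh (tau.pair X)

/-- old points -/
def od (I : NO L1) (a X : LO) : Em (I.ob a) (I.ob (s.G.ob (a, X))) := I.mp (s.ι1.app (a, X))

/-- appended points -/
def nw (a X : LO) : Em X (I.ob (s.G.ob (a, X))) := (s.ι2.app (a, X)).trans (η.app _)

theorem mp_od {a b X Y : LO} (f : Em a b) (g : Em X Y) (y : I.ob a) :
    I.mp (s.G.mp (a := (a, X)) (b := (b, Y)) (f, g)) (s.od I a X y) = s.od I b Y (I.mp f y) :=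
  I.mp_sq (fun z => (s.ι1.nat' (a := (a, X)) (b := (b, Y)) (f, g) z).symm) y

theorem mp_nw {a b X Y : LO} (f : Em a b) (g : Em X Y) (x : X) :
    I.mp (s.G.mp (a := (a, X)) (b := (b, Y)) (f, g)) (s.nw η a X x) = s.nw η b Y (g x) :=
  (η.nat' _ _).symm.trans
    (congrArg (η.app _) (s.ι2.nat' (a := (a, X)) (b := (b, Y)) (f, g) x).symm)

/-- points below the appended ones -/
def lo (a : LO) : Set (I.ob a) := {y | s.od I a one y < s.nw η a one ()}

/-- points above the appended ones -/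
def hi (a : LO) : Set (I.ob a) := {y | s.nw η a one () < s.od I a one y}

theorem lo_iff {a b X : LO} (f : Em a b) (x : X) (y : I.ob a) :
    y ∈ s.lo η a ↔ s.od I b X (I.mp f y) < s.nw η b X x := by
  rw [← s.mp_od f (pt x), show s.nw η b X x = _ from (s.mp_nw η f (pt x) ()).symm, Em.lt_iff]
  rfl

theorem hi_iff {a b X : LO} (f : Em a b) (x : X) (y : I.ob a) :
    y ∈ s.hi η a ↔ s.nw η b X x < s.od I b X (I.mp f y) := by
  rw [← s.mp_od f (pt x), show s.nw η b X x = _ from (s.mp_nw η f (pt x) ()).symm, Em.lt_iff]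
  rfl

theorem lo_lt {a X : LO} (x : X) {y : I.ob a} (h : y ∈ s.lo η a) :
    s.od I a X y < s.nw η a X x := by
  have := (s.lo_iff η (rf a) x y).1 h
  rwa [show I.mp (rf a) y = y from I.mp_rf a y] at this

theorem lt_hi {a X : LO} (x : X) {y : I.ob a} (h : y ∈ s.hi η a) :
    s.nw η a X x < s.od I a X y := by
  have := (s.hi_iff η (rf a) x y).1 h
  rwa [show I.mp (rf a) y = y from I.mp_rf a y] at this

theorem lo_or_hi (a : LO) (y : I.ob a) : y ∈ s.lo η a ∨ y ∈ s.hi η a := by
  refine lt_or_gt_of_ne fun e => ?_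
  have k : ∀ x : LO.fin 2, s.od I a (LO.fin 2) (I.mp (rf a) y) = s.nw η a (LO.fin 2) x :=
    fun x => by rw [← s.mp_od (rf a) (pt x), e, s.mp_nw]; rfl
  exact absurd ((s.nw η a (LO.fin 2)).inj ((k 0).symm.trans (k 1))) (by decide)

/-- the lower part -/
@[reducible] def A : NO L1 := I.sub (s.lo η)
  (fun _ _ f y h => (s.lo_iff η (X := one) f () y).1 h)
  fun a y h => by
    obtain ⟨a0, f, y0, h1, rfl⟩ := I.fin a y
    exact ⟨a0, f, y0, h1, (s.lo_iff η (X := one) f () y0).2 h, rfl⟩

/-- the upper part -/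
@[reducible] def B : NO L1 := I.sub (s.hi η)
  (fun _ _ f y h => (s.hi_iff η (X := one) f () y).1 h)
  fun a y h => by
    obtain ⟨a0, f, y0, h1, rfl⟩ := I.fin a y
    exact ⟨a0, f, y0, h1, (s.hi_iff η (X := one) f () y0).2 h, rfl⟩

/-- the two parts make up the order -/
@[reducible] def ct : NT ((s.A η).add (s.B η)) I :=
  NT.elim (NT.val I _ _ _) (NT.val I _ _ _) fun a x y =>
    (s.od I a one).lt_iff.1 (lt_trans x.2 y.2)

theorem ct_surj (a : LO) (y : I.ob a) : ∃ z, (s.ct η).app a z = y := by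
  rcases s.lo_or_hi η a y with h | h
  · exact ⟨inl ⟨y, h⟩, rfl⟩
  · exact ⟨inr ⟨y, h⟩, rfl⟩

theorem ct_full (h : I.PB) (n : NT I I') : ((s.ct η).trans n).Full := by
  rintro a b f y ⟨z, hz⟩
  obtain ⟨x, rfl⟩ := h.full n a b f y ⟨_, hz⟩
  obtain ⟨w, rfl⟩ := s.ct_surj η a x
  exact ⟨w, rfl⟩

/-- an order inside the cut embeds in the shifted order -/
def em (a X : LO) : Em (((s.A η).ob a).add (X.add ((s.B η).ob a))) (I.ob (s.G.ob (a, X))) :=
  elim ((val _).trans (s.od I a X)) (elim (s.nw η a X) ((val _).trans (s.od I a X))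
    fun x y => s.lt_hi η x y.2) fun x y => by
      induction y using add_ind with
      | l y => exact s.lo_lt η y x.2
      | r y => exact (s.od I a X).mono ((s.od I a one).lt_iff.1 (lt_trans x.2 y.2))

/-- the same, as a map of natural orders -/
@[reducible] def emN (X : NO L1) : NT ((s.A η).add (X.add (s.B η))) (I.wh (s.sh X)) :=
  NT.mk' (fun a => s.em η a (X.ob a)) fun _ _ f y => by
    induction y using add_ind with
    | l y => exact (s.mp_od f (X.mp f) y.1).symm
    | r y =>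
      induction y using add_ind with
      | l y => exact (s.mp_nw η f (X.mp f) y).symm
      | r y => exact (s.mp_od f (X.mp f) y.1).symm

theorem em_old (a X : LO) (z : ((s.A η).add (s.B η)).ob a) :
    s.em η a X (amap (rf _) inr z) = s.od I a X ((s.ct η).app a z) := by
  induction z using add_ind <;> rfl

theorem app_od (n : NT I I') (a X : LO) (y : I.ob a) :
    n.app _ (s.od I a X y) = s.od I' a X (n.app a y) := n.nat' _ y

theorem lo_app (n : NT I I') (a : LO) (y : I.ob a) :
    n.app a y ∈ s.lo (η.trans n) a ↔ y ∈ s.lo η a := by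
  change s.od I' a one _ < n.app _ (s.nw η a one ()) ↔ _
  rw [← s.app_od, Em.lt_iff]; rfl

theorem hi_app (n : NT I I') (a : LO) (y : I.ob a) :
    n.app a y ∈ s.hi (η.trans n) a ↔ y ∈ s.hi η a := by
  change n.app _ (s.nw η a one ()) < s.od I' a one _ ↔ _
  rw [← s.app_od, Em.lt_iff]; rfl

/-- the map of lower parts -/
@[reducible] def mA (n : NT I I') : NT (s.A η) (s.A (η.trans n)) :=
  NT.mk' (fun a => ⟨fun y => ⟨n.app a y.1, (s.lo_app η n a y.1).2 y.2⟩,
    fun _ _ h => (n.app a).mono h⟩) fun _ _ f y => Subtype.ext (n.nat' f y.1)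

/-- the map of upper parts -/
@[reducible] def mB (n : NT I I') : NT (s.B η) (s.B (η.trans n)) :=
  NT.mk' (fun a => ⟨fun y => ⟨n.app a y.1, (s.hi_app η n a y.1).2 y.2⟩,
    fun _ _ h => (n.app a).mono h⟩) fun _ _ f y => Subtype.ext (n.nat' f y.1)

theorem app_ct (n : NT I I') (a : LO) (z : ((s.A η).add (s.B η)).ob a) :
    n.app a ((s.ct η).app a z) =
      (s.ct (η.trans n)).app a (amap ((s.mA η n).app a) ((s.mB η n).app a) z) := by
  induction z using add_ind <;> rfl

theorem app_em (n : NT I I') (a X : LO) (z : ((s.A η).ob a).add (X.add ((s.B η).ob a))) :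
    n.app _ (s.em η a X z) =
      s.em (η.trans n) a X (amap ((s.mA η n).app a) (amap (rf X) ((s.mB η n).app a)) z) := by
  induction z using add_ind with
  | l y => exact s.app_od n a X y.1
  | r y =>
    induction y using add_ind with
    | l y => rfl
    | r y => exact s.app_od n a X y.1

/-- the two moves behind the standard amalgam -/
theorem gen {K : KC} (S : PS K) {I0 I1 I2 I3 : NO L1} (h0 : I0.PB) (h2 : I2.PB) (η : NT tau I0)
    (n1 : NT I0 I1) (n2 : NT I0 I2) (m1 : NT I1 I3) (m2 : NT I2 I3)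
    (hc : ∀ a y, m1.app a (n1.app a y) = m2.app a (n2.app a y))
    (hp : ∀ a y, m1.app a y ∈ range (m2.app a) → y ∈ range (n1.app a)) :
    ∃ (V : NO L1) (χ : Mp (S.P.wh I1) ((S.P.wh I0).wh (s.sh V)))
      (u : Mp (S.P.wh I3) ((S.P.wh I2).wh (s.sh V))),
      (∀ a x, χ a (S.P.mp (n1.app a) x) = S.P.mp (s.od I0 a (V.ob a)) x) ∧
      (∀ a x, u a (S.P.mp (m2.app a) x) = S.P.mp (s.od I2 a (V.ob a)) x) ∧
      ∀ a x, u a (S.P.mp (m1.app a) x) = S.P.mp (n2.app _) (χ a x) := by
  let η2 := η.trans n2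
  let V : NO L1 := S.O.wh ((s.A η2).pair ((s.B η2).pair I3))
  let V0 : NO L1 := S.O.wh ((s.A η).pair ((s.B η).pair I1))
  let o : NT V0 V := NT.ap S.O ((s.mA η n2).pair ((s.mB η n2).pair m1))
  let u2 := S.uni _ _ I3 ((s.ct η2).trans m2) (s.ct_full η2 h2 m2)
  let u0 := S.uni _ _ I1 ((s.ct η).trans n1) (s.ct_full η h0 n1)
  have old : ∀ {I J : NO L1} (η : NT tau I) (n : NT I J) (a X : LO)
      (g : Em (S.O.ob ((s.A η).ob a, (s.B η).ob a, J.ob a)) X) x,
      S.P.mp (s.em η a X) (S.P.mp (amap (rf _) (amap g (rf _)))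
        (S.u _ _ _ (((s.ct η).trans n).app a) (S.P.mp (n.app a) x))) = S.P.mp (s.od I a X) x := by
    intro I J η n a X g x
    obtain ⟨z, rfl⟩ := S.P.surj (f := (s.ct η).app a) (s.ct_surj η a) x
    rw [S.P.mp_comp ((s.ct η).app a)]
    refine (congrArg _ (congrArg _ (S.u_old _ _ _ _ z))).trans ?_
    rw [S.P.mp_comp (amap (rf _) inr)]
    exact S.P.mp_sq (fun w => by induction w using add_ind <;> rfl) z
  refine ⟨V, (u0.trans (S.P.nt ((NT.rfl' _).add (o.add (NT.rfl' _))))).trans (S.P.nt (s.emN η V)),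
    u2.trans (S.P.nt (s.emN η2 V)), fun a x => old η n1 a _ _ x, fun a x => ?_, fun a x => ?_⟩
  · refine Eq.trans (congrArg (S.P.mp (s.em η2 a (V.ob a))) ?_) (old η2 m2 a _ (rf _) x)
    exact (S.P.mp_self (fun w => by
      induction w using add_ind with
      | l w => rfl
      | r w => induction w using add_ind <;> rfl) _).symm
  · have := S.u_nat (((s.ct η).trans n1).app a) (((s.ct η2).trans m2).app a) ((s.mA η n2).app a)
      ((s.mB η n2).app a) (m1.app a)
      (fun z => (hc a _).trans (congrArg (m2.app a) (s.app_ct η n2 a z)))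
      (fun y ⟨z, hz⟩ => by
        obtain ⟨w, rfl⟩ := hp a y ⟨_, hz⟩
        obtain ⟨w', rfl⟩ := s.ct_surj η a w
        exact ⟨w', rfl⟩) x
    refine (congrArg (S.P.mp (s.em η2 a (V.ob a))) this).trans ?_
    change _ = S.P.mp (n2.app _) (S.P.mp (s.em η a (V.ob a)) (S.P.mp _ _))
    rw [S.P.mp_comp, S.P.mp_comp, S.P.mp_comp]
    refine S.P.mp_congr (fun w => ?_) _
    refine Eq.trans ?_ (s.app_em η n2 a (V.ob a) _).symm
    induction w using add_ind with
    | l w => rfl
    | r w => induction w using add_ind <;> rfl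

end Sh

end StdP

end Pool.Agent.P.MP_860a31_lc.H
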