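import Pool.Agent.P.MP_860a31_lc.H.Nf1
import Pool.Agent.P.MP_860a31_lc.H.Cut
import Pool.Agent.P.MP_860a31_lc.H.StdC

/-!
Disjoint extensions of orders are free; symmetry.
-/

open Cardinal hiding univ
open Set Order Function

namespace Pool.Agent.P.MP_860a31_lc.H

open LO E Fu

section

variable {K : KC} (S : PS K)

theorem te_std {I I' : NO L1} (h : I.PB) (η : NT tau I) (n : NT I I') : TE (S.P.nt n) := by
  obtain ⟨V, χ, -, h1, -⟩ := StdP.shT.gen S h h η n (NT.rfl' I) (NT.rfl' I') n (fun _ _ => rfl)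
    fun _ _ r => r
  exact ⟨V, χ, h1⟩

theorem be_std {I I' : NO L1} (h : I.PB) (η : NT tau I) (n : NT I I') : BE (S.P.nt n) := by
  obtain ⟨V, χ, -, h1, -⟩ := StdP.shB.gen S h h η n (NT.rfl' I) (NT.rfl' I') n (fun _ _ => rfl)
    fun _ _ r => r
  exact ⟨V, χ, h1⟩

/-- paper STD -/
theorem std {I0 I1 I2 I3 : NO L1} (h0 : I0.PB) (h2 : I2.PB) (η : NT tau I0) (n1 : NT I0 I1)
    (n2 : NT I0 I2) (m1 : NT I1 I3) (m2 : NT I2 I3)
    (hc : ∀ a y, m1.app a (n1.app a y) = m2.app a (n2.app a y))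
    (hp : ∀ a y, m1.app a y ∈ range (m2.app a) → y ∈ range (n1.app a)) :
    NF (S.P.nt n1) (S.P.nt n2) (S.P.nt m1) (S.P.nt m2) := by
  obtain ⟨V, χ, u, h1, h3, h4⟩ := StdP.shB.gen S h0 h2 η n1 n2 m1 m2 hc hp
  refine ⟨te_std S h0 η n2, V, χ, h1, El.of_hom u ?_⟩
  rintro a _ _ (⟨x, rfl, rfl⟩ | ⟨x, rfl, rfl⟩)
  · exact h4 a x
  · exact h3 a x

variable {S}

theorem UU.te {ν : Cardinal.{0}} (hU : UU S ν) {I : NO L1} (h : I.PB) (η : NT tau I)
    {D : LF L1 K.toPC} (φ : Mp (S.P.wh I) D) (lI : I.Lev ν) (lD : D.Lev ν) : TE φ := by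
  obtain ⟨I', n, ψ, -, e⟩ := hU I D φ lI lD
  exact (te_std S h η n).pre ψ e

theorem UU.be {ν : Cardinal.{0}} (hU : UU S ν) {I : NO L1} (h : I.PB) (η : NT tau I)
    {D : LF L1 K.toPC} (φ : Mp (S.P.wh I) D) (lI : I.Lev ν) (lD : D.Lev ν) : BE φ := by
  obtain ⟨I', n, ψ, -, e⟩ := hU I D φ lI lD
  exact (be_std S h η n).pre ψ e

/-- paper SYM -/
theorem NF.sym {I : NO L1} (h : I.PB) (η : NT tau I) {E N' D : LF L1 K.toPC}
    {i : Mp (S.P.wh I) E} {j : Mp (S.P.wh I) N'} {e : Mp E D} {n : Mp N' D} (H : NF i j e n) :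
    NF j i n e := by
  obtain ⟨V, χ, hχ⟩ := H.be
  obtain ⟨W, ψ, hψ⟩ := H.te
  obtain ⟨J1, u1, p1, -, e1⟩ := topOf S h (A := I.wh (bS V)) (NT.ap I (NT.inr V tau))
  obtain ⟨J2, u2, p2, -, e2⟩ := topOf S h (A := I.wh (tS W)) (NT.ap I (NT.inl tau W))
  let m1 : NT (I.add J1) (I.add (J1.add J2)) := (NT.rfl' I).add (NT.inl J1 J2)
  let m2 : NT (I.add J2) (I.add (J1.add J2)) := (NT.rfl' I).add (NT.inr J1 J2)
  have k1 : ∀ a x, (χ.trans u1) a (i a x) = S.P.nt (NT.inl I J1) a x :=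
    fun a x => (congrArg (u1 a) (hχ a x)).trans (e1 a x)
  have k2 : ∀ a x, (ψ.trans u2) a (j a x) = S.P.nt (NT.inl I J2) a x :=
    fun a x => (congrArg (u2 a) (hψ a x)).trans (e2 a x)
  have s1 := std S h (h.add p2) η (NT.inl I J1) (NT.inl I J2) m1 m2 (fun _ _ => rfl) (by
    rintro a y ⟨z, hz⟩
    induction y using add_ind with
    | l y => exact ⟨y, rfl⟩
    | r y => induction z using add_ind <;> simp [m1, m2] at hz)
  have s2 := std S h (h.add p1) η (NT.inl I J2) (NT.inl I J1) m2 m1 (fun _ _ => rfl) (by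
    rintro a y ⟨z, hz⟩
    induction y using add_ind with
    | l y => exact ⟨y, rfl⟩
    | r y => induction z using add_ind <;> simp [m1, m2] at hz)
  have t1 : NF i j ((χ.trans u1).trans (S.P.nt m1)) ((ψ.trans u2).trans (S.P.nt m2)) :=
    s1.down (χ.trans u1) (ψ.trans u2) (Mp.rfl' _) k1 k2 (fun _ _ => rfl) fun _ _ => rfl
  exact s2.mono (ψ.trans u2) (χ.trans u1) k2 k1 (H.uq0 t1)

set_option linter.unusedVariables false in
/-- paper TR2 -/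
theorem NF.tr2 {I I1 : NO L1} (h : I.PB) (η : NT tau I) (h1 : I1.PB) (η1 : NT tau I1)
    {N' D E2 D2 : LF L1 K.toPC} {i : Mp (S.P.wh I) (S.P.wh I1)} {j : Mp (S.P.wh I) N'}
    {e : Mp (S.P.wh I1) D} {n : Mp N' D} {i' : Mp (S.P.wh I1) E2} {e' : Mp E2 D2} {n' : Mp D D2}
    (H : NF i j e n) (H' : NF i' e e' n') : NF (i.trans i') j e' (n.trans n') :=
  H.tr2' H'

end

end Pool.Agent.P.MP_860a31_lc.H
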