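import Pool.Agent.P.MP_860a31_lc.H.Fix

/-!
From a natural move of one point to the top to a natural move of all new points to the top.
-/

open Cardinal hiding univ
open Set Function

namespace Pool.Agent.P.MP_860a31_lc.H

open E

namespace UniP

variable {C : CC} {P : Fam C.toPC} {a b c : Type} [LinearOrder a] [LinearOrder b] [LinearOrder c]

variable (P) in
/-- `y` has a finite support inside `t` -/
def Sp (t : Set a) (y : C.U (P.ev a)) : Prop :=
  ∃ (n : ℕ) (s : Fin n ↪o a) (x : C.U (P.ob n)), range s ⊆ t ∧ P.evi s x = y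

theorem Sp.mono {t t' : Set a} {y : C.U (P.ev a)} (h : Sp P t y) (ht : t ⊆ t') : Sp P t' y := by
  obtain ⟨n, s, x, h1, h2⟩ := h
  exact ⟨n, s, x, h1.trans ht, h2⟩

theorem Sp.map {t : Set a} {y : C.U (P.ev a)} (h : Sp P t y) (f : a ↪o b) {t' : Set b}
    (ht : ∀ x ∈ t, f x ∈ t') : Sp P t' (P.evmap f y) := by
  obtain ⟨n, s, x, h1, rfl⟩ := h
  exact ⟨n, s.trans f, x, by rintro _ ⟨i, rfl⟩; exact ht _ (h1 ⟨i, rfl⟩), (Fam.evmap_evi f s x).symm⟩

theorem sp_univ (y : C.U (P.ev a)) : Sp P univ y := by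
  obtain ⟨n, s, x, h⟩ := Fam.evi_surj y
  exact ⟨n, s, x, subset_univ _, h⟩

theorem evmap_eq {f : a ↪o b} {g : b ↪o c} {k : a ↪o c} (h : ∀ x, g (f x) = k x)
    (y : C.U (P.ev a)) : P.evmap g (P.evmap f y) = P.evmap k y := by
  rw [Fam.evmap_evmap]
  congr 1
  ext x
  exact h x

/-- the factorisation of an embedding through one with larger range -/
theorem exists_fac {f : a ↪o c} {g : b ↪o c} (h : range f ⊆ range g) :
    ∃ k : a ↪o b, ∀ x, g (k x) = f x := by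
  choose k hk using fun x => h ⟨x, rfl⟩
  exact ⟨OrderEmbedding.ofStrictMono k fun x x' hx =>
    g.lt_iff_lt.1 (by rw [hk, hk]; exact f.strictMono hx), hk⟩

theorem Sp.pull {f : a ↪o b} {t : Set b} {y : C.U (P.ev b)} (h : Sp P t y) (ht : t ⊆ range f) :
    ∃ z, Sp P (f ⁻¹' t) z ∧ P.evmap f z = y := by
  obtain ⟨n, s, x, h1, rfl⟩ := h
  obtain ⟨k, hk⟩ := exists_fac (h1.trans ht)
  refine ⟨P.evi k x, ⟨n, k, x, ?_, rfl⟩, ?_⟩
  · rintro _ ⟨i, rfl⟩
    exact h1 ⟨i, (hk i).symm⟩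
  · rw [Fam.evmap_evi]
    congr 1
    ext i
    exact hk i

theorem sp_range {f : a ↪o b} {y : C.U (P.ev b)} : Sp P (range f) y ↔ y ∈ range (P.evmap f) :=
  ⟨fun h => (h.pull subset_rfl).imp fun _ h => h.2,
    by rintro ⟨z, rfl⟩; exact (sp_univ z).map f fun x _ => ⟨x, rfl⟩⟩

/-- a natural move of one point to the top -/
structure Move (P : Fam C.toPC) (J : F1)
    (m : ∀ (b : Type) [LinearOrder b], b → C.U (P.ev b) → C.U (P.ev (b ⊕ₗ J.ob b))) : Prop where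
  hom : ∀ (b : Type) [LinearOrder b] (x : b), C.IsH (m b x)
  fix : ∀ (a b : Type) [LinearOrder a] [LinearOrder b] (f : a ↪o b) (x : b), x ∉ range f →
    ∀ y, m b x (P.evmap f y) = P.evmap (f.trans (inlO b (J.ob b))) y
  out : ∀ (b : Type) [LinearOrder b] (x : b) y, Sp P {z | z ≠ inlO b (J.ob b) x} (m b x y)
  nat : ∀ (a b : Type) [LinearOrder a] [LinearOrder b] (f : a ↪o b) (x : a) y,
    m b (f x) (P.evmap f y) = P.evmap (sumE f (J.mp f)) (m a x y)

section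

variable {J O : F1} (cc : ∀ (a : Type) [LinearOrder a], J.ob (Amb O a) ↪o O.ob a)
  (m : ∀ (b : Type) [LinearOrder b], b → C.U (P.ev b) → C.U (P.ev (b ⊕ₗ J.ob b)))

/-- the points of the copies indexed by `F` -/
def Cp (O : F1) (F : Set a) : Set (Amb O a) :=
  {z | ∃ x ∈ F, ∃ w, z = toLex (Sum.inr (toLex (OrderDual.toDual x, w)))}

/-- the domain of the move of `x` -/
def Dm (O : F1) (x : a) : Set (Amb O a) := range (inlO a _) ∪ Cp O (Ioi x)

/-- its inclusion -/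
def dmE (O : F1) (x : a) : ↥(Dm O x) ↪o Amb O a := OrderEmbedding.subtype (· ∈ Dm O x)

theorem range_dmE (x : a) : range (dmE O x) = Dm O x := Subtype.range_coe

/-- the junk goes into the copy of `x` -/
def jk (x : a) : ↥(Dm O x) ⊕ₗ J.ob ↥(Dm O x) ↪o Amb O a :=
  OrderEmbedding.ofStrictMono (fun p => (ofLex p).elim Subtype.val fun y =>
    toLex (Sum.inr (toLex (OrderDual.toDual x, cc a (J.mp (dmE O x) y))))) fun p q h => by
    rcases p with p | p <;> rcases q with q | q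
    · exact (Sum.Lex.inl_lt_inl_iff (a := p) (b := q)).1 h
    · obtain ⟨p, ⟨z, rfl⟩ | ⟨z, hz, w, rfl⟩⟩ := p
      · exact Sum.Lex.inl_lt_inr _ _
      · exact Sum.Lex.inr_lt_inr_iff.2 (Prod.Lex.lt_iff.2 (Or.inl hz))
    · exact absurd h Sum.Lex.not_inr_lt_inl
    · exact Sum.Lex.inr_lt_inr_iff.2 (Prod.Lex.lt_iff.2 (Or.inr ⟨rfl,
        (cc a).strictMono ((J.mp _).strictMono (Sum.Lex.inr_lt_inr_iff.1 h))⟩))

/-- the moved point -/
def pt (O : F1) (x : a) : ↥(Dm O x) := ⟨inlO a _ x, Or.inl ⟨x, rfl⟩⟩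

/-- the move of `x` in the ambient order -/
noncomputable def M (x : a) (y : C.U (P.ev (Amb O a))) : C.U (P.ev (Amb O a)) :=
  P.evmap (jk cc x) (m _ (pt O x) (invFun (P.evmap (dmE O x)) y))

theorem M_ev (x : a) (y : C.U (P.ev ↥(Dm O x))) :
    M cc m x (P.evmap (dmE O x) y) = P.evmap (jk cc x) (m _ (pt O x) y) := by
  unfold M
  rw [leftInverse_invFun (C.inj (Fam.evmap_h _)) y]

/-- the composite of the moves of the points of `F`, largest first -/
noncomputable def Mf (F : Finset a) (y : C.U (P.ev (Amb O a))) : C.U (P.ev (Amb O a)) :=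
  (F.sort (· ≤ ·)).foldr (M cc m) y

theorem Mf_empty (y : C.U (P.ev (Amb O a))) : Mf cc m ∅ y = y := by
  unfold Mf; rw [Finset.sort_empty]; rfl

theorem Mf_insert {x : a} {F : Finset a} (h : ∀ z ∈ F, x < z) (y : C.U (P.ev (Amb O a))) :
    Mf cc m (insert x F) y = M cc m x (Mf cc m F y) := by
  unfold Mf
  rw [Finset.sort_insert _ (fun z hz => (h z hz).le) fun hx => (h x hx).false]
  rfl

variable {cc m}

theorem M_hom (hm : Move P J m) (x : a) {Y : C.Obj} {g : C.U Y → C.U (P.ev (Amb O a))}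
    (hg : C.IsH g) (h : ∀ y, Sp P (Dm O x) (g y)) : C.IsH fun y => M cc m x (g y) := by
  obtain ⟨k, h1, h2⟩ := PC.factor hg (Fam.evmap_h (dmE O x)) (by
    rintro _ ⟨y, rfl⟩; exact sp_range.1 ((range_dmE x).symm ▸ h y))
  exact PC.congr (C.comp h1 (C.comp (hm.hom _ (pt O x)) (Fam.evmap_h (jk cc x))))
    fun y => by rw [← h2, M_ev]

theorem M_fix (hm : Move P J m) {x : a} {t : Set (Amb O a)} (ht : t ⊆ Dm O x)
    (hx : inlO a _ x ∉ t) {y : C.U (P.ev (Amb O a))} (h : Sp P t y) : M cc m x y = y := by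
  obtain ⟨z, h1, rfl⟩ := h.pull (ht.trans (range_dmE x).ge)
  obtain ⟨w, -, rfl⟩ := h1.pull (f := OrderEmbedding.subtype (· ∈ dmE O x ⁻¹' t))
    (Subtype.range_coe (s := dmE O x ⁻¹' t)).ge
  rw [M_ev, hm.fix _ _ _ _ (by rintro ⟨p, hp⟩; exact hx (show dmE O x (pt O x) ∈ t from hp ▸ p.2)),
    Fam.evmap_evmap, Fam.evmap_evmap]
  rfl

theorem M_into (hm : Move P J m) {x : a} {t : Set (Amb O a)} (ht : t ⊆ Dm O x)
    {y : C.U (P.ev (Amb O a))} (h : Sp P t y) :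
    Sp P ((t \ {inlO a _ x}) ∪ Cp O {x}) (M cc m x y) := by
  by_cases hx : inlO a _ x ∈ t
  swap
  · rw [M_fix hm ht hx h]
    exact h.mono fun z hz => Or.inl ⟨hz, fun e => hx (e ▸ hz)⟩
  obtain ⟨z, h1, rfl⟩ := h.pull (ht.trans (range_dmE x).ge)
  obtain ⟨w, -, rfl⟩ := h1.pull (f := OrderEmbedding.subtype (· ∈ dmE O x ⁻¹' t))
    (Subtype.range_coe (s := dmE O x ⁻¹' t)).ge
  rw [M_ev, show pt O x = OrderEmbedding.subtype (· ∈ dmE O x ⁻¹' t) ⟨pt O x, hx⟩ from rfl, hm.nat,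
    Fam.evmap_evmap]
  refine (hm.out _ _ w).map _ ?_
  rintro (p | p) hp
  · exact Or.inl ⟨p.2, fun e => hp (congrArg (inlO _ _) (Subtype.ext (Subtype.ext e)))⟩
  · exact Or.inr ⟨x, rfl, _, rfl⟩

theorem amb_dm (f : a ↪o b) (x : a) {z : Amb O a} (h : z ∈ Dm O x) :
    ambE f (O.mp f) z ∈ Dm O (f x) := by
  obtain ⟨z, rfl⟩ | ⟨z, hz, w, rfl⟩ := h
  · exact Or.inl ⟨f z, rfl⟩
  · exact Or.inr ⟨f z, f.strictMono hz, _, rfl⟩

theorem M_nat (hm : Move P J m)
    (hc : ∀ (a b : Type) [LinearOrder a] [LinearOrder b] (f : a ↪o b) y,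
      O.mp f (cc a y) = cc b (J.mp (ambE f (O.mp f)) y)) (f : a ↪o b) {x : a}
    {y : C.U (P.ev (Amb O a))} (h : Sp P (Dm O x) y) :
    M cc m (f x) (P.evmap (ambE f (O.mp f)) y) = P.evmap (ambE f (O.mp f)) (M cc m x y) := by
  obtain ⟨z, -, rfl⟩ := h.pull (range_dmE x).ge
  let g : ↥(Dm O x) ↪o ↥(Dm O (f x)) := OrderEmbedding.ofStrictMono
    (fun p => ⟨_, amb_dm f x p.2⟩) fun _ _ h => (ambE f (O.mp f)).strictMono h
  rw [M_ev, Fam.evmap_evmap, ← evmap_eq (f := g) (g := dmE O (f x)) (fun _ => rfl), M_ev,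
    show pt O (f x) = g (pt O x) from rfl, hm.nat, Fam.evmap_evmap, Fam.evmap_evmap]
  congr 1
  ext p
  rcases p with p | p
  · rfl
  · refine congrArg (fun z => toLex (Sum.inr z)) (Prod.ext rfl ?_)
    exact (congrArg (cc b) ((J.mp_comp g (dmE O (f x)) p).trans
      (J.mp_comp (dmE O x) (ambE f (O.mp f)) p).symm)).trans (hc a b f _).symm

theorem sub_dm {x : a} {F : Finset a} (h : ∀ z ∈ F, x < z) {t : Set a} :
    inlO a _ '' (t \ F) ∪ Cp O F ⊆ Dm O x := by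
  rintro _ (⟨z, -, rfl⟩ | ⟨z, hz, w, rfl⟩)
  · exact Or.inl ⟨z, rfl⟩
  · exact Or.inr ⟨z, h z hz, w, rfl⟩

theorem Mf_into (hm : Move P J m) {t : Set a} {y : C.U (P.ev (Amb O a))}
    (h : Sp P (inlO a _ '' t) y) (F : Finset a) :
    Sp P (inlO a _ '' (t \ F) ∪ Cp O F) (Mf cc m F y) := by
  induction F using Finset.induction_on_min with
  | empty => rw [Mf_empty]; exact h.mono fun z hz => Or.inl (by simpa using hz)
  | insert x F hx ih =>
    rw [Mf_insert _ _ hx]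
    refine (M_into hm (sub_dm hx) ih).mono ?_
    rintro _ (⟨⟨z, hz, rfl⟩ | ⟨z, hz, w, rfl⟩, h2⟩ | ⟨z, rfl, w, rfl⟩)
    · refine Or.inl ⟨z, ⟨hz.1, fun e => ?_⟩, rfl⟩
      rcases Finset.mem_insert.1 e with rfl | e
      exacts [h2 rfl, hz.2 e]
    · exact Or.inr ⟨z, Finset.mem_insert_of_mem hz, w, rfl⟩
    · exact Or.inr ⟨z, Finset.mem_insert_self _ _, w, rfl⟩

theorem Mf_hom (hm : Move P J m) (F : Finset a) :
    C.IsH fun y => Mf cc m F (P.evmap (inlO a _) y) := by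
  induction F using Finset.induction_on_min with
  | empty => exact PC.congr (Fam.evmap_h _) fun y => (Mf_empty _ _ _).symm
  | insert x F hx ih =>
    exact PC.congr (M_hom hm x ih fun y => (Mf_into hm (t := univ)
      ((sp_univ y).map _ fun z hz => ⟨z, hz, rfl⟩) F).mono (sub_dm hx))
      fun y => (Mf_insert _ _ hx _).symm

theorem Mf_filter (hm : Move P J m) {t : Set a} [DecidablePred (· ∈ t)]
    {y : C.U (P.ev (Amb O a))} (h : Sp P (inlO a _ '' t) y) (F : Finset a) :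
    Mf cc m F y = Mf cc m (F.filter (· ∈ t)) y := by
  induction F using Finset.induction_on_min with
  | empty => rfl
  | insert x F hx ih =>
    rw [Mf_insert _ _ hx, Finset.filter_insert]
    split_ifs with e
    · rw [Mf_insert _ _ fun z hz => hx z (Finset.mem_filter.1 hz).1, ih]
    · rw [M_fix hm (sub_dm hx) ?_ (Mf_into hm h F), ih]
      rintro (⟨z, hz, e'⟩ | ⟨z, -, w, e'⟩)
      · exact e ((inlO a _).injective e' ▸ hz.1)
      · exact Sum.inl_ne_inr e'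

theorem Mf_nat (hm : Move P J m)
    (hc : ∀ (a b : Type) [LinearOrder a] [LinearOrder b] (f : a ↪o b) y,
      O.mp f (cc a y) = cc b (J.mp (ambE f (O.mp f)) y)) (f : a ↪o b)
    (y : C.U (P.ev a)) (F : Finset a) :
    Mf cc m (F.image f) (P.evmap (inlO b _) (P.evmap f y)) =
      P.evmap (ambE f (O.mp f)) (Mf cc m F (P.evmap (inlO a _) y)) := by
  induction F using Finset.induction_on_min with
  | empty =>
    rw [Finset.image_empty, Mf_empty, Mf_empty, Fam.evmap_evmap, Fam.evmap_evmap]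
    rfl
  | insert x F hx ih =>
    rw [Finset.image_insert, Mf_insert _ _ hx, Mf_insert _ _ fun z hz => by
      obtain ⟨w, hw, rfl⟩ := Finset.mem_image.1 hz
      exact f.strictMono (hx w hw), ih]
    exact M_nat hm hc f ((Mf_into hm (t := univ)
      ((sp_univ y).map _ fun z hz => ⟨z, hz, rfl⟩) F).mono (sub_dm hx))

end

/-- the functor `a ↦ aᵒᵈ ×ₗ O a` -/
@[reducible] def opx (O : F1) : F1 where
  ob a _ := aᵒᵈ ×ₗ O.ob a
  lo _ _ := inferInstance
  mp f := prodE f.dual (O.mp f)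
  mp_comp f g y := Prod.ext rfl (O.mp_comp f g _)
  fin a _ y := by
    obtain ⟨k, t, h1, h2⟩ := fin_many O (ι := Unit) (fun _ => (ofLex y).2)
      fun _ => OrderDual.ofDual (ofLex y).1
    obtain ⟨u, hu⟩ := h1 ()
    obtain ⟨v, hv⟩ := h2 ()
    exact ⟨k, t, toLex (OrderDual.toDual v, u), Prod.ext (congrArg OrderDual.toDual hv) hu⟩

end UniP

open UniP

/-- all new points can be moved to the top, naturally for pullback squares -/
theorem uniTop {C : CC} (P : Fam C.toPC) (J : F1) {κ : Cardinal.{0}} (hκ : ℵ₀ ≤ κ)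
    (hJ : ∀ n, #(J.ob (Fin n)) ≤ κ)
    (m : ∀ (b : Type) [LinearOrder b], b → C.U (P.ev b) → C.U (P.ev (b ⊕ₗ J.ob b)))
    (hm : Move P J m) :
    ∃ O : F1, (∀ n, #(O.ob (Fin n)) ≤ κ) ∧
      ∃ u : ∀ (a A : Type) [LinearOrder a] [LinearOrder A], (a ↪o A) →
          C.U (P.ev A) → C.U (P.ev (a ⊕ₗ O.ob A)),
        (∀ (a A : Type) [LinearOrder a] [LinearOrder A] (i : a ↪o A), C.IsH (u a A i)) ∧
        (∀ (a A : Type) [LinearOrder a] [LinearOrder A] (i : a ↪o A) y,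
          u a A i (P.evmap i y) = P.evmap (inlO a (O.ob A)) y) ∧
        ∀ (a A b B : Type) [LinearOrder a] [LinearOrder A] [LinearOrder b] [LinearOrder B]
          (i : a ↪o A) (j : b ↪o B) (g : a ↪o b) (f : A ↪o B), (∀ x, f (i x) = j (g x)) →
          (∀ x, f x ∈ range j → x ∈ range i) →
          ∀ y, u b B j (P.evmap f y) = P.evmap (sumE g (O.mp f)) (u a A i y) := by
  classical
  obtain ⟨O, cc, hO, hc⟩ := exists_fix J hκ hJ
  let F : ∀ {a A : Type} [LinearOrder a] [LinearOrder A] (i : a ↪o A) {n : ℕ} (s : Fin n ↪o A),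
      Finset A := fun i _ s => (Finset.univ.image s).filter (· ∉ range i)
  have sp : ∀ {A : Type} [LinearOrder A] {n : ℕ} (s : Fin n ↪o A) (x : C.U (P.ob n)),
      Sp P (inlO A (Aᵒᵈ ×ₗ O.ob A) '' range s) (P.evmap (inlO A _) (P.evi s x)) :=
    fun s x => Sp.map ⟨_, s, x, subset_rfl, rfl⟩ _ fun z hz => ⟨z, hz, rfl⟩
  have ex : ∀ (a A : Type) [LinearOrder a] [LinearOrder A] (i : a ↪o A),
      ∃ u : C.U (P.ev A) → C.U (P.ev (a ⊕ₗ (opx O).ob A)), C.IsH u ∧
        ∀ n (s : Fin n ↪o A) x, P.evmap (sumE i (RelEmbedding.refl _)) (u (P.evi s x)) =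
          Mf cc m (F i s) (P.evmap (inlO A _) (P.evi s x)) := by
    intro a A _ _ i
    obtain ⟨k, h1, h2⟩ := Fam.ev_lift (P := P)
      (fun n (s : Fin n ↪o A) x => Mf cc m (F i s) (P.evmap (inlO A _) (P.evi s x)))
      (fun n s => C.comp (g := fun y => Mf cc m (F i s) (P.evmap (inlO A _) y)) (Fam.evi_h s)
        (Mf_hom hm (F i s))) fun e s x => by
        rw [Fam.evi_mp, Mf_filter hm (sp (e.trans s) x)]
        congr 1
        ext z
        simp only [F, Finset.mem_filter, Finset.mem_image, Finset.mem_univ, true_and]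
        exact ⟨fun h => ⟨h.2, h.1.2⟩, fun h => ⟨⟨h.1.elim fun l hl => ⟨e l, hl⟩, h.2⟩, h.1⟩⟩
    obtain ⟨u, h3, h4⟩ := PC.factor h1 (Fam.evmap_h (P := P)
      (sumE i (RelEmbedding.refl _ : (opx O).ob A ↪o (opx O).ob A))) (by
        rintro _ ⟨y, rfl⟩
        obtain ⟨n, s, x, rfl⟩ := Fam.evi_surj y
        rw [h2]
        refine sp_range.1 ((Mf_into hm (sp s x) _).mono ?_)
        rintro _ (⟨_, ⟨⟨l, rfl⟩, hz⟩, rfl⟩ | ⟨z, -, w, rfl⟩)
        · obtain ⟨z, hz⟩ : s l ∈ range i := by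
            by_contra hn
            exact hz (Finset.mem_filter.2 ⟨Finset.mem_image_of_mem _ (Finset.mem_univ l), hn⟩)
          exact ⟨inlO _ _ z, congrArg (inlO A _) hz⟩
        · exact ⟨toLex (Sum.inr _), rfl⟩)
    exact ⟨u, h3, fun n s x => (h4 _).trans (h2 n s x)⟩
  choose u h1 h2 using ex
  refine ⟨opx O, fun n => ?_, u, h1, fun a A _ _ i y => ?_, fun a A b B _ _ _ _ i j g f e1 e2 y => ?_⟩
  · change #(Fin n × O.ob (Fin n)) ≤ κ
    rw [mk_prod, lift_id, lift_id]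
    exact mul_le_of_le hκ (mk_le_aleph0.trans hκ) (hO n)
  · obtain ⟨n, s, x, rfl⟩ := Fam.evi_surj y
    refine C.inj (Fam.evmap_h (sumE i (RelEmbedding.refl _))) ?_
    have : F i (s.trans i) = ∅ := Finset.filter_eq_empty_iff.2 fun z hz hn => by
      obtain ⟨l, -, rfl⟩ := Finset.mem_image.1 hz
      exact hn ⟨s l, rfl⟩
    rw [Fam.evmap_evi, h2, this, Mf_empty, Fam.evmap_evi, Fam.evmap_evi, Fam.evmap_evi]
    rfl
  · obtain ⟨n, s, x, rfl⟩ := Fam.evi_surj y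
    refine C.inj (Fam.evmap_h (sumE j (RelEmbedding.refl _))) ?_
    have : F j (s.trans f) = (F i s).image f := by
      ext z
      simp only [F, Finset.mem_filter, Finset.mem_image, Finset.mem_univ, true_and]
      constructor
      · rintro ⟨⟨l, rfl⟩, hn⟩
        exact ⟨s l, ⟨⟨l, rfl⟩, fun ⟨w, hw⟩ => hn ⟨g w, (e1 w).symm.trans (congrArg f hw)⟩⟩, rfl⟩
      · rintro ⟨_, ⟨⟨l, rfl⟩, hn⟩, rfl⟩
        exact ⟨⟨l, rfl⟩, fun h => hn (e2 _ h)⟩
    rw [Fam.evmap_evi, h2, this, ← Fam.evmap_evi f s, Mf_nat hm hc, ← h2, Fam.evmap_evmap,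
      Fam.evmap_evmap]
    congr 1
    ext p
    rcases p with p | p
    · exact congrArg (inlO B _) (e1 p)
    · rfl

end Pool.Agent.P.MP_860a31_lc.H
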