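import Pool.Agent.P.MP_860a31_lc.E.Idx

/-!
From local character for small closed sets to a chain of closed sets with good steps.
-/

open Cardinal hiding univ
open Set Order Filter

namespace Pool.Agent.P.MP_860a31_lc.H

open E

/-- continuous increasing chains of sets -/
structure SCh {Λ α : Type} [LinearOrder Λ] (c : Λ → Set α) : Prop where
  mono : Monotone c
  cont : ∀ δ, IsSuccLimit δ → ∀ x ∈ c δ, ∃ a < δ, x ∈ c a

namespace UpP

variable {α : Type}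

theorem card_union {ι : Type} (f : ι → Set α) {ν : Cardinal.{0}} (hν : ℵ₀ ≤ ν) (hι : #ι ≤ ν)
    (h : ∀ i, #(f i) ≤ ν) : #(⋃ i, f i) ≤ ν :=
  (mk_iUnion_le f).trans (mul_le_of_le hν hι (ciSup_le' h))

/-- iteration of an inflationary operation -/
theorem exists_sch (θ : Cardinal.{0}) (T : Set α) (nx : Set α → Set α) (h : ∀ S, S ⊆ nx S) :
    ∃ c : W θ → Set α, SCh c ∧ c ⊥ = T ∧ ∀ i, c (succ i) = nx (c i) := by
  let c : W θ → Set α := fun b => SuccOrder.limitRecOn (motive := fun _ => Set α) b (fun _ _ => T)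
    (fun _ _ S => nx S) fun a _ f => ⋃ x : Iio a, f x.1 x.2
  have h1 : ∀ i, c (succ i) = nx (c i) := fun i => SuccOrder.limitRecOn_succ ..
  have h2 : ∀ δ, IsSuccLimit δ → c δ = ⋃ x : Iio δ, c x.1 := fun δ hδ =>
    SuccOrder.limitRecOn_of_isSuccLimit _ _ _ hδ
  refine ⟨c, ⟨fun a b hab => ?_, fun δ hδ x hx => ?_⟩,
    SuccOrder.limitRecOn_isMin _ _ _ isMin_bot, h1⟩
  · induction b using SuccOrder.limitRecOn with
    | isMin b hb => exact (hab.antisymm (hb hab)) ▸ subset_rfl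
    | succ b _ ih =>
      rcases hab.eq_or_lt with rfl | hab
      · exact subset_rfl
      · exact (ih (lt_succ_iff.1 hab)).trans (h1 b ▸ h _)
    | isSuccLimit b hb _ =>
      rcases hab.eq_or_lt with rfl | hab
      · exact subset_rfl
      · rw [h2 b hb]; exact subset_iUnion (fun x : Iio b => c x.1) ⟨a, hab⟩
  · rw [h2 δ hδ] at hx
    obtain ⟨a, ha⟩ := mem_iUnion.1 hx
    exact ⟨a.1, a.2, ha⟩

theorem SCh.lim {Λ : Type} [LinearOrder Λ] {c : Λ → Set α} (h : SCh c) {δ : Λ}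
    (hδ : IsSuccLimit δ) : c δ = ⋃ x : Iio δ, c x.1 := by
  refine Subset.antisymm (fun x hx => ?_) (iUnion_subset fun a => h.mono a.2.le)
  obtain ⟨a, ha, hx⟩ := h.cont δ hδ x hx
  exact mem_iUnion.2 ⟨⟨a, ha⟩, hx⟩

/-- an enumeration of a set by initial pieces -/
theorem exists_enum {μ : Cardinal.{0}} (hμ : ℵ₀ ≤ μ) (S : Set α) (hS : #S ≤ μ) :
    ∃ e : W μ → Set α, SCh e ∧ e ⊥ = ∅ ∧ (∀ j, #(e j) ≤ #(Iio j)) ∧ ⋃ j, e j = S := by
  obtain ⟨f⟩ := (Cardinal.le_def _ _).1 (hS.trans (W.card hμ).ge)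
  refine ⟨fun j => {x | ∃ h : x ∈ S, f ⟨x, h⟩ < j}, ⟨fun a b hab x ⟨h, hx⟩ => ⟨h, hx.trans_le hab⟩,
    fun δ hδ x ⟨h, hx⟩ => ⟨_, hδ.succ_lt hx, h, lt_succ _⟩⟩, ?_, fun j => ?_, ?_⟩
  · exact eq_empty_of_forall_notMem fun x ⟨_, hx⟩ => not_lt_bot hx
  · refine mk_le_of_injective (f := fun x => ⟨f ⟨x.1, x.2.1⟩, x.2.2⟩) fun x y h => ?_
    exact Subtype.ext (congrArg (fun z : S => z.1) (f.injective (congrArg Subtype.val h)))
  · ext x
    exact ⟨fun hx => (mem_iUnion.1 hx).elim fun _ h => h.1,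
      fun hx => mem_iUnion.2 ⟨succ (f ⟨x, hx⟩), hx, lt_succ _⟩⟩

/-- the union of the values on finite subsets -/
def w (u : Finset α → Set α) (A : Set α) : Set α := ⋃ a : {a : Finset α // (a : Set α) ⊆ A}, u a.1

theorem mem_w {u : Finset α → Set α} {A : Set α} {x : α} :
    x ∈ w u A ↔ ∃ a : Finset α, (a : Set α) ⊆ A ∧ x ∈ u a :=
  mem_iUnion.trans ⟨fun ⟨a, h⟩ => ⟨a.1, a.2, h⟩, fun ⟨a, h, h'⟩ => ⟨⟨a, h⟩, h'⟩⟩

theorem w_mono (u : Finset α → Set α) {A B : Set α} (h : A ⊆ B) : w u A ⊆ w u B := fun _ hx => by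
  obtain ⟨a, ha, hx⟩ := mem_w.1 hx
  exact mem_w.2 ⟨a, ha.trans h, hx⟩

theorem w_union (u : Finset α → Set α) {ι : Type} [LinearOrder ι] [Nonempty ι] {c : ι → Set α}
    (hc : Monotone c) : ⋃ i, w u (c i) = w u (⋃ i, c i) := by
  refine Subset.antisymm (iUnion_subset fun i => w_mono u (subset_iUnion c i)) fun x hx => ?_
  obtain ⟨a, ha, hx⟩ := mem_w.1 hx
  obtain ⟨i, hi⟩ := hc.directed_le.exists_mem_subset_of_finset_subset_biUnion ha
  exact mem_iUnion.2 ⟨i, mem_w.2 ⟨a, hi, hx⟩⟩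

theorem w_sch (u : Finset α → Set α) {Λ : Type} [LinearOrder Λ] {c : Λ → Set α} (h : SCh c) :
    SCh fun i => w u (c i) := by
  refine ⟨fun a b hab => w_mono u (h.mono hab), fun δ hδ x hx => ?_⟩
  obtain ⟨a, ha⟩ := not_isMin_iff.1 hδ.not_isMin
  have : Nonempty (Iio δ) := ⟨⟨a, ha⟩⟩
  rw [SCh.lim h hδ, ← w_union u (c := fun x : Iio δ => c x.1) fun _ _ hab => h.mono hab] at hx
  obtain ⟨b, hb⟩ := mem_iUnion.1 hx
  exact ⟨b.1, b.2, hb⟩

theorem card_w {u : Finset α → Set α} {ν : Cardinal.{0}} (hν : ℵ₀ ≤ ν) (hu : ∀ a, #(u a) ≤ ν)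
    {A : Set α} (hA : #A ≤ ν) : #(w u A) ≤ ν := by
  classical
  refine card_union _ hν ?_ fun a => hu a.1
  refine (mk_le_of_surjective (f := fun l : List A => (⟨(l.map Subtype.val).toFinset, fun x hx => ?_⟩ :
    {a : Finset α // (a : Set α) ⊆ A})) ?_).trans ((mk_list_le_max A).trans (max_le hν hA))
  · obtain ⟨y, -, rfl⟩ := List.mem_map.1 (List.mem_toFinset.1 hx)
    exact y.2
  · rintro ⟨a, ha⟩
    refine ⟨a.toList.attach.map fun x => ⟨x.1, ha (Finset.mem_toList.1 x.2)⟩, Subtype.ext ?_⟩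
    ext x
    simp

theorem w_fin {u : Finset α → Set α} (hu : Monotone u) (a : Finset α) : w u a = u a :=
  Subset.antisymm (iUnion_subset fun b => hu (Finset.coe_subset.1 b.2))
    fun _ hx => mem_w.2 ⟨a, subset_rfl, hx⟩

/-- a monotone choice of good supersets of finite sets -/
theorem exists_u {κ : Cardinal.{0}} (hκ : ℵ₀ ≤ κ) {Fr : Set α → Prop} (h1 : ∀ S, Fr S → #S ≤ κ)
    (h2 : ∀ S : Set α, #S ≤ κ → ∃ T, Fr T ∧ S ⊆ T) :
    ∃ u : Finset α → Set α, Monotone u ∧ ∀ a, Fr (u a) ∧ (a : Set α) ⊆ u a := by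
  choose! fr h3 h4 using h2
  let u : Finset α → Set α := Finset.strongInduction
    fun a r => fr (a ∪ ⋃ b : {b : Finset α // b ⊂ a}, r b.1 b.2)
  have hu : ∀ a, u a = fr (a ∪ ⋃ b : {b : Finset α // b ⊂ a}, u b.1) := fun a =>
    Finset.strongInduction_eq _ a
  have hc : ∀ a : Finset α, (∀ b ⊂ a, Fr (u b)) →
      #((a : Set α) ∪ ⋃ b : {b : Finset α // b ⊂ a}, u b.1 : Set α) ≤ κ := fun a ih => by
    have : Finite {b : Finset α // b ⊂ a} := (a.powerset.finite_toSet.subset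
      fun b (hb : b ⊂ a) => Finset.mem_coe.2 (Finset.mem_powerset.2 hb.subset)).to_subtype
    exact (mk_union_le _ _).trans (add_le_of_le hκ (mk_le_aleph0.trans hκ)
      (card_union _ hκ (mk_le_aleph0.trans hκ) fun b => h1 _ (ih b.1 b.2)))
  have hF : ∀ a, Fr (u a) := fun a => by
    induction a using Finset.strongInduction with
    | H a ih => rw [hu]; exact h3 _ (hc a ih)
  have hs : ∀ a : Finset α, (a : Set α) ∪ ⋃ b : {b : Finset α // b ⊂ a}, u b.1 ⊆ u a := fun a => by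
    conv_rhs => rw [hu]
    exact h4 _ (hc a fun b _ => hF b)
  refine ⟨u, fun a b hab => ?_, fun a => ⟨hF a, subset_union_left.trans (hs a)⟩⟩
  rcases hab.eq_or_lt with rfl | hab
  · exact subset_rfl
  · exact ((subset_iUnion (fun c : {c : Finset α // c ⊂ b} => u c.1) ⟨a, hab⟩).trans
      subset_union_right).trans (hs b)

end UpP

open UpP

theorem up {α : Type} {κ θ : Cardinal.{0}} (hκ : ℵ₀ ≤ κ) (hθ : κ < θ) (hα : #α ≤ θ)
    (Cl : Set α → Prop) (N : Set α → Set α → Prop)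
    (hull : ∀ S : Set α, #S ≤ κ → ∃ T, Cl T ∧ S ⊆ T ∧ #T ≤ κ)
    (dir : ∀ (ι : Type) [Nonempty ι] (c : ι → Set α), (∀ i, Cl (c i)) →
      (∀ i j, ∃ k, c i ⊆ c k ∧ c j ⊆ c k) → Cl (⋃ i, c i))
    (LC : ∀ c : J κ → Set α, SCh c → (∀ i, Cl (c i) ∧ #(c i) ≤ κ) → ∃ d, N (c d) (c (succ d)))
    (LT : ∀ ν μ : Cardinal.{0}, κ ≤ ν → ν < θ → μ ≤ ν → ∀ c : W μ → Set α, SCh c →
      (∀ i, Cl (c i) ∧ #(c i) ≤ ν) → (∀ i, N (c i) (c (succ i))) → N (c ⊥) (⋃ i, c i))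
    (LOC : ∀ ν μ : Cardinal.{0}, κ ≤ ν → ν < θ → μ ≤ ν → ∀ (c : W μ → Set α) (B : Set α), SCh c →
      (∀ i, Cl (c i)) → Cl B → #B ≤ ν → (∀ i, c i ⊆ B) → (∀ i, N (c i) B) → N (⋃ i, c i) B) :
    ∃ c : W θ → Set α, SCh c ∧ (∀ i, Cl (c i) ∧ #(c i) ≤ #(Iio i) + κ) ∧ (∀ x, ∃ i, x ∈ c i) ∧
      ∀ i, N (c i) (c (succ i)) := by
  classical
  let Fr : Set α → Prop := fun p => Cl p ∧ #p ≤ κ ∧ ∀ q, Cl q → #q ≤ κ → p ⊆ q → N p q
  have cof : ∀ S : Set α, #S ≤ κ → ∃ T, Fr T ∧ S ⊆ T := fun S hS => by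
    by_contra hn
    have : ∀ p : Set α, ∃ q, p ⊆ q ∧ (Cl p ∧ #p ≤ κ ∧ S ⊆ p → Cl q ∧ #q ≤ κ ∧ ¬ N p q) := by
      intro p
      by_contra hq
      push Not at hq
      obtain ⟨⟨h1, h2, h3⟩, -⟩ := hq p subset_rfl
      exact hn ⟨p, ⟨h1, h2, fun q k1 k2 k3 => (hq q k3).2 k1 k2⟩, h3⟩
    choose nx h1 h2 using this
    obtain ⟨T, k1, k2, k3⟩ := hull S hS
    obtain ⟨c, hc, h0, hs⟩ := exists_sch (succ (max κ ℵ₀)) T nx h1
    have hS' : ∀ i, S ⊆ c i := fun i => (h0 ▸ k2).trans (hc.mono bot_le)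
    have inv : ∀ i, Cl (c i) ∧ #(c i) ≤ κ := fun i => by
      induction i using SuccOrder.limitRecOn with
      | isMin b hb => rw [hb.eq_bot, h0]; exact ⟨k1, k3⟩
      | succ b _ ih =>
        rw [hs]
        exact ⟨(h2 _ ⟨ih.1, ih.2, hS' b⟩).1, (h2 _ ⟨ih.1, ih.2, hS' b⟩).2.1⟩
      | isSuccLimit b hb ih =>
        obtain ⟨a, ha⟩ := not_isMin_iff.1 hb.not_isMin
        have : Nonempty (Iio b) := ⟨⟨a, ha⟩⟩
        rw [SCh.lim hc hb]
        exact ⟨dir _ _ (fun x => (ih x.1 x.2).1) fun x y => ⟨max x y, hc.mono (le_max_left x y),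
          hc.mono (le_max_right x y)⟩, card_union _ hκ (J.iio hκ b) fun x => (ih x.1 x.2).2⟩
    obtain ⟨d, hd⟩ := LC c hc inv
    exact (h2 _ ⟨(inv d).1, (inv d).2, hS' d⟩).2.2 (hs d ▸ hd)
  obtain ⟨u, hu, hF⟩ := exists_u hκ (Fr := Fr) (fun _ h => h.2.1) cof
  have hcl : ∀ A, Cl (w u A) := fun A =>
    have : Nonempty {a : Finset α // (a : Set α) ⊆ A} := ⟨⟨∅, by simp⟩⟩
    dir _ _ (fun a => (hF a.1).1.1) fun a b => ⟨⟨a.1 ∪ b.1, by
      rw [Finset.coe_union]; exact union_subset a.2 b.2⟩, hu Finset.subset_union_left,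
      hu Finset.subset_union_right⟩
  have hcd : ∀ {ν : Cardinal.{0}}, κ ≤ ν → ∀ {A : Set α}, #A ≤ ν → #(w u A) ≤ ν :=
    fun hν _ hA => card_w (hκ.trans hν) (fun a => (hF a).1.2.1.trans hν) hA
  have main : ∀ μ < θ, ∀ A B : Set α, A ⊆ B → #B = μ → N (w u A) (w u B) := by
    intro μ
    induction μ using WellFoundedLT.induction with
    | ind μ ih =>
    intro hμ A B hAB hB
    rcases lt_or_ge μ ℵ₀ with hf | hf
    · have hB' : B.Finite := lt_aleph0_iff_set_finite.1 (hB ▸ hf)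
      lift B to Finset α using hB'
      lift A to Finset α using B.finite_toSet.subset hAB
      rw [w_fin hu, w_fin hu]
      exact (hF A).1.2.2 _ (hF B).1.1 (hF B).1.2.1 (hu (Finset.coe_subset.1 hAB))
    have hν : max κ μ < θ := max_lt hθ hμ
    have small : ∀ A ⊆ B, #A < μ → N (w u A) (w u B) := fun A hAB hA => by
      obtain ⟨e, he, e0, e1, e2⟩ := exists_enum hf B hB.le
      have hs : SCh fun j => A ∪ e j := ⟨fun _ _ h => union_subset_union_right _ (he.mono h),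
        fun δ hδ x hx => hx.elim (fun h => ⟨⊥, hδ.bot_lt, Or.inl h⟩) fun h =>
          (he.cont δ hδ x h).imp fun _ h => ⟨h.1, Or.inr h.2⟩⟩
      have hl : ∀ j, #(A ∪ e j : Set α) < μ := fun j =>
        (mk_union_le _ _).trans_lt (add_lt_of_lt hf hA ((e1 j).trans_lt (W.iio hf j)))
      have := LT _ μ (le_max_left _ _) hν (le_max_right _ _) _ (w_sch u hs)
        (fun j => ⟨hcl _, hcd (le_max_left _ _) ((hl j).le.trans (le_max_right _ _))⟩)
        fun j => ih _ (hl _) ((hl _).trans hμ) _ _ (hs.mono (le_succ j)) rfl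
      rwa [w_union u hs.mono, e0, union_empty, ← union_iUnion, e2, union_eq_right.2 hAB] at this
    obtain ⟨e, he, -, e1, e2⟩ := exists_enum hf A ((mk_le_mk_of_subset hAB).trans hB.le)
    have hs : ∀ j, e j ⊆ B := fun j => (e2 ▸ subset_iUnion e j).trans hAB
    have := LOC _ μ (le_max_left _ _) hν (le_max_right _ _) _ (w u B) (w_sch u he) (fun _ => hcl _)
      (hcl _) (hcd (le_max_left _ _) (hB.le.trans (le_max_right _ _))) (fun j => w_mono u (hs j))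
      fun j => small _ (hs j) ((e1 j).trans_lt (W.iio hf j))
    rwa [w_union u he.mono, e2] at this
  have hi := hκ.trans hθ.le
  obtain ⟨e, he, -, e1, e2⟩ := exists_enum hi (univ : Set α) (by rwa [mk_univ])
  refine ⟨_, w_sch u he, fun i => ⟨hcl _, hcd (self_le_add_left _ _)
    ((e1 i).trans (self_le_add_right _ _))⟩, fun x => ?_,
    fun i => main _ ((e1 _).trans_lt (W.iio hi _)) _ _ (he.mono (le_succ i)) rfl⟩
  obtain ⟨i, hi⟩ := mem_iUnion.1 (e2 ▸ mem_univ x : x ∈ ⋃ j, e j)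
  exact ⟨i, mem_w.2 ⟨{x}, by simpa using hi, (hF _).2 (by simp)⟩⟩

end Pool.Agent.P.MP_860a31_lc.H
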