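import Pool.Agent.P.MP_860a31_lc.H.Lt

/-!
Filtrations and weak universality of standard families.
-/

open Cardinal hiding univ
open Set Order Function

namespace Pool.Agent.P.MP_860a31_lc.H

open LO E Fu

/-- the union of a chain of subfamilies -/
theorem unionF {T : Ct} {C : CC} {ι : Type} [LinearOrder ι] [Nonempty ι] {D : LF T C.toPC}
    (A : ι → LF T C.toPC) (g : ∀ i, Mp (A i) D)
    (hm : ∀ i j, i ≤ j → ∀ a, range (g i a) ⊆ range (g j a)) :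
    ∃ (X : LF T C.toPC) (k : Mp X D) (u : ∀ i, Mp (A i) X), (∀ i a x, k a (u i a x) = g i a x) ∧
      ∀ a y, ∃ i x, u i a x = y := by
  choose t ht using fun i j h => Mp.fac (g i) (g j) (hm i j h)
  obtain ⟨X, u, h1, h2⟩ := LF.colim ι A t fun i j k hij hjk a x =>
    (g k).inj a (by rw [ht, ht, ht])
  obtain ⟨k, hk⟩ := Mp.lift A u g (fun a i j => ⟨max i j,
      by rintro _ ⟨x, rfl⟩; exact ⟨_, h1 i _ (le_max_left i j) a x⟩,
      by rintro _ ⟨x, rfl⟩; exact ⟨_, h1 j _ (le_max_right i j) a x⟩⟩) h2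
    fun a i j x y e => by
      rw [← h1 i _ (le_max_left i j), ← h1 j _ (le_max_right i j)] at e
      rw [← ht i _ (le_max_left i j), ← ht j _ (le_max_right i j), (u _).inj a e]
  exact ⟨X, k, u, hk, h2⟩

theorem filt {C : CC} {κ θ : Cardinal.{0}} (hκ : C.k0 ≤ κ) (hθ : κ ≤ θ) {B D : LF L1 C.toPC}
    (φ : Mp B D) (lB : B.Lev κ) (lD : D.Lev θ) :
    ∃ (d : FCh (W θ) D) (g : ∀ j, Mp B (d.X j)), (∀ j, (d.X j).Lev (#(Iio j) + κ)) ∧
      ∀ j a x, d.ι j a (g j a x) = φ a x := by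
  have h0 : ℵ₀ ≤ κ := C.inf.trans hκ
  have hθ0 : ℵ₀ ≤ θ := h0.trans hθ
  have hν : ∀ j : W θ, ℵ₀ ≤ #(Iio j) + κ := fun j => h0.trans (self_le_add_left _ _)
  have hmo : ∀ i j : W θ, i ≤ j → #(Iio i) + κ ≤ #(Iio j) + κ := fun i j h =>
    add_le_add (mk_le_mk_of_subset (Iio_subset_Iio h)) le_rfl
  have hc : #(Σ n, C.U (D.ob (LO.fin n))) ≤ #(W θ) := by
    rw [W.card hθ0]
    exact card_cover (fun n x => (⟨n, x⟩ : Σ n, C.U (D.ob (LO.fin n)))) (fun p => ⟨p.1, p.2, rfl⟩)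
      hθ0 (mk_nat.trans_le hθ0) fun n => lD _ inferInstance
  have : Nonempty (Σ n, C.U (D.ob (LO.fin n))) := ⟨⟨0, Classical.arbitrary _⟩⟩
  obtain ⟨em⟩ := (le_def _ _).1 hc
  let en : W θ → Σ n, C.U (D.ob (LO.fin n)) := invFun em
  have hen : Surjective en := invFun_surjective em.injective
  obtain ⟨F, t, -, hI, hH, -, -, hS, hL⟩ := gchain1 (Λ := W θ)
    (St := Σ X : LF L1 C.toPC, Mp X D) (ι := LO) (fun S a => C.U (S.1.ob a))
    (fun S S' f => ∀ a x, S'.2 a (f a x) = S.2 a x) (fun _ _ _ => rfl)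
    (fun _ _ _ f _ h h' a x => (h' a (f a x)).trans (h a x))
    (fun γ S => S.1.Lev (#(Iio γ) + κ) ∧ ∀ a, range (φ a) ⊆ range (S.2 a))
    (fun γ _ S' _ => (en γ).2 ∈ range (S'.2 (LO.fin (en γ).1))) ⟨B, φ⟩
    ⟨lB.mono (self_le_add_left _ _), fun _ => Subset.rfl⟩ (by
      rintro γ ⟨X, g⟩ ⟨h1, h2⟩
      obtain ⟨X', g', k1, k2⟩ := lsF (ν := #(Iio (succ γ)) + κ) (hκ.trans (self_le_add_left _ _)) D
        (fun n => range (g (LO.fin n)) ∪ {x | en γ = ⟨n, x⟩}) fun n =>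
          (mk_union_le _ _).trans (add_le_of_le (hν _)
            (mk_range_le.trans ((h1 _ inferInstance).trans (hmo _ _ (le_succ γ))))
            ((le_one_iff_subsingleton.2 (Set.subsingleton_coe _ |>.2 fun x hx y hy =>
              sigma_mk_injective (β := fun n => C.U (D.ob (LO.fin n)))
                (hx.symm.trans hy))).trans (one_le_aleph0.trans (hν _))))
      have hr := Mp.range_fin1 g g' fun n => subset_union_left.trans (k2 n)
      obtain ⟨f, hf⟩ := Mp.fac g g' hr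
      exact ⟨⟨X', g'⟩, f, hf, ⟨k1, fun a => (h2 a).trans (hr a)⟩, k2 _ (Or.inr rfl)⟩) (by
      intro δ hδ c h1 _
      have : Nonempty (Iio δ) := (not_isMin_iff.1 hδ.not_isMin).elim fun i hi => ⟨⟨i, hi⟩⟩
      obtain ⟨X, k, u, k1, k2⟩ := unionF (fun i : Iio δ => (c.F i).1) (fun i => (c.F i).2)
        fun i j h a => by rintro _ ⟨x, rfl⟩; exact ⟨_, c.hom i j h a x⟩
      refine ⟨⟨X, k⟩, fun i => u i, ⟨LF.lev_cover _ u k2 (hν δ) (self_le_add_right _ _)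
        fun i => (h1 i).1.mono (hmo _ _ (le_of_lt i.2)), fun a => ?_⟩, k1,
        fun i j h a x => k.inj a ?_, k2⟩
      · refine ((h1 (Classical.arbitrary _)).2 a).trans ?_
        rintro _ ⟨x, rfl⟩
        exact ⟨_, k1 _ a x⟩
      · rw [k1, k1]; exact c.hom i j h a x)
  choose g hg using fun j => Mp.fac φ (F j).2 (hI j).2
  refine ⟨⟨fun j => (F j).1, fun j => (F j).2, fun i j h a => ?_, fun δ hδ a y => ?_,
    fun a y => ?_⟩, g, fun j => (hI j).1, hg⟩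
  · rintro _ ⟨x, rfl⟩
    exact ⟨_, hH i j h a x⟩
  · obtain ⟨i, h, x, rfl⟩ := hL δ hδ a y
    exact ⟨i, h, x, (hH i δ h.le a x).symm⟩
  · obtain ⟨n, s, x, rfl⟩ := D.fin1 a y
    obtain ⟨γ, e⟩ := hen ⟨n, x⟩
    have := hS γ
    rw [e] at this
    obtain ⟨w, hw⟩ := this
    exact ⟨succ γ, _, ((F _).2.nat s w).trans (congrArg _ hw)⟩

/-- paper WU -/
theorem wu {K : KC} {S : PS K} {θ : Cardinal.{0}} (hθ : K.k0 < θ)
    (IH : ∀ μ, K.k0 ≤ μ → μ < θ → UU S μ) (D : LF L1 K.toPC) (lD : D.Lev θ) :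
    ∃ (H : NO L1) (_ : Mp D (S.P.wh (tau.add H))), H.PB ∧ H.Lev θ := by
  have h0 : ℵ₀ ≤ θ := K.inf.trans hθ.le
  obtain ⟨D1, φ, g, lD1⟩ := LF.jep hθ.le (X := S.P.wh tau) (Y := D) (S.lev.mono hθ.le) lD
  obtain ⟨d, f, h1, h2⟩ := filt le_rfl hθ.le φ S.lev lD1
  have hk : ∀ j : W θ, K.k0 ≤ #(Iio j) + K.k0 := fun j => self_le_add_left _ _
  have hl : ∀ j : W θ, #(Iio j) + K.k0 < θ := fun j => add_lt_of_lt h0 (W.iio h0 j) hθ
  have hU := fun j => IH _ (hk j) (hl j)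
  have lt : ∀ j : W θ, tau.Lev (#(Iio j) + K.k0) := fun j => lev_id (K.inf.trans (hk j)) L1
  obtain ⟨⟨J, ψ, p, l, -⟩, -⟩ := ltMain S (NCh.cst (W θ) tau) d (fun _ => NT.rfl' tau)
    (fun _ => pb_id L1) f φ (fun j a x => (h2 j a x).trans (congrArg _ (S.P.mp_id a x).symm))
    (fun j => #(Iio j) + K.k0)
    (fun i j h => add_le_add (mk_le_mk_of_subset (Iio_subset_Iio h)) le_rfl) hk
    (fun _ => self_le_add_right _ _) hU lt h1 fun j =>
      (NF.refl ((hU j).be (pb_id L1) (NT.rfl' tau) (f j) (lt j) (h1 j)) (d.tr (le_succ j))).congr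
        (fun _ _ => rfl)
        (fun a x => (S.P.mp_self (fun y => (NCh.cst (W θ) tau).ι_tr (le_succ j) a y) x).symm)
        (fun _ _ => rfl) fun a x => (d.ι _).inj a (by
          change d.ι _ a (d.tr _ a (f j a x)) = _
          rw [d.ι_tr, h2, h2])
  exact ⟨J, g.trans ψ, p, l θ (W.card h0).le fun j => (hl j).le⟩

end Pool.Agent.P.MP_860a31_lc.H
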