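import Pool.Agent.P.MP_860a31_lc.H.Loc
import Pool.Agent.P.MP_860a31_lc.H.Lc
import Pool.Agent.P.MP_860a31_lc.H.Wu
import Pool.Agent.P.MP_860a31_lc.H.Comp
import Pool.Agent.P.MP_860a31_lc.H.Up

/-!
Going up.
-/

open Cardinal hiding univ
open Set Order Function

namespace Pool.Agent.P.MP_860a31_lc.H

open LO E Fu

/-- an invariant colouring with countable classes -/
structure Col (Q : NO L1) (α : Type) where
  cl : ∀ a : LO, Q.ob a → α
  nat : ∀ (a b : LO) (f : Em a b) y, cl b (Q.mp f y) = cl a y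
  cnt : ∀ (n : ℕ) (γ : α), {y | cl (LO.fin n) y = γ}.Countable

namespace Col

variable {Q : NO L1} {α : Type} (c : Col Q α)

/-- the suborder of the points with colour in `s` -/
@[reducible] def sb (s : Set α) : NO L1 :=
  Q.sub (fun a => {y | c.cl a y ∈ s})
    (fun a b f y h => by rw [mem_ofPred_eq, c.nat]; exact h) fun a y h => by
      obtain ⟨a0, f, y0, h1, rfl⟩ := Q.fin a y
      exact ⟨a0, f, y0, h1, by rw [mem_ofPred_eq, ← c.nat a0 a f]; exact h, rfl⟩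

/-- inclusion in the whole order -/
@[reducible] def sv (s : Set α) : NT (c.sb s) Q := NT.val Q _ _ _

/-- inclusion of suborders -/
@[reducible] def si {s t : Set α} (h : s ⊆ t) : NT (c.sb s) (c.sb t) :=
  NT.mk' (fun _ => ⟨fun y => ⟨y.1, h y.2⟩, fun _ _ h => h⟩) fun _ _ _ _ => rfl

/-- the whole order -/
@[reducible] def su {s : Set α} (h : ∀ x, x ∈ s) : NT Q (c.sb s) :=
  NT.mk' (fun _ => ⟨fun y => ⟨y, h _⟩, fun _ _ h => h⟩) fun _ _ _ _ => rfl

theorem pb (h : Q.PB) (s : Set α) : (c.sb s).PB :=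
  h.of_full (c.sv s) fun a b f y => by
    rintro ⟨z, hz⟩
    refine ⟨⟨y, ?_⟩, rfl⟩
    rw [mem_ofPred_eq, ← c.nat a b f, ← hz]
    exact z.2

theorem lev {ν : Cardinal.{0}} (hν : ℵ₀ ≤ ν) {s : Set α} (hs : #s ≤ ν) : (c.sb s).Lev ν :=
  Fu.lev_of_fin fun n => card_cover (ι := s) (α := fun γ => {y | c.cl (LO.fin n) y = γ.1})
    (fun γ y => ⟨y.1, by rw [mem_ofPred_eq, y.2]; exact γ.2⟩)
    (fun y => ⟨⟨c.cl _ y.1, y.2⟩, ⟨y.1, rfl⟩, rfl⟩) hν hs
    fun γ => (le_aleph0_iff_set_countable.2 (c.cnt n γ.1)).trans hν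

/-- the chain of suborders of a chain of sets of colours -/
@[reducible] def ch {Λ : Type} [LinearOrder Λ] {d : Λ → Set α} (hd : SCh d) :
    NCh Λ (c.sb (⋃ i, d i)) where
  Q i := c.sb (d i)
  ι i := c.si (subset_iUnion d i)
  mono i j h a := by
    rintro _ ⟨y, rfl⟩
    exact ⟨⟨y.1, hd.mono h y.2⟩, rfl⟩
  cont δ hδ a y := by
    obtain ⟨i, hi, h⟩ := hd.cont δ hδ _ y.2
    exact ⟨i, hi, ⟨y.1, h⟩, rfl⟩
  cover a y := by
    obtain ⟨i, h⟩ := mem_iUnion.1 y.2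
    exact ⟨i, ⟨y.1, h⟩, rfl⟩

theorem ch_tr {Λ : Type} [LinearOrder Λ] {d : Λ → Set α} (hd : SCh d) {i j : Λ} (h : i ≤ j) :
    (c.ch hd).tr h = c.si (hd.mono h) :=
  NT.ext' fun a y => (((c.ch hd).ι j).app a).inj ((c.ch hd).ι_tr h a y)

end Col

theorem NCh.tr_eq {Λ : Type} [LinearOrder Λ] {T : Ct} {top : NO T} (c : NCh Λ top) {i j : Λ}
    (h : i ≤ j) (n : NT (c.Q i) (c.Q j)) (e : ∀ a y, (c.ι j).app a (n.app a y) = (c.ι i).app a y) :
    c.tr h = n :=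
  NT.ext' fun a y => ((c.ι j).app a).inj ((c.ι_tr h a y).trans (e a y).symm)

namespace UpQ

variable {K : KC} {S : PS K} {I H : NO L1} {α : Type} (cI : Col I α) (cH : Col H α)
  (F : Mp (S.P.wh (MM I)) (S.P.wh (tau.add H)))

/-- the part of the target -/
abbrev bb (s : Set α) : NO L1 := tau.add (cH.sb s)

/-- inclusion in the target -/
abbrev bv (s : Set α) : NT (bb cH s) (tau.add H) := (NT.rfl' tau).add (cH.sv s)

/-- inclusion of parts of the target -/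
abbrev bi {s t : Set α} (h : s ⊆ t) : NT (bb cH s) (bb cH t) := (NT.rfl' tau).add (cH.si h)

/-- `F` maps the part `s` into the part `t` -/
def Rel (s t : Set α) : Prop :=
  ∀ a x, F a (S.P.mp ((mmap' (cI.sv s)).app a) x) ∈ range (S.P.mp ((bv cH t).app a))

/-- `f` is the restriction of `F` -/
def Cp (s : Set α) (f : Mp (S.P.wh (MM (cI.sb s))) (S.P.wh (bb cH s))) : Prop :=
  ∀ a x, S.P.mp ((bv cH s).app a) (f a x) = F a (S.P.mp ((mmap' (cI.sv s)).app a) x)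

/-- the step from `s` to `t` is free -/
def Fr (s t : Set α) : Prop :=
  ∀ (h : s ⊆ t) fs ft, Cp cI cH F s fs → Cp cI cH F t ft →
    NF fs (S.P.nt (mmap' (cI.si h))) (S.P.nt (bi cH h)) ft

variable {cI cH F}

theorem Rel.ex {s : Set α} (h : Rel cI cH F s s) : ∃ f, Cp cI cH F s f :=
  Mp.fac ((S.P.nt (mmap' (cI.sv s))).trans F) (S.P.nt (bv cH s)) fun a => by
    rintro _ ⟨x, rfl⟩; exact h a x

theorem Cp.eq {s : Set α} {f g} (h : Cp cI cH F s f) (h' : Cp cI cH F s g) : f = g :=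
  Mp.ext fun a x => S.P.inj _ ((h a x).trans (h' a x).symm)

theorem Cp.nat {s t : Set α} {f g} (h : Cp cI cH F s f) (h' : Cp cI cH F t g) (e : s ⊆ t) (a : LO)
    (x) : S.P.mp ((bi cH e).app a) (f a x) = g a (S.P.mp ((mmap' (cI.si e)).app a) x) := by
  apply S.P.inj ((bv cH t).app a)
  rw [h' a, S.P.mp_eq (k := (bv cH s).app a) (fun y => by induction y using add_ind <;> rfl), h a]
  exact congrArg (F a) (S.P.mp_eq (fun y => by induction y using add_ind <;> rfl) x).symm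

theorem Rel.mono {s t t' : Set α} (h : Rel cI cH F s t) (e : t ⊆ t') : Rel cI cH F s t' :=
  fun a x => S.P.range_mono (g := (bv cH t).app a) (k := (bv cH t').app a) (by
    rintro _ ⟨y, rfl⟩
    exact ⟨(bi cH e).app a y, by induction y using add_ind <;> rfl⟩) (h a x)

theorem rel_union {ι : Type} [Nonempty ι] (c : ι → Set α)
    (hd : ∀ i j, ∃ k, c i ⊆ c k ∧ c j ⊆ c k) {t : Set α} (h : ∀ i, Rel cI cH F (c i) t) :
    Rel cI cH F (⋃ i, c i) t := fun a x => by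
  have hm : ∀ i k, c i ⊆ c k → range ((mmap' (cI.si (subset_iUnion c i))).app a) ⊆
      range ((mmap' (cI.si (subset_iUnion c k))).app a) := fun i k e => by
    rintro _ ⟨y, rfl⟩
    exact ⟨(mmap' (cI.si e)).app a y, by induction y using add_ind <;> rfl⟩
  obtain ⟨i, y, rfl⟩ := S.P.cover (fun i => (MM (cI.sb (c i))).ob a)
    (fun i => (mmap' (cI.si (subset_iUnion c i))).app a)
    (fun i j => by
      obtain ⟨k, h1, h2⟩ := hd i j
      exact ⟨k, hm _ _ h1, hm _ _ h2⟩)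
    (fun z => by
      induction z using add_ind with
      | l z =>
        obtain ⟨i, hi⟩ := mem_iUnion.1 z.2
        exact ⟨i, inl ⟨z.1, hi⟩, rfl⟩
      | r z => exact ⟨Classical.arbitrary ι, inr z, rfl⟩) x
  rw [S.P.mp_eq (k := (mmap' (cI.sv (c i))).app a) (fun y => by induction y using add_ind <;> rfl)]
  exact h i a y

theorem rel_step (s : Set α) (hs : #s ≤ K.k0) :
    ∃ t, s ⊆ t ∧ #t ≤ K.k0 ∧ Rel cI cH F s t := by
  have lM : (S.P.wh (MM (cI.sb s))).Lev K.k0 :=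
    LF.Lev.wh K.inf S.lev (lev_MM K.inf (cI.lev K.inf hs))
  choose m t y hy using fun (n : ℕ) (x : K.U ((S.P.wh (MM (cI.sb s))).ob (LO.fin n))) =>
    S.P.fin1 _ (F (LO.fin n) (S.P.mp ((mmap' (cI.sv s)).app (LO.fin n)) x))
  let u : (Σ n, K.U ((S.P.wh (MM (cI.sb s))).ob (LO.fin n))) → Set α := fun p =>
    cH.cl (LO.fin p.1) '' {z | inr z ∈ range (t p.1 p.2)}
  refine ⟨s ∪ ⋃ p, u p, subset_union_left, (mk_union_le _ _).trans (add_le_of_le K.inf hs
    (UpP.card_union _ K.inf ?_ fun p => ?_)), fun a x => ?_⟩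
  · exact card_cover (ι := ℕ) (fun n x => ⟨n, x⟩) (fun p => ⟨p.1, p.2, rfl⟩) K.inf
      (mk_nat.trans_le K.inf) fun n => lM _ inferInstance
  · exact (((finite_range _).preimage inr.inj.injOn).image _).lt_aleph0.le.trans K.inf
  · obtain ⟨n, e, x0, rfl⟩ := (S.P.wh (MM (cI.sb s))).fin1 a x
    obtain ⟨w, hw⟩ := S.P.range_mono (g := t n x0)
      (k := (bv cH (s ∪ ⋃ p, u p)).app (LO.fin n)) (fun z hz => by
        induction z using add_ind with
        | l z => exact ⟨inl z, rfl⟩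
        | r z => exact ⟨inr ⟨z, Or.inr (mem_iUnion.2 ⟨⟨n, x0⟩, z, hz, rfl⟩)⟩, rfl⟩) ⟨_, hy n x0⟩
    exact ⟨_, ((S.P.nt (bv cH _)).nat e w).trans ((congrArg _ hw).trans
      (((S.P.nt (mmap' (cI.sv s))).trans F).nat e x0).symm)⟩

theorem hull (s : Set α) (hs : #s ≤ K.k0) :
    ∃ t, Rel cI cH F t t ∧ s ⊆ t ∧ #t ≤ K.k0 := by
  choose! nx h1 h2 h3 using rel_step (cI := cI) (cH := cH) (F := F)
  let c : ℕ → Set α := fun n => nx^[n] s
  have e : ∀ n, c (n + 1) = nx (c n) := fun n => iterate_succ_apply' _ _ _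
  have hc : ∀ n, #(c n) ≤ K.k0 := fun n => by
    induction n with
    | zero => exact hs
    | succ n ih => rw [e]; exact h2 _ ih
  have hm : Monotone c := monotone_nat_of_le_succ fun n => by rw [e]; exact h1 _ (hc n)
  exact ⟨⋃ n, c n, rel_union c (fun i j => ⟨max i j, hm (le_max_left _ _), hm (le_max_right _ _)⟩)
    fun n => (h3 _ (hc n)).mono (e n ▸ subset_iUnion c (n + 1)), subset_iUnion c 0,
    UpP.card_union _ K.inf (mk_nat.trans_le K.inf) hc⟩

theorem rel_dir (ι : Type) [Nonempty ι] (c : ι → Set α) (h : ∀ i, Rel cI cH F (c i) (c i))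
    (hd : ∀ i j, ∃ k, c i ⊆ c k ∧ c j ⊆ c k) : Rel cI cH F (⋃ i, c i) (⋃ i, c i) :=
  rel_union c hd fun i => (h i).mono (subset_iUnion c i)

theorem rel_ch {Λ : Type} [LinearOrder Λ] [Nonempty Λ] {c : Λ → Set α} (hc : SCh c)
    (h : ∀ i, Rel cI cH F (c i) (c i)) : Rel cI cH F (⋃ i, c i) (⋃ i, c i) :=
  rel_dir Λ c h fun i j => ⟨max i j, hc.mono (le_max_left _ _), hc.mono (le_max_right _ _)⟩

section Chain

variable {Λ : Type} [LinearOrder Λ] [WellFoundedLT Λ] [SuccOrder Λ] [OrderBot Λ] [NoMaxOrder Λ]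
  {c : Λ → Set α}

/-- the chain of parts of the target -/
abbrev bch (cH : Col H α) (hc : SCh c) : NCh Λ (bb cH (⋃ i, c i)) :=
  (NCh.cst Λ tau).add (cH.ch hc)

/-- the chain of parts of the base -/
abbrev mch (cI : Col I α) (hc : SCh c) : NCh Λ (MM (cI.sb (⋃ i, c i))) :=
  (cI.ch hc).add (NCh.cst Λ (tau.add tau))

omit [WellFoundedLT Λ] [SuccOrder Λ] [NoMaxOrder Λ] in
theorem bch_tr (hc : SCh c) {i j : Λ} (h : i ≤ j) : (bch cH hc).tr h = bi cH (hc.mono h) :=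
  NCh.tr_eq _ h _ fun _ y => by induction y using add_ind <;> rfl

omit [WellFoundedLT Λ] [SuccOrder Λ] [NoMaxOrder Λ] in
theorem mch_tr (hc : SCh c) {i j : Λ} (h : i ≤ j) :
    (mch cI hc).tr h = mmap' (cI.si (hc.mono h)) :=
  NCh.tr_eq _ h _ fun _ y => by induction y using add_ind <;> rfl

theorem lt_ch (hI : I.PB) (hc : SCh c) (ν : Λ → Cardinal.{0}) (hν : Monotone ν)
    (hk : ∀ j, K.k0 ≤ ν j) (hi : ∀ j, #(Iio j) ≤ ν j) (hU : ∀ j, UU S (ν j))
    (hs : ∀ j, #(c j) ≤ ν j) (f : ∀ j, Mp (S.P.wh (MM (cI.sb (c j)))) (S.P.wh (bb cH (c j))))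
    (hf : ∀ j, Cp cI cH F (c j) (f j)) {g}
    (hg : Cp cI cH F (⋃ i, c i) g) (hN : ∀ j, Fr cI cH F (c j) (c (succ j))) :
    (∃ (J : NO L1) (φ : Mp (S.P.wh (bb cH (⋃ i, c i))) (S.P.wh ((MM (cI.sb (⋃ i, c i))).add J))),
      J.PB ∧ (∀ θ : Cardinal.{0}, #Λ ≤ θ → (∀ j, ν j ≤ θ) → J.Lev θ) ∧
      ∀ a x, φ a (g a x) = S.P.mp inl x) ∧
    ∀ j, NF (f j) (S.P.nt (mmap' (cI.si (subset_iUnion c j))))
      (S.P.nt (bi cH (subset_iUnion c j))) g :=
  have h0 : ∀ j, ℵ₀ ≤ ν j := fun j => K.inf.trans (hk j)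
  ltMain S (mch cI hc) ((bch cH hc).fam S.P) (fun _ => mη _) (fun _ => pb_MM (cI.pb hI _)) f g
    (fun j a x => (hf j).nat hg (subset_iUnion c j) a x) ν hν hk hi hU
    (fun j => lev_MM (h0 j) (cI.lev (h0 j) (hs j)))
    (fun j => LF.Lev.wh (h0 j) (S.lev.mono (hk j))
      ((lev_id (h0 j) L1).add (h0 j) (cH.lev (h0 j) (hs j)))) fun j => by
      rw [NCh.fam_tr, bch_tr, mch_tr]
      exact hN j _ _ _ (hf j) (hf _)

end Chain

end UpQ

open UpQ in
theorem upMain {K : KC} {S : PS K} {θ : Cardinal.{0}} (hθ : K.k0 < θ)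
    (IH : ∀ μ, K.k0 ≤ μ → μ < θ → UU S μ) {I H : NO L1} (hI : I.PB) (hH : H.PB) (lI : I.Lev θ)
    (lH : H.Lev θ) (F : Mp (S.P.wh (MM I)) (S.P.wh (tau.add H))) :
    ∃ (J : NO L1) (φ : Mp (S.P.wh (tau.add H)) (S.P.wh ((MM I).add J))), J.Lev θ ∧
      ∀ a x, φ a (F a x) = S.P.mp inl x := by
  have h0 : ℵ₀ ≤ θ := K.inf.trans hθ.le
  obtain ⟨Γ, cl, k1, k2, k3⟩ := comps I
  obtain ⟨Γ', cl', k1', k2', k3'⟩ := comps H
  let cI : Col I (Γ ⊕ Γ') := ⟨fun a y => Sum.inl (cl a y), fun a b f y => by rw [k1], fun n γ => by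
    rcases γ with γ | γ
    · simpa using k3 n γ
    · simp⟩
  let cH : Col H (Γ ⊕ Γ') := ⟨fun a y => Sum.inr (cl' a y), fun a b f y => by rw [k1'], fun n γ => by
    rcases γ with γ | γ
    · simp
    · simpa using k3' n γ⟩
  have hα : #(Γ ⊕ Γ') ≤ θ := by
    rw [mk_sum, lift_id, lift_id]
    exact add_le_of_le h0 (k2 θ h0 lI) (k2' θ h0 lH)
  have pB : ∀ s, (bb cH s).PB := fun s => Fu.PB.add (pb_id L1) (cH.pb hH s)
  have lB : ∀ {ν : Cardinal.{0}}, K.k0 ≤ ν → ∀ s : Set (Γ ⊕ Γ'), #s ≤ ν → (bb cH s).Lev ν :=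
    fun hν s hs => (lev_id (K.inf.trans hν) L1).add (K.inf.trans hν) (cH.lev (K.inf.trans hν) hs)
  obtain ⟨c, hc, h1, h2, h3⟩ := up K.inf hθ hα (fun s => Rel cI cH F s s) (Fr cI cH F) hull rel_dir
    (fun c hc h => by
      choose f hf using fun i => (h i).1.ex
      obtain ⟨g, hg⟩ := (rel_ch hc fun i => (h i).1).ex
      obtain ⟨δ, hδ⟩ := lc S (cI.ch hc) (bch cH hc) (fun _ => cI.pb hI _) (fun _ => pB _)
        (fun i => cI.lev K.inf (h i).2) (fun i => lB le_rfl _ (h i).2) f g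
        fun j a x => (hf j).nat hg (subset_iUnion c j) a x
      rw [Col.ch_tr, bch_tr] at hδ
      refine ⟨δ, fun e fs ft hs ht => ?_⟩
      rw [hs.eq (hf _), ht.eq (hf _)]
      exact hδ)
    (fun ν μ hν hν' hμ c hc h hN e fs ft hs ht => by
      choose f hf using fun i => (h i).1.ex
      rw [hs.eq (hf _)]
      exact (lt_ch hI hc (fun _ => ν) monotone_const (fun _ => hν)
        (fun j => (W.iio' j).le.trans (max_le hμ (K.inf.trans hν))) (fun _ => IH ν hν hν')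
        (fun j => (h j).2) f hf ht hN).2 ⊥)
    fun ν μ hν hν' hμ c B hc h hB lB' e hN e' fs ft hs ht => by
      have h0 := K.inf.trans hν
      choose f hf using fun i => (h i).ex
      have hU : #(⋃ i, c i) ≤ ν := (mk_le_mk_of_subset e').trans lB'
      refine loc hν (IH ν hν hν') ((W.card' μ).trans_le (max_le hμ h0)) (cI.ch hc) (bch cH hc)
        (fun _ => cI.pb hI _) (fun _ => pB _) (fun _ => NT.inl _ _) (cI.lev h0 hU) (lB hν _ hU)
        f fs (fun j a x => (hf j).nat hs (subset_iUnion c j) a x) (pb_MM (cI.pb hI B)) (lev_MM h0 (cI.lev h0 lB'))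
        (mη _) (LF.Lev.wh h0 (S.lev.mono hν) (lB hν _ lB')) _ _ ft fun i => ?_
      exact (hN i (e i) _ _ (hf i) ht).congr (fun _ _ => rfl)
        (fun a x => (S.P.mp_eq (fun y => by induction y using add_ind <;> rfl) x).symm)
        (fun a x => (S.P.mp_eq (fun y => by induction y using add_ind <;> rfl) x).symm)
        fun _ _ => rfl
  choose f hf using fun i => (h1 i).1.ex
  obtain ⟨g, hg⟩ := (rel_ch hc fun i => (h1 i).1).ex
  have hlt : ∀ j : W θ, #(Iio j) + K.k0 < θ := fun j => add_lt_of_lt h0 (W.iio h0 j) hθ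
  obtain ⟨⟨J, φ, -, lJ, e⟩, -⟩ := lt_ch hI hc (fun j => #(Iio j) + K.k0)
    (fun i j h => add_le_add_left (mk_le_mk_of_subset (Iio_subset_Iio h)) _)
    (fun _ => le_add_self) (fun _ => le_self_add) (fun j => IH _ le_add_self (hlt j))
    (fun j => (h1 j).2) f hf hg h3
  have hu : ∀ x, x ∈ ⋃ i, c i := fun x => mem_iUnion.2 (h2 x)
  refine ⟨J, (S.P.nt ((NT.rfl' tau).add (cH.su hu))).trans
    (φ.trans (S.P.nt ((mmap' (cI.sv _)).add (NT.rfl' J)))),
    lJ θ (W.card h0).le fun j => (hlt j).le, fun a x => ?_⟩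
  have e1 : S.P.mp (((NT.rfl' tau).add (cH.su hu)).app a) (F a x) =
      g a (S.P.mp ((mmap' (cI.su hu)).app a) x) := by
    apply S.P.inj ((bv cH _).app a)
    rw [hg a, S.P.mp_comp, S.P.mp_comp,
      S.P.mp_self (fun y => by induction y using add_ind <;> rfl),
      S.P.mp_self (fun y => by induction y using add_ind <;> rfl)]
  change S.P.mp _ (φ a (S.P.mp _ (F a x))) = _
  rw [e1, e, S.P.mp_comp]
  exact S.P.mp_eq (fun y => by induction y using add_ind <;> rfl) x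

end Pool.Agent.P.MP_860a31_lc.H
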